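import Pool.Agent.H442R2.BX.Defs

/-! Task BB: one box, all classes modulo `q`. -/

namespace Pool.Agent.H442R2.BX

open Finset
open Pool.Agent.H442R2.KF

namespace TaskBB

/-- the sum over one box -/
noncomputable def T (N q i k : ℕ) (a a' σ : ℤ) (c c' : ℕ → ℝ) : ℂ :=
  ∑ j ∈ Icc 1 (JB N i k), ∑ d ∈ bx q i,
      ∑ d' ∈ (Ioc (2 ^ k) (2 ^ (k + 1))).filter (fun d' => Nat.Coprime d d'),
        trB N a a' q σ c c' j d d'

theorem T_left (N q i k : ℕ) (a a' σ : ℤ) (s : Finset ℕ) (c : ℕ → ℕ → ℝ) (c' : ℕ → ℝ) :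
    T N q i k a a' σ (fun d => ∑ r ∈ s, c r d) c' = ∑ r ∈ s, T N q i k a a' σ (c r) c' := by
  have h1 : ∀ j d d', trB N a a' q σ (fun d => ∑ r ∈ s, c r d) c' j d d' =
      ∑ r ∈ s, trB N a a' q σ (c r) c' j d d' := by
    intro j d d'
    unfold trB
    push_cast
    simp only [Finset.sum_mul]
  unfold T
  simp only [h1]
  rw [Finset.sum_comm (s := s)]
  refine Finset.sum_congr rfl fun j _ => ?_
  rw [Finset.sum_comm (s := s)]
  refine Finset.sum_congr rfl fun d _ => ?_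
  rw [Finset.sum_comm (s := s)]

theorem T_right (N q i k : ℕ) (a a' σ : ℤ) (s : Finset ℕ) (c : ℕ → ℝ) (c' : ℕ → ℕ → ℝ) :
    T N q i k a a' σ c (fun d => ∑ r ∈ s, c' r d) = ∑ r ∈ s, T N q i k a a' σ c (c' r) := by
  have h1 : ∀ j d d', trB N a a' q σ c (fun d => ∑ r ∈ s, c' r d) j d d' =
      ∑ r ∈ s, trB N a a' q σ c (c' r) j d d' := by
    intro j d d'
    unfold trB
    push_cast
    simp only [Finset.mul_sum, Finset.sum_mul]
  unfold T
  simp only [h1]
  rw [Finset.sum_comm (s := s)]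
  refine Finset.sum_congr rfl fun j _ => ?_
  rw [Finset.sum_comm (s := s)]
  refine Finset.sum_congr rfl fun d _ => ?_
  rw [Finset.sum_comm (s := s)]

/-- the part of `c` in the class `r` -/
def cl (q : ℕ) (c : ℕ → ℝ) (r d : ℕ) : ℝ := if d % q = r then c d else 0

theorem cl_sum (q : ℕ) (hq : 1 ≤ q) (c : ℕ → ℝ) :
    (fun d => ∑ r ∈ range q, cl q c r d) = c := by
  funext d
  unfold cl
  rw [Finset.sum_ite_eq, if_pos (Finset.mem_range.2 (Nat.mod_lt _ hq))]

theorem cl_cof {q : ℕ} {c : ℕ → ℝ} (h : CofO q c) (r : ℕ) : CofO q (cl q c r) := by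
  refine ⟨fun d => ?_, fun d hd => ?_⟩
  · unfold cl
    split_ifs
    · exact h.bd d
    · simp
  · unfold cl at hd
    by_cases h1 : d % q = r
    · rw [if_pos h1] at hd
      exact h.cop d hd
    · rw [if_neg h1] at hd
      exact absurd rfl hd

theorem cl_mod (q : ℕ) (c : ℕ → ℝ) (r d : ℕ) (hd : cl q c r d ≠ 0) : d % q = r := by
  unfold cl at hd
  by_contra h1
  rw [if_neg h1] at hd
  exact hd rfl

end TaskBB

open TaskBB in
theorem BB (hBC : St_BC) : St_BB := by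
  intro θ hθ
  obtain ⟨η, C, hη, hC, h⟩ := hBC θ hθ
  refine ⟨η, C, hη, hC, ?_⟩
  intro N q i k hN hq hodd hi hk a a' σ ha ha' hne hσ c c' hc hc'
  have key : T N q i k a a' σ c c' =
      ∑ r ∈ range q, ∑ r' ∈ range q, T N q i k a a' σ (cl q c r) (cl q c' r') := by
    conv_lhs => rw [← cl_sum q hq c, ← cl_sum q hq c']
    rw [T_left]
    refine Finset.sum_congr rfl fun r _ => ?_
    rw [T_right]
  have hb : ∀ r r', ‖T N q i k a a' σ (cl q c r) (cl q c' r')‖ ≤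
      C * (2 : ℝ) ^ (max i k - min i k) * (N : ℝ) ^ (1 - η) := fun r r' =>
    h N q i k hN hq hodd hi hk a a' σ ha ha' hne hσ (cl q c r) (cl q c' r') (cl_cof hc r)
      (cl_cof hc' r') r r' (fun d hd => cl_mod q c r d hd) (fun d hd => cl_mod q c' r' d hd)
  show ‖T N q i k a a' σ c c'‖ ≤ _
  rw [key]
  calc ‖∑ r ∈ range q, ∑ r' ∈ range q, T N q i k a a' σ (cl q c r) (cl q c' r')‖
      ≤ ∑ r ∈ range q, ∑ r' ∈ range q, C * (2 : ℝ) ^ (max i k - min i k) * (N : ℝ) ^ (1 - η) :=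
        norm_sum_le_of_le _ fun r _ => norm_sum_le_of_le _ fun r' _ => hb r r'
    _ = C * (q : ℝ) ^ 2 * (2 : ℝ) ^ (max i k - min i k) * (N : ℝ) ^ (1 - η) := by
        rw [Finset.sum_const, Finset.sum_const, Finset.card_range, nsmul_eq_mul, nsmul_eq_mul]
        ring

end Pool.Agent.H442R2.BX
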