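import Pool.Agent.H442R2.BX.Defs
import Pool.Agent.H442R2.KF.Kfb

/-!
BX project, task BC (helper201): one box, fixed classes modulo `q`.
-/

namespace Pool.Agent.H442R2.BX

open Finset
open Pool.Agent.H442R2.KF

namespace TaskBC

theorem exists_log_le (δ : ℝ) (hδ : 0 < δ) :
    ∃ N0 : ℕ, ∀ N : ℕ, N0 ≤ N → 4 * Real.log N ≤ (N : ℝ) ^ δ := by
  have h1 := (isLittleO_log_rpow_atTop hδ).bound (show (0 : ℝ) < 1 / 4 by norm_num)
  have h2 := tendsto_natCast_atTop_atTop (R := ℝ) |>.eventually h1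
  obtain ⟨N0, hN0⟩ := Filter.eventually_atTop.1 h2
  refine ⟨N0, fun N hN => ?_⟩
  have h3 := hN0 N hN
  rw [Real.norm_eq_abs, Real.norm_eq_abs, abs_of_nonneg (Real.rpow_nonneg (Nat.cast_nonneg N) δ)]
    at h3
  have h4 := le_abs_self (Real.log (N : ℝ))
  linarith

theorem norm_trB (N : ℕ) (a a' : ℤ) (q : ℕ) (σ : ℤ) (c c' : ℕ → ℝ) (hc : ∀ d, |c d| ≤ 1)
    (hc' : ∀ d, |c' d| ≤ 1) (j d d' : ℕ) :
    ‖trB N a a' q σ c c' j d d'‖ ≤ (N : ℝ) / (q * d * d') := by
  unfold trB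
  rw [norm_mul, norm_mul, norm_mul, norm_mul, norm_mul, norm_mul, norm_kf, norm_kf, norm_e,
    mul_one, mul_one, mul_one]
  have n1 : ‖(c d : ℂ)‖ ≤ 1 := by rw [Complex.norm_real]; exact hc _
  have n2 : ‖(c' d' : ℂ)‖ ≤ 1 := by rw [Complex.norm_real]; exact hc' _
  have n3 : ‖(((N : ℝ) / (q * d * d') : ℝ) : ℂ)‖ = (N : ℝ) / (q * d * d') := by
    rw [Complex.norm_real, Real.norm_eq_abs, abs_of_nonneg (by positivity)]
  have n4 : ‖((Real.exp (-Real.pi * ((j : ℝ) * N / (q * d * d')) ^ 2) : ℝ) : ℂ)‖ ≤ 1 := by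
    rw [Complex.norm_real, Real.norm_eq_abs, abs_of_pos (Real.exp_pos _), Real.exp_le_one_iff]
    have : 0 ≤ Real.pi * ((j : ℝ) * N / (q * d * d')) ^ 2 := by positivity
    linarith
  rw [n3]
  have p : (0 : ℝ) ≤ (N : ℝ) / (q * d * d') := by positivity
  calc ‖(c d : ℂ)‖ * ‖(c' d' : ℂ)‖ * ((N : ℝ) / (q * d * d')) *
        ‖((Real.exp (-Real.pi * ((j : ℝ) * N / (q * d * d')) ^ 2) : ℝ) : ℂ)‖
      ≤ 1 * 1 * ((N : ℝ) / (q * d * d')) * 1 := by gcongr
    _ = _ := by ring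

/-- the trivial bound -/
theorem trivial_bd (N q i k J : ℕ) (a a' σ : ℤ) (c c' : ℕ → ℝ)
    (hc : ∀ d, |c d| ≤ 1) (hc' : ∀ d, |c' d| ≤ 1) :
    ‖∑ j ∈ Icc 1 J, ∑ d ∈ bx q i,
      ∑ d' ∈ (Ioc (2 ^ k) (2 ^ (k + 1))).filter (fun d' => Nat.Coprime d d'),
        trB N a a' q σ c c' j d d'‖ ≤ 2 * J * N := by
  have hP : (0 : ℝ) < (2 : ℝ) ^ i * 2 ^ k := by positivity
  have h1 : ∀ j ∈ Icc 1 J, ‖∑ d ∈ bx q i,
      ∑ d' ∈ (Ioc (2 ^ k) (2 ^ (k + 1))).filter (fun d' => Nat.Coprime d d'),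
        trB N a a' q σ c c' j d d'‖ ≤ 2 * N := by
    intro j _
    have h2 : ∀ d ∈ bx q i,
        ‖∑ d' ∈ (Ioc (2 ^ k) (2 ^ (k + 1))).filter (fun d' => Nat.Coprime d d'),
          trB N a a' q σ c c' j d d'‖ ≤ (2 : ℝ) ^ k * ((N : ℝ) / ((2 : ℝ) ^ i * 2 ^ k)) := by
      intro d hd
      have hd1 := Finset.mem_Ioc.1 (Finset.mem_filter.1 hd).2
      have hd1' : (2 : ℝ) ^ i ≤ q * d := by exact_mod_cast hd1.1.le
      refine (norm_sum_le _ _).trans ?_
      have h3 : ∀ d' ∈ (Ioc (2 ^ k) (2 ^ (k + 1))).filter (fun d' => Nat.Coprime d d'),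
          ‖trB N a a' q σ c c' j d d'‖ ≤ (N : ℝ) / ((2 : ℝ) ^ i * 2 ^ k) := by
        intro d' hd'
        have hd2 := Finset.mem_Ioc.1 (Finset.mem_filter.1 hd').1
        have hd2' : (2 : ℝ) ^ k ≤ d' := by exact_mod_cast hd2.1.le
        refine (norm_trB N a a' q σ c c' hc hc' j d d').trans ?_
        apply div_le_div_of_nonneg_left (Nat.cast_nonneg N) hP
        gcongr
      refine (Finset.sum_le_sum h3).trans ?_
      rw [Finset.sum_const, nsmul_eq_mul]
      apply mul_le_mul_of_nonneg_right _ (by positivity)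
      have h4 : ((Ioc (2 ^ k) (2 ^ (k + 1))).filter (fun d' => Nat.Coprime d d')).card ≤ 2 ^ k := by
        refine (Finset.card_filter_le _ _).trans ?_
        rw [Nat.card_Ioc, pow_succ]
        omega
      exact_mod_cast h4
    refine (norm_sum_le _ _).trans ((Finset.sum_le_sum h2).trans ?_)
    rw [Finset.sum_const, nsmul_eq_mul]
    have h5 : ((bx q i).card : ℝ) ≤ 2 * 2 ^ i := by
      have : (bx q i).card ≤ 2 ^ (i + 1) := by
        unfold bx
        refine (Finset.card_filter_le _ _).trans ?_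
        rw [Nat.card_Icc, Nat.add_sub_cancel]
      rw [pow_succ] at this
      have h6 : ((bx q i).card : ℝ) ≤ ((2 ^ i * 2 : ℕ) : ℝ) := by exact_mod_cast this
      push_cast at h6
      linarith
    calc ((bx q i).card : ℝ) * ((2 : ℝ) ^ k * ((N : ℝ) / ((2 : ℝ) ^ i * 2 ^ k)))
        ≤ (2 * 2 ^ i) * ((2 : ℝ) ^ k * ((N : ℝ) / ((2 : ℝ) ^ i * 2 ^ k))) := by
          apply mul_le_mul_of_nonneg_right h5 (by positivity)
      _ = 2 * N := by field_simp
  refine (norm_sum_le _ _).trans ((Finset.sum_le_sum h1).trans ?_)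
  rw [Finset.sum_const, nsmul_eq_mul, Nat.card_Icc]
  apply le_of_eq
  have : J + 1 - 1 = J := by omega
  rw [this]
  ring

theorem filter_eq (q i : ℕ) (hq : 1 ≤ q) :
    (Ioc (2 ^ i) (2 ^ (i + 1))).filter (fun m => q ∣ m) = (bx q i).image (fun d => q * d) := by
  ext m
  simp only [Finset.mem_filter, Finset.mem_image, bx, Finset.mem_Icc]
  constructor
  · rintro ⟨hm, d, rfl⟩
    refine ⟨d, ⟨⟨?_, ?_⟩, hm⟩, rfl⟩
    · rw [Finset.mem_Ioc] at hm
      rcases Nat.eq_zero_or_pos d with h | h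
      · rw [h] at hm
        simp at hm
      · exact h
    · rw [Finset.mem_Ioc] at hm
      exact le_trans (Nat.le_mul_of_pos_left d hq) hm.2
  · rintro ⟨d, ⟨_, hm⟩, rfl⟩
    exact ⟨hm, Dvd.intro d rfl⟩

/-- the sum in terms of `FF` -/
theorem sum_eq (N q i k J : ℕ) (hq : 1 ≤ q) (a a' σ : ℤ) (c c' : ℕ → ℝ)
    (_hc : CofO q c) (hc' : CofO q c') (r r' : ℕ) (hr : ∀ d, c d ≠ 0 → d % q = r)
    (hr' : ∀ d, c' d ≠ 0 → d % q = r') :
    ∑ j ∈ Icc 1 J, ∑ d ∈ bx q i,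
      ∑ d' ∈ (Ioc (2 ^ k) (2 ^ (k + 1))).filter (fun d' => Nat.Coprime d d'),
        trB N a a' q σ c c' j d d' =
      (((N : ℝ) / (2 : ℝ) ^ (i + k) : ℝ) : ℂ) * ∑ m ∈ Ioc (2 ^ i) (2 ^ (i + 1)),
        ∑ n ∈ (Ioc (2 ^ k) (2 ^ (k + 1))).filter (fun n => Nat.Coprime m n),
          (if q ∣ m then (c (m / q) : ℂ) else 0) * (c' n : ℂ) *
            FF (psB N J a ((2 : ℝ) ^ (i + k)) σ
              (fun j => kf (-(σ * (j : ℤ) * a)) ((r * r' : ℕ) : ℤ) q)) (σ * (a' - a)) J n m := by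
  have hq0 : 0 < q := hq
  -- restriction to multiples of `q`
  have hR : ∑ m ∈ Ioc (2 ^ i) (2 ^ (i + 1)),
        ∑ n ∈ (Ioc (2 ^ k) (2 ^ (k + 1))).filter (fun n => Nat.Coprime m n),
          (if q ∣ m then (c (m / q) : ℂ) else 0) * (c' n : ℂ) *
            FF (psB N J a ((2 : ℝ) ^ (i + k)) σ
              (fun j => kf (-(σ * (j : ℤ) * a)) ((r * r' : ℕ) : ℤ) q)) (σ * (a' - a)) J n m =
      ∑ d ∈ bx q i, ∑ n ∈ (Ioc (2 ^ k) (2 ^ (k + 1))).filter (fun n => Nat.Coprime (q * d) n),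
          (c d : ℂ) * (c' n : ℂ) *
            FF (psB N J a ((2 : ℝ) ^ (i + k)) σ
              (fun j => kf (-(σ * (j : ℤ) * a)) ((r * r' : ℕ) : ℤ) q)) (σ * (a' - a)) J n
              (q * d) := by
    rw [← Finset.sum_filter_add_sum_filter_not (Ioc (2 ^ i) (2 ^ (i + 1))) (fun m => q ∣ m)]
    have hz : ∑ m ∈ (Ioc (2 ^ i) (2 ^ (i + 1))).filter (fun m => ¬ q ∣ m),
        ∑ n ∈ (Ioc (2 ^ k) (2 ^ (k + 1))).filter (fun n => Nat.Coprime m n),
          (if q ∣ m then (c (m / q) : ℂ) else 0) * (c' n : ℂ) *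
            FF (psB N J a ((2 : ℝ) ^ (i + k)) σ
              (fun j => kf (-(σ * (j : ℤ) * a)) ((r * r' : ℕ) : ℤ) q)) (σ * (a' - a)) J n m
          = 0 := by
      apply Finset.sum_eq_zero
      intro m hm
      apply Finset.sum_eq_zero
      intro n _
      rw [if_neg (Finset.mem_filter.1 hm).2, zero_mul, zero_mul]
    rw [hz, add_zero, filter_eq q i hq, Finset.sum_image]
    · apply Finset.sum_congr rfl
      intro d _
      apply Finset.sum_congr rfl
      intro n _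
      rw [if_pos (Dvd.intro d rfl), Nat.mul_div_cancel_left d hq0]
    · intro x _ y _ hxy
      exact Nat.eq_of_mul_eq_mul_left hq0 hxy
  rw [hR, Finset.sum_comm, Finset.mul_sum]
  refine Finset.sum_congr rfl fun d hd => ?_
  rw [Finset.sum_comm, Finset.mul_sum, Finset.sum_filter, Finset.sum_filter]
  refine Finset.sum_congr rfl fun n hn => ?_
  by_cases hcd : c d = 0
  · have h1 : ∀ j, trB N a a' q σ c c' j d n = 0 := by
      intro j
      unfold trB
      rw [hcd]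
      simp
    simp [h1, hcd]
  by_cases hcn : c' n = 0
  · have h1 : ∀ j, trB N a a' q σ c c' j d n = 0 := by
      intro j
      unfold trB
      rw [hcn]
      simp
    simp [h1, hcn]
  have hqn : Nat.Coprime q n := by
    have := hc'.cop n hcn
    exact (Nat.Coprime.coprime_mul_left_right this).symm
  by_cases hcop : Nat.Coprime d n
  · rw [if_pos hcop, if_pos (Nat.Coprime.mul_left hqn hcop)]
    unfold FF
    rw [Finset.mul_sum, Finset.mul_sum]
    refine Finset.sum_congr rfl fun j hj => ?_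
    have hjJ : j ≤ J := (Finset.mem_Icc.1 hj).2
    unfold trB psB
    rw [if_pos hjJ]
    have hk : kf (-(σ * (j : ℤ) * a)) ((d * n : ℕ) : ℤ) q =
        kf (-(σ * (j : ℤ) * a)) ((r * r' : ℕ) : ℤ) q := by
      apply kf_congr q hq0 _ _ _ _ rfl
      have e1 : ((d : ℕ) : ZMod q) = (r : ZMod q) := by
        rw [← hr d hcd, ZMod.natCast_mod]
      have e2 : ((n : ℕ) : ZMod q) = (r' : ZMod q) := by
        rw [← hr' n hcn, ZMod.natCast_mod]
      push_cast
      rw [e1, e2]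
    rw [hk]
    have hd0 : (0 : ℝ) < d := by
      have := (Finset.mem_Icc.1 (Finset.mem_filter.1 hd).1).1
      exact_mod_cast this
    have hn0 : (0 : ℝ) < n := by
      rw [Finset.mem_Ioc] at hn
      have : 0 < n := lt_of_le_of_lt (Nat.zero_le _) hn.1
      exact_mod_cast this
    have hqr : (0 : ℝ) < q := by exact_mod_cast hq0
    have ecast : ((q * d : ℕ) : ℝ) * (n : ℝ) = (q : ℝ) * d * n := by push_cast; ring
    have e4 : (σ * (j : ℤ) * (a' - a) : ℤ) = (j : ℤ) * (σ * (a' - a)) := by ring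
    have e3 : ((N : ℝ) / (q * d * n) : ℝ) =
        ((N : ℝ) / (2 : ℝ) ^ (i + k)) * ((2 : ℝ) ^ (i + k) / ((q : ℝ) * d * n)) := by
      field_simp
    simp only [ecast, e4]
    rw [e3, Complex.ofReal_mul]
    ring
  · rw [if_neg hcop, if_neg (fun h => hcop (Nat.Coprime.coprime_mul_left h))]

end TaskBC

open TaskBC

/-- BC: one box, fixed classes modulo `q` -/
theorem BC (hTU : St_TU) (hPW : St_PW) : St_BC := by
  intro θ hθ
  set θ' := max θ (1 / 2) with hθ'
  have hθ1 : θ' < 14 / 27 := max_lt hθ (by norm_num)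
  have hθ2 : 1 / 2 ≤ θ' := le_max_right _ _
  have hθ3 : θ ≤ θ' := le_max_left _ _
  set δ := (1 - 27 * θ' / 14) / 2 with hδ
  have hδ0 : 0 < δ := by rw [hδ]; linarith
  have hδ1 : δ ≤ 1 / 56 := by rw [hδ]; linarith
  obtain ⟨η0, C0, hη0, hC0, H⟩ := hTU δ hδ0
  obtain ⟨N0, hN0⟩ := exists_log_le δ hδ0
  refine ⟨min (η0 / 5) 1, C0 * 10000 * (10 / η0) ^ 2 + 8 * (N0 : ℝ) ^ 3,
    lt_min (by positivity) one_pos, by positivity, ?_⟩
  intro N q i k hN hq hqo hi hk a a' σ ha ha' haa hσ c c' hc hc' r r' hr hr'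
  set η := min (η0 / 5) 1 with hη
  have hη1 : η ≤ 1 := min_le_right _ _
  have hη2 : η ≤ η0 / 5 := min_le_left _ _
  set J := JB N i k with hJdef
  have hN' : (3 : ℝ) ≤ N := by exact_mod_cast hN
  have hNpos : (0 : ℝ) < N := by linarith
  have hN1 : (1 : ℝ) ≤ N := by linarith
  have hlog : 1 ≤ Real.log N := by
    rw [Real.le_log_iff_exp_le (by linarith)]
    have := Real.exp_one_lt_d9
    linarith
  obtain ⟨P, hP⟩ : ∃ P : ℝ, P = (2 : ℝ) ^ (i + k) := ⟨_, rfl⟩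
  obtain ⟨M, hM⟩ : ∃ M : ℝ, M = (2 : ℝ) ^ max i k := ⟨_, rfl⟩
  obtain ⟨L, hL⟩ : ∃ L : ℝ, L = (2 : ℝ) ^ (max i k - min i k) := ⟨_, rfl⟩
  have hP1 : 1 ≤ P := by rw [hP]; exact one_le_pow₀ (by norm_num)
  have hM1 : 1 ≤ M := by rw [hM]; exact one_le_pow₀ (by norm_num)
  have hL1 : 1 ≤ L := by rw [hL]; exact one_le_pow₀ (by norm_num)
  have hP0 : 0 < P := by linarith
  have hM0 : 0 < M := by linarith
  have hML : M ^ 2 = P * L := by
    rw [hM, hP, hL, ← pow_mul, ← pow_add]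
    congr 1
    have h1 : max i k + min i k = i + k := max_add_min i k
    have h2 : min i k ≤ max i k := min_le_max
    omega
  have hPM : P ≤ M ^ 2 := by
    rw [hML]
    nlinarith
  have hMθ : M ≤ (N : ℝ) ^ θ' := by
    have h1 : M ≤ (N : ℝ) ^ θ := by
      rw [hM]
      rcases max_choice i k with h | h
      · rw [h]; exact hi
      · rw [h]; exact hk
    exact h1.trans (Real.rpow_le_rpow_of_exponent_le hN1 hθ3)
  have hMN1 : M ≤ N := by
    refine hMθ.trans ?_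
    calc (N : ℝ) ^ θ' ≤ (N : ℝ) ^ (1 : ℝ) :=
          Real.rpow_le_rpow_of_exponent_le hN1 (by linarith)
      _ = N := Real.rpow_one _
  have hJle : (J : ℝ) * N ≤ 4 * P * Real.log N := by
    have h1 : (J : ℝ) ≤ 4 * P * Real.log N / N := by
      rw [hJdef, hP]
      exact Nat.floor_le (by positivity)
    rwa [le_div_iff₀ hNpos] at h1
  have hNη : 1 ≤ (N : ℝ) ^ (1 - η) := Real.one_le_rpow hN1 (by linarith)
  have hpart : 0 ≤ C0 * 10000 * (10 / η0) ^ 2 := by positivity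
  have hpart2 : 0 ≤ 8 * (N0 : ℝ) ^ 3 := by positivity
  rw [← hL]
  -- no frequency
  rcases Nat.eq_zero_or_pos J with hJ0 | hJpos
  · rw [hJ0]
    simp only [zero_lt_one, Finset.Icc_eq_empty_of_lt, Finset.sum_empty, norm_zero]
    positivity
  -- small `N`
  by_cases hNN : N < N0
  · refine (trivial_bd N q i k J a a' σ c c' hc.bd hc'.bd).trans ?_
    have h3 : (N : ℝ) ≤ N0 := by exact_mod_cast hNN.le
    have h2 : Real.log N ≤ N := (Real.log_le_sub_one_of_pos hNpos).trans (by linarith)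
    calc 2 * (J : ℝ) * N = 2 * ((J : ℝ) * N) := by ring
      _ ≤ 2 * (4 * P * Real.log N) := by linarith
      _ ≤ 2 * (4 * (N : ℝ) ^ 2 * N) := by
          have h4 : P ≤ (N : ℝ) ^ 2 := hPM.trans (pow_le_pow_left₀ hM0.le hMN1 2)
          gcongr
      _ = 8 * (N : ℝ) ^ 3 * 1 * 1 := by ring
      _ ≤ 8 * (N0 : ℝ) ^ 3 * L * (N : ℝ) ^ (1 - η) := by gcongr
      _ ≤ _ := by
        apply mul_le_mul_of_nonneg_right _ (by positivity)
        apply mul_le_mul_of_nonneg_right _ (by positivity)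
        linarith
  -- large `N`
  push Not at hNN
  have hl4 := hN0 N hNN
  have hJ1 : (1 : ℝ) ≤ J := by exact_mod_cast hJpos
  have hNP : (N : ℝ) ≤ 4 * P * Real.log N := by nlinarith
  -- `P` is large
  have hPN : (N : ℝ) ^ (1 - δ) ≤ P := by
    have h1 : (N : ℝ) ≤ P * (N : ℝ) ^ δ := by
      calc (N : ℝ) ≤ 4 * P * Real.log N := hNP
        _ = P * (4 * Real.log N) := by ring
        _ ≤ _ := mul_le_mul_of_nonneg_left hl4 hP0.le
    have h2 : (N : ℝ) ^ (1 - δ) * (N : ℝ) ^ δ ≤ P * (N : ℝ) ^ δ := by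
      rw [← Real.rpow_add hNpos, sub_add_cancel, Real.rpow_one]
      exact h1
    exact le_of_mul_le_mul_right h2 (Real.rpow_pos_of_pos hNpos _)
  have hMN : (N : ℝ) ^ (2 / 5 : ℝ) ≤ M := by
    have h1 : ((N : ℝ) ^ (2 / 5 : ℝ)) ^ 2 ≤ M ^ 2 := by
      calc ((N : ℝ) ^ (2 / 5 : ℝ)) ^ 2 = (N : ℝ) ^ (4 / 5 : ℝ) := by
            rw [← Real.rpow_natCast, ← Real.rpow_mul hNpos.le]
            norm_num
        _ ≤ (N : ℝ) ^ (1 - δ) := Real.rpow_le_rpow_of_exponent_le hN1 (by linarith)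
        _ ≤ P := hPN
        _ ≤ M ^ 2 := hPM
    exact (pow_le_pow_iff_left₀ (Real.rpow_nonneg hNpos.le _) hM0.le two_ne_zero).1 h1
  -- few frequencies
  have hJM : (J : ℝ) ≤ M ^ (1 / 14 - δ) := by
    have h4 : M ^ (27 / 14 + δ) ≤ (N : ℝ) ^ (1 - δ) := by
      calc M ^ (27 / 14 + δ) ≤ ((N : ℝ) ^ θ') ^ (27 / 14 + δ) :=
            Real.rpow_le_rpow hM0.le hMθ (by positivity)
        _ = (N : ℝ) ^ (θ' * (27 / 14 + δ)) := by rw [← Real.rpow_mul hNpos.le]
        _ ≤ _ := by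
          apply Real.rpow_le_rpow_of_exponent_le hN1
          have : θ' * δ ≤ 1 * δ := by
            apply mul_le_mul_of_nonneg_right _ hδ0.le
            linarith
          have e1 : 27 * θ' / 14 = 1 - 2 * δ := by rw [hδ]; ring
          nlinarith
    have h6 : M ^ 2 = M ^ (1 / 14 - δ) * M ^ (27 / 14 + δ) := by
      rw [← Real.rpow_add hM0, ← Real.rpow_natCast]
      congr 1
      push_cast
      ring
    have h7 : (J : ℝ) * N ≤ M ^ (1 / 14 - δ) * N := by
      calc (J : ℝ) * N ≤ 4 * P * Real.log N := hJle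
        _ ≤ 4 * M ^ 2 * Real.log N := by gcongr
        _ = M ^ (1 / 14 - δ) * (M ^ (27 / 14 + δ) * (4 * Real.log N)) := by
          rw [h6]
          ring
        _ ≤ M ^ (1 / 14 - δ) * ((N : ℝ) ^ (1 - δ) * (N : ℝ) ^ δ) := by
          apply mul_le_mul_of_nonneg_left _ (Real.rpow_nonneg hM0.le _)
          exact mul_le_mul h4 hl4 (by positivity) (Real.rpow_nonneg hNpos.le _)
        _ = M ^ (1 / 14 - δ) * N := by
          rw [← Real.rpow_add hNpos, sub_add_cancel, Real.rpow_one]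
    exact le_of_mul_le_mul_right h7 hNpos
  have hσ1 : |(σ : ℝ)| = 1 := by
    rcases hσ with h | h <;> rw [h] <;> norm_num
  obtain ⟨ω, hω⟩ : ∃ ω : ℕ → ℂ, ω = fun j : ℕ => kf (-(σ * (j : ℤ) * a)) ((r * r' : ℕ) : ℤ) q :=
    ⟨_, rfl⟩
  have hωn : ∀ j, ‖ω j‖ ≤ 1 := by
    intro j
    rw [hω]
    exact (norm_kf _ _ _).le
  have hW : ∀ j : ℕ, WeiP ((2 : ℝ) ^ (i + k)) (100 * Real.log N)
      (psB N J a ((2 : ℝ) ^ (i + k)) σ ω j) := by
    intro j
    rw [← hP]
    exact hPW N J hN a ha P hP1 σ hσ ω hωn hJle j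
  have hb : |((σ * (a' - a) : ℤ) : ℝ)| * J ≤ 100 * Real.log N * (2 : ℝ) ^ (i + k) := by
    rw [← hP]
    push_cast
    rw [abs_mul, hσ1, one_mul]
    have h1 : |(a' : ℝ) - a| ≤ 2 * N := by
      have := abs_sub (a' : ℝ) (a : ℝ)
      linarith
    calc |(a' : ℝ) - a| * J ≤ (2 * N) * J := by gcongr
      _ = 2 * ((J : ℝ) * N) := by ring
      _ ≤ 2 * (4 * P * Real.log N) := by linarith
      _ ≤ _ := by
        have : 0 ≤ P * Real.log N := by positivity
        nlinarith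
  have hσk : σ * (a' - a) ≠ 0 := by
    apply mul_ne_zero
    · rcases hσ with h | h <;> rw [h] <;> norm_num
    · exact sub_ne_zero.2 haa.symm
  have key := H i k J hJpos (by rw [← hM]; exact hJM) (100 * Real.log N) (by linarith)
    (psB N J a ((2 : ℝ) ^ (i + k)) σ ω) hW (σ * (a' - a)) hσk hb
    (fun m => if q ∣ m then (c (m / q) : ℂ) else 0) (fun n => (c' n : ℂ))
    (fun m => by
      split_ifs
      · rw [Complex.norm_real]; exact hc.bd _
      · simp)
    (fun n => by rw [Complex.norm_real]; exact hc'.bd _)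
    (fun m hm => by
      have hqm : q ∣ m := by
        by_contra h
        exact hm (if_neg h)
      have hcm : c (m / q) ≠ 0 := by
        intro h
        apply hm
        show (if q ∣ m then (c (m / q) : ℂ) else 0) = 0
        rw [if_pos hqm, h]
        simp
      have h2 := hc.cop _ hcm
      have h3 : Odd (m / q) := by
        have := Nat.Coprime.coprime_mul_right_right h2
        exact Nat.coprime_two_right.1 this
      have h4 : m = q * (m / q) := (Nat.mul_div_cancel' hqm).symm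
      rw [h4]
      exact hqo.mul h3)
    (fun n hn => by
      have hcn : c' n ≠ 0 := by
        intro h
        apply hn
        show (c' n : ℂ) = 0
        rw [h]
        simp
      have := Nat.Coprime.coprime_mul_right_right (hc'.cop n hcn)
      exact Nat.coprime_two_right.1 this)
  rw [sum_eq N q i k J hq a a' σ c c' hc hc' r r' hr hr', norm_mul, Complex.norm_real,
    Real.norm_eq_abs, abs_of_nonneg (by positivity)]
  rw [hω] at key
  -- numbers
  have hlogsq : Real.log N ≤ (N : ℝ) ^ (η0 / 10) / (η0 / 10) :=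
    Real.log_le_rpow_div hNpos.le (by positivity)
  have hMη : M ^ (-η0) ≤ (N : ℝ) ^ (-(2 / 5 * η0)) := by
    rw [Real.rpow_neg hM0.le, Real.rpow_neg hNpos.le]
    apply inv_anti₀ (Real.rpow_pos_of_pos hNpos _)
    rw [Real.rpow_mul hNpos.le]
    exact Real.rpow_le_rpow (Real.rpow_nonneg hNpos.le _) hMN hη0.le
  have hfin : (N : ℝ) * ((N : ℝ) ^ (η0 / 10)) ^ 2 * (N : ℝ) ^ (-(2 / 5 * η0)) ≤
      (N : ℝ) ^ (1 - η) := by
    rw [← Real.rpow_natCast ((N : ℝ) ^ (η0 / 10)) 2, ← Real.rpow_mul hNpos.le]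
    calc (N : ℝ) * (N : ℝ) ^ (η0 / 10 * ((2 : ℕ) : ℝ)) * (N : ℝ) ^ (-(2 / 5 * η0))
        = (N : ℝ) ^ (1 + η0 / 10 * ((2 : ℕ) : ℝ) + (-(2 / 5 * η0))) := by
          rw [Real.rpow_add hNpos, Real.rpow_add hNpos, Real.rpow_one]
      _ ≤ _ := by
          apply Real.rpow_le_rpow_of_exponent_le hN1
          push_cast
          nlinarith
  rw [← hP, ← hM] at key
  rw [← hP]
  calc (N : ℝ) / P * _
      ≤ (N : ℝ) / P * (C0 * (100 * Real.log N) ^ 2 * M ^ (2 - η0)) :=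
        mul_le_mul_of_nonneg_left key (by positivity)
    _ = C0 * 10000 * (Real.log N) ^ 2 * L * N * M ^ (-η0) := by
        have h1 : M ^ (2 - η0) = (P * L) * M ^ (-η0) := by
          rw [← hML, ← Real.rpow_natCast M 2, ← Real.rpow_add hM0]
          congr 1
        rw [h1]
        field_simp
        ring
    _ ≤ C0 * 10000 * ((N : ℝ) ^ (η0 / 10) / (η0 / 10)) ^ 2 * L * N *
          (N : ℝ) ^ (-(2 / 5 * η0)) := by gcongr
    _ = C0 * 10000 * (10 / η0) ^ 2 * L *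
          ((N : ℝ) * ((N : ℝ) ^ (η0 / 10)) ^ 2 * (N : ℝ) ^ (-(2 / 5 * η0))) := by
        field_simp
    _ ≤ C0 * 10000 * (10 / η0) ^ 2 * L * (N : ℝ) ^ (1 - η) := by gcongr
    _ ≤ _ := by
        apply mul_le_mul_of_nonneg_right _ (by positivity)
        apply mul_le_mul_of_nonneg_right _ (by positivity)
        linarith

end Pool.Agent.H442R2.BX
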