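import Pool.Agent.H442R2.BX.Defs
import Pool.Agent.H442R2.KF.Summ

/-!
BX project, task BK (helper727): one coarse block.
-/

namespace Pool.Agent.H442R2.BX

open Finset
open Pool.Agent.H442R2.KF

namespace TaskBK

lemma exp_neg_pi : (1 : ℝ) ≤ 25 * Real.exp (-Real.pi) := by
  have h1 : Real.exp Real.pi ≤ 25 := by
    have hpi : Real.pi < 3.15 := Real.pi_lt_d2
    have h2 : Real.exp Real.pi ≤ Real.exp 1 ^ 3 * Real.exp 0.15 := by
      rw [← Real.exp_nat_mul, ← Real.exp_add]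
      apply Real.exp_le_exp.2
      push_cast
      linarith
    have h3 : Real.exp 1 < 2.7182818286 := Real.exp_one_lt_d9
    have h4 : Real.exp 0.15 ≤ 1.18 := by
      have h5 := Real.add_one_le_exp (-0.15 : ℝ)
      have h6 : Real.exp (-0.15 : ℝ) * Real.exp 0.15 = 1 := by
        rw [← Real.exp_add]
        norm_num
      have h7 := Real.exp_pos (0.15 : ℝ)
      nlinarith
    have h8 : Real.exp 1 ^ 3 ≤ 2.7182818286 ^ 3 :=
      pow_le_pow_left₀ (Real.exp_nonneg _) h3.le 3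
    calc Real.exp Real.pi ≤ Real.exp 1 ^ 3 * Real.exp 0.15 := h2
      _ ≤ 2.7182818286 ^ 3 * 1.18 := by
          gcongr
      _ ≤ 25 := by norm_num
  have h2 : Real.exp (-Real.pi) * Real.exp Real.pi = 1 := by
    rw [← Real.exp_add]
    simp
  have h3 := Real.exp_pos (-Real.pi)
  nlinarith

lemma nu_prime {z : ℕ} {lam : ℕ → ℝ} (h : SW z lam) (hz : 1 ≤ z) {p : ℕ} (hp : p.Prime)
    (hzp : z < p) : nuS lam z (p : ℤ) = 1 := by
  unfold nuS
  have : (Icc 1 z).filter (fun q : ℕ => (q : ℤ) ∣ (p : ℤ)) = {1} := by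
    ext q
    simp only [mem_filter, mem_Icc, mem_singleton, Int.natCast_dvd_natCast]
    constructor
    · rintro ⟨⟨h1, h2⟩, h3⟩
      rcases (Nat.dvd_prime hp).1 h3 with h | h
      · exact h
      · omega
    · rintro rfl
      exact ⟨⟨le_rfl, hz⟩, one_dvd _⟩
  rw [this, sum_singleton, h.one, one_pow]

lemma w_prime {N z : ℕ} {lam : ℕ → ℝ} (h : SW z lam) (hz : 1 ≤ z) {p : ℕ} (hp : p.Prime)
    (hzp : z < p) (hpN : p ≤ N) : (1 : ℝ) ≤ 25 * (Wt N (p : ℤ) * nuS lam z (p : ℤ)) := by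
  rw [nu_prime h hz hp hzp, mul_one]
  unfold Wt
  have hN : (0 : ℝ) < N := by exact_mod_cast (by omega : 0 < N)
  have h0 : 0 ≤ ((p : ℤ) : ℝ) / N := by positivity
  have h1 : ((p : ℤ) : ℝ) / N ≤ 1 := by
    rw [div_le_one hN]
    push_cast
    exact_mod_cast hpN
  have h2 : (((p : ℤ) : ℝ) / N) ^ 2 ≤ 1 := pow_le_one₀ h0 h1
  have h3 : Real.exp (-Real.pi) ≤ Real.exp (-Real.pi * (((p : ℤ) : ℝ) / N) ^ 2) := by
    apply Real.exp_le_exp.2
    nlinarith [Real.pi_pos]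
  linarith [exp_neg_pi]

lemma nu_le {z : ℕ} {lam : ℕ → ℝ} (h : SW z lam) (n : ℤ) : nuS lam z n ≤ (z : ℝ) ^ 2 := by
  unfold nuS
  have h1 : |∑ q ∈ (Icc 1 z).filter (fun q : ℕ => (q : ℤ) ∣ n), lam q| ≤ z := by
    refine (abs_sum_le_sum_abs _ _).trans ?_
    refine (sum_le_card_nsmul _ _ 1 (fun q _ => h.bd q)).trans ?_
    rw [nsmul_eq_mul, mul_one]
    have : ((Icc 1 z).filter (fun q : ℕ => (q : ℤ) ∣ n)).card ≤ z := by
      refine (card_filter_le _ _).trans ?_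
      simp
    exact_mod_cast this
  rw [← sq_abs]
  exact pow_le_pow_left₀ (abs_nonneg _) h1 2

lemma w_nonneg (N z : ℕ) (lam : ℕ → ℝ) (n : ℤ) : 0 ≤ Wt N n * nuS lam z n :=
  mul_nonneg (Real.exp_nonneg _) (sq_nonneg _)

lemma summ_w {N z : ℕ} {lam : ℕ → ℝ} (hN : 1 ≤ N) (h : SW z lam) :
    Summable (fun n : ℤ => Wt N n * nuS lam z n) := by
  refine Summable.of_nonneg_of_le (fun n => w_nonneg N z lam n) (fun n => ?_)
    ((TaskS.summable_Wt N hN).mul_right ((z : ℝ) ^ 2))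
  exact mul_le_mul_of_nonneg_left (nu_le h n) (Real.exp_nonneg _)

lemma sum_triv {f : ℕ → ℝ} (hf : ∀ p, |f p| ≤ 1) {N : ℕ} {s : Finset ℕ} (hs : s ⊆ Icc 1 N) :
    |∑ p ∈ s, f p| ≤ N := by
  refine (abs_sum_le_sum_abs _ _).trans ?_
  refine (sum_le_card_nsmul _ _ 1 (fun q _ => hf q)).trans ?_
  rw [nsmul_eq_mul, mul_one]
  have := card_le_card hs
  rw [Nat.card_Icc] at this
  exact_mod_cast (by omega : s.card ≤ N)

lemma Df_triv {f : ℕ → ℝ} (hf : ∀ p, |f p| ≤ 1) (N : ℕ) (a : ℤ) (d : ℕ) :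
    |Df f N a d| ≤ 2 * N := by
  unfold Df
  have h1 : |∑ p ∈ (Icc 1 N).filter (fun p : ℕ => p.Prime ∧ (p : ℤ) ≡ a [ZMOD d]), f p| ≤ N :=
    sum_triv hf (filter_subset _ _)
  have h3 : |∑ p ∈ (Icc 1 N).filter Nat.Prime, f p| ≤ N := sum_triv hf (filter_subset _ _)
  have h2 : |(∑ p ∈ (Icc 1 N).filter Nat.Prime, f p) / (Nat.totient d : ℝ)| ≤ N := by
    rw [abs_div, Nat.abs_cast]
    rcases Nat.eq_zero_or_pos (Nat.totient d) with h | h
    · rw [h]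
      simp
    · refine (div_le_self (abs_nonneg _) ?_).trans h3
      exact_mod_cast h
  have h4 := abs_sub (∑ p ∈ (Icc 1 N).filter (fun p : ℕ => p.Prime ∧ (p : ℤ) ≡ a [ZMOD d]), f p)
    ((∑ p ∈ (Icc 1 N).filter Nat.Prime, f p) / (Nat.totient d : ℝ))
  linarith

lemma small {f : ℕ → ℝ} (hf : ∀ p, |f p| ≤ 1) {N : ℕ} {a : ℤ} {T : Finset ℕ}
    (hT : T ⊆ Icc 1 N) : (∑ d ∈ T, |Df f N a d|) ^ 2 ≤ 4 * (N : ℝ) ^ 4 := by
  have h1 : ∑ d ∈ T, |Df f N a d| ≤ T.card * (2 * N) := by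
    refine (sum_le_card_nsmul _ _ (2 * (N : ℝ)) (fun d _ => Df_triv hf N a d)).trans ?_
    rw [nsmul_eq_mul]
  have h2 : (T.card : ℝ) ≤ N := by
    have := card_le_card hT
    rw [Nat.card_Icc] at this
    exact_mod_cast (by omega : T.card ≤ N)
  have h3 : ∑ d ∈ T, |Df f N a d| ≤ 2 * (N : ℝ) ^ 2 := by
    refine h1.trans ?_
    calc (T.card : ℝ) * (2 * N) ≤ N * (2 * N) := by gcongr
      _ = 2 * (N : ℝ) ^ 2 := by ring
  calc (∑ d ∈ T, |Df f N a d|) ^ 2 ≤ (2 * (N : ℝ) ^ 2) ^ 2 :=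
        pow_le_pow_left₀ (sum_nonneg fun d _ => abs_nonneg _) h3 2
    _ = 4 * (N : ℝ) ^ 4 := by ring

/-- `x^(1-η) ≤ (2/η) (x/log x) x^(-η/2)` -/
lemma pw {x η : ℝ} (hx : 2 ≤ x) (hη : 0 < η) :
    x ^ (1 - η) ≤ 2 / η * (x / Real.log x) * x ^ (-(η / 2)) := by
  have hx0 : 0 < x := by linarith
  have hL : 0 < Real.log x := Real.log_pos (by linarith)
  have h1 := Real.log_le_rpow_div hx0.le (half_pos hη)
  have h2 : x ^ (1 - η) = x * x ^ (-(η / 2)) * x ^ (-(η / 2)) := by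
    have : x ^ (1 - η) = x ^ (1:ℝ) * x ^ (-(η / 2)) * x ^ (-(η / 2)) := by
      rw [← Real.rpow_add hx0, ← Real.rpow_add hx0]
      congr 1
      ring
    rwa [Real.rpow_one] at this
  have h3 : x ^ (η / 2) * x ^ (-(η / 2)) = 1 := by
    rw [← Real.rpow_add hx0]
    simp
  have h4 : 0 < x ^ (-(η / 2)) := Real.rpow_pos_of_pos hx0 _
  have h5 : Real.log x * x ^ (-(η / 2)) ≤ 2 / η := by
    calc Real.log x * x ^ (-(η / 2)) ≤ x ^ (η / 2) / (η / 2) * x ^ (-(η / 2)) := by gcongr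
      _ = (x ^ (η / 2) * x ^ (-(η / 2))) * (2 / η) := by
          field_simp
      _ = 2 / η := by rw [h3, one_mul]
  rw [h2]
  calc x * x ^ (-(η / 2)) * x ^ (-(η / 2))
      = (x / Real.log x) * x ^ (-(η / 2)) * (Real.log x * x ^ (-(η / 2))) := by
        field_simp
    _ ≤ (x / Real.log x) * x ^ (-(η / 2)) * (2 / η) := by gcongr
    _ = 2 / η * (x / Real.log x) * x ^ (-(η / 2)) := by ring

lemma add_le {Cb D Q R : ℝ} (hD : 0 ≤ D) (hQR : 0 ≤ Q * R) :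
    Cb * Q * R ≤ (Cb + D) * Q * R := by
  nlinarith [mul_nonneg hD hQR]

lemma two_sq (y E : ℝ) : (|y| + E) ^ 2 ≤ 2 * y ^ 2 + 2 * E ^ 2 := by
  have h3 := sq_abs y
  nlinarith [sq_nonneg (|y| - E)]

/-- the case of large `N`, numbers only -/
lemma num {x L Q e0 C1 C2 C3 n1 n2 η Fs lz G O E SY Sa c : ℝ} (hx : 2 ≤ x) (hL : L = Real.log x)
    (hQ : Q = (x / L) ^ 2) (he0 : 0 < e0) (hC1 : 0 < C1) (hC2 : 0 < C2) (hC3 : 0 < C3)
    (hn1 : 0 < n1) (hn2 : 0 < n2) (hη1 : η ≤ n1 / 2) (hη2 : η ≤ n2) (hc : 0 ≤ c)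
    (hlz : e0 / 2 * L ≤ lz) (hFs : Fs ≤ 75 * (x / lz)) (_hFs0 : 0 ≤ Fs)
    (hG : G = C2 * x / lz) (hO : O = C1 * x ^ (1 - n1)) (hSY : SY ≤ 25 * Fs * (G + c * O))
    (hE0 : 0 ≤ E) (hE : E ≤ 3 * C3 * x ^ (1 - n2)) (hSa : Sa ≤ 2 * SY + 2 * c * E ^ 2) :
    Sa ≤ (50 * (75 * (2 / e0)) * (C2 * (2 / e0) + C1 * (2 / n1)) + 18 * C3 ^ 2 * (2 / n2) ^ 2) *
      Q * (1 + c * x ^ (-η)) := by
  have hx0 : 0 < x := by linarith
  have hx1 : 1 ≤ x := by linarith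
  have hL0 : 0 < L := by
    rw [hL]
    exact Real.log_pos (by linarith)
  have hy : 0 < x / L := div_pos hx0 hL0
  set y := x / L with hyd
  have hlz0 : 0 < lz := lt_of_lt_of_le (by positivity) hlz
  have h1 : x / lz ≤ 2 / e0 * y := by
    rw [hyd, div_le_iff₀ hlz0]
    calc x = 2 / e0 * (x / L) * (e0 / 2 * L) := by field_simp
      _ ≤ 2 / e0 * (x / L) * lz := by gcongr
  have h2 : Fs ≤ 75 * (2 / e0) * y := by
    calc Fs ≤ 75 * (x / lz) := hFs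
      _ ≤ 75 * (2 / e0 * y) := by gcongr
      _ = 75 * (2 / e0) * y := by ring
  have h3 : G ≤ C2 * (2 / e0) * y := by
    rw [hG, mul_div_assoc]
    calc C2 * (x / lz) ≤ C2 * (2 / e0 * y) := by gcongr
      _ = _ := by ring
  set u := x ^ (-η) with hu
  have hu0 : 0 < u := Real.rpow_pos_of_pos hx0 _
  have h4 : x ^ (-(n1 / 2)) ≤ u := Real.rpow_le_rpow_of_exponent_le hx1 (by linarith)
  have h5 : O ≤ C1 * (2 / n1) * y * u := by
    rw [hO]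
    have := pw hx hn1
    rw [← hL] at this
    calc C1 * x ^ (1 - n1) ≤ C1 * (2 / n1 * y * x ^ (-(n1 / 2))) := by gcongr
      _ ≤ C1 * (2 / n1 * y * u) := by gcongr
      _ = _ := by ring
  have hO0 : 0 ≤ O := by
    rw [hO]
    positivity
  have h6 : SY ≤ 25 * (75 * (2 / e0)) * (C2 * (2 / e0) + C1 * (2 / n1)) * Q * (1 + c * u) := by
    have hG0 : 0 ≤ G := by
      rw [hG]
      positivity
    calc SY ≤ 25 * Fs * (G + c * O) := hSY
      _ ≤ 25 * (75 * (2 / e0) * y) * (C2 * (2 / e0) * y + c * (C1 * (2 / n1) * y * u)) := by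
          gcongr
      _ = 25 * (75 * (2 / e0)) * (C2 * (2 / e0) + C1 * (2 / n1) * (c * u)) * y ^ 2 := by ring
      _ ≤ 25 * (75 * (2 / e0)) * ((C2 * (2 / e0) + C1 * (2 / n1)) * (1 + c * u)) * y ^ 2 := by
          have ha : 0 ≤ C2 * (2 / e0) := by positivity
          have hb : 0 ≤ C1 * (2 / n1) := by positivity
          have hcu : 0 ≤ c * u := by positivity
          have : C2 * (2 / e0) + C1 * (2 / n1) * (c * u) ≤
              (C2 * (2 / e0) + C1 * (2 / n1)) * (1 + c * u) := by nlinarith [mul_nonneg ha hcu]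
          gcongr
      _ = _ := by
          rw [hQ]
          ring
  have h7 : E ^ 2 ≤ 9 * C3 ^ 2 * (2 / n2) ^ 2 * Q * u := by
    have := pw hx hn2
    rw [← hL] at this
    have h8 : x ^ (-(n2 / 2)) * x ^ (-(n2 / 2)) ≤ u := by
      rw [← Real.rpow_add hx0]
      exact Real.rpow_le_rpow_of_exponent_le hx1 (by linarith)
    calc E ^ 2 ≤ (3 * C3 * x ^ (1 - n2)) ^ 2 := pow_le_pow_left₀ hE0 hE 2
      _ ≤ (3 * C3 * (2 / n2 * y * x ^ (-(n2 / 2)))) ^ 2 := by gcongr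
      _ = 9 * C3 ^ 2 * (2 / n2) ^ 2 * y ^ 2 * (x ^ (-(n2 / 2)) * x ^ (-(n2 / 2))) := by ring
      _ ≤ 9 * C3 ^ 2 * (2 / n2) ^ 2 * y ^ 2 * u := by gcongr
      _ = _ := by rw [hQ]
  have hQ0 : 0 ≤ Q := by
    rw [hQ]
    positivity
  have h9 : 2 * c * E ^ 2 ≤ 18 * C3 ^ 2 * (2 / n2) ^ 2 * Q * (1 + c * u) := by
    calc 2 * c * E ^ 2 ≤ 2 * c * (9 * C3 ^ 2 * (2 / n2) ^ 2 * Q * u) := by gcongr
      _ = 18 * C3 ^ 2 * (2 / n2) ^ 2 * Q * (c * u) := by ring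
      _ ≤ 18 * C3 ^ 2 * (2 / n2) ^ 2 * Q * (1 + c * u) := by
          gcongr
          linarith
  calc Sa ≤ 2 * SY + 2 * c * E ^ 2 := hSa
    _ ≤ 2 * (25 * (75 * (2 / e0)) * (C2 * (2 / e0) + C1 * (2 / n1)) * Q * (1 + c * u)) +
        18 * C3 ^ 2 * (2 / n2) ^ 2 * Q * (1 + c * u) := by linarith
    _ = _ := by ring

/-- the case of small `N`, numbers only -/
lemma num0 {x L η c Sa M Cb : ℝ} (hx : 2 ≤ x) (hL : L = Real.log x) (hη : η ≤ 1) (hc : 0 ≤ c)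
    (hM : x ≤ M) (hSa : Sa ≤ c * (4 * x ^ 4)) (hCb : 0 ≤ Cb) :
    Sa ≤ (Cb + 4 * M ^ 5) * (x / L) ^ 2 * (1 + c * x ^ (-η)) := by
  have hx0 : 0 < x := by linarith
  have hx1 : 1 ≤ x := by linarith
  have hM0 : 0 < M := by linarith
  have hL0 : 0 < L := by
    rw [hL]
    exact Real.log_pos (by linarith)
  have hLx : L ≤ x := by
    rw [hL]
    exact (Real.log_le_sub_one_of_pos hx0).trans (by linarith)
  have h1 : 1 ≤ (x / L) ^ 2 := one_le_pow₀ ((one_le_div hL0).2 hLx)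
  have h2 : M⁻¹ ≤ x ^ (-η) := by
    calc M⁻¹ ≤ x⁻¹ := inv_anti₀ hx0 hM
      _ = x ^ (-1 : ℝ) := (Real.rpow_neg_one x).symm
      _ ≤ x ^ (-η) := Real.rpow_le_rpow_of_exponent_le hx1 (by linarith)
  have h3 : 0 < x ^ (-η) := Real.rpow_pos_of_pos hx0 _
  calc Sa ≤ c * (4 * x ^ 4) := hSa
    _ ≤ c * (4 * M ^ 4) := by gcongr
    _ = (0 + 4 * M ^ 5) * 1 * (0 + c * M⁻¹) := by
        field_simp
        ring
    _ ≤ (Cb + 4 * M ^ 5) * (x / L) ^ 2 * (1 + c * x ^ (-η)) := by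
        gcongr
        norm_num

end TaskBK

theorem BK (hTT : St_TT) (hDI : St_DI) (hDU : St_DU) (hPR : St_PR) (hWX : St_WX) (hGW : St_GW)
    (hEX : St_EX) : St_BK := by
  intro θ ε hθ hε
  obtain ⟨e1, n1, C1, he1, hn1, hC1, tt⟩ := hTT θ ε hθ hε
  obtain ⟨N2, C2, hC2, di⟩ := hDI ε hε
  obtain ⟨N3, C3, hC3, pr⟩ := hPR ε hε
  obtain ⟨N4, gw⟩ := hGW
  obtain ⟨e0, he0, he01, he04⟩ : ∃ e0 : ℝ, 0 < e0 ∧ e0 ≤ e1 ∧ e0 ≤ 1 / 4 :=
    ⟨min e1 (1 / 4), lt_min he1 (by norm_num), min_le_left _ _, min_le_right _ _⟩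
  obtain ⟨n2, hn2, hn24, hn2e⟩ : ∃ n2 : ℝ, 0 < n2 ∧ n2 ≤ 1 / 4 ∧ n2 ≤ ε / 2 :=
    ⟨min (1 / 4) (ε / 2), lt_min (by norm_num) (by linarith), min_le_left _ _, min_le_right _ _⟩
  obtain ⟨η, hη, hη1, hη2⟩ : ∃ η : ℝ, 0 < η ∧ η ≤ n1 / 2 ∧ η ≤ n2 :=
    ⟨min (n1 / 2) n2, lt_min (by linarith) hn2, min_le_left _ _, min_le_right _ _⟩
  obtain ⟨N5, hN5⟩ : ∃ N5 : ℕ, ∀ N : ℕ, N5 ≤ N → (2 : ℝ) ≤ (N : ℝ) ^ (e0 / 2) := by
    have := ((tendsto_rpow_atTop (half_pos he0)).comp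
      (tendsto_natCast_atTop_atTop (R := ℝ))).eventually_ge_atTop 2
    exact Filter.eventually_atTop.1 this
  have hCb : 0 < 50 * (75 * (2 / e0)) * (C2 * (2 / e0) + C1 * (2 / n1)) +
    18 * C3 ^ 2 * (2 / n2) ^ 2 := by positivity
  obtain ⟨M, hM⟩ : ∃ M : ℕ, M = N2 + N3 + N4 + N5 + 2 := ⟨_, rfl⟩
  refine ⟨e0, η, 50 * (75 * (2 / e0)) * (C2 * (2 / e0) + C1 * (2 / n1)) +
    18 * C3 ^ 2 * (2 / n2) ^ 2 + 4 * (M : ℝ) ^ 5, he0, hη, by positivity, ?_⟩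
  intro N D0 X hN hXθ hD0 hXD f hf A hA T hT
  have hNr : (2 : ℝ) ≤ N := by exact_mod_cast hN
  have hN0 : (0 : ℝ) < N := by linarith
  have hN1 : (1 : ℝ) ≤ N := by linarith
  have hXN' : (X : ℝ) ≤ (N : ℝ) ^ (3 / 4 : ℝ) :=
    hXθ.trans (Real.rpow_le_rpow_of_exponent_le hN1 (by linarith))
  have hXN : X ≤ N := by
    have : (X : ℝ) ≤ N := hXN'.trans (by
      calc (N : ℝ) ^ (3 / 4 : ℝ) ≤ (N : ℝ) ^ (1 : ℝ) :=
            Real.rpow_le_rpow_of_exponent_le hN1 (by norm_num)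
        _ = N := Real.rpow_one _)
    exact_mod_cast this
  rcases lt_or_ge N M with hNM | hNM
  · refine TaskBK.num0 hNr rfl (by linarith) (Nat.cast_nonneg _) (by exact_mod_cast hNM.le) ?_
      hCb.le
    calc ∑ a ∈ A, (∑ d ∈ T a, |Df f N a d|) ^ 2 ≤ ∑ a ∈ A, 4 * (N : ℝ) ^ 4 := by
          refine sum_le_sum fun a ha => TaskBK.small hf fun d hd => ?_
          obtain ⟨h1, h2, -⟩ := hT a ha d hd
          rw [mem_Icc]
          omega
      _ = A.card * (4 * (N : ℝ) ^ 4) := by rw [sum_const, nsmul_eq_mul]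
  · have hL0 : 0 < Real.log N := Real.log_pos (by linarith)
    have hg2 : (2 : ℝ) ≤ (N : ℝ) ^ (e0 / 2) := hN5 N (by omega)
    obtain ⟨g, hg⟩ : ∃ g : ℝ, g = (N : ℝ) ^ (e0 / 2) := ⟨_, rfl⟩
    rw [← hg] at hg2
    have hgg : (N : ℝ) ^ e0 = g * g := by
      rw [hg, ← Real.rpow_add hN0]
      congr 1
      ring
    obtain ⟨z, hz⟩ : ∃ z : ℕ, z = ⌊(N : ℝ) ^ e0⌋₊ := ⟨_, rfl⟩
    have hz1 : (z : ℝ) ≤ (N : ℝ) ^ e0 := by
      rw [hz]
      exact Nat.floor_le (Real.rpow_nonneg hN0.le _)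
    have hz2 : (N : ℝ) ^ e0 < z + 1 := by
      rw [hz]
      exact Nat.lt_floor_add_one _
    have hgz : g ≤ z := by
      rw [hgg] at hz2
      nlinarith
    have hz3 : 2 ≤ z := by
      have : (2 : ℝ) ≤ z := hg2.trans hgz
      exact_mod_cast this
    have hz4 : (z : ℝ) ≤ (N : ℝ) ^ (1 / 4 : ℝ) :=
      hz1.trans (Real.rpow_le_rpow_of_exponent_le hN1 he04)
    have hz5 : (z : ℝ) ≤ (N : ℝ) ^ e1 := hz1.trans (Real.rpow_le_rpow_of_exponent_le hN1 he01)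
    have hlz : e0 / 2 * Real.log N ≤ Real.log z := by
      rw [← Real.log_rpow hN0, ← hg]
      exact Real.log_le_log (by linarith) hgz
    have hlz0 : 0 < Real.log z := lt_of_lt_of_le (by positivity) hlz
    have hXD' : (X : ℝ) ≤ (N : ℝ) ^ e1 * D0 := by
      refine hXD.trans ?_
      have := Real.rpow_le_rpow_of_exponent_le hN1 he01
      gcongr
    obtain ⟨lam, hlam⟩ := hWX z hz3
    have hc : ∀ a : ℤ, ∃ c : ℕ → ℝ, a ∈ A → (CofR ((N : ℝ) ^ ε) X c ∧ (∀ d, c d ≠ 0 → d ∈ T a) ∧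
        ∑ d ∈ T a, |Df f N a d| ≤
          |∑ p ∈ (Icc 1 N).filter (fun p => p.Prime ∧ z < p), f p * rf c X a p| +
            C3 * (z + X + (N : ℝ) ^ (1 - ε / 2))) := by
      intro a
      by_cases ha : a ∈ A
      · obtain ⟨c, h1, h2, h3⟩ := pr N z X (by omega) hXN f hf a (hA a ha) (T a)
          (fun d hd => ⟨(hT a ha d hd).2.1, (hT a ha d hd).2.2⟩)
        exact ⟨c, fun _ => ⟨h1, h2, h3⟩⟩
      · exact ⟨0, fun h => absurd h ha⟩
    choose c hc using hc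
    have hw25 : ∀ p ∈ (Icc 1 N).filter (fun p => p.Prime ∧ z < p),
        (1 : ℝ) ≤ 25 * (fun n : ℤ => Wt N n * nuS lam z n) (p : ℤ) := by
      intro p hp
      rw [mem_filter, mem_Icc] at hp
      exact TaskBK.w_prime hlam (by omega) hp.2.1 hp.2.2 hp.1.2
    have hG0 : 0 ≤ C2 * N / Real.log z := by positivity
    have hO0 : 0 ≤ C1 * (N : ℝ) ^ (1 - n1) := by positivity
    have hdu := hDU (fun n : ℤ => Wt N n * nuS lam z n) (fun n => TaskBK.w_nonneg N z lam n)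
      ((Icc 1 N).filter (fun p => p.Prime ∧ z < p)) hw25 A (fun a n => rf (c a) X a n) f
      (fun a _ a' _ => (hEX N z X (by omega) lam (c a) (c a') a a').2.1)
      (C2 * N / Real.log z) (C1 * (N : ℝ) ^ (1 - n1))
      (fun a ha => di N z X (by omega) hXN hz3 hz4 lam hlam (c a) (hc a ha).1 a (hA a ha))
      hG0 hO0
      (fun a ha a' ha' haa => tt N z D0 X hN (by omega) hz5 hXθ hD0 hXD' lam hlam (c a) (c a')
        (hc a ha).1 (hc a' ha').1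
        (fun d hd => (hT a ha d ((hc a ha).2.1 d hd)).1)
        (fun d hd => (hT a' ha' d ((hc a' ha').2.1 d hd)).1) a a' (hA a ha) (hA a' ha') haa)
    have hFs : ∑ p ∈ (Icc 1 N).filter (fun p => p.Prime ∧ z < p), f p ^ 2 ≤
        75 * (N / Real.log z) := by
      have h1 := gw N z (by omega) hz3 hz4 lam hlam
      have h2 : ∑ p ∈ (Icc 1 N).filter (fun p => p.Prime ∧ z < p),
          (Wt N (p : ℤ) * nuS lam z (p : ℤ)) ≤ ∑' n : ℤ, Wt N n * nuS lam z n := by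
        have h3 := (TaskBK.summ_w (by omega : 1 ≤ N) hlam).sum_le_tsum
          (((Icc 1 N).filter (fun p => p.Prime ∧ z < p)).map
            ⟨(fun p : ℕ => (p : ℤ)), Nat.cast_injective⟩)
          (fun n _ => TaskBK.w_nonneg N z lam n)
        rw [sum_map] at h3
        exact h3
      calc ∑ p ∈ (Icc 1 N).filter (fun p => p.Prime ∧ z < p), f p ^ 2
          ≤ ∑ p ∈ (Icc 1 N).filter (fun p => p.Prime ∧ z < p),
              25 * (Wt N (p : ℤ) * nuS lam z (p : ℤ)) := by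
            refine sum_le_sum fun p hp => le_trans ?_ (hw25 p hp)
            rw [← sq_abs]
            exact pow_le_one₀ (abs_nonneg _) (hf p)
        _ = 25 * ∑ p ∈ (Icc 1 N).filter (fun p => p.Prime ∧ z < p),
              (Wt N (p : ℤ) * nuS lam z (p : ℤ)) := by rw [mul_sum]
        _ ≤ 25 * (3 * N / Real.log z) := by
            have := h2.trans h1
            linarith
        _ = 75 * (N / Real.log z) := by ring
    have hE : C3 * (z + X + (N : ℝ) ^ (1 - ε / 2)) ≤ 3 * C3 * (N : ℝ) ^ (1 - n2) := by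
      have h1 : (z : ℝ) ≤ (N : ℝ) ^ (1 - n2) :=
        hz4.trans (Real.rpow_le_rpow_of_exponent_le hN1 (by linarith))
      have h2 : (X : ℝ) ≤ (N : ℝ) ^ (1 - n2) :=
        hXN'.trans (Real.rpow_le_rpow_of_exponent_le hN1 (by linarith))
      have h3 : (N : ℝ) ^ (1 - ε / 2) ≤ (N : ℝ) ^ (1 - n2) :=
        Real.rpow_le_rpow_of_exponent_le hN1 (by linarith)
      nlinarith
    have hE0 : 0 ≤ C3 * (z + X + (N : ℝ) ^ (1 - ε / 2)) := by positivity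
    obtain ⟨E, hEe⟩ : ∃ E : ℝ, E = C3 * (z + X + (N : ℝ) ^ (1 - ε / 2)) := ⟨_, rfl⟩
    have hSa : ∑ a ∈ A, (∑ d ∈ T a, |Df f N a d|) ^ 2 ≤
        2 * (∑ a ∈ A, (∑ p ∈ (Icc 1 N).filter (fun p => p.Prime ∧ z < p),
          f p * (fun (a n : ℤ) => rf (c a) X a n) a p) ^ 2) + 2 * A.card * E ^ 2 := by
      calc ∑ a ∈ A, (∑ d ∈ T a, |Df f N a d|) ^ 2
          ≤ ∑ a ∈ A, (2 * (∑ p ∈ (Icc 1 N).filter (fun p => p.Prime ∧ z < p),
              f p * (fun (a n : ℤ) => rf (c a) X a n) a p) ^ 2 + 2 * E ^ 2) := by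
            refine sum_le_sum fun a ha => ?_
            have h1 := (hc a ha).2.2
            rw [← hEe] at h1
            have h2 : (∑ d ∈ T a, |Df f N a d|) ^ 2 ≤
                (|∑ p ∈ (Icc 1 N).filter (fun p => p.Prime ∧ z < p), f p * rf (c a) X a p| + E) ^ 2 :=
              pow_le_pow_left₀ (sum_nonneg fun d _ => abs_nonneg _) h1 2
            exact h2.trans (TaskBK.two_sq _ _)
        _ = _ := by
            rw [sum_add_distrib, ← mul_sum, sum_const, nsmul_eq_mul]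
            ring
    have hfin := TaskBK.num hNr rfl rfl he0 hC1 hC2 hC3 hn1 hn2 hη1 hη2
      (Nat.cast_nonneg A.card) hlz hFs (sum_nonneg fun p _ => sq_nonneg _) rfl rfl hdu
      (hEe ▸ hE0) (hEe ▸ hE) hSa
    refine hfin.trans ?_
    have hpos : (0 : ℝ) ≤ (N / Real.log N) ^ 2 * (1 + A.card * (N : ℝ) ^ (-η)) := by positivity
    have hM5 : (0 : ℝ) ≤ 4 * (M : ℝ) ^ 5 := by positivity
    exact TaskBK.add_le hM5 hpos

end Pool.Agent.H442R2.BX
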