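import Pool.Agent.H442R2.BX.Defs
import Pool.Agent.H442R2.KF.Summ

/-!
BX project (helper442), task CO (helper704).
-/

set_option autoImplicit false

namespace Pool.Agent.H442R2.BX

open Finset
open Pool.Agent.H442R2.KF

namespace TaskCO

theorem kf_zero (m : ℤ) (n : ℕ) : kf 0 m n = 1 := by
  unfold kf; simp [e_zero]

/-- one frequency -/
noncomputable def gj (N : ℕ) (a a' : ℤ) (q d d' : ℕ) (j : ℤ) : ℂ :=
  ((Real.exp (-Real.pi * ((j : ℝ) * N / (q * d * d')) ^ 2) : ℝ) : ℂ) *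
          (e ((j : ℝ) * a / (q * d * d')) * kf (-(j * a)) ((d * d' : ℕ) : ℤ) q *
            kf (j * (a' - a)) ((q * d : ℕ) : ℤ) d')

theorem gj_zero (N : ℕ) (a a' : ℤ) (q d d' : ℕ) : gj N a a' q d d' 0 = 1 := by
  unfold gj
  simp [kf_zero, e_zero]

theorem trB_one (N : ℕ) (a a' : ℤ) (q : ℕ) (c c' : ℕ → ℝ) (j d d' : ℕ) :
    trB N a a' q 1 c c' j d d' = (c d : ℂ) * (c' d' : ℂ) *
      (((N : ℝ) / (q * d * d') : ℝ) : ℂ) * gj N a a' q d d' (j : ℤ) := by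
  unfold trB gj
  simp only [Int.cast_one, one_mul, Int.cast_natCast]
  ring

theorem trB_neg (N : ℕ) (a a' : ℤ) (q : ℕ) (c c' : ℕ → ℝ) (j d d' : ℕ) :
    trB N a a' q (-1) c c' j d d' = (c d : ℂ) * (c' d' : ℂ) *
      (((N : ℝ) / (q * d * d') : ℝ) : ℂ) * gj N a a' q d d' (-(j : ℤ)) := by
  unfold trB gj
  have h1 : ((j : ℝ) * N / (q * d * d')) ^ 2 = (((-(j : ℤ) : ℤ) : ℝ) * N / (q * d * d')) ^ 2 := by
    push_cast; ring
  have h2 : (((-1 : ℤ) : ℝ) * j * a / (q * d * d')) = (((-(j : ℤ) : ℤ) : ℝ) * a / (q * d * d')) := by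
    push_cast; ring
  have h3 : (-((-1 : ℤ) * (j : ℤ) * a)) = (-(-(j : ℤ) * a)) := by ring
  have h4 : ((-1 : ℤ) * (j : ℤ) * (a' - a)) = (-(j : ℤ) * (a' - a)) := by ring
  rw [h1, h2, h3, h4]
  ring

theorem sum_symm (g : ℤ → ℂ) (J : ℕ) : ∑ j ∈ Icc (-(J : ℤ)) J, g j =
    g 0 + ∑ j ∈ Icc 1 J, (g (j : ℤ) + g (-(j : ℤ))) := by
  induction J with
  | zero => simp
  | succ J ih =>
    have h1 : Icc (-((J + 1 : ℕ) : ℤ)) ((J + 1 : ℕ) : ℤ) =
        insert (-((J + 1 : ℕ) : ℤ)) (insert ((J + 1 : ℕ) : ℤ) (Icc (-(J : ℤ)) J)) := by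
      ext x
      simp only [mem_Icc, mem_insert]
      push_cast
      omega
    rw [h1, sum_insert, sum_insert, ih, Finset.sum_Icc_succ_top (by omega)]
    · ring
    · simp only [mem_Icc]; push_cast; omega
    · simp only [mem_Icc, mem_insert]; push_cast; omega

theorem bx_one (k : ℕ) : bx 1 k = Ioc (2 ^ k) (2 ^ (k + 1)) := by
  unfold bx
  ext x
  simp only [mem_filter, mem_Icc, mem_Ioc, one_mul]
  have : 0 < 2 ^ k := by positivity
  omega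

theorem mem_bx {q i d : ℕ} (hq : 1 ≤ q) : d ∈ bx q i ↔ 2 ^ i < q * d ∧ q * d ≤ 2 ^ (i + 1) := by
  unfold bx
  simp only [mem_filter, mem_Icc, mem_Ioc]
  constructor
  · rintro ⟨-, h1, h2⟩; exact ⟨h1, h2⟩
  · rintro ⟨h1, h2⟩
    refine ⟨⟨?_, ?_⟩, h1, h2⟩
    · rcases Nat.eq_zero_or_pos d with h | h
      · subst h; simp at h1
      · exact h
    · exact (Nat.le_mul_of_pos_left d hq).trans h2

/-- decomposition into dyadic boxes -/
theorem split_sum (q D0 X L : ℕ) (hq : 1 ≤ q) (hD : 1 ≤ D0) (hL : q * X ≤ 2 ^ L) (f : ℕ → ℝ) :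
    ∑ d ∈ Ioc D0 X, f d = ∑ i ∈ range L, ∑ d ∈ bx q i, if d ∈ Ioc D0 X then f d else 0 := by
  have h1 : ∀ i, (∑ d ∈ bx q i, if d ∈ Ioc D0 X then f d else 0) =
      ∑ d ∈ Ioc D0 X, if d ∈ bx q i then f d else 0 := by
    intro i
    rw [← sum_filter, ← sum_filter]
    refine sum_congr ?_ fun _ _ => rfl
    ext x
    simp only [mem_filter]
    tauto
  simp_rw [h1]
  rw [sum_comm]
  refine sum_congr rfl fun d hd => ?_
  rw [mem_Ioc] at hd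
  have h2 : 2 ≤ q * d := by nlinarith
  have h3 : q * d ≤ 2 ^ L := (Nat.mul_le_mul_left q hd.2).trans hL
  -- `i + 1 = clog 2 (q d)`
  obtain ⟨i, hi⟩ : ∃ i, Nat.clog 2 (q * d) = i + 1 := by
    have : Nat.clog 2 (q * d) ≠ 0 := by
      intro h
      have := Nat.clog_pos (b := 2) (by norm_num) h2
      omega
    exact ⟨Nat.clog 2 (q * d) - 1, by omega⟩
  have h4 : q * d ≤ 2 ^ (i + 1) := by
    rw [← hi]; exact Nat.le_pow_clog (by norm_num) _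
  have h5 : 2 ^ i < q * d := by
    have := Nat.pow_pred_clog_lt_self (b := 2) (by norm_num) (x := q * d) (by omega)
    rw [hi] at this
    simpa using this
  have hiL : i < L := by
    by_contra h
    have : 2 ^ L ≤ 2 ^ i := Nat.pow_le_pow_right (by norm_num) (by omega)
    omega
  rw [sum_eq_single i]
  · rw [if_pos ((mem_bx hq).2 ⟨h5, h4⟩)]
  · intro b _ hb
    rw [if_neg]
    intro hm
    rw [mem_bx hq] at hm
    rcases Nat.lt_or_gt_of_ne hb with h | h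
    · have : 2 ^ (b + 1) ≤ 2 ^ i := Nat.pow_le_pow_right (by norm_num) (by omega)
      omega
    · have : 2 ^ (i + 1) ≤ 2 ^ b := Nat.pow_le_pow_right (by norm_num) (by omega)
      omega
  · intro h
    exact absurd (mem_range.2 hiL) h

/-- one pair -/
theorem pair (N : ℕ) (hSV : ∀ (a a' : ℤ) (q d d' : ℕ), 1 ≤ q → 1 ≤ d →
      1 ≤ d' → Nat.Coprime q d → Nat.Coprime q d' → Nat.Coprime d d' →
      ((q : ℝ) * d * d') ≤ (N : ℝ) ^ 3 →
      ∀ J : ℕ, ((q : ℝ) * d * d') * Real.log N ≤ (J + 1) * N →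
      ‖((SE N a a' q d d' : ℝ) : ℂ) - (((N : ℝ) / (q * d * d') : ℝ) : ℂ) *
        ∑ j ∈ Icc (-(J : ℤ)) J, gj N a a' q d d' j‖ ≤ 1 / (N : ℝ) ^ 5)
    (a a' : ℤ) (q d d' J : ℕ) (c c' : ℕ → ℝ) (hc : CofO q c) (hc' : CofO q c')
    (hq : 1 ≤ q) (hd : 1 ≤ d) (hd' : 1 ≤ d') (hcop : Nat.Coprime d d')
    (h3 : (q : ℝ) * d * d' ≤ (N : ℝ) ^ 3)
    (hJ : ((q : ℝ) * d * d') * Real.log N ≤ (J + 1) * N) :
    ‖((c d * c' d' * (SE N a a' q d d' - N / (q * d * d')) : ℝ) : ℂ) -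
      ∑ j ∈ Icc 1 J, trB N a a' q 1 c c' j d d' -
      ∑ j ∈ Icc 1 J, trB N a a' q (-1) c c' j d d'‖ ≤ 1 / (N : ℝ) ^ 5 := by
  by_cases h0 : c d = 0
  · simp only [trB_one, trB_neg, h0]
    simp
  by_cases h0' : c' d' = 0
  · simp only [trB_one, trB_neg, h0']
    simp
  have hq1 : Nat.Coprime q d :=
    (Nat.Coprime.coprime_dvd_right (Dvd.intro_left 2 rfl) (hc.cop d h0)).symm
  have hq2 : Nat.Coprime q d' :=
    (Nat.Coprime.coprime_dvd_right (Dvd.intro_left 2 rfl) (hc'.cop d' h0')).symm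
  have h := hSV a a' q d d' hq hd hd' hq1 hq2 hcop h3 J hJ
  rw [sum_symm, gj_zero] at h
  have h1 : ((c d * c' d' * (SE N a a' q d d' - N / (q * d * d')) : ℝ) : ℂ) -
      ∑ j ∈ Icc 1 J, trB N a a' q 1 c c' j d d' -
      ∑ j ∈ Icc 1 J, trB N a a' q (-1) c c' j d d' = ((c d : ℝ) : ℂ) * ((c' d' : ℝ) : ℂ) *
      (((SE N a a' q d d' : ℝ) : ℂ) - (((N : ℝ) / (q * d * d') : ℝ) : ℂ) *
        (1 + ∑ j ∈ Icc 1 J, (gj N a a' q d d' (j : ℤ) + gj N a a' q d d' (-(j : ℤ))))) := by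
    simp only [trB_one, trB_neg]
    rw [← mul_sum, ← mul_sum, sum_add_distrib]
    push_cast
    ring
  rw [h1, norm_mul, norm_mul, Complex.norm_real, Complex.norm_real]
  have hb := hc.bd d
  have hb' := hc'.bd d'
  calc ‖c d‖ * ‖c' d'‖ * _ ≤ 1 * 1 * (1 / (N : ℝ) ^ 5) := by
        rw [Real.norm_eq_abs, Real.norm_eq_abs]
        refine mul_le_mul (mul_le_mul hb hb' (abs_nonneg _) zero_le_one) h (norm_nonneg _)
          (by norm_num)
    _ = 1 / (N : ℝ) ^ 5 := by ring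

theorem card_bx (q i : ℕ) : (bx q i).card ≤ 2 ^ (i + 1) := by
  unfold bx
  refine (card_filter_le _ _).trans ?_
  simp

/-- one box -/
theorem box (N : ℕ) (hN4 : 4 ≤ N) (hSV : ∀ (a a' : ℤ) (q d d' : ℕ), 1 ≤ q → 1 ≤ d →
      1 ≤ d' → Nat.Coprime q d → Nat.Coprime q d' → Nat.Coprime d d' →
      ((q : ℝ) * d * d') ≤ (N : ℝ) ^ 3 →
      ∀ J : ℕ, ((q : ℝ) * d * d') * Real.log N ≤ (J + 1) * N →
      ‖((SE N a a' q d d' : ℝ) : ℂ) - (((N : ℝ) / (q * d * d') : ℝ) : ℂ) *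
        ∑ j ∈ Icc (-(J : ℤ)) J, gj N a a' q d d' j‖ ≤ 1 / (N : ℝ) ^ 5)
    (T K : ℝ) (q i k : ℕ) (hq : 1 ≤ q) (a a' : ℤ)
    (c c' : ℕ → ℝ) (hc : CofO q c) (hc' : CofO q c')
    (hBB : (2 : ℝ) ^ i ≤ T → (2 : ℝ) ^ k ≤ T → ∀ σ : ℤ, (σ = 1 ∨ σ = -1) →
      ‖∑ j ∈ Icc 1 (JB N i k), ∑ d ∈ bx q i,
        ∑ d' ∈ (Ioc (2 ^ k) (2 ^ (k + 1))).filter (fun d' => Nat.Coprime d d'),
          trB N a a' q σ c c' j d d'‖ ≤ K * (2 : ℝ) ^ (max i k - min i k))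
    (D0 X : ℕ) (hD : 1 ≤ D0) (hs : ∀ d, c d ≠ 0 → d ∈ Ioc D0 X)
    (hs' : ∀ d, c' d ≠ 0 → d ∈ Ioc D0 X)
    (hT : (q : ℝ) * X ≤ T) (hTN : T ≤ N) (hK : 0 ≤ K) (R : ℝ) (hR : (q : ℝ) * X ≤ R * D0) :
    |∑ d ∈ bx q i, ∑ d' ∈ (Ioc (2 ^ k) (2 ^ (k + 1))).filter (fun d' => Nat.Coprime d d'),
      c d * c' d' * (SE N a a' q d d' - N / (q * d * d'))| ≤ 2 + 4 * K * R := by
  have hN0 : (0 : ℝ) < N := by
    have : 0 < N := by omega
    exact_mod_cast this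
  have hq0 : (1 : ℝ) ≤ q := by exact_mod_cast hq
  have hD0 : (1 : ℝ) ≤ D0 := by exact_mod_cast hD
  have hR0 : 0 ≤ R := by
    by_contra h
    push Not at h
    have : (0 : ℝ) ≤ (q : ℝ) * X := by positivity
    nlinarith
  by_cases hne : ∃ d ∈ bx q i, ∃ d' ∈ Ioc (2 ^ k) (2 ^ (k + 1)), c d ≠ 0 ∧ c' d' ≠ 0
  swap
  · have h0 : ∑ d ∈ bx q i,
        ∑ d' ∈ (Ioc (2 ^ k) (2 ^ (k + 1))).filter (fun d' => Nat.Coprime d d'),
        c d * c' d' * (SE N a a' q d d' - N / (q * d * d')) = 0 := by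
      refine sum_eq_zero fun d hd => sum_eq_zero fun d' hd' => ?_
      by_cases h1 : c d = 0
      · rw [h1]; ring
      by_cases h2 : c' d' = 0
      · rw [h2]; ring
      exact absurd ⟨d, hd, d', (mem_filter.1 hd').1, h1, h2⟩ hne
    rw [h0, abs_zero]
    positivity
  obtain ⟨d₀, hd₀, d₁, hd₁, hc₀, hc₁⟩ := hne
  rw [mem_bx hq] at hd₀
  rw [mem_Ioc] at hd₁
  have hX₀ := mem_Ioc.1 (hs d₀ hc₀)
  have hX₁ := mem_Ioc.1 (hs' d₁ hc₁)
  -- real versions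
  have e1 : (2 : ℝ) ^ i ≤ q * X := by
    have : 2 ^ i ≤ q * X := hd₀.1.le.trans (Nat.mul_le_mul_left q hX₀.2)
    exact_mod_cast this
  have e2 : (q : ℝ) * D0 ≤ 2 * 2 ^ i := by
    have : q * D0 ≤ 2 ^ (i + 1) := (Nat.mul_le_mul_left q hX₀.1.le).trans hd₀.2
    have h' : ((q * D0 : ℕ) : ℝ) ≤ ((2 ^ (i + 1) : ℕ) : ℝ) := by exact_mod_cast this
    push_cast at h'
    rw [pow_succ] at h'
    linarith
  have e3 : (2 : ℝ) ^ k ≤ X := by
    have : 2 ^ k ≤ X := hd₁.1.le.trans hX₁.2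
    exact_mod_cast this
  have e4 : (D0 : ℝ) ≤ 2 * 2 ^ k := by
    have : D0 ≤ 2 ^ (k + 1) := hX₁.1.le.trans hd₁.2
    have h' : ((D0 : ℕ) : ℝ) ≤ ((2 ^ (k + 1) : ℕ) : ℝ) := by exact_mod_cast this
    push_cast at h'
    rw [pow_succ] at h'
    linarith
  have hXq : (X : ℝ) ≤ q * X := by
    have : (0 : ℝ) ≤ X := by positivity
    nlinarith
  have hi : (2 : ℝ) ^ i ≤ T := e1.trans hT
  have hk : (2 : ℝ) ^ k ≤ T := e3.trans (hXq.trans hT)
  have hmm : (2 : ℝ) ^ (max i k - min i k) ≤ 2 * R := by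
    have hpi : (0 : ℝ) < 2 ^ i := by positivity
    have hpk : (0 : ℝ) < 2 ^ k := by positivity
    rcases le_total i k with h | h
    · rw [max_eq_right h, min_eq_left h]
      have h1 : (2 : ℝ) ^ (k - i) * 2 ^ i = 2 ^ k := by rw [← pow_add]; congr 1; omega
      -- 2^k ≤ X ≤ qX ≤ R D0 ≤ R q D0 ≤ R * 2 * 2^i
      have h2 : (2 : ℝ) ^ (k - i) * 2 ^ i ≤ (2 * R) * 2 ^ i := by
        rw [h1]
        calc (2 : ℝ) ^ k ≤ R * D0 := e3.trans (hXq.trans hR)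
          _ ≤ R * (q * D0) := by
              refine mul_le_mul_of_nonneg_left ?_ hR0
              nlinarith
          _ ≤ R * (2 * 2 ^ i) := mul_le_mul_of_nonneg_left e2 hR0
          _ = (2 * R) * 2 ^ i := by ring
      exact le_of_mul_le_mul_right h2 hpi
    · rw [max_eq_left h, min_eq_right h]
      have h1 : (2 : ℝ) ^ (i - k) * 2 ^ k = 2 ^ i := by rw [← pow_add]; congr 1; omega
      have h2 : (2 : ℝ) ^ (i - k) * 2 ^ k ≤ (2 * R) * 2 ^ k := by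
        rw [h1]
        calc (2 : ℝ) ^ i ≤ R * D0 := e1.trans hR
          _ ≤ R * (2 * 2 ^ k) := mul_le_mul_of_nonneg_left e4 hR0
          _ = (2 * R) * 2 ^ k := by ring
      exact le_of_mul_le_mul_right h2 hpk
  -- the pairs
  obtain ⟨J, hJ⟩ : ∃ J, J = JB N i k := ⟨_, rfl⟩
  have hJ1 : 4 * (2 : ℝ) ^ (i + k) * Real.log N ≤ ((J : ℝ) + 1) * N := by
    have := Nat.lt_floor_add_one (4 * (2 : ℝ) ^ (i + k) * Real.log N / N)
    rw [hJ]
    unfold JB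
    rw [div_lt_iff₀ hN0] at this
    exact this.le
  have hlog : 0 ≤ Real.log N := Real.log_natCast_nonneg N
  have hpair : ∀ d ∈ bx q i, ∀ d' ∈ (Ioc (2 ^ k) (2 ^ (k + 1))).filter
      (fun d' => Nat.Coprime d d'),
      ‖((c d * c' d' * (SE N a a' q d d' - N / (q * d * d')) : ℝ) : ℂ) -
      ∑ j ∈ Icc 1 J, trB N a a' q 1 c c' j d d' -
      ∑ j ∈ Icc 1 J, trB N a a' q (-1) c c' j d d'‖ ≤ 1 / (N : ℝ) ^ 5 := by
    intro d hd d' hd'
    rw [mem_bx hq] at hd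
    rw [mem_filter, mem_Ioc] at hd'
    have hd1 : 1 ≤ d := by
      rcases Nat.eq_zero_or_pos d with h | h
      · subst h; simp at hd
      · exact h
    have hd1' : 1 ≤ d' := by omega
    have f1 : (q : ℝ) * d ≤ 2 * 2 ^ i := by
      have h' : ((q * d : ℕ) : ℝ) ≤ ((2 ^ (i + 1) : ℕ) : ℝ) := by exact_mod_cast hd.2
      push_cast at h'
      rw [pow_succ] at h'
      linarith
    have f2 : (d' : ℝ) ≤ 2 * 2 ^ k := by
      have h' : ((d' : ℕ) : ℝ) ≤ ((2 ^ (k + 1) : ℕ) : ℝ) := by exact_mod_cast hd'.1.2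
      push_cast at h'
      rw [pow_succ] at h'
      linarith
    have f3 : (q : ℝ) * d * d' ≤ 4 * 2 ^ (i + k) := by
      calc (q : ℝ) * d * d' ≤ (2 * 2 ^ i) * (2 * 2 ^ k) := by
            refine mul_le_mul f1 f2 (by positivity) (by positivity)
        _ = 4 * 2 ^ (i + k) := by rw [pow_add]; ring
    refine pair N hSV a a' q d d' J c c' hc hc' hq hd1 hd1' hd'.2 ?_ ?_
    · calc (q : ℝ) * d * d' ≤ 4 * 2 ^ (i + k) := f3
        _ = 4 * (2 ^ i * 2 ^ k) := by rw [pow_add]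
        _ ≤ 4 * (N * N) := by
            have g1 : (2 : ℝ) ^ i ≤ N := hi.trans hTN
            have g2 : (2 : ℝ) ^ k ≤ N := hk.trans hTN
            have : (2 : ℝ) ^ i * 2 ^ k ≤ N * N := mul_le_mul g1 g2 (by positivity) hN0.le
            linarith
        _ ≤ (N : ℝ) ^ 3 := by
            have g3 : (4 : ℝ) ≤ N := by exact_mod_cast hN4
            have g4 : (0 : ℝ) ≤ N * N := by positivity
            nlinarith
    · calc (q : ℝ) * d * d' * Real.log N ≤ 4 * 2 ^ (i + k) * Real.log N :=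
            mul_le_mul_of_nonneg_right f3 hlog
        _ ≤ _ := hJ1
  obtain ⟨F, hF⟩ : ∃ F : ℕ → Finset ℕ, F = fun d =>
      (Ioc (2 ^ k) (2 ^ (k + 1))).filter (fun d' => Nat.Coprime d d') := ⟨_, rfl⟩
  have hF' : ∀ d, (Ioc (2 ^ k) (2 ^ (k + 1))).filter (fun d' => Nat.Coprime d d') = F d := by
    intro d; rw [hF]
  have hb1 := hBB hi hk 1 (Or.inl rfl)
  have hb2 := hBB hi hk (-1) (Or.inr rfl)
  rw [← hJ] at hb1 hb2
  simp only [hF'] at hb1 hb2 hpair ⊢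
  have hsw : ∀ σ : ℤ, ∑ d ∈ bx q i, ∑ d' ∈ F d, ∑ j ∈ Icc 1 J, trB N a a' q σ c c' j d d' =
      ∑ j ∈ Icc 1 J, ∑ d ∈ bx q i, ∑ d' ∈ F d, trB N a a' q σ c c' j d d' := by
    intro σ
    calc ∑ d ∈ bx q i, ∑ d' ∈ F d, ∑ j ∈ Icc 1 J, trB N a a' q σ c c' j d d' =
        ∑ d ∈ bx q i, ∑ j ∈ Icc 1 J, ∑ d' ∈ F d, trB N a a' q σ c c' j d d' :=
          sum_congr rfl fun d _ => sum_comm
      _ = _ := sum_comm
  have hcardF : ∀ d, (F d).card ≤ 2 ^ k := by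
    intro d
    rw [hF]
    refine (card_filter_le _ _).trans ?_
    rw [Nat.card_Ioc, pow_succ]
    omega
  have hsplit : ((∑ d ∈ bx q i, ∑ d' ∈ F d,
      c d * c' d' * (SE N a a' q d d' - N / (q * d * d')) : ℝ) : ℂ) =
      ∑ d ∈ bx q i, ∑ d' ∈ F d,
        (((c d * c' d' * (SE N a a' q d d' - N / (q * d * d')) : ℝ) : ℂ) -
        ∑ j ∈ Icc 1 J, trB N a a' q 1 c c' j d d' -
        ∑ j ∈ Icc 1 J, trB N a a' q (-1) c c' j d d') +
      ∑ j ∈ Icc 1 J, ∑ d ∈ bx q i, ∑ d' ∈ F d, trB N a a' q 1 c c' j d d' +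
      ∑ j ∈ Icc 1 J, ∑ d ∈ bx q i, ∑ d' ∈ F d, trB N a a' q (-1) c c' j d d' := by
    rw [← hsw, ← hsw]
    simp only [sum_sub_distrib]
    push_cast
    ring
  have hE : ‖∑ d ∈ bx q i, ∑ d' ∈ F d,
        (((c d * c' d' * (SE N a a' q d d' - N / (q * d * d')) : ℝ) : ℂ) -
        ∑ j ∈ Icc 1 J, trB N a a' q 1 c c' j d d' -
        ∑ j ∈ Icc 1 J, trB N a a' q (-1) c c' j d d')‖ ≤ 2 := by
    calc _ ≤ ∑ d ∈ bx q i, ‖∑ d' ∈ F d,
        (((c d * c' d' * (SE N a a' q d d' - N / (q * d * d')) : ℝ) : ℂ) -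
        ∑ j ∈ Icc 1 J, trB N a a' q 1 c c' j d d' -
        ∑ j ∈ Icc 1 J, trB N a a' q (-1) c c' j d d')‖ := norm_sum_le _ _
      _ ≤ ∑ d ∈ bx q i, (2 : ℝ) ^ k * (1 / (N : ℝ) ^ 5) := by
          refine sum_le_sum fun d hd => ?_
          calc _ ≤ ∑ d' ∈ F d, (1 / (N : ℝ) ^ 5) :=
                (norm_sum_le _ _).trans (sum_le_sum fun d' hd' => hpair d hd d' hd')
            _ = (F d).card * (1 / (N : ℝ) ^ 5) := by rw [sum_const, nsmul_eq_mul]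
            _ ≤ (2 : ℝ) ^ k * (1 / (N : ℝ) ^ 5) := by
                refine mul_le_mul_of_nonneg_right ?_ (by positivity)
                exact_mod_cast hcardF d
      _ = (bx q i).card * ((2 : ℝ) ^ k * (1 / (N : ℝ) ^ 5)) := by rw [sum_const, nsmul_eq_mul]
      _ ≤ (2 * 2 ^ i) * ((2 : ℝ) ^ k * (1 / (N : ℝ) ^ 5)) := by
          refine mul_le_mul_of_nonneg_right ?_ (by positivity)
          have := card_bx q i
          have h' : ((bx q i).card : ℝ) ≤ ((2 ^ (i + 1) : ℕ) : ℝ) := by exact_mod_cast this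
          push_cast at h'
          rw [pow_succ] at h'
          linarith
      _ ≤ (2 * N) * (N * (1 / (N : ℝ) ^ 5)) := by
          have g1 : (2 : ℝ) ^ i ≤ N := hi.trans hTN
          have g2 : (2 : ℝ) ^ k ≤ N := hk.trans hTN
          gcongr
      _ ≤ 2 := by
          have g3 : (1 : ℝ) ≤ N := by
            have : 1 ≤ N := by omega
            exact_mod_cast this
          have g4 : (N : ℝ) ^ 2 ≤ (N : ℝ) ^ 5 := pow_le_pow_right₀ g3 (by norm_num)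
          have g5 : (0 : ℝ) < (N : ℝ) ^ 5 := by positivity
          have g6 : (2 * (N : ℝ)) * (N * (1 / (N : ℝ) ^ 5)) = 2 * ((N : ℝ) ^ 2 / (N : ℝ) ^ 5) := by
            ring
          rw [g6]
          have : (N : ℝ) ^ 2 / (N : ℝ) ^ 5 ≤ 1 := (div_le_one g5).2 g4
          linarith
  have hfin : |∑ d ∈ bx q i, ∑ d' ∈ F d,
      c d * c' d' * (SE N a a' q d d' - N / (q * d * d'))| =
      ‖((∑ d ∈ bx q i, ∑ d' ∈ F d,
      c d * c' d' * (SE N a a' q d d' - N / (q * d * d')) : ℝ) : ℂ)‖ := by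
    rw [Complex.norm_real, Real.norm_eq_abs]
  rw [hfin, hsplit]
  refine (norm_add₃_le).trans ?_
  have hm : K * (2 : ℝ) ^ (max i k - min i k) ≤ K * (2 * R) := mul_le_mul_of_nonneg_left hmm hK
  linarith

theorem clog_le (ε : ℝ) (hε : 0 < ε) : ∃ C : ℝ, 0 < C ∧ ∀ N : ℕ, 2 ≤ N →
    ((Nat.clog 2 N : ℕ) : ℝ) ≤ C * (N : ℝ) ^ ε := by
  refine ⟨1 + 2 / ε, by positivity, fun N hN => ?_⟩
  have hN1 : (1 : ℝ) ≤ N := by
    have : 1 ≤ N := by omega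
    exact_mod_cast this
  have hN0 : (0 : ℝ) < N := by linarith
  have h1 : 2 ^ (Nat.clog 2 N).pred < N := Nat.pow_pred_clog_lt_self (by norm_num) (by omega)
  have h2 : 1 ≤ Nat.clog 2 N := Nat.clog_pos (by norm_num) hN
  obtain ⟨L, hL⟩ : ∃ L, Nat.clog 2 N = L + 1 := ⟨Nat.clog 2 N - 1, by omega⟩
  rw [hL] at h1 ⊢
  simp only [Nat.pred_succ] at h1
  have h3 : (2 : ℝ) ^ L < N := by exact_mod_cast h1
  have h4 : (L : ℝ) * Real.log 2 < Real.log N := by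
    rw [← Real.log_pow]
    exact Real.log_lt_log (by positivity) h3
  have h5 := Real.log_two_gt_d9
  have h6 : (L : ℝ) ≤ 2 * Real.log N := by
    have : (0 : ℝ) ≤ L := Nat.cast_nonneg _
    nlinarith
  have h7 : Real.log N ≤ (N : ℝ) ^ ε / ε := Real.log_le_rpow_div hN0.le hε
  have h8 : (1 : ℝ) ≤ (N : ℝ) ^ ε := Real.one_le_rpow hN1 hε.le
  push_cast
  calc (L : ℝ) + 1 ≤ 2 * ((N : ℝ) ^ ε / ε) + (N : ℝ) ^ ε := by linarith
    _ = (1 + 2 / ε) * (N : ℝ) ^ ε := by ring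

theorem SE_nonneg (N : ℕ) (a a' : ℤ) (q d d' : ℕ) : 0 ≤ SE N a a' q d d' := by
  unfold SE
  refine tsum_nonneg fun n => ?_
  split_ifs
  · exact (Real.exp_pos _).le
  · exact le_rfl

theorem SE_le (N : ℕ) (hN : 1 ≤ N) (a a' : ℤ) (q d d' : ℕ) :
    SE N a a' q d d' ≤ ∑' n : ℤ, Wt N n := by
  have hW : ∀ n : ℤ, 0 ≤ Wt N n := fun n => (Real.exp_pos _).le
  have hle : ∀ n : ℤ, (if ((q : ℤ) ∣ n ∧ (d : ℤ) ∣ n - a ∧ (d' : ℤ) ∣ n - a') then Wt N n else 0) ≤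
      Wt N n := by
    intro n
    split_ifs
    · exact le_rfl
    · exact hW n
  have hS := TaskS.summable_Wt N hN
  unfold SE
  refine Summable.tsum_le_tsum hle ?_ hS
  refine Summable.of_nonneg_of_le (fun n => ?_) hle hS
  split_ifs
  · exact hW n
  · exact le_rfl

/-- small `N` -/
theorem triv (N : ℕ) (hN : 1 ≤ N) (q D0 X : ℕ) (hX : X ≤ N) (a a' : ℤ) (hq : 1 ≤ q)
    (c c' : ℕ → ℝ) (hc : CofO q c) (hc' : CofO q c') :
    |∑ d ∈ Ioc D0 X, ∑ d' ∈ (Ioc D0 X).filter (fun d' => Nat.Coprime d d'), c d * c' d' *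
      (SE N a a' q d d' - N / (q * d * d'))| ≤ (N : ℝ) ^ 2 * ((∑' n : ℤ, Wt N n) + N) := by
  have hW0 : 0 ≤ ∑' n : ℤ, Wt N n := tsum_nonneg fun n => (Real.exp_pos _).le
  have hN0 : (0 : ℝ) ≤ N := Nat.cast_nonneg _
  have hXN : (X : ℝ) ≤ N := by exact_mod_cast hX
  have hB : 0 ≤ (∑' n : ℤ, Wt N n) + N := by positivity
  have hterm : ∀ d ∈ Ioc D0 X, ∀ d' ∈ (Ioc D0 X).filter (fun d' => Nat.Coprime d d'),
      |c d * c' d' * (SE N a a' q d d' - N / (q * d * d'))| ≤ (∑' n : ℤ, Wt N n) + N := by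
    intro d hd d' hd'
    rw [mem_filter] at hd'
    rw [mem_Ioc] at hd
    have hd'' := mem_Ioc.1 hd'.1
    rw [abs_mul, abs_mul]
    have h1 : |SE N a a' q d d' - N / (q * d * d')| ≤ (∑' n : ℤ, Wt N n) + N := by
      have h2 := SE_nonneg N a a' q d d'
      have h3 := SE_le N hN a a' q d d'
      have h4 : (0 : ℝ) ≤ N / (q * d * d') := by positivity
      have h5 : (N : ℝ) / (q * d * d') ≤ N := by
        have : (1 : ℝ) ≤ (q : ℝ) * d * d' := by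
          have : 1 ≤ q * d * d' := Nat.mul_pos (Nat.mul_pos hq (by omega)) (by omega)
          exact_mod_cast this
        exact div_le_self hN0 this
      rw [abs_le]
      constructor <;> linarith
    calc |c d| * |c' d'| * _ ≤ 1 * 1 * ((∑' n : ℤ, Wt N n) + N) :=
          mul_le_mul (mul_le_mul (hc.bd d) (hc'.bd d') (abs_nonneg _) zero_le_one) h1
            (abs_nonneg _) (by norm_num)
      _ = _ := by ring
  have hcard : ((Ioc D0 X).card : ℝ) ≤ N := by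
    rw [Nat.card_Ioc]
    exact_mod_cast (Nat.sub_le _ _).trans hX
  calc _ ≤ ∑ d ∈ Ioc D0 X, |∑ d' ∈ (Ioc D0 X).filter (fun d' => Nat.Coprime d d'), c d * c' d' *
        (SE N a a' q d d' - N / (q * d * d'))| := abs_sum_le_sum_abs _ _
    _ ≤ ∑ d ∈ Ioc D0 X, (N : ℝ) * ((∑' n : ℤ, Wt N n) + N) := by
        refine sum_le_sum fun d hd => ?_
        calc _ ≤ ∑ d' ∈ (Ioc D0 X).filter (fun d' => Nat.Coprime d d'),
              ((∑' n : ℤ, Wt N n) + N) :=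
              (abs_sum_le_sum_abs _ _).trans (sum_le_sum fun d' hd' => hterm d hd d' hd')
          _ = (((Ioc D0 X).filter (fun d' => Nat.Coprime d d')).card : ℝ) *
              ((∑' n : ℤ, Wt N n) + N) := by rw [sum_const, nsmul_eq_mul]
          _ ≤ _ := by
              refine mul_le_mul_of_nonneg_right (le_trans ?_ hcard) hB
              exact_mod_cast card_filter_le _ _
    _ = ((Ioc D0 X).card : ℝ) * ((N : ℝ) * ((∑' n : ℤ, Wt N n) + N)) := by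
        rw [sum_const, nsmul_eq_mul]
    _ ≤ (N : ℝ) * ((N : ℝ) * ((∑' n : ℤ, Wt N n) + N)) :=
        mul_le_mul_of_nonneg_right hcard (by positivity)
    _ = _ := by ring

/-- the double sum as a sum over boxes -/
theorem boxes (q D0 X L : ℕ) (hq : 1 ≤ q) (hD : 1 ≤ D0) (hL : q * X ≤ 2 ^ L) (c c' : ℕ → ℝ)
    (G : ℕ → ℕ → ℝ) :
    ∑ d ∈ Ioc D0 X, ∑ d' ∈ (Ioc D0 X).filter (fun d' => Nat.Coprime d d'), c d * c' d' * G d d' =
    ∑ i ∈ range L, ∑ k ∈ range L, ∑ d ∈ bx q i,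
      ∑ d' ∈ (Ioc (2 ^ k) (2 ^ (k + 1))).filter (fun d' => Nat.Coprime d d'),
        (if d ∈ Ioc D0 X then c d else 0) * (if d' ∈ Ioc D0 X then c' d' else 0) * G d d' := by
  have hL' : 1 * X ≤ 2 ^ L := by
    rw [one_mul]; exact (Nat.le_mul_of_pos_left X hq).trans hL
  rw [split_sum q D0 X L hq hD hL]
  refine sum_congr rfl fun i _ => ?_
  rw [sum_comm]
  refine sum_congr rfl fun d _ => ?_
  by_cases hd : d ∈ Ioc D0 X
  · rw [if_pos hd, if_pos hd, sum_filter, split_sum 1 D0 X L le_rfl hD hL']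
    refine sum_congr rfl fun k _ => ?_
    rw [bx_one, sum_filter]
    refine sum_congr rfl fun d' _ => ?_
    by_cases h1 : d' ∈ Ioc D0 X
    · rw [if_pos h1, if_pos h1]
    · rw [if_neg h1, if_neg h1]
      simp
  · rw [if_neg hd, if_neg hd]
    symm
    refine sum_eq_zero fun k _ => sum_eq_zero fun d' _ => ?_
    ring

end TaskCO

open TaskCO in
/-- CO (Co.lean) -/
theorem CO (hBB : St_BB) (hSV : St_SV) : St_CO := by
  intro θ hθ
  obtain ⟨θ₁, hθ₁⟩ : ∃ θ₁ : ℝ, θ₁ = max θ (1 / 2) := ⟨_, rfl⟩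
  have h1 : θ ≤ θ₁ := hθ₁ ▸ le_max_left _ _
  have h2 : 1 / 2 ≤ θ₁ := hθ₁ ▸ le_max_right _ _
  have h3 : θ₁ < 14 / 27 := by rw [hθ₁]; exact max_lt hθ (by norm_num)
  obtain ⟨θ', hθ'⟩ : ∃ θ' : ℝ, θ' = (θ₁ + 14 / 27) / 2 := ⟨_, rfl⟩
  have h4 : θ₁ < θ' := by rw [hθ']; linarith
  have h5 : θ' < 14 / 27 := by rw [hθ']; linarith
  obtain ⟨η₁, C₁, hη₁, hC₁, hBB'⟩ := hBB θ' h5
  obtain ⟨N₀, hSV'⟩ := hSV
  obtain ⟨η₂, hη₂⟩ : ∃ η₂ : ℝ, η₂ = min η₁ 1 := ⟨_, rfl⟩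
  have h6 : 0 < η₂ := by rw [hη₂]; exact lt_min hη₁ one_pos
  have h7 : η₂ ≤ η₁ := hη₂ ▸ min_le_left _ _
  have h8 : η₂ ≤ 1 := hη₂ ▸ min_le_right _ _
  obtain ⟨ε₀, hε₀⟩ : ∃ ε₀ : ℝ, ε₀ = min (θ' - θ₁) (η₂ / 16) := ⟨_, rfl⟩
  have h9 : 0 < ε₀ := by rw [hε₀]; exact lt_min (by linarith) (by positivity)
  have h10 : ε₀ ≤ θ' - θ₁ := hε₀ ▸ min_le_left _ _
  have h11 : ε₀ ≤ η₂ / 16 := hε₀ ▸ min_le_right _ _
  obtain ⟨C₂, hC₂, hclog⟩ := clog_le (η₂ / 8) (by positivity)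
  obtain ⟨K₀, hK₀⟩ : ∃ K₀ : ℝ, K₀ = ∑ N ∈ range (max N₀ 4),
    (N : ℝ) ^ 2 * ((∑' n : ℤ, Wt N n) + N) := ⟨_, rfl⟩
  have hKterm : ∀ N : ℕ, 0 ≤ (N : ℝ) ^ 2 * ((∑' n : ℤ, Wt N n) + N) := by
    intro N
    have : 0 ≤ ∑' n : ℤ, Wt N n := tsum_nonneg fun n => (Real.exp_pos _).le
    positivity
  have hK₀' : 0 ≤ K₀ := by rw [hK₀]; exact sum_nonneg fun N _ => hKterm N
  refine ⟨ε₀, η₂ / 2, K₀ + C₂ ^ 2 * (2 + 4 * C₁), h9, by positivity, by positivity, ?_⟩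
  intro N q D0 X hN hq hodd hqN hX hD hXD a a' ha ha' haa c c' hc hc'
  have hN1 : (1 : ℝ) ≤ N := by
    have : 1 ≤ N := by omega
    exact_mod_cast this
  have hN0 : (0 : ℝ) < N := by linarith
  have hX' : (X : ℝ) ≤ (N : ℝ) ^ θ₁ := hX.trans (Real.rpow_le_rpow_of_exponent_le hN1 h1)
  have hXN : X ≤ N := by
    have : (X : ℝ) ≤ (N : ℝ) ^ (1 : ℝ) :=
      hX'.trans (Real.rpow_le_rpow_of_exponent_le hN1 (by linarith))
    rw [Real.rpow_one] at this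
    exact_mod_cast this
  have hη : (1 : ℝ) ≤ (N : ℝ) ^ (1 - η₂ / 2) := Real.one_le_rpow hN1 (by linarith)
  have hC2' : 0 ≤ C₂ ^ 2 * (2 + 4 * C₁) := by positivity
  rcases lt_or_ge N (max N₀ 4) with hsm | hlg
  · have h12 := triv N (by omega) q D0 X hXN a a' hq c c' hc hc'
    have h13 : (N : ℝ) ^ 2 * ((∑' n : ℤ, Wt N n) + N) ≤ K₀ := by
      rw [hK₀]
      exact single_le_sum (f := fun N : ℕ => (N : ℝ) ^ 2 * ((∑' n : ℤ, Wt N n) + N))
        (fun N _ => hKterm N) (mem_range.2 hsm)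
    calc _ ≤ K₀ := h12.trans h13
      _ ≤ (K₀ + C₂ ^ 2 * (2 + 4 * C₁)) * 1 := by linarith
      _ ≤ _ := mul_le_mul_of_nonneg_left hη (by positivity)
  · have hNN₀ : N₀ ≤ N := (le_max_left _ _).trans hlg
    have hN4 : 4 ≤ N := (le_max_right _ _).trans hlg
    have hq1 : (1 : ℝ) ≤ q := by exact_mod_cast hq
    have hqX : (q : ℝ) * X ≤ (N : ℝ) ^ θ' := by
      calc (q : ℝ) * X ≤ (N : ℝ) ^ ε₀ * (N : ℝ) ^ θ₁ :=
            mul_le_mul hqN hX' (Nat.cast_nonneg _) (by positivity)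
        _ = (N : ℝ) ^ (ε₀ + θ₁) := (Real.rpow_add hN0 _ _).symm
        _ ≤ (N : ℝ) ^ θ' := Real.rpow_le_rpow_of_exponent_le hN1 (by linarith)
    have hTN : (N : ℝ) ^ θ' ≤ N := by
      have : (N : ℝ) ^ θ' ≤ (N : ℝ) ^ (1 : ℝ) :=
        Real.rpow_le_rpow_of_exponent_le hN1 (by linarith)
      rwa [Real.rpow_one] at this
    have hqXN : q * X ≤ N := by exact_mod_cast hqX.trans hTN
    have hL : q * X ≤ 2 ^ (Nat.clog 2 N) := hqXN.trans (Nat.le_pow_clog (by norm_num) _)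
    rw [boxes q D0 X (Nat.clog 2 N) hq hD hL c c'
      (fun d d' => SE N a a' q d d' - N / (q * d * d'))]
    -- restricted coefficients
    have hr : ∀ b : ℕ → ℝ, CofO q b → CofO q (fun d => if d ∈ Ioc D0 X then b d else 0) := by
      intro b hb
      refine ⟨fun d => ?_, fun d hd => ?_⟩
      · by_cases h : d ∈ Ioc D0 X
        · simp only [if_pos h]; exact hb.bd d
        · simp only [if_neg h]; simp
      · by_cases h : d ∈ Ioc D0 X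
        · simp only [if_pos h] at hd; exact hb.cop d hd
        · simp only [if_neg h] at hd; exact absurd rfl hd
    have hrs : ∀ b : ℕ → ℝ, ∀ d, (fun d => if d ∈ Ioc D0 X then b d else 0) d ≠ 0 →
        d ∈ Ioc D0 X := by
      intro b d hd
      by_contra h
      simp only [if_neg h] at hd
      exact hd rfl
    have hqN2 : (q : ℝ) ^ 2 ≤ (N : ℝ) ^ (2 * ε₀) := by
      calc (q : ℝ) ^ 2 ≤ ((N : ℝ) ^ ε₀) ^ 2 := pow_le_pow_left₀ (by positivity) hqN 2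
        _ = (N : ℝ) ^ (2 * ε₀) := by
            rw [← Real.rpow_natCast, ← Real.rpow_mul hN0.le]
            congr 1
            push_cast
            ring
    have hRR : (q : ℝ) * X ≤ (N : ℝ) ^ (2 * ε₀) * D0 := by
      calc (q : ℝ) * X ≤ (N : ℝ) ^ ε₀ * ((N : ℝ) ^ ε₀ * D0) :=
            mul_le_mul hqN hXD (Nat.cast_nonneg _) (by positivity)
        _ = ((N : ℝ) ^ ε₀ * (N : ℝ) ^ ε₀) * D0 := by ring
        _ = (N : ℝ) ^ (2 * ε₀) * D0 := by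
            rw [← Real.rpow_add hN0]
            congr 2
            ring
    have hbox : ∀ i k : ℕ, |∑ d ∈ bx q i,
        ∑ d' ∈ (Ioc (2 ^ k) (2 ^ (k + 1))).filter (fun d' => Nat.Coprime d d'),
        (if d ∈ Ioc D0 X then c d else 0) * (if d' ∈ Ioc D0 X then c' d' else 0) *
          (SE N a a' q d d' - N / (q * d * d'))| ≤ (2 + 4 * C₁) * (N : ℝ) ^ (1 - 3 * η₂ / 4) := by
      intro i k
      have h12 := box N hN4 (hSV' N hNN₀) ((N : ℝ) ^ θ') (C₁ * (q : ℝ) ^ 2 * (N : ℝ) ^ (1 - η₁))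
        q i k hq a a' _ _ (hr c hc) (hr c' hc')
        (fun hi hk σ hσ => by
          have := hBB' N q i k (by omega) hq hodd hi hk a a' σ ha ha' haa hσ _ _ (hr c hc)
            (hr c' hc')
          refine this.trans (le_of_eq ?_)
          ring)
        D0 X hD (hrs c) (hrs c') hqX hTN (by positivity) ((N : ℝ) ^ (2 * ε₀)) hRR
      refine h12.trans ?_
      have h13 : C₁ * (q : ℝ) ^ 2 * (N : ℝ) ^ (1 - η₁) * (N : ℝ) ^ (2 * ε₀) ≤
          C₁ * (N : ℝ) ^ (1 - 3 * η₂ / 4) := by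
        calc C₁ * (q : ℝ) ^ 2 * (N : ℝ) ^ (1 - η₁) * (N : ℝ) ^ (2 * ε₀) ≤
            C₁ * (N : ℝ) ^ (2 * ε₀) * (N : ℝ) ^ (1 - η₁) * (N : ℝ) ^ (2 * ε₀) := by gcongr
          _ = C₁ * ((N : ℝ) ^ (2 * ε₀) * (N : ℝ) ^ (1 - η₁) * (N : ℝ) ^ (2 * ε₀)) := by ring
          _ = C₁ * (N : ℝ) ^ (2 * ε₀ + (1 - η₁) + 2 * ε₀) := by
              rw [← Real.rpow_add hN0, ← Real.rpow_add hN0]
          _ ≤ C₁ * (N : ℝ) ^ (1 - 3 * η₂ / 4) := by
              refine mul_le_mul_of_nonneg_left ?_ hC₁.le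
              exact Real.rpow_le_rpow_of_exponent_le hN1 (by linarith)
      have h14 : (1 : ℝ) ≤ (N : ℝ) ^ (1 - 3 * η₂ / 4) := Real.one_le_rpow hN1 (by linarith)
      nlinarith
    have hcl := hclog N hN
    have hcl0 : (0 : ℝ) ≤ ((Nat.clog 2 N : ℕ) : ℝ) := Nat.cast_nonneg _
    calc _ ≤ ∑ i ∈ range (Nat.clog 2 N), ∑ k ∈ range (Nat.clog 2 N),
          (2 + 4 * C₁) * (N : ℝ) ^ (1 - 3 * η₂ / 4) := by
          refine (abs_sum_le_sum_abs _ _).trans (sum_le_sum fun i _ => ?_)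
          refine (abs_sum_le_sum_abs _ _).trans (sum_le_sum fun k _ => ?_)
          exact hbox i k
      _ = ((Nat.clog 2 N : ℕ) : ℝ) * (((Nat.clog 2 N : ℕ) : ℝ) *
          ((2 + 4 * C₁) * (N : ℝ) ^ (1 - 3 * η₂ / 4))) := by
          rw [sum_const, sum_const, card_range, nsmul_eq_mul, nsmul_eq_mul]
      _ ≤ (C₂ * (N : ℝ) ^ (η₂ / 8)) * ((C₂ * (N : ℝ) ^ (η₂ / 8)) *
          ((2 + 4 * C₁) * (N : ℝ) ^ (1 - 3 * η₂ / 4))) := by
          have h15 : 0 ≤ (2 + 4 * C₁) * (N : ℝ) ^ (1 - 3 * η₂ / 4) := by positivity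
          refine mul_le_mul hcl (mul_le_mul_of_nonneg_right hcl h15) (by positivity)
            (by positivity)
      _ = C₂ ^ 2 * (2 + 4 * C₁) * ((N : ℝ) ^ (η₂ / 8) * (N : ℝ) ^ (η₂ / 8) *
          (N : ℝ) ^ (1 - 3 * η₂ / 4)) := by ring
      _ = C₂ ^ 2 * (2 + 4 * C₁) * (N : ℝ) ^ (1 - η₂ / 2) := by
          rw [← Real.rpow_add hN0, ← Real.rpow_add hN0]
          congr 2
          ring
      _ ≤ (K₀ + C₂ ^ 2 * (2 + 4 * C₁)) * (N : ℝ) ^ (1 - η₂ / 2) := by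
          refine mul_le_mul_of_nonneg_right (by linarith) (by positivity)

end Pool.Agent.H442R2.BX
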