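import Pool.Agent.H442R2.BX.Defs
import Pool.Agent.H442R2.KF.Summ

/-!
BX project, task DI: the diagonal.
-/

namespace Pool.Agent.H442R2.BX

open Finset
open Pool.Agent.H442R2.KF

namespace TaskDI

theorem nuS_nonneg (lam : ℕ → ℝ) (z : ℕ) (n : ℤ) : 0 ≤ nuS lam z n := sq_nonneg _

theorem nuS_le {lam : ℕ → ℝ} {z : ℕ} (hl : ∀ q, |lam q| ≤ 1) (n : ℤ) :
    nuS lam z n ≤ (z : ℝ) ^ 2 := by
  unfold nuS
  rw [← sq_abs]
  refine pow_le_pow_left₀ (abs_nonneg _) ?_ 2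
  refine (Finset.abs_sum_le_sum_abs _ _).trans ?_
  refine (Finset.sum_le_sum fun q _ => hl q).trans ?_
  rw [Finset.sum_const, nsmul_eq_mul, mul_one]
  have h : ((Icc 1 z).filter (fun q : ℕ => (q : ℤ) ∣ n)).card ≤ (Icc 1 z).card :=
    Finset.card_filter_le _ _
  rw [Nat.card_Icc, Nat.add_sub_cancel] at h
  exact_mod_cast h

theorem sum_nuS {lam : ℕ → ℝ} {z : ℕ} (hl : ∀ q, |lam q| ≤ 1) (N : ℕ) (hN : 1 ≤ N) :
    Summable (fun n : ℤ => Wt N n * nuS lam z n) := by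
  have h1 := (KF.TaskS.summable_Wt N hN).mul_right ((z : ℝ) ^ 2)
  refine Summable.of_nonneg_of_le (fun n => ?_) (fun n => ?_) h1
  · exact mul_nonneg (Real.exp_pos _).le (nuS_nonneg _ _ _)
  · exact mul_le_mul_of_nonneg_left (nuS_le hl n) (Real.exp_pos _).le

end TaskDI

open TaskDI in
/-- Task DI. -/
theorem DI (hPB : St_PB) (hGS : St_GS) (hGW : St_GW) : St_DI := by
  intro ε hε
  obtain ⟨N₁, C₁, hC₁, hP⟩ := hPB ε hε
  obtain ⟨N₂, hG⟩ := hGW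
  refine ⟨max (max N₁ N₂) 1, 12 * C₁ ^ 2, by positivity, ?_⟩
  intro N z X hN hX hz hzN lam hlam c hc a ha
  have hN1 : N₁ ≤ N := (le_max_left _ _).trans ((le_max_left _ _).trans hN)
  have hN2 : N₂ ≤ N := (le_max_right _ _).trans ((le_max_left _ _).trans hN)
  have hN3 : 1 ≤ N := (le_max_right _ _).trans hN
  have hNr : (1 : ℝ) ≤ N := by exact_mod_cast hN3
  have hsq : ∀ n : ℤ, rf c X a n * rf c X a n ≤ C₁ ^ 2 * (1 + |(n : ℝ)| / N) := by
    intro n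
    have h1 := hP N X hN1 hX c hc a n ha
    have h0 : 0 ≤ |(n : ℝ)| / N := div_nonneg (abs_nonneg _) (by linarith)
    have h2 : (((1 + |(n : ℝ)| / N) ^ (1 / 4 : ℝ)) ^ 2 : ℝ) ≤ 1 + |(n : ℝ)| / N := by
      rw [← Real.rpow_natCast, ← Real.rpow_mul (by linarith)]
      calc (1 + |(n : ℝ)| / N) ^ ((1 / 4 : ℝ) * (2 : ℕ))
          ≤ (1 + |(n : ℝ)| / N) ^ (1 : ℝ) :=
            Real.rpow_le_rpow_of_exponent_le (by linarith) (by norm_num)
        _ = _ := Real.rpow_one _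
    calc rf c X a n * rf c X a n = |rf c X a n| ^ 2 := by rw [sq_abs, sq]
      _ ≤ (C₁ * (1 + |(n : ℝ)| / N) ^ (1 / 4 : ℝ)) ^ 2 :=
          pow_le_pow_left₀ (abs_nonneg _) h1 2
      _ = C₁ ^ 2 * ((1 + |(n : ℝ)| / N) ^ (1 / 4 : ℝ)) ^ 2 := by ring
      _ ≤ _ := mul_le_mul_of_nonneg_left h2 (by positivity)
  have hle : ∀ n : ℤ, Wt N n * nuS lam z n * (rf c X a n * rf c X a n) ≤
      2 * C₁ ^ 2 * (Wt (2 * N) n * nuS lam z n) := by
    intro n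
    have hw : 0 ≤ Wt N n := (Real.exp_pos _).le
    have hnu := nuS_nonneg lam z n
    calc Wt N n * nuS lam z n * (rf c X a n * rf c X a n)
        ≤ Wt N n * nuS lam z n * (C₁ ^ 2 * (1 + |(n : ℝ)| / N)) :=
          mul_le_mul_of_nonneg_left (hsq n) (mul_nonneg hw hnu)
      _ = C₁ ^ 2 * nuS lam z n * (Wt N n * (1 + |(n : ℝ)| / N)) := by ring
      _ ≤ C₁ ^ 2 * nuS lam z n * (2 * Wt (2 * N) n) :=
          mul_le_mul_of_nonneg_left ((hGS N hN3).1 n) (mul_nonneg (sq_nonneg _) hnu)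
      _ = _ := by ring
  have hs := (sum_nuS (lam := lam) (z := z) hlam.bd (2 * N) (by omega)).mul_left (2 * C₁ ^ 2)
  have h0 : ∀ n : ℤ, 0 ≤ Wt N n * nuS lam z n * (rf c X a n * rf c X a n) := fun n =>
    mul_nonneg (mul_nonneg (Real.exp_pos _).le (nuS_nonneg _ _ _)) (mul_self_nonneg _)
  have hs0 : Summable (fun n : ℤ => Wt N n * nuS lam z n * (rf c X a n * rf c X a n)) :=
    Summable.of_nonneg_of_le h0 hle hs
  have hfin := hG (2 * N) z (by omega) hz (hzN.trans (by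
    refine Real.rpow_le_rpow (by linarith) ?_ (by norm_num)
    push_cast
    linarith)) lam hlam
  calc ∑' n : ℤ, Wt N n * nuS lam z n * (rf c X a n * rf c X a n)
      ≤ ∑' n : ℤ, 2 * C₁ ^ 2 * (Wt (2 * N) n * nuS lam z n) := hs0.tsum_le_tsum hle hs
    _ = 2 * C₁ ^ 2 * ∑' n : ℤ, Wt (2 * N) n * nuS lam z n := tsum_mul_left
    _ ≤ 2 * C₁ ^ 2 * (3 * ((2 * N : ℕ) : ℝ) / Real.log z) :=
        mul_le_mul_of_nonneg_left hfin (by positivity)
    _ = 12 * C₁ ^ 2 * N / Real.log z := by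
        push_cast
        ring

end Pool.Agent.H442R2.BX
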