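import Pool.Agent.H442R2.BX.Defs

set_option autoImplicit false

/-! Task DU: duality (Bessel). -/

namespace Pool.Agent.H442R2.BX

open Finset

namespace TaskDU

variable {w : ℤ → ℝ} {A : Finset ℤ} {r : ℤ → ℤ → ℝ} {Y : ℤ → ℝ}

/-- expansion of the square -/
theorem expand (n : ℤ) : w n * (∑ a ∈ A, Y a * r a n) ^ 2 =
    ∑ a ∈ A, ∑ a' ∈ A, Y a * Y a' * (w n * (r a n * r a' n)) := by
  rw [pow_two, Finset.sum_mul_sum, Finset.mul_sum]
  apply Finset.sum_congr rfl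
  intro a _
  rw [Finset.mul_sum]
  apply Finset.sum_congr rfl
  intro a' _
  ring

theorem summ (hs : ∀ a ∈ A, ∀ a' ∈ A, Summable (fun n : ℤ => w n * (r a n * r a' n))) :
    Summable (fun n : ℤ => w n * (∑ a ∈ A, Y a * r a n) ^ 2) := by
  have e : (fun n : ℤ => w n * (∑ a ∈ A, Y a * r a n) ^ 2) =
      fun n : ℤ => ∑ a ∈ A, ∑ a' ∈ A, Y a * Y a' * (w n * (r a n * r a' n)) :=
    funext (fun n => expand n)
  rw [e]
  apply summable_sum
  intro a ha
  apply summable_sum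
  intro a' ha'
  exact (hs a ha a' ha').mul_left _

theorem tsum_eq (hs : ∀ a ∈ A, ∀ a' ∈ A, Summable (fun n : ℤ => w n * (r a n * r a' n))) :
    ∑' n : ℤ, w n * (∑ a ∈ A, Y a * r a n) ^ 2 =
      ∑ a ∈ A, ∑ a' ∈ A, Y a * Y a' * ∑' n : ℤ, w n * (r a n * r a' n) := by
  have e : (fun n : ℤ => w n * (∑ a ∈ A, Y a * r a n) ^ 2) =
      fun n : ℤ => ∑ a ∈ A, ∑ a' ∈ A, Y a * Y a' * (w n * (r a n * r a' n)) :=
    funext (fun n => expand n)
  rw [e, Summable.tsum_finsetSum (fun a ha => summable_sum (fun a' ha' =>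
    (hs a ha a' ha').mul_left _))]
  apply Finset.sum_congr rfl
  intro a ha
  rw [Summable.tsum_finsetSum (fun a' ha' => (hs a ha a' ha').mul_left _)]
  apply Finset.sum_congr rfl
  intro a' ha'
  rw [tsum_mul_left]

theorem quad_le {G O : ℝ} (hO : 0 ≤ O) {B : ℤ → ℤ → ℝ} (hG : ∀ a ∈ A, B a a ≤ G)
    (hB : ∀ a ∈ A, ∀ a' ∈ A, a ≠ a' → |B a a'| ≤ O) :
    ∑ a ∈ A, ∑ a' ∈ A, Y a * Y a' * B a a' ≤ (G + A.card * O) * ∑ a ∈ A, Y a ^ 2 := by
  have h1 : ∀ a ∈ A, ∀ a' ∈ A, Y a * Y a' * B a a' ≤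
      (if a = a' then Y a ^ 2 * G else 0) + |Y a| * |Y a'| * O := by
    intro a ha a' ha'
    by_cases h : a = a'
    · subst h
      rw [if_pos rfl]
      have h2 : Y a * Y a * B a a ≤ Y a ^ 2 * G := by
        rw [pow_two]
        exact mul_le_mul_of_nonneg_left (hG a ha) (mul_self_nonneg _)
      have h3 : 0 ≤ |Y a| * |Y a| * O := by positivity
      linarith
    · rw [if_neg h, zero_add]
      calc Y a * Y a' * B a a' ≤ |Y a * Y a' * B a a'| := le_abs_self _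
        _ = |Y a| * |Y a'| * |B a a'| := by rw [abs_mul, abs_mul]
        _ ≤ |Y a| * |Y a'| * O :=
          mul_le_mul_of_nonneg_left (hB a ha a' ha' h) (by positivity)
  have h2 : ∑ a ∈ A, ∑ a' ∈ A, Y a * Y a' * B a a' ≤
      ∑ a ∈ A, ∑ a' ∈ A, ((if a = a' then Y a ^ 2 * G else 0) + |Y a| * |Y a'| * O) :=
    Finset.sum_le_sum (fun a ha => Finset.sum_le_sum (fun a' ha' => h1 a ha a' ha'))
  refine h2.trans ?_
  have h3 : ∑ a ∈ A, ∑ a' ∈ A, ((if a = a' then Y a ^ 2 * G else 0) + |Y a| * |Y a'| * O) =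
      (∑ a ∈ A, Y a ^ 2) * G + (∑ a ∈ A, |Y a|) ^ 2 * O := by
    have e : ∀ a ∈ A, ∑ a' ∈ A, ((if a = a' then Y a ^ 2 * G else 0) + |Y a| * |Y a'| * O) =
        Y a ^ 2 * G + |Y a| * (∑ a' ∈ A, |Y a'|) * O := by
      intro a ha
      rw [Finset.sum_add_distrib, Finset.sum_ite_eq A a, if_pos ha, Finset.mul_sum, Finset.sum_mul]
    rw [Finset.sum_congr rfl e, Finset.sum_add_distrib, Finset.sum_mul, pow_two, Finset.sum_mul,
      Finset.sum_mul]
  rw [h3]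
  have h4 : (∑ a ∈ A, |Y a|) ^ 2 ≤ A.card * ∑ a ∈ A, Y a ^ 2 := by
    have := sq_sum_le_card_mul_sum_sq (s := A) (f := fun a => |Y a|)
    simpa only [sq_abs] using this
  have h5 := mul_le_mul_of_nonneg_right h4 hO
  nlinarith

end TaskDU

open TaskDU

theorem DU : St_DU := by
  intro w hw S hS A r f hs G O hG hG0 hO hB
  set Y : ℤ → ℝ := fun a => ∑ p ∈ S, f p * r a p with hY
  set V : ℝ := ∑ a ∈ A, Y a ^ 2 with hV
  set F : ℝ := ∑ p ∈ S, f p ^ 2 with hF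
  set K : ℝ := G + A.card * O with hK
  have hK0 : 0 ≤ K := by positivity
  have hF0 : 0 ≤ F := Finset.sum_nonneg (fun p _ => sq_nonneg _)
  have hV0 : 0 ≤ V := Finset.sum_nonneg (fun p _ => sq_nonneg _)
  have e1 : V = ∑ p ∈ S, f p * ∑ a ∈ A, Y a * r a p := by
    have e2 : ∀ a ∈ A, Y a ^ 2 = ∑ p ∈ S, f p * (Y a * r a p) := by
      intro a _
      rw [pow_two]
      nth_rw 2 [hY]
      rw [Finset.mul_sum]
      apply Finset.sum_congr rfl
      intro p _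
      ring
    rw [hV, Finset.sum_congr rfl e2, Finset.sum_comm]
    apply Finset.sum_congr rfl
    intro p _
    rw [Finset.mul_sum]
  have h1 : V ^ 2 ≤ F * ∑ p ∈ S, (∑ a ∈ A, Y a * r a p) ^ 2 := by
    rw [e1]
    exact Finset.sum_mul_sq_le_sq_mul_sq S f (fun p => ∑ a ∈ A, Y a * r a p)
  have h2 : ∑ p ∈ S, (∑ a ∈ A, Y a * r a p) ^ 2 ≤
      25 * ∑ p ∈ S, w p * (∑ a ∈ A, Y a * r a p) ^ 2 := by
    rw [Finset.mul_sum]
    apply Finset.sum_le_sum
    intro p hp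
    have := mul_le_mul_of_nonneg_right (hS p hp) (sq_nonneg (∑ a ∈ A, Y a * r a p))
    linarith
  have h3 : ∑ p ∈ S, w p * (∑ a ∈ A, Y a * r a p) ^ 2 ≤
      ∑' n : ℤ, w n * (∑ a ∈ A, Y a * r a n) ^ 2 := by
    have := (summ (Y := Y) hs).sum_le_tsum (S.map Nat.castEmbedding)
      (fun n _ => mul_nonneg (hw n) (sq_nonneg _))
    rw [Finset.sum_map] at this
    exact this
  have h4 : ∑' n : ℤ, w n * (∑ a ∈ A, Y a * r a n) ^ 2 ≤ K * V := by
    rw [tsum_eq hs]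
    exact quad_le hO hG hB
  have h5 : V ^ 2 ≤ F * (25 * (K * V)) := by
    refine h1.trans (mul_le_mul_of_nonneg_left ?_ hF0)
    linarith
  rcases eq_or_lt_of_le hV0 with h | h
  · rw [← h]
    positivity
  · have h6 : V * V ≤ (25 * F * K) * V := by nlinarith
    exact le_of_mul_le_mul_right h6 h

end Pool.Agent.H442R2.BX
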