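import Pool.Agent.H442R2.BX.Defs
import Pool.Agent.H442R2.KF.Summ

/-!
BX project, task EX: expansion and summability (helper214).
-/

namespace Pool.Agent.H442R2.BX

open Finset
open Pool.Agent.H442R2.KF

namespace TaskEX

/-- indicator of divisibility -/
noncomputable def II (m : ℕ) (n : ℤ) : ℝ := if (m : ℤ) ∣ n then 1 else 0

theorem II_one (n : ℤ) : II 1 n = 1 := by simp [II]

theorem II_abs (m : ℕ) (n : ℤ) : |II m n| ≤ 1 := by
  unfold II; split_ifs <;> simp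

theorem II_lcm (q₁ q₂ : ℕ) (n : ℤ) : II q₁ n * II q₂ n = II (Nat.lcm q₁ q₂) n := by
  have h : ((Nat.lcm q₁ q₂ : ℕ) : ℤ) ∣ n ↔ (q₁ : ℤ) ∣ n ∧ (q₂ : ℤ) ∣ n := by
    rw [Int.natCast_dvd, Int.natCast_dvd, Int.natCast_dvd, Nat.lcm_dvd_iff]
  unfold II
  by_cases h1 : (q₁ : ℤ) ∣ n
  · by_cases h2 : (q₂ : ℤ) ∣ n
    · rw [if_pos h1, if_pos h2, if_pos (h.2 ⟨h1, h2⟩), mul_one]
    · rw [if_neg h2, if_neg (fun h3 => h2 (h.1 h3).2), mul_zero]
  · rw [if_neg h1, if_neg (fun h3 => h1 (h.1 h3).1), zero_mul]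

theorem ite_eq (N : ℕ) (a a' : ℤ) (q d d' : ℕ) (n : ℤ) :
    (if ((q : ℤ) ∣ n ∧ (d : ℤ) ∣ n - a ∧ (d' : ℤ) ∣ n - a') then Wt N n else 0) =
      Wt N n * (II q n * II d (n - a) * II d' (n - a')) := by
  unfold II
  by_cases h1 : (q : ℤ) ∣ n
  · by_cases h2 : (d : ℤ) ∣ n - a
    · by_cases h3 : (d' : ℤ) ∣ n - a'
      · rw [if_pos ⟨h1, h2, h3⟩, if_pos h1, if_pos h2, if_pos h3]; ring
      · rw [if_neg (fun h => h3 h.2.2), if_neg h3]; ring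
    · rw [if_neg (fun h => h2 h.2.1), if_neg h2]; ring
  · rw [if_neg (fun h => h1 h.1), if_neg h1]; ring

theorem Wt_pos (N : ℕ) (n : ℤ) : 0 < Wt N n := Real.exp_pos _

theorem summable_bd (N : ℕ) (hN : 1 ≤ N) (F : ℤ → ℝ) (B : ℝ) (hF : ∀ n, |F n| ≤ B) :
    Summable (fun n : ℤ => Wt N n * F n) := by
  refine Summable.of_norm_bounded ((TaskS.summable_Wt N hN).mul_right B) fun n => ?_
  rw [Real.norm_eq_abs, abs_mul, abs_of_pos (Wt_pos N n)]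
  exact mul_le_mul_of_nonneg_left (hF n) (Wt_pos N n).le

theorem hasSum_SE (N : ℕ) (hN : 1 ≤ N) (a a' : ℤ) (q d d' : ℕ) :
    HasSum (fun n : ℤ => Wt N n * (II q n * II d (n - a) * II d' (n - a')))
      (SE N a a' q d d') := by
  have h1 : Summable (fun n : ℤ => Wt N n * (II q n * II d (n - a) * II d' (n - a'))) := by
    refine summable_bd N hN _ 1 fun n => ?_
    rw [abs_mul, abs_mul]
    have k1 := II_abs q n
    have k2 := II_abs d (n - a)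
    have k3 := II_abs d' (n - a')
    calc |II q n| * |II d (n - a)| * |II d' (n - a')| ≤ 1 * 1 * 1 := by gcongr
      _ = 1 := by norm_num
  have h2 : SE N a a' q d d' =
      ∑' n : ℤ, Wt N n * (II q n * II d (n - a) * II d' (n - a')) := by
    unfold SE
    exact tsum_congr fun n => ite_eq N a a' q d d' n
  rw [h2]
  exact h1.hasSum

theorem nuS_eq (lam : ℕ → ℝ) (z : ℕ) (n : ℤ) :
    nuS lam z n = ∑ q₁ ∈ Icc 1 z, ∑ q₂ ∈ Icc 1 z, lam q₁ * lam q₂ * II (Nat.lcm q₁ q₂) n := by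
  have h1 : ∑ q ∈ (Icc 1 z).filter (fun q : ℕ => (q : ℤ) ∣ n), lam q =
      ∑ q ∈ Icc 1 z, lam q * II q n := by
    rw [Finset.sum_filter]
    refine Finset.sum_congr rfl fun q _ => ?_
    unfold II
    split_ifs <;> simp
  unfold nuS
  rw [h1, sq, Finset.sum_mul_sum]
  refine Finset.sum_congr rfl fun q₁ _ => Finset.sum_congr rfl fun q₂ _ => ?_
  rw [← II_lcm]; ring

theorem nuS_abs (lam : ℕ → ℝ) (z : ℕ) (n : ℤ) :
    |nuS lam z n| ≤ ∑ q₁ ∈ Icc 1 z, ∑ q₂ ∈ Icc 1 z, |lam q₁ * lam q₂| := by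
  rw [nuS_eq]
  refine (Finset.abs_sum_le_sum_abs _ _).trans (Finset.sum_le_sum fun q₁ _ => ?_)
  refine (Finset.abs_sum_le_sum_abs _ _).trans (Finset.sum_le_sum fun q₂ _ => ?_)
  rw [abs_mul]
  exact mul_le_of_le_one_right (abs_nonneg _) (II_abs _ _)

theorem dl_eq (d : ℕ) (m : ℤ) : dl d m = II d m - 1 / (d : ℝ) := rfl

theorem dl_abs (d : ℕ) (m : ℤ) : |dl d m| ≤ 2 := by
  rw [dl_eq]
  have h1 := II_abs d m
  have h2 : |1 / (d : ℝ)| ≤ 1 := by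
    rw [abs_of_nonneg (by positivity)]
    rcases Nat.eq_zero_or_pos d with h | h
    · subst h; simp
    · rw [div_le_one (by exact_mod_cast h)]
      exact_mod_cast h
  exact (abs_sub _ _).trans (by linarith)

theorem Rf_abs (c : ℕ → ℝ) (X : ℕ) (a n : ℤ) : |Rf c X a n| ≤ ∑ d ∈ Icc 1 X, |c d| * 2 := by
  unfold Rf
  refine (Finset.abs_sum_le_sum_abs _ _).trans (Finset.sum_le_sum fun d _ => ?_)
  rw [abs_mul]
  exact mul_le_mul_of_nonneg_left (dl_abs _ _) (abs_nonneg _)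

theorem rf_abs (c : ℕ → ℝ) (X : ℕ) (a n : ℤ) : |rf c X a n| ≤ ∑ d ∈ Icc 1 X, |c d| * 2 := by
  unfold rf
  split_ifs
  · rw [abs_zero]
    exact Finset.sum_nonneg fun d _ => by positivity
  · exact Rf_abs c X a n

theorem summ (N z X : ℕ) (hN : 1 ≤ N) (lam c c' : ℕ → ℝ) (F F' : ℤ → ℝ)
    (hF : ∀ n, |F n| ≤ ∑ d ∈ Icc 1 X, |c d| * 2) (hF' : ∀ n, |F' n| ≤ ∑ d ∈ Icc 1 X, |c' d| * 2) :
    Summable (fun n : ℤ => Wt N n * nuS lam z n * (F n * F' n)) := by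
  have h := summable_bd N hN (fun n => nuS lam z n * (F n * F' n))
    ((∑ q₁ ∈ Icc 1 z, ∑ q₂ ∈ Icc 1 z, |lam q₁ * lam q₂|) *
      ((∑ d ∈ Icc 1 X, |c d| * 2) * ∑ d ∈ Icc 1 X, |c' d| * 2)) (fun n => by
      rw [abs_mul, abs_mul]
      have k1 := nuS_abs lam z n
      have k2 := hF n
      have k3 := hF' n
      have k4 := abs_nonneg (nuS lam z n)
      have k5 := abs_nonneg (F n)
      have k6 := abs_nonneg (F' n)
      exact mul_le_mul k1 (mul_le_mul k2 k3 k6 (k5.trans k2)) (mul_nonneg k5 k6) (k4.trans k1))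
  refine h.congr fun n => ?_
  ring

end TaskEX

open TaskEX

theorem EX : St_EX := by
  intro N z X hN lam c c' a a'
  refine ⟨summ N z X hN lam c c' _ _ (fun n => Rf_abs c X a n) (fun n => Rf_abs c' X a' n),
    summ N z X hN lam c c' _ _ (fun n => rf_abs c X a n) (fun n => rf_abs c' X a' n), ?_⟩
  have hT : ∀ q d d' : ℕ, HasSum (fun n : ℤ =>
      Wt N n * (II q n * II d (n - a) * II d' (n - a')) -
      Wt N n * (II q n * II d (n - a) * II 1 (n - a')) / (d' : ℝ) -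
      Wt N n * (II q n * II 1 (n - a) * II d' (n - a')) / (d : ℝ) +
      Wt N n * (II q n * II 1 (n - a) * II 1 (n - a')) / ((d : ℝ) * d'))
      (SE N a a' q d d' - SE N a a' q d 1 / d' - SE N a a' q 1 d' / d +
        SE N a a' q 1 1 / (d * d')) := by
    intro q d d'
    exact (((hasSum_SE N hN a a' q d d').sub ((hasSum_SE N hN a a' q d 1).div_const _)).sub
      ((hasSum_SE N hN a a' q 1 d').div_const _)).add
      ((hasSum_SE N hN a a' q 1 1).div_const _)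
  have hS : HasSum (fun n : ℤ => ∑ q₁ ∈ Icc 1 z, ∑ q₂ ∈ Icc 1 z, lam q₁ * lam q₂ *
      ∑ d ∈ Icc 1 X, ∑ d' ∈ Icc 1 X, c d * c' d' * (
      Wt N n * (II (Nat.lcm q₁ q₂) n * II d (n - a) * II d' (n - a')) -
      Wt N n * (II (Nat.lcm q₁ q₂) n * II d (n - a) * II 1 (n - a')) / (d' : ℝ) -
      Wt N n * (II (Nat.lcm q₁ q₂) n * II 1 (n - a) * II d' (n - a')) / (d : ℝ) +
      Wt N n * (II (Nat.lcm q₁ q₂) n * II 1 (n - a) * II 1 (n - a')) / ((d : ℝ) * d')))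
      (∑ q₁ ∈ Icc 1 z, ∑ q₂ ∈ Icc 1 z, lam q₁ * lam q₂ * ∑ d ∈ Icc 1 X, ∑ d' ∈ Icc 1 X,
        c d * c' d' * (SE N a a' (Nat.lcm q₁ q₂) d d' - SE N a a' (Nat.lcm q₁ q₂) d 1 / d' -
          SE N a a' (Nat.lcm q₁ q₂) 1 d' / d + SE N a a' (Nat.lcm q₁ q₂) 1 1 / (d * d'))) := by
    refine hasSum_sum fun q₁ _ => hasSum_sum fun q₂ _ => HasSum.mul_left _ ?_
    exact hasSum_sum fun d _ => hasSum_sum fun d' _ => HasSum.mul_left _ (hT _ d d')
  rw [← hS.tsum_eq]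
  refine tsum_congr fun n => ?_
  rw [nuS_eq]
  have hR : Rf c X a n * Rf c' X a' n = ∑ d ∈ Icc 1 X, ∑ d' ∈ Icc 1 X, c d * c' d' *
      ((II d (n - a) - 1 / (d : ℝ)) * (II d' (n - a') - 1 / (d' : ℝ))) := by
    unfold Rf
    rw [Finset.sum_mul_sum]
    refine Finset.sum_congr rfl fun d _ => Finset.sum_congr rfl fun d' _ => ?_
    rw [dl_eq, dl_eq]; ring
  obtain ⟨G, hG⟩ : ∃ G, G = ∑ d ∈ Icc 1 X, ∑ d' ∈ Icc 1 X, c d * c' d' *
      ((II d (n - a) - 1 / (d : ℝ)) * (II d' (n - a') - 1 / (d' : ℝ))) := ⟨_, rfl⟩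
  rw [hR, ← hG, Finset.mul_sum, Finset.sum_mul]
  refine Finset.sum_congr rfl fun q₁ _ => ?_
  rw [Finset.mul_sum, Finset.sum_mul]
  refine Finset.sum_congr rfl fun q₂ _ => ?_
  rw [hG]
  have e : Wt N n * (lam q₁ * lam q₂ * II (Nat.lcm q₁ q₂) n) *
      (∑ d ∈ Icc 1 X, ∑ d' ∈ Icc 1 X, c d * c' d' *
      ((II d (n - a) - 1 / (d : ℝ)) * (II d' (n - a') - 1 / (d' : ℝ)))) =
      lam q₁ * lam q₂ * ((Wt N n * II (Nat.lcm q₁ q₂) n) *
      (∑ d ∈ Icc 1 X, ∑ d' ∈ Icc 1 X, c d * c' d' *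
      ((II d (n - a) - 1 / (d : ℝ)) * (II d' (n - a') - 1 / (d' : ℝ))))) := by ring
  rw [e, Finset.mul_sum]
  congr 1
  refine Finset.sum_congr rfl fun d _ => ?_
  rw [Finset.mul_sum]
  refine Finset.sum_congr rfl fun d' _ => ?_
  rw [II_one, II_one, one_div, one_div, div_eq_mul_inv, div_eq_mul_inv, div_eq_mul_inv, mul_inv]
  ring

end Pool.Agent.H442R2.BX
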