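import Pool.Agent.H442R2.BX.Defs

/-!
Task FC: few exceptional residues.
-/

namespace Pool.Agent.H442R2.BX

open Finset
open Pool.Agent.H442R2.KF

theorem FC (hFI : St_FI) : St_FC := by
  intro θ ε hθ hε
  obtain ⟨η, C, hη, hC, h⟩ := hFI θ ε hθ hε
  -- large N
  have hlarge : ∃ N₀ : ℕ, ∀ N : ℕ, N₀ ≤ N → 2 * C ≤ (N : ℝ) ^ (η / 2) := by
    have h1 : Filter.Tendsto (fun N : ℕ => (N : ℝ) ^ (η / 2)) Filter.atTop Filter.atTop :=
      (tendsto_rpow_atTop (by positivity)).comp tendsto_natCast_atTop_atTop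
    exact Filter.eventually_atTop.1 (h1.eventually_ge_atTop (2 * C))
  obtain ⟨N₀, hN₀⟩ := hlarge
  refine ⟨η / 4, 2 * C + (2 * N₀ + 1), by positivity, by positivity, ?_⟩
  intro N hN f hf κ hκ1 hκ2
  have hNpos : (0 : ℝ) < N := by exact_mod_cast (by omega : 0 < N)
  have hκ0 : 0 < κ := lt_of_lt_of_le (Real.rpow_pos_of_pos hNpos _) hκ1
  have hκ20 : 0 < κ ^ 2 := by positivity
  set E := (Icc (-(N : ℤ)) N).filter (fun a : ℤ => κ * (N / Real.log N) <
      ∑ d ∈ (roughs ((N : ℝ) ^ ε) ⌊(N : ℝ) ^ θ⌋₊).filter (fun d : ℕ => Int.gcd a d = 1),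
        |Df f N a d|) with hE
  rw [le_div_iff₀ hκ20]
  by_cases hNN : N₀ ≤ N
  · have hlog : 0 < Real.log N := Real.log_pos (by exact_mod_cast (by omega : 1 < N))
    set L : ℝ := N / Real.log N with hL
    have hL0 : 0 < L := by positivity
    have h1 := h N hN f hf E (by
      intro a ha
      have h2 := Finset.mem_Icc.1 (Finset.mem_filter.1 ha).1
      rw [abs_le]
      constructor
      · exact_mod_cast h2.1
      · exact_mod_cast h2.2)
      (fun a => (roughs ((N : ℝ) ^ ε) ⌊(N : ℝ) ^ θ⌋₊).filter (fun d : ℕ => Int.gcd a d = 1)) (by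
        intro a _ d hd
        have h2 := (Finset.mem_filter.1 hd).1
        have h2' : d ∈ Icc 1 ⌊(N : ℝ) ^ θ⌋₊ ∧ Rough ((N : ℝ) ^ ε) d := by
          classical
          exact Finset.mem_filter.1 (by unfold roughs at h2; convert h2)
        exact ⟨(Nat.cast_le.2 (Finset.mem_Icc.1 h2'.1).2).trans (Nat.floor_le (by positivity)),
          h2'.2⟩)
    have h3 : (E.card : ℝ) * (κ * L) ^ 2 ≤ ∑ a ∈ E,
        (∑ d ∈ (roughs ((N : ℝ) ^ ε) ⌊(N : ℝ) ^ θ⌋₊).filter (fun d : ℕ => Int.gcd a d = 1),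
          |Df f N a d|) ^ 2 := by
      rw [← nsmul_eq_mul]
      apply Finset.card_nsmul_le_sum
      intro a ha
      have h4 := (Finset.mem_filter.1 ha).2
      exact pow_le_pow_left₀ (by positivity) h4.le 2
    have h5 : (E.card : ℝ) * κ ^ 2 ≤ C * (1 + E.card * (N : ℝ) ^ (-η)) := by
      have h6 : ((E.card : ℝ) * κ ^ 2) * L ^ 2 ≤ (C * (1 + E.card * (N : ℝ) ^ (-η))) * L ^ 2 := by
        calc ((E.card : ℝ) * κ ^ 2) * L ^ 2 = (E.card : ℝ) * (κ * L) ^ 2 := by ring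
          _ ≤ _ := h3.trans h1
          _ = _ := by ring
      exact le_of_mul_le_mul_right h6 (by positivity)
    have h7 : C * (N : ℝ) ^ (-η) ≤ κ ^ 2 / 2 := by
      have h8 : (N : ℝ) ^ (-(η / 2)) ≤ κ ^ 2 := by
        calc (N : ℝ) ^ (-(η / 2)) = ((N : ℝ) ^ (-(η / 4))) ^ 2 := by
              rw [← Real.rpow_natCast, ← Real.rpow_mul hNpos.le]
              congr 1
              push_cast
              ring
          _ ≤ κ ^ 2 := pow_le_pow_left₀ (by positivity) hκ1 2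
      have h9 : 2 * C * (N : ℝ) ^ (-η) ≤ (N : ℝ) ^ (-(η / 2)) := by
        calc 2 * C * (N : ℝ) ^ (-η) ≤ (N : ℝ) ^ (η / 2) * (N : ℝ) ^ (-η) :=
              mul_le_mul_of_nonneg_right (hN₀ N hNN) (by positivity)
          _ = (N : ℝ) ^ (-(η / 2)) := by
              rw [← Real.rpow_add hNpos]
              congr 1
              ring
      linarith
    have hc0 : (0 : ℝ) ≤ E.card := Nat.cast_nonneg _
    have h10 : (E.card : ℝ) * (C * (N : ℝ) ^ (-η)) ≤ E.card * (κ ^ 2 / 2) :=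
      mul_le_mul_of_nonneg_left h7 hc0
    have hN0 : (0 : ℝ) ≤ N₀ := Nat.cast_nonneg _
    nlinarith
  · have h1 : E.card ≤ 2 * N₀ + 1 := by
      have h2 : E.card ≤ (Icc (-(N : ℤ)) N).card := Finset.card_filter_le _ _
      rw [Int.card_Icc] at h2
      omega
    have h2 : (E.card : ℝ) ≤ 2 * N₀ + 1 := by exact_mod_cast h1
    have h3 : κ ^ 2 ≤ 1 := by nlinarith
    have hc0 : (0 : ℝ) ≤ E.card := Nat.cast_nonneg _
    calc (E.card : ℝ) * κ ^ 2 ≤ E.card * 1 := mul_le_mul_of_nonneg_left h3 hc0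
      _ ≤ _ := by linarith

end Pool.Agent.H442R2.BX
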