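import Pool.Agent.H442R2.BX.Defs
import Pool.Agent.H442R2.KF.Bv

/-! BX project (helper442), task FP: prime moduli up to `N^θ`.  Owner: helper202. -/

namespace Pool.Agent.H442R2.BX

open Finset
open Pool.Agent.H442R2.KF

namespace TaskFP

/-- the classes used in Bombieri–Vinogradov -/
def cl (a : ℤ) (d : ℕ) : ℕ := if Nat.Coprime (a % d).toNat d then (a % d).toNat else 1

theorem cl_cop (a : ℤ) (d : ℕ) : Nat.Coprime (cl a d) d := by
  unfold cl
  split_ifs with h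
  · exact h
  · exact Nat.coprime_one_left d

theorem cl_mod (a : ℤ) (q : ℕ) (hq : q.Prime) (ha : ¬ (q : ℤ) ∣ a) :
    ((cl a q : ℕ) : ℤ) ≡ a [ZMOD q] := by
  have hq0 : (q : ℤ) ≠ 0 := by exact_mod_cast hq.ne_zero
  have h0 : 0 ≤ a % q := Int.emod_nonneg a hq0
  have h1 : (((a % q).toNat : ℕ) : ℤ) = a % q := Int.toNat_of_nonneg h0
  have hc : Nat.Coprime (a % q).toNat q := by
    rw [Nat.coprime_comm, hq.coprime_iff_not_dvd]
    intro h
    apply ha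
    have h2 : (q : ℤ) ∣ ((a % q).toNat : ℤ) := by exact_mod_cast h
    rw [h1] at h2
    exact (Int.dvd_iff_emod_eq_zero).2 (by
      have h3 := Int.emod_eq_zero_of_dvd h2
      rwa [Int.emod_emod_of_dvd a (dvd_refl _)] at h3)
  unfold cl
  rw [if_pos hc, h1]
  exact Int.mod_modEq a q

theorem df_eq (N : ℕ) (a : ℤ) (q : ℕ) (hq : q.Prime) (ha : ¬ (q : ℤ) ∣ a) :
    Df (fun _ => 1) N a q = Er N q (cl a q) := by
  unfold Df Er piAP piN
  have h : (Icc 1 N).filter (fun p : ℕ => p.Prime ∧ (p : ℤ) ≡ a [ZMOD q]) =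
      (Icc 1 N).filter (fun p : ℕ => p.Prime ∧ p ≡ cl a q [MOD q]) := by
    apply filter_congr
    intro p _
    refine and_congr_right fun _ => ?_
    rw [← Int.natCast_modEq_iff]
    have h1 := cl_mod a q hq ha
    exact ⟨fun h2 => h2.trans h1.symm, fun h2 => h2.trans h1⟩
  rw [h]
  simp

/-- splitting of the sum over prime moduli -/
theorem split_sum (N : ℕ) (θ : ℝ) (a : ℤ) :
    ∑ q ∈ (Icc 1 ⌊(N : ℝ) ^ θ⌋₊).filter (fun q : ℕ => q.Prime ∧ ¬ (q : ℤ) ∣ a),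
        |Df (fun _ => 1) N a q| ≤
      ∑ d ∈ Icc 1 ⌊(N : ℝ) ^ (2 / 5 : ℝ)⌋₊, |Er N d (cl a d)| +
      ∑ d ∈ (roughs ((N : ℝ) ^ (2 / 5 : ℝ)) ⌊(N : ℝ) ^ θ⌋₊).filter (fun d : ℕ => Int.gcd a d = 1),
        |Df (fun _ => 1) N a d| := by
  rw [← sum_filter_add_sum_filter_not ((Icc 1 ⌊(N : ℝ) ^ θ⌋₊).filter
    (fun q : ℕ => q.Prime ∧ ¬ (q : ℤ) ∣ a)) (fun q : ℕ => (q : ℝ) ≤ (N : ℝ) ^ (2 / 5 : ℝ))]
  refine add_le_add ?_ ?_
  · calc ∑ q ∈ ((Icc 1 ⌊(N : ℝ) ^ θ⌋₊).filter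
          (fun q : ℕ => q.Prime ∧ ¬ (q : ℤ) ∣ a)).filter
            (fun q : ℕ => (q : ℝ) ≤ (N : ℝ) ^ (2 / 5 : ℝ)), |Df (fun _ => 1) N a q| =
        ∑ q ∈ ((Icc 1 ⌊(N : ℝ) ^ θ⌋₊).filter
          (fun q : ℕ => q.Prime ∧ ¬ (q : ℤ) ∣ a)).filter
            (fun q : ℕ => (q : ℝ) ≤ (N : ℝ) ^ (2 / 5 : ℝ)), |Er N q (cl a q)| := by
          refine sum_congr rfl fun q hq => ?_
          rw [mem_filter, mem_filter] at hq
          rw [df_eq N a q hq.1.2.1 hq.1.2.2]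
      _ ≤ _ := by
          refine sum_le_sum_of_subset_of_nonneg ?_ fun _ _ _ => abs_nonneg _
          intro q hq
          rw [mem_filter, mem_filter, mem_Icc] at hq
          rw [mem_Icc]
          exact ⟨hq.1.1.1, Nat.le_floor hq.2⟩
  · refine sum_le_sum_of_subset_of_nonneg ?_ fun _ _ _ => abs_nonneg _
    intro q hq
    rw [mem_filter, mem_filter, not_le] at hq
    obtain ⟨⟨h1, h2, h3⟩, h4⟩ := hq
    classical
    rw [mem_filter]
    unfold roughs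
    rw [mem_filter]
    refine ⟨⟨h1, h2.one_lt, fun p hp hpq => ?_⟩, ?_⟩
    · rw [(Nat.prime_dvd_prime_iff_eq hp h2).1 hpq]
      exact h4
    · have h5 : Nat.Coprime q a.natAbs := by
        rw [h2.coprime_iff_not_dvd]
        intro h
        exact h3 (Int.natCast_dvd.2 h)
      rw [Int.gcd_comm]
      exact h5

end TaskFP

open TaskFP in
theorem FP (hFC : St_FC) : St_FP := by
  intro θ κ₀ hθ hκ₀
  obtain ⟨κ, hκ, hκ1, hκκ⟩ : ∃ κ : ℝ, 0 < κ ∧ κ ≤ 1 ∧ κ ≤ κ₀ :=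
    ⟨min κ₀ 1, lt_min hκ₀ one_pos, min_le_right _ _, min_le_left _ _⟩
  obtain ⟨η, C₂, hη, hC₂, h2⟩ := hFC θ (2 / 5) hθ (by norm_num)
  obtain ⟨C₁, hC₁, h1⟩ := bv (2 / 5) (by norm_num) 2
  -- large N
  have hlim1 : Filter.Tendsto (fun N : ℕ => Real.log (N : ℝ)) Filter.atTop Filter.atTop :=
    Real.tendsto_log_atTop.comp tendsto_natCast_atTop_atTop
  have hlim2 : Filter.Tendsto (fun N : ℕ => (N : ℝ) ^ (-η)) Filter.atTop (nhds 0) :=
    (tendsto_rpow_neg_atTop hη).comp tendsto_natCast_atTop_atTop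
  obtain ⟨N₀, hN₀⟩ := Filter.eventually_atTop.1
    ((hlim1.eventually_ge_atTop (2 * C₁ / κ)).and
      ((hlim2.eventually_le_const (show (0 : ℝ) < κ / 2 by positivity)).and
        (Filter.eventually_ge_atTop 3)))
  refine ⟨2 * N₀ + 1 + C₂ / (κ / 2) ^ 2, fun N hN => ?_⟩
  have hpos : 0 ≤ C₂ / (κ / 2) ^ 2 := by positivity
  by_cases hNN : N₀ ≤ N
  · obtain ⟨h3, h4, h5⟩ := hN₀ N hNN
    have hlog : 0 < Real.log N := Real.log_pos (by exact_mod_cast hN)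
    have hNpos : (0 : ℝ) < N := by positivity
    have h6 := h2 N hN (fun _ => 1) (fun _ => by norm_num) (κ / 2) h4 (by linarith)
    have h7 : ((Icc (-(N : ℤ)) N).filter (fun a : ℤ => κ₀ * (N / Real.log N) <
        ∑ q ∈ (Icc 1 ⌊(N : ℝ) ^ θ⌋₊).filter (fun q : ℕ => q.Prime ∧ ¬ (q : ℤ) ∣ a),
          |Df (fun _ => 1) N a q|)) ⊆
        (Icc (-(N : ℤ)) N).filter (fun a : ℤ => κ / 2 * (N / Real.log N) <
          ∑ d ∈ (roughs ((N : ℝ) ^ (2 / 5 : ℝ)) ⌊(N : ℝ) ^ θ⌋₊).filter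
            (fun d : ℕ => Int.gcd a d = 1), |Df (fun _ => 1) N a d|) := by
      intro a ha
      rw [mem_filter] at ha ⊢
      refine ⟨ha.1, ?_⟩
      have h8 := ha.2.trans_le (split_sum N θ a)
      have h9 := h1 N h5 (cl a) (fun d _ => cl_cop a d)
      have h10 : C₁ * (N / Real.log N ^ 2) ≤ κ / 2 * (N / Real.log N) := by
        have h11 : C₁ ≤ κ / 2 * Real.log N := by
          rw [div_le_iff₀ hκ] at h3
          linarith
        calc C₁ * (N / Real.log N ^ 2) ≤ (κ / 2 * Real.log N) * (N / Real.log N ^ 2) := by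
              gcongr
          _ = κ / 2 * (N / Real.log N) := by
              field_simp
      have h12 : κ * (N / Real.log N) ≤ κ₀ * (N / Real.log N) := by
        gcongr
      linarith
    have h8 := (Nat.cast_le (α := ℝ)).2 (card_le_card h7)
    refine (h8.trans h6).trans ?_
    have : (0 : ℝ) ≤ N₀ := Nat.cast_nonneg _
    linarith
  · push Not at hNN
    have h3 := card_filter_le (Icc (-(N : ℤ)) N) (fun a : ℤ => κ₀ * (N / Real.log N) <
        ∑ q ∈ (Icc 1 ⌊(N : ℝ) ^ θ⌋₊).filter (fun q : ℕ => q.Prime ∧ ¬ (q : ℤ) ∣ a),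
          |Df (fun _ => 1) N a q|)
    have h4 : (Icc (-(N : ℤ)) N).card = 2 * N + 1 := by
      rw [Int.card_Icc]
      omega
    rw [h4] at h3
    have h5 : (2 * N + 1 : ℝ) ≤ 2 * N₀ + 1 := by
      have : (N : ℝ) ≤ N₀ := by exact_mod_cast hNN.le
      linarith
    have h6 := (Nat.cast_le (α := ℝ)).2 h3
    push_cast at h6
    linarith

end Pool.Agent.H442R2.BX
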