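import Pool.Agent.H442R2.BX.Defs
import Pool.Agent.H442R2.KF.Poi

/-!
BX project, task GS (helper954): Gaussian sums over progressions.
-/

namespace Pool.Agent.H442R2.BX

open Finset
open Pool.Agent.H442R2.KF

namespace TaskGS

theorem part1 (N : ℕ) (hN : 1 ≤ N) (n : ℤ) :
    Wt N n * (1 + |(n : ℝ)| / N) ≤ 2 * Wt (2 * N) n := by
  have hN0 : (0 : ℝ) < N := by exact_mod_cast hN
  obtain ⟨x, hx⟩ : ∃ x : ℝ, x = |(n : ℝ)| / N := ⟨_, rfl⟩
  have hx0 : 0 ≤ x := by rw [hx]; positivity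
  have h1 : ((n : ℝ) / N) ^ 2 = x ^ 2 := by rw [hx, div_pow, div_pow, sq_abs]
  have h2 : ((n : ℝ) / ((2 * N : ℕ) : ℝ)) ^ 2 = x ^ 2 / 4 := by
    rw [← h1]; push_cast; field_simp; ring
  unfold Wt
  rw [h1, h2, ← hx]
  have h3 : Real.exp (-Real.pi * x ^ 2) =
      Real.exp (-Real.pi * (x ^ 2 / 4)) * Real.exp (-(3 * Real.pi / 4 * x ^ 2)) := by
    rw [← Real.exp_add]; congr 1; ring
  have hpi := Real.pi_gt_three
  have h4 : 1 + x ≤ 2 * Real.exp (3 * Real.pi / 4 * x ^ 2) := by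
    have := Real.add_one_le_exp (3 * Real.pi / 4 * x ^ 2)
    nlinarith [sq_nonneg (x - 1 / 9), mul_nonneg (sub_nonneg.2 hpi.le) (sq_nonneg x)]
  have h5 : Real.exp (-(3 * Real.pi / 4 * x ^ 2)) * (1 + x) ≤ 2 := by
    calc Real.exp (-(3 * Real.pi / 4 * x ^ 2)) * (1 + x)
        ≤ Real.exp (-(3 * Real.pi / 4 * x ^ 2)) * (2 * Real.exp (3 * Real.pi / 4 * x ^ 2)) := by
          gcongr
      _ = 2 * (Real.exp (-(3 * Real.pi / 4 * x ^ 2)) * Real.exp (3 * Real.pi / 4 * x ^ 2)) := by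
          ring
      _ = 2 := by rw [← Real.exp_add, neg_add_cancel, Real.exp_zero, mul_one]
  rw [h3, mul_assoc, mul_comm 2]
  gcongr

theorem exp_sq_le (x : ℝ) : Real.exp (-Real.pi * x ^ 2) ≤ 2 * Real.exp (-x) := by
  have hpi := Real.pi_gt_three
  have h2 : (2 : ℝ) = Real.exp (Real.log 2) := (Real.exp_log (by norm_num)).symm
  rw [h2, ← Real.exp_add]
  apply Real.exp_le_exp.2
  have := Real.log_two_gt_d9
  nlinarith [sq_nonneg (x - 1 / 6), mul_nonneg (sub_nonneg.2 hpi.le) (sq_nonneg x)]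

theorem geo (t : ℝ) (ht : 0 < t) :
    HasSum (fun n : ℕ => 2 * Real.exp (-(t * n))) (2 * (1 - Real.exp (-t))⁻¹) := by
  have h := (hasSum_geometric_of_lt_one (Real.exp_pos (-t)).le
    (by rw [Real.exp_lt_one_iff]; linarith)).mul_left 2
  refine h.congr_fun ?_ |> fun h' => h'
  intro n
  rw [← Real.exp_nat_mul]
  congr 2
  ring

theorem inv_le (t : ℝ) (ht : 0 < t) : (1 - Real.exp (-t))⁻¹ ≤ 1 / t + 1 := by
  have h1 : Real.exp (-t) ≤ 1 / (1 + t) := by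
    rw [Real.exp_neg, ← one_div]
    apply one_div_le_one_div_of_le (by linarith)
    have := Real.add_one_le_exp t
    linarith
  have h2 : t / (1 + t) ≤ 1 - Real.exp (-t) := by
    have : t / (1 + t) = 1 - 1 / (1 + t) := by field_simp; ring
    rw [this]; linarith
  have h3 : 1 / t + 1 = (t / (1 + t))⁻¹ := by field_simp
  rw [h3]
  exact inv_anti₀ (by positivity) h2

end TaskGS

open TaskGS

/-- GS (Gs.lean) -/
theorem GS : St_GS := by
  intro N hN
  refine ⟨fun n => part1 N hN n, ?_⟩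
  intro l a hl
  have hN0 : (0 : ℝ) < N := by exact_mod_cast hN
  have hl0 : (0 : ℝ) < l := by exact_mod_cast hl
  have hlZ : (0 : ℤ) < l := by exact_mod_cast hl
  rw [TaskL.reindex N l hl a]
  obtain ⟨r, hr⟩ : ∃ r : ℤ, r = a % l := ⟨_, rfl⟩
  obtain ⟨b, hb⟩ : ∃ b : ℤ, b = a / l := ⟨_, rfl⟩
  have hab : a = l * b + r := by rw [hr, hb]; exact (Int.mul_ediv_add_emod a l).symm
  have hr0 : 0 ≤ r := by rw [hr]; exact Int.emod_nonneg _ hlZ.ne'
  have hrl : r < l := by rw [hr]; exact Int.emod_lt_of_pos _ hlZ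
  have hre : ∑' k : ℤ, Wt N (a + l * k) = ∑' k : ℤ, Wt N (r + l * k) := by
    rw [← (Equiv.addRight b).tsum_eq (fun k : ℤ => Wt N (r + l * k))]
    refine tsum_congr fun k => ?_
    congr 1
    rw [hab]
    simp only [Equiv.coe_addRight]
    ring
  rw [hre]
  obtain ⟨t, ht⟩ : ∃ t : ℝ, t = l / N := ⟨_, rfl⟩
  have ht0 : 0 < t := by rw [ht]; positivity
  have hb1 : ∀ n : ℕ, Wt N (r + l * (n : ℤ)) ≤ 2 * Real.exp (-(t * n)) := by
    intro n
    refine le_trans ?_ (exp_sq_le (t * n))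
    unfold Wt
    apply Real.exp_le_exp.2
    have h1 : t * n ≤ ((r + l * (n : ℤ) : ℤ) : ℝ) / N := by
      rw [ht, div_mul_eq_mul_div]
      apply div_le_div_of_nonneg_right _ hN0.le
      push_cast
      have : (0 : ℝ) ≤ r := by exact_mod_cast hr0
      linarith
    have h2 : (t * n) ^ 2 ≤ (((r + l * (n : ℤ) : ℤ) : ℝ) / N) ^ 2 := by
      apply pow_le_pow_left₀ (by positivity) h1
    have := Real.pi_pos
    nlinarith
  have hb2 : ∀ n : ℕ, Wt N (r + l * (-((n : ℤ) + 1))) ≤ 2 * Real.exp (-(t * n)) := by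
    intro n
    refine le_trans ?_ (exp_sq_le (t * n))
    unfold Wt
    apply Real.exp_le_exp.2
    have h1 : t * n ≤ -(((r + l * (-((n : ℤ) + 1)) : ℤ) : ℝ) / N) := by
      rw [ht, div_mul_eq_mul_div, ← neg_div]
      apply div_le_div_of_nonneg_right _ hN0.le
      push_cast
      have : (r : ℝ) ≤ l := by exact_mod_cast hrl.le
      linarith
    have h2 : (t * n) ^ 2 ≤ (((r + l * (-((n : ℤ) + 1)) : ℤ) : ℝ) / N) ^ 2 := by
      rw [← neg_sq (((r + l * (-((n : ℤ) + 1)) : ℤ) : ℝ) / N)]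
      apply pow_le_pow_left₀ (by positivity) h1
    have := Real.pi_pos
    nlinarith
  have hpos : ∀ n : ℤ, 0 ≤ Wt N n := fun n => (Real.exp_pos _).le
  have hg := geo t ht0
  have s1 : Summable (fun n : ℕ => Wt N (r + l * (n : ℤ))) :=
    Summable.of_nonneg_of_le (fun n => hpos _) hb1 hg.summable
  have s2 : Summable (fun n : ℕ => Wt N (r + l * (-((n : ℤ) + 1)))) :=
    Summable.of_nonneg_of_le (fun n => hpos _) hb2 hg.summable
  have hs : HasSum (fun k : ℤ => Wt N (r + l * k))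
      ((∑' n : ℕ, Wt N (r + l * (n : ℤ))) + ∑' n : ℕ, Wt N (r + l * (-((n : ℤ) + 1)))) :=
    HasSum.of_nat_of_neg_add_one s1.hasSum s2.hasSum
  rw [hs.tsum_eq]
  have u1 : ∑' n : ℕ, Wt N (r + l * (n : ℤ)) ≤ 2 * (1 - Real.exp (-t))⁻¹ :=
    hasSum_le hb1 s1.hasSum hg
  have u2 : ∑' n : ℕ, Wt N (r + l * (-((n : ℤ) + 1))) ≤ 2 * (1 - Real.exp (-t))⁻¹ :=
    hasSum_le hb2 s2.hasSum hg
  have u3 := inv_le t ht0
  have u4 : 1 / t = (N : ℝ) / l := by rw [ht, one_div_div]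
  rw [u4] at u3
  linarith

end Pool.Agent.H442R2.BX
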