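import Pool.Agent.H442R2.BX.Defs

/-! # GW: the sifted Gaussian sum (helper546) -/

namespace Pool.Agent.H442R2.BX

open Finset
open Pool.Agent.H442R2.KF

namespace TaskGW

lemma Wt_summable (N : ℕ) (hN : 1 ≤ N) : Summable (fun n : ℤ => Wt N n) := by
  have hN' : (0:ℝ) < N := by exact_mod_cast hN
  have h := summable_pow_mul_jacobiTheta₂_term_bound 0 (T := 1 / (N:ℝ) ^ 2) (by positivity) 0
  refine h.congr ?_
  intro n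
  unfold Wt
  rw [pow_zero, one_mul]
  congr 1
  rw [div_pow]
  ring

/-- the term of the sum -/
noncomputable def tm (N : ℕ) (q : ℕ) (n : ℤ) : ℝ :=
  if ((q : ℤ) ∣ n ∧ ((1 : ℕ) : ℤ) ∣ n - 0 ∧ ((1 : ℕ) : ℤ) ∣ n - 0) then Wt N n else 0

lemma tm_eq (N : ℕ) (q : ℕ) (n : ℤ) : tm N q n = if (q : ℤ) ∣ n then Wt N n else 0 := by
  unfold tm
  have h : ((1 : ℕ) : ℤ) ∣ n - 0 := by simp
  by_cases hq : (q : ℤ) ∣ n
  · rw [if_pos ⟨hq, h, h⟩, if_pos hq]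
  · rw [if_neg (fun h' => hq h'.1), if_neg hq]

lemma tm_summable (N : ℕ) (hN : 1 ≤ N) (q : ℕ) : Summable (tm N q) := by
  have h0 : ∀ n : ℤ, 0 ≤ Wt N n := fun n => (Real.exp_pos _).le
  refine Summable.of_nonneg_of_le (fun n => ?_) (fun n => ?_) (Wt_summable N hN)
  · rw [tm_eq]; split_ifs
    · exact h0 n
    · exact le_rfl
  · rw [tm_eq]; split_ifs
    · exact le_rfl
    · exact h0 n

lemma SE_eq (N : ℕ) (q : ℕ) : SE N 0 0 q 1 1 = ∑' n : ℤ, tm N q n := rfl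

lemma term_eq (N : ℕ) (lam : ℕ → ℝ) (z : ℕ) (n : ℤ) :
    Wt N n * nuS lam z n = ∑ q₁ ∈ Icc 1 z, ∑ q₂ ∈ Icc 1 z,
      lam q₁ * lam q₂ * tm N (Nat.lcm q₁ q₂) n := by
  unfold nuS
  rw [sq, sum_filter, sum_mul_sum, mul_sum]
  refine sum_congr rfl fun q₁ _ => ?_
  rw [mul_sum]
  refine sum_congr rfl fun q₂ _ => ?_
  rw [tm_eq]
  have hl : ((Nat.lcm q₁ q₂ : ℕ) : ℤ) ∣ n ↔ ((q₁ : ℤ) ∣ n ∧ (q₂ : ℤ) ∣ n) := by
    rw [Int.natCast_dvd, Int.natCast_dvd, Int.natCast_dvd, Nat.lcm_dvd_iff]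
  by_cases h1 : (q₁ : ℤ) ∣ n <;> by_cases h2 : (q₂ : ℤ) ∣ n <;> simp [hl, h1, h2]
  ring

end TaskGW

open TaskGW in
theorem GW (hSM : St_SM) : St_GW := by
  obtain ⟨N₀, hN₀⟩ := hSM
  refine ⟨N₀ + 1, ?_⟩
  intro N z hN hz hzN lam hlam
  have hN1 : 1 ≤ N := by omega
  have hNR : (1 : ℝ) ≤ (N : ℝ) := by exact_mod_cast hN1
  have hN0 : (0 : ℝ) < (N : ℝ) := by linarith
  have hz2 : (2 : ℝ) ≤ (z : ℝ) := by exact_mod_cast hz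
  have hlog : 0 < Real.log z := Real.log_pos (by linarith)
  -- expansion
  have e1 : ∑' n : ℤ, Wt N n * nuS lam z n = ∑ q₁ ∈ Icc 1 z, ∑ q₂ ∈ Icc 1 z,
      lam q₁ * lam q₂ * SE N 0 0 (Nat.lcm q₁ q₂) 1 1 := by
    simp only [term_eq]
    rw [Summable.tsum_finsetSum]
    · refine sum_congr rfl fun q₁ _ => ?_
      rw [Summable.tsum_finsetSum]
      · refine sum_congr rfl fun q₂ _ => ?_
        rw [tsum_mul_left, SE_eq]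
      · intro q₂ _
        exact (tm_summable N hN1 _).mul_left _
    · intro q₁ _
      exact summable_sum fun q₂ _ => (tm_summable N hN1 _).mul_left _
  have hzz : (z : ℝ) * z ≤ (N : ℝ) ^ (1 / 2 : ℝ) := by
    have h1 : (N : ℝ) ^ (1 / 2 : ℝ) = (N : ℝ) ^ (1 / 4 : ℝ) * (N : ℝ) ^ (1 / 4 : ℝ) := by
      rw [← Real.rpow_add hN0]
      norm_num
    rw [h1]
    exact mul_le_mul hzN hzN (by linarith) (by positivity)
  -- one term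
  have e2 : ∀ q₁ ∈ Icc 1 z, ∀ q₂ ∈ Icc 1 z, lam q₁ * lam q₂ * SE N 0 0 (Nat.lcm q₁ q₂) 1 1 ≤
      (N : ℝ) * (lam q₁ * lam q₂ / (Nat.lcm q₁ q₂ : ℝ)) + 1 / (N : ℝ) ^ 5 := by
    intro q₁ hq₁ q₂ hq₂
    rw [mem_Icc] at hq₁ hq₂
    have hl1 : 1 ≤ Nat.lcm q₁ q₂ := Nat.lcm_pos (by omega) (by omega)
    have hl2 : Nat.lcm q₁ q₂ ≤ q₁ * q₂ :=
      Nat.le_of_dvd (Nat.mul_pos (by omega) (by omega)) (Nat.lcm_dvd_mul q₁ q₂)
    have hl3 : ((Nat.lcm q₁ q₂ : ℕ) : ℝ) * ((1 : ℕ) : ℝ) ≤ (N : ℝ) ^ (9 / 10 : ℝ) := by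
      have h1 : ((Nat.lcm q₁ q₂ : ℕ) : ℝ) ≤ (z : ℝ) * z := by
        have : Nat.lcm q₁ q₂ ≤ z * z := hl2.trans (Nat.mul_le_mul hq₁.2 hq₂.2)
        exact_mod_cast this
      have h2 : (N : ℝ) ^ (1 / 2 : ℝ) ≤ (N : ℝ) ^ (9 / 10 : ℝ) :=
        Real.rpow_le_rpow_of_exponent_le hNR (by norm_num)
      push_cast
      linarith
    have hsm := (hN₀ N (by omega) 0 0 (Nat.lcm q₁ q₂) 1 hl1 le_rfl (Nat.coprime_one_right _) hl3).1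
    have hb : |lam q₁ * lam q₂| ≤ 1 := by
      rw [abs_mul]
      exact mul_le_one₀ (hlam.bd q₁) (abs_nonneg _) (hlam.bd q₂)
    have h3 : lam q₁ * lam q₂ * (SE N 0 0 (Nat.lcm q₁ q₂) 1 1 -
        N / ((Nat.lcm q₁ q₂ : ℝ) * ((1 : ℕ) : ℝ))) ≤ 1 / (N : ℝ) ^ 5 := by
      refine (le_abs_self _).trans ?_
      rw [abs_mul]
      calc _ ≤ 1 * |SE N 0 0 (Nat.lcm q₁ q₂) 1 1 - N / ((Nat.lcm q₁ q₂ : ℝ) * ((1 : ℕ) : ℝ))| :=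
            mul_le_mul_of_nonneg_right hb (abs_nonneg _)
        _ ≤ _ := by rw [one_mul]; exact hsm
    have h4 : lam q₁ * lam q₂ * (N / ((Nat.lcm q₁ q₂ : ℝ) * ((1 : ℕ) : ℝ))) =
        (N : ℝ) * (lam q₁ * lam q₂ / (Nat.lcm q₁ q₂ : ℝ)) := by
      push_cast
      ring
    linarith [mul_sub (lam q₁ * lam q₂) (SE N 0 0 (Nat.lcm q₁ q₂) 1 1)
      (N / ((Nat.lcm q₁ q₂ : ℝ) * ((1 : ℕ) : ℝ)))]
  have e3 : ∑ q₁ ∈ Icc 1 z, ∑ q₂ ∈ Icc 1 z, lam q₁ * lam q₂ * SE N 0 0 (Nat.lcm q₁ q₂) 1 1 ≤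
      (N : ℝ) * (∑ q₁ ∈ Icc 1 z, ∑ q₂ ∈ Icc 1 z, lam q₁ * lam q₂ / (Nat.lcm q₁ q₂ : ℝ)) +
        (z : ℝ) * (z * (1 / (N : ℝ) ^ 5)) := by
    calc _ ≤ ∑ q₁ ∈ Icc 1 z, ∑ q₂ ∈ Icc 1 z, ((N : ℝ) * (lam q₁ * lam q₂ /
          (Nat.lcm q₁ q₂ : ℝ)) + 1 / (N : ℝ) ^ 5) :=
          sum_le_sum fun q₁ h₁ => sum_le_sum fun q₂ h₂ => e2 q₁ h₁ q₂ h₂
      _ = _ := by
          simp only [sum_add_distrib, sum_const, Nat.card_Icc, nsmul_eq_mul, mul_sum,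
            Nat.add_sub_cancel]
  have e4 := mul_le_mul_of_nonneg_left hlam.form hN0.le
  have e5 : (z : ℝ) * (z * (1 / (N : ℝ) ^ 5)) ≤ N / Real.log z := by
    have h1 : (N : ℝ) ^ (1 / 2 : ℝ) ≤ N := by
      calc (N : ℝ) ^ (1 / 2 : ℝ) ≤ (N : ℝ) ^ (1 : ℝ) :=
            Real.rpow_le_rpow_of_exponent_le hNR (by norm_num)
        _ = N := Real.rpow_one _
    have h2 : (z : ℝ) * (z * (1 / (N : ℝ) ^ 5)) ≤ 1 := by
      have h3 : (1 : ℝ) / (N : ℝ) ^ 5 ≤ 1 / N := by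
        apply one_div_le_one_div_of_le hN0
        calc (N : ℝ) = (N : ℝ) ^ 1 := (pow_one _).symm
          _ ≤ (N : ℝ) ^ 5 := pow_le_pow_right₀ hNR (by norm_num)
      calc (z : ℝ) * (z * (1 / (N : ℝ) ^ 5)) = (z * z) * (1 / (N : ℝ) ^ 5) := by ring
        _ ≤ (N : ℝ) * (1 / (N : ℝ)) := mul_le_mul (hzz.trans h1) h3 (by positivity) hN0.le
        _ = (1 : ℝ) := by field_simp
    have h4 : 1 ≤ N / Real.log z := by
      rw [le_div_iff₀ hlog, one_mul]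
      have h5 : Real.log z ≤ z := (Real.log_le_sub_one_of_pos (by linarith)).trans (by linarith)
      have h6 : (z : ℝ) ≤ z * z := by nlinarith
      linarith
    linarith
  rw [e1]
  refine e3.trans ?_
  have e6 : 3 * (N : ℝ) / Real.log z = N * (2 / Real.log z) + N / Real.log z := by ring
  rw [e6]
  linarith

end Pool.Agent.H442R2.BX
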