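import Pool.Agent.H442R2.BX.Defs
import Pool.Agent.H442R2.KF.Kfb

set_option autoImplicit false

/-! BX project (helper442), task KS: scaling of Kloosterman fractions. -/

namespace Pool.Agent.H442R2.BX

open Pool.Agent.H442R2.KF

namespace TaskKS

theorem exists_inv (n : ℕ) (hn : 0 < n) (m : ℕ) (h : Nat.Coprime m n) :
    ∃ x : ℤ, (n : ℤ) ∣ (m : ℤ) * x - 1 := by
  have h1 : IsCoprime (m : ℤ) (n : ℤ) := Nat.isCoprime_iff_coprime.2 h
  obtain ⟨x, hx, -⟩ := KF.TaskA.unit_inv n hn m h1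
  refine ⟨x, ?_⟩
  rw [← ZMod.intCast_zmod_eq_zero_iff_dvd, Int.cast_sub, hx, Int.cast_one, sub_self]

theorem cast_one_of_dvd (n : ℕ) (y : ℤ) (h : (n : ℤ) ∣ y - 1) : ((y : ℤ) : ZMod n) = 1 := by
  rw [← ZMod.intCast_zmod_eq_zero_iff_dvd, Int.cast_sub, Int.cast_one, sub_eq_zero] at h
  exact h

end TaskKS

open TaskKS

theorem KS : St_KS := by
  constructor
  · intro b m g n hg hn hc
    obtain ⟨x, hx⟩ := exists_inv (g * n) (Nat.mul_pos hg hn) m hc
    have hx' : (n : ℤ) ∣ (m : ℤ) * x - 1 := by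
      refine dvd_trans ?_ hx
      push_cast
      exact dvd_mul_left _ _
    rw [kf_of_inv (g * n) (Nat.mul_pos hg hn) (b * g) m x (cast_one_of_dvd _ _ hx),
      kf_of_inv n hn b m x (cast_one_of_dvd _ _ hx')]
    congr 1
    have hg' : (g : ℝ) ≠ 0 := by exact_mod_cast hg.ne'
    have hn' : (n : ℝ) ≠ 0 := by exact_mod_cast hn.ne'
    push_cast
    field_simp
  · intro b m g n hn hc
    obtain ⟨x, hx⟩ := exists_inv n hn (g * m) hc
    have hx' : (n : ℤ) ∣ (m : ℤ) * (g * x) - 1 := by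
      have : (m : ℤ) * (g * x) - 1 = ((g * m : ℕ) : ℤ) * x - 1 := by
        push_cast
        ring
      rw [this]
      exact hx
    rw [kf_of_inv n hn (b * g) ((g * m : ℕ) : ℤ) x (cast_one_of_dvd _ _ hx),
      kf_of_inv n hn b m (g * x) (cast_one_of_dvd _ _ hx')]
    congr 1
    push_cast
    ring

end Pool.Agent.H442R2.BX
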