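import Pool.Agent.H442R2.BX.Defs
import Pool.Agent.H442R2.KF.Summ

set_option autoImplicit false

namespace Pool.Agent.H442R2.BX

open Finset
open Pool.Agent.H442R2.KF

namespace TaskNC

theorem Wt_pos (N : ℕ) (n : ℤ) : 0 < Wt N n := Real.exp_pos _

theorem Wt_le_one (N : ℕ) (n : ℤ) : Wt N n ≤ 1 := by
  unfold Wt
  apply Real.exp_le_one_iff.2
  have := Real.pi_pos
  nlinarith [sq_nonneg ((n : ℝ) / N), mul_nonneg this.le (sq_nonneg ((n : ℝ) / N))]

theorem summable_ite (N : ℕ) (hN : 1 ≤ N) (p : ℤ → Prop) [DecidablePred p] :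
    Summable (fun n : ℤ => if p n then Wt N n else 0) := by
  refine Summable.of_nonneg_of_le (fun n => ?_) (fun n => ?_) (TaskS.summable_Wt N hN)
  · split_ifs
    · exact (Wt_pos N n).le
    · exact le_refl _
  · split_ifs
    · exact le_refl _
    · exact (Wt_pos N n).le

theorem card_roughs (y : ℝ) (X : ℕ) : (roughs y X).card ≤ X := by
  classical
  unfold roughs
  refine (card_filter_le _ _).trans ?_
  simp

open Classical in
/-- the number of pairs at `n` times the weight -/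
noncomputable def f (y : ℝ) (N X : ℕ) (a a' n : ℤ) : ℝ :=
  ∑ d ∈ roughs y X, ∑ d' ∈ (roughs y X).filter (fun d' => ¬ Nat.Coprime d d'),
    (if ((d : ℤ) ∣ n - a ∧ (d' : ℤ) ∣ n - a') then Wt N n else 0)

theorem f_nonneg (y : ℝ) (N X : ℕ) (a a' n : ℤ) : 0 ≤ f y N X a a' n := by
  unfold f
  refine sum_nonneg fun d _ => sum_nonneg fun d' _ => ?_
  split_ifs
  · exact (Wt_pos N n).le
  · exact le_refl _

theorem f_le (y : ℝ) (N X : ℕ) (a a' n : ℤ) :
    f y N X a a' n ≤ Wt N n * ((rd y X (n - a)).card * (rd y X (n - a')).card) := by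
  classical
  unfold f
  calc _ ≤ ∑ d ∈ roughs y X, ∑ d' ∈ roughs y X,
        (if ((d : ℤ) ∣ n - a ∧ (d' : ℤ) ∣ n - a') then Wt N n else 0) := by
        refine sum_le_sum fun d _ => ?_
        refine sum_le_sum_of_subset_of_nonneg (filter_subset _ _) fun d' _ _ => ?_
        split_ifs
        · exact (Wt_pos N n).le
        · exact le_refl _
    _ = ∑ d ∈ roughs y X, ∑ d' ∈ roughs y X,
        (Wt N n * ((if (d : ℤ) ∣ n - a then 1 else 0) * (if (d' : ℤ) ∣ n - a' then 1 else 0))) := by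
        refine sum_congr rfl fun d _ => sum_congr rfl fun d' _ => ?_
        by_cases h1 : (d : ℤ) ∣ n - a <;> by_cases h2 : (d' : ℤ) ∣ n - a' <;> simp [h1, h2]
    _ = Wt N n * ((∑ d ∈ roughs y X, if (d : ℤ) ∣ n - a then (1:ℝ) else 0) *
        (∑ d' ∈ roughs y X, if (d' : ℤ) ∣ n - a' then (1:ℝ) else 0)) := by
        rw [sum_mul_sum, mul_sum]
        refine sum_congr rfl fun d _ => ?_
        rw [mul_sum]
    _ = _ := by
        rw [sum_boole, sum_boole]
        rfl

theorem rough_prime (y : ℝ) (d l : ℕ) (h : Rough y d) (hl : l.Prime) (hd : l ∣ d) :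
    y < l ∧ Rough y l := by
  refine ⟨h.2 l hl hd, hl.one_lt, fun p hp hpl => ?_⟩
  have : p = l := (Nat.prime_dvd_prime_iff_eq hp hl).1 hpl
  rw [this]
  exact h.2 l hl hd

end TaskNC

open TaskNC in
theorem NC (hRC : St_RC) (hGS : St_GS) : St_NC := by
  classical
  intro ε hε
  obtain ⟨N₀, C0, hC0, hrc⟩ := hRC ε hε
  refine ⟨4 * C0 + 32 * C0 ^ 3 + 4 * N₀ * (N₀ + 1) + 1, by positivity, ?_⟩
  intro N q X hN hq hXN a a' ha ha' haa
  have hN1 : 1 ≤ N := by omega
  have hNpos : (0:ℝ) < N := by exact_mod_cast (by omega : 0 < N)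
  set y := (N : ℝ) ^ ε with hy
  have hy0 : 0 < y := Real.rpow_pos_of_pos hNpos _
  have hpow0 : 0 ≤ (N : ℝ) ^ (1 - ε) := Real.rpow_nonneg hNpos.le _
  -- X = 0
  rcases Nat.eq_zero_or_pos X with hX0 | hX0
  · have : roughs y X = ∅ := by
      rw [← card_eq_zero]
      have := card_roughs y X
      omega
    rw [this, sum_empty]
    positivity
  have hX1 : (1:ℝ) ≤ X := by exact_mod_cast hX0
  -- drop q
  have hdrop : ∀ d d' : ℕ, SE N a a' q d d' ≤
      ∑' n : ℤ, if ((d : ℤ) ∣ n - a ∧ (d' : ℤ) ∣ n - a') then Wt N n else 0 := by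
    intro d d'
    unfold SE
    refine Summable.tsum_le_tsum (fun n => ?_) (summable_ite N hN1 _) (summable_ite N hN1 _)
    by_cases h1 : ((q : ℤ) ∣ n ∧ (d : ℤ) ∣ n - a ∧ (d' : ℤ) ∣ n - a')
    · rw [if_pos h1, if_pos h1.2]
    · rw [if_neg h1]
      split_ifs
      · exact (Wt_pos N n).le
      · exact le_refl _
  by_cases hsmall : N < N₀
  · -- small N
    have h1 : ∀ d d' : ℕ, SE N a a' q d d' ≤ 4 * ((N:ℝ) + 1) := by
      intro d d'
      refine (hdrop d d').trans ?_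
      have h2 := (hGS N hN1).2 1 a le_rfl
      simp only [Nat.cast_one, div_one] at h2
      refine le_trans ?_ h2
      refine Summable.tsum_le_tsum (fun n => ?_) (summable_ite N hN1 _) (summable_ite N hN1 _)
      rw [if_pos (one_dvd (n - a))]
      split_ifs
      · exact le_refl _
      · exact (Wt_pos N n).le
    have hcard : ((roughs y X).card : ℝ) ≤ X := by exact_mod_cast card_roughs y X
    have hNN : (N:ℝ) ≤ N₀ := by exact_mod_cast hsmall.le
    have hXN' : (X:ℝ) ≤ N := by exact_mod_cast hXN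
    calc _ ≤ ∑ d ∈ roughs y X,
          ∑ d' ∈ (roughs y X).filter (fun d' => ¬ Nat.Coprime d d'), 4 * ((N:ℝ) + 1) :=
          sum_le_sum fun d _ => sum_le_sum fun d' _ => h1 d d'
      _ ≤ ∑ d ∈ roughs y X, (X:ℝ) * (4 * ((N:ℝ) + 1)) := by
          refine sum_le_sum fun d _ => ?_
          rw [sum_const, nsmul_eq_mul]
          refine mul_le_mul_of_nonneg_right ?_ (by positivity)
          refine le_trans ?_ hcard
          exact_mod_cast card_filter_le _ _
      _ = ((roughs y X).card : ℝ) * ((X:ℝ) * (4 * ((N:ℝ) + 1))) := by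
          rw [sum_const, nsmul_eq_mul]
      _ ≤ (N₀:ℝ) * ((X:ℝ) * (4 * ((N₀:ℝ) + 1))) := by
          refine mul_le_mul (hcard.trans (hXN'.trans hNN)) ?_ (by positivity) (by positivity)
          gcongr
      _ = 4 * N₀ * (N₀ + 1) * X := by ring
      _ ≤ (4 * C0 + 32 * C0 ^ 3 + 4 * N₀ * (N₀ + 1) + 1) * ((N : ℝ) ^ (1 - ε) + X) := by
          have e1 : (4 * (N₀:ℝ) * (N₀ + 1)) ≤ 4 * C0 + 32 * C0 ^ 3 + 4 * N₀ * (N₀ + 1) + 1 := by
            have : 0 ≤ 4 * C0 + 32 * C0 ^ 3 := by positivity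
            linarith
          refine mul_le_mul e1 (by linarith) (by positivity) (by positivity)
  push Not at hsmall
  -- exchange the sums
  have hex : ∑ d ∈ roughs y X,
      ∑ d' ∈ (roughs y X).filter (fun d' => ¬ Nat.Coprime d d'), SE N a a' q d d' ≤
      ∑' n : ℤ, f y N X a a' n := by
    calc _ ≤ ∑ d ∈ roughs y X,
          ∑ d' ∈ (roughs y X).filter (fun d' => ¬ Nat.Coprime d d'),
          ∑' n : ℤ, (if ((d : ℤ) ∣ n - a ∧ (d' : ℤ) ∣ n - a') then Wt N n else 0) :=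
          sum_le_sum fun d _ => sum_le_sum fun d' _ => hdrop d d'
      _ = ∑ d ∈ roughs y X, ∑' n : ℤ,
          ∑ d' ∈ (roughs y X).filter (fun d' => ¬ Nat.Coprime d d'),
          (if ((d : ℤ) ∣ n - a ∧ (d' : ℤ) ∣ n - a') then Wt N n else 0) := by
          refine sum_congr rfl fun d _ => ?_
          rw [Summable.tsum_finsetSum fun d' _ => summable_ite N hN1 _]
      _ = _ := by
          unfold f
          rw [Summable.tsum_finsetSum fun d _ => summable_sum fun d' _ => summable_ite N hN1 _]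
  refine hex.trans ?_
  -- the primes
  set Ls := (rd y (2 * N) (a' - a)).filter Nat.Prime with hLs
  have hr1 : ∀ b : ℤ, |(b:ℝ)| ≤ N → (1 + |(b:ℝ)| / N) ^ (1 / 4 : ℝ) ≤ 2 := by
    intro b hb
    have h1 : 1 + |(b:ℝ)| / N ≤ 2 := by
      have : |(b:ℝ)| / N ≤ 1 := by rw [div_le_one hNpos]; exact hb
      linarith
    have h2 : (1:ℝ) ≤ 1 + |(b:ℝ)| / N := by
      have : 0 ≤ |(b:ℝ)| / N := by positivity
      linarith
    calc (1 + |(b:ℝ)| / N) ^ (1 / 4 : ℝ) ≤ (1 + |(b:ℝ)| / N) ^ (1 : ℝ) :=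
          Real.rpow_le_rpow_of_exponent_le h2 (by norm_num)
      _ = 1 + |(b:ℝ)| / N := Real.rpow_one _
      _ ≤ 2 := h1
  have hLcard : (Ls.card : ℝ) ≤ 2 * C0 := by
    have h1 : (Ls.card : ℝ) ≤ ((rd y (2 * N) (a' - a)).card : ℝ) := by
      exact_mod_cast card_filter_le _ _
    have h2 := hrc N (2 * N) hsmall a a' ha haa.symm
    have h3 := hr1 a' ha'
    nlinarith
  have hX' : ∀ m : ℤ, ((rd y X m).card : ℝ) ≤ X := by
    intro m
    have : (rd y X m).card ≤ X := (card_filter_le _ _).trans (card_roughs y X)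
    exact_mod_cast this
  -- pointwise bound
  have hpt : ∀ n : ℤ, f y N X a a' n ≤ (if n = a then 2 * C0 * X else 0) +
      (if n = a' then 2 * C0 * X else 0) +
      ∑ l ∈ Ls, 2 * C0 ^ 2 * (if (l : ℤ) ∣ n - a then Wt (2 * N) n else 0) := by
    intro n
    have hsum0 : 0 ≤ ∑ l ∈ Ls, 2 * C0 ^ 2 * (if (l : ℤ) ∣ n - a then Wt (2 * N) n else 0) := by
      refine sum_nonneg fun l _ => mul_nonneg (by positivity) ?_
      split_ifs
      · exact (Wt_pos _ n).le
      · exact le_refl _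
    have hW1 := Wt_le_one N n
    have hW0 := (Wt_pos N n).le
    by_cases hna : n = a
    · have h0 := f_le y N X a a' n
      have h1 : ((rd y X (n - a')).card : ℝ) ≤ 2 * C0 := by
        have h2 := hrc N X hsmall a' n ha' (by rw [hna]; exact haa)
        have h3 := hr1 n (by rw [hna]; exact ha)
        nlinarith
      have h4 := hX' (n - a)
      rw [if_pos hna]
      have h5 : 0 ≤ (if n = a' then 2 * C0 * (X:ℝ) else 0) := by split_ifs <;> positivity
      have h6 : Wt N n * (((rd y X (n - a)).card : ℝ) * ((rd y X (n - a')).card : ℝ)) ≤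
          1 * ((X:ℝ) * (2 * C0)) := by gcongr
      linarith
    by_cases hna' : n = a'
    · have h0 := f_le y N X a a' n
      have h1 : ((rd y X (n - a)).card : ℝ) ≤ 2 * C0 := by
        have h2 := hrc N X hsmall a n ha hna
        have h3 := hr1 n (by rw [hna']; exact ha')
        nlinarith
      have h4 := hX' (n - a')
      rw [if_neg hna, if_pos hna']
      have h6 : Wt N n * (((rd y X (n - a)).card : ℝ) * ((rd y X (n - a')).card : ℝ)) ≤
          1 * ((2 * C0) * (X:ℝ)) := by gcongr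
      linarith
    rw [if_neg hna, if_neg hna', add_zero, zero_add]
    by_cases hf0 : f y N X a a' n = 0
    · rw [hf0]; exact hsum0
    -- a common prime factor
    obtain ⟨d, hd, hd2⟩ : ∃ d ∈ roughs y X,
        ∑ d' ∈ (roughs y X).filter (fun d' => ¬ Nat.Coprime d d'),
        (if ((d : ℤ) ∣ n - a ∧ (d' : ℤ) ∣ n - a') then Wt N n else 0) ≠ 0 := by
      by_contra hc
      push Not at hc
      exact hf0 (sum_eq_zero hc)
    obtain ⟨d', hd', hd2'⟩ := exists_ne_zero_of_sum_ne_zero hd2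
    have hdv : (d : ℤ) ∣ n - a ∧ (d' : ℤ) ∣ n - a' := by
      by_contra hc
      exact hd2' (if_neg hc)
    rw [mem_filter] at hd'
    obtain ⟨l, hl, hldd⟩ := Nat.exists_prime_and_dvd (n := Nat.gcd d d') (fun h => hd'.2 h)
    have hld : l ∣ d := hldd.trans (Nat.gcd_dvd_left _ _)
    have hld' : l ∣ d' := hldd.trans (Nat.gcd_dvd_right _ _)
    have hRd : Rough y d := by
      have := hd
      unfold roughs at this
      exact (mem_filter.1 this).2
    have hlr := rough_prime y d l hRd hl hld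
    have hla : (l : ℤ) ∣ n - a := (Int.natCast_dvd_natCast.2 hld).trans hdv.1
    have hla' : (l : ℤ) ∣ n - a' := (Int.natCast_dvd_natCast.2 hld').trans hdv.2
    have hlaa : (l : ℤ) ∣ a' - a := by
      have := dvd_sub hla hla'
      have e : n - a - (n - a') = a' - a := by ring
      rwa [e] at this
    have hle : l ≤ 2 * N := by
      have h1 : (l : ℤ) ≤ |a' - a| :=
        Int.le_of_dvd (abs_pos.2 (sub_ne_zero.2 haa.symm)) ((dvd_abs _ _).2 hlaa)
      have h2 : |((a' - a : ℤ) : ℝ)| ≤ 2 * N := by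
        push_cast
        have := abs_sub (a' : ℝ) (a : ℝ)
        linarith
      have h3 : ((l : ℤ) : ℝ) ≤ |((a' - a : ℤ) : ℝ)| := by
        rw [← Int.cast_abs]
        exact_mod_cast h1
      have h4 : (l : ℝ) ≤ 2 * N := by
        have : ((l : ℤ) : ℝ) = (l : ℝ) := by simp
        linarith
      exact_mod_cast h4
    have hlL : l ∈ Ls := by
      rw [hLs, mem_filter]
      refine ⟨?_, hl⟩
      unfold rd roughs
      rw [mem_filter, mem_filter, mem_Icc]
      exact ⟨⟨⟨hl.one_le, hle⟩, hlr.2⟩, hlaa⟩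
    have h0 := f_le y N X a a' n
    have h1 := hrc N X hsmall a n ha hna
    have h2 := hrc N X hsmall a' n ha' hna'
    set t := 1 + |(n:ℝ)| / N with ht
    have ht1 : 1 ≤ t := by
      have : 0 ≤ |(n:ℝ)| / N := by positivity
      linarith
    have h3 : t ^ (1 / 4 : ℝ) * t ^ (1 / 4 : ℝ) ≤ t := by
      rw [← Real.rpow_add (by linarith)]
      calc t ^ (1 / 4 + 1 / 4 : ℝ) ≤ t ^ (1 : ℝ) :=
            Real.rpow_le_rpow_of_exponent_le ht1 (by norm_num)
        _ = t := Real.rpow_one _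
    have h4 := (hGS N hN1).1 n
    calc f y N X a a' n ≤ Wt N n * (((rd y X (n - a)).card : ℝ) * ((rd y X (n - a')).card : ℝ)) := h0
      _ ≤ Wt N n * ((C0 * t ^ (1 / 4 : ℝ)) * (C0 * t ^ (1 / 4 : ℝ))) := by gcongr
      _ = C0 ^ 2 * (Wt N n * (t ^ (1 / 4 : ℝ) * t ^ (1 / 4 : ℝ))) := by ring
      _ ≤ C0 ^ 2 * (Wt N n * t) := by gcongr
      _ ≤ C0 ^ 2 * (2 * Wt (2 * N) n) := by gcongr
      _ = 2 * C0 ^ 2 * (if (l : ℤ) ∣ n - a then Wt (2 * N) n else 0) := by
          rw [if_pos hla]; ring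
      _ ≤ _ := single_le_sum (f := fun l : ℕ =>
          2 * C0 ^ 2 * (if (l : ℤ) ∣ n - a then Wt (2 * N) n else 0)) (fun l _ => by
            refine mul_nonneg (by positivity) ?_
            split_ifs
            · exact (Wt_pos _ n).le
            · exact le_refl _) hlL
  -- summability
  have hs1 : ∀ (b : ℤ) (v : ℝ), Summable (fun n : ℤ => if n = b then v else 0) := by
    intro b v
    refine summable_of_ne_finset_zero (s := {b}) fun n hn => ?_
    rw [mem_singleton] at hn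
    exact if_neg hn
  have hs2 : Summable (fun n : ℤ => ∑ l ∈ Ls,
      2 * C0 ^ 2 * (if (l : ℤ) ∣ n - a then Wt (2 * N) n else 0)) :=
    summable_sum fun l _ => (summable_ite (2 * N) (by omega) _).mul_left _
  have hsf : Summable (fun n : ℤ => f y N X a a' n) := by
    unfold f
    exact summable_sum fun d _ => summable_sum fun d' _ => summable_ite N hN1 _
  have htot := Summable.tsum_le_tsum hpt hsf (((hs1 a (2 * C0 * X)).add (hs1 a' (2 * C0 * X))).add hs2)
  refine htot.trans ?_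
  rw [Summable.tsum_add ((hs1 a (2 * C0 * X)).add (hs1 a' (2 * C0 * X))) hs2,
    Summable.tsum_add (hs1 a (2 * C0 * X)) (hs1 a' (2 * C0 * X)), tsum_ite_eq, tsum_ite_eq,
    Summable.tsum_finsetSum fun l _ => (summable_ite (2 * N) (by omega) _).mul_left _]
  have hl : ∀ l ∈ Ls, ∑' n : ℤ, 2 * C0 ^ 2 * (if (l : ℤ) ∣ n - a then Wt (2 * N) n else 0) ≤
      2 * C0 ^ 2 * (4 * (2 * (N:ℝ) ^ (1 - ε) + 1)) := by
    intro l hlL
    rw [tsum_mul_left]
    refine mul_le_mul_of_nonneg_left ?_ (by positivity)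
    have hlp : l.Prime := (mem_filter.1 hlL).2
    have hly : y < l := by
      have h1 := (mem_filter.1 hlL).1
      unfold rd roughs at h1
      have h2 := (mem_filter.1 (mem_filter.1 h1).1).2
      exact h2.2 l hlp dvd_rfl
    have h3 := (hGS (2 * N) (by omega)).2 l a hlp.one_le
    refine h3.trans ?_
    have h4 : ((2 * N : ℕ) : ℝ) / l ≤ 2 * (N:ℝ) ^ (1 - ε) := by
      push_cast
      rw [mul_div_assoc]
      refine mul_le_mul_of_nonneg_left ?_ (by norm_num)
      rw [Real.rpow_sub hNpos, Real.rpow_one]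
      exact div_le_div_of_nonneg_left hNpos.le hy0 hly.le
    linarith
  have hsumL : ∑ l ∈ Ls, ∑' n : ℤ, 2 * C0 ^ 2 * (if (l : ℤ) ∣ n - a then Wt (2 * N) n else 0) ≤
      (2 * C0) * (2 * C0 ^ 2 * (4 * (2 * (N:ℝ) ^ (1 - ε) + 1))) := by
    calc _ ≤ ∑ l ∈ Ls, 2 * C0 ^ 2 * (4 * (2 * (N:ℝ) ^ (1 - ε) + 1)) := sum_le_sum hl
      _ = (Ls.card : ℝ) * (2 * C0 ^ 2 * (4 * (2 * (N:ℝ) ^ (1 - ε) + 1))) := by
          rw [sum_const, nsmul_eq_mul]
      _ ≤ _ := by gcongr
  have hfin : 2 * C0 * X + 2 * C0 * X + (2 * C0) * (2 * C0 ^ 2 * (4 * (2 * (N:ℝ) ^ (1 - ε) + 1))) ≤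
      (4 * C0 + 32 * C0 ^ 3 + 4 * N₀ * (N₀ + 1) + 1) * ((N : ℝ) ^ (1 - ε) + X) := by
    have e1 : 2 * C0 * X + 2 * C0 * X +
        (2 * C0) * (2 * C0 ^ 2 * (4 * (2 * (N:ℝ) ^ (1 - ε) + 1))) =
        4 * C0 * X + 32 * C0 ^ 3 * (N:ℝ) ^ (1 - ε) + 16 * C0 ^ 3 := by ring
    have e2 : 16 * C0 ^ 3 ≤ 32 * C0 ^ 3 * X := by nlinarith [pow_pos hC0 3]
    have e3 : 0 ≤ (4 * (N₀:ℝ) * (N₀ + 1) + 1) * ((N : ℝ) ^ (1 - ε) + X) := by positivity
    have e4 : 0 ≤ 4 * C0 * (N : ℝ) ^ (1 - ε) := by positivity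
    rw [e1]
    nlinarith
  linarith

end Pool.Agent.H442R2.BX
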