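import Pool.Agent.H442R2.BX.Defs

/-! Task PB: pointwise bound. -/

namespace Pool.Agent.H442R2.BX

open Finset
open Pool.Agent.H442R2.KF

namespace TaskPB

lemma abs_dl_le (d : ℕ) (m : ℤ) : |dl d m| ≤ (if (d : ℤ) ∣ m then 1 else 0) + 1 / (d : ℝ) := by
  unfold dl
  refine (abs_sub _ _).trans (le_of_eq ?_)
  congr 1
  · split_ifs <;> simp
  · exact abs_of_nonneg (by positivity)

lemma roughs_mono (y : ℝ) {X N : ℕ} (h : X ≤ N) : roughs y X ⊆ roughs y N := by
  classical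
  unfold roughs
  intro d hd
  rw [mem_filter, mem_Icc] at hd ⊢
  exact ⟨⟨hd.1.1, hd.1.2.trans h⟩, hd.2⟩

lemma abs_Rf_le (y : ℝ) (X : ℕ) (c : ℕ → ℝ) (hc : CofR y X c) (a n : ℤ) :
    |Rf c X a n| ≤ ((rd y X (n - a)).card : ℝ) + ∑ d ∈ roughs y X, 1 / (d : ℝ) := by
  classical
  unfold Rf
  have h1 : ∀ d ∈ Icc 1 X, |c d * dl d (n - a)| ≤
      if Rough y d then (if (d : ℤ) ∣ n - a then 1 else 0) + 1 / (d : ℝ) else 0 := by
    intro d _
    by_cases h0 : c d = 0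
    · rw [h0, zero_mul, abs_zero]
      split_ifs <;> positivity
    · rw [if_pos (hc.supp d h0).2, abs_mul]
      have h2 := abs_dl_le d (n - a)
      calc |c d| * |dl d (n - a)| ≤ 1 * ((if (d : ℤ) ∣ n - a then 1 else 0) + 1 / (d : ℝ)) :=
            mul_le_mul (hc.bd d) h2 (abs_nonneg _) zero_le_one
        _ = _ := one_mul _
  calc |∑ d ∈ Icc 1 X, c d * dl d (n - a)| ≤ ∑ d ∈ Icc 1 X, |c d * dl d (n - a)| :=
        abs_sum_le_sum_abs _ _
    _ ≤ ∑ d ∈ Icc 1 X,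
        if Rough y d then (if (d : ℤ) ∣ n - a then 1 else 0) + 1 / (d : ℝ) else 0 :=
        sum_le_sum h1
    _ = ∑ d ∈ roughs y X, ((if (d : ℤ) ∣ n - a then 1 else 0) + 1 / (d : ℝ)) := by
        unfold roughs
        rw [sum_filter]
    _ = _ := by
        rw [sum_add_distrib]
        congr 1
        unfold rd
        rw [sum_boole]

end TaskPB

open TaskPB in
theorem PB (hRC : St_RC) (hRA : St_RA) : St_PB := by
  intro ε hε
  obtain ⟨N₀, C1, hC1, h1⟩ := hRC ε hε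
  obtain ⟨C2, hC2, h2⟩ := hRA ε hε
  refine ⟨max N₀ 2, C1 + C2, by positivity, fun N X hN hX c hc a n ha => ?_⟩
  have hb : (1 : ℝ) ≤ (1 + |(n : ℝ)| / N) ^ (1 / 4 : ℝ) := by
    apply Real.one_le_rpow _ (by norm_num)
    have : 0 ≤ |(n : ℝ)| / N := by positivity
    linarith
  unfold rf
  split_ifs with hna
  · rw [abs_zero]
    positivity
  · have h3 := abs_Rf_le _ X c hc a n
    have h4 := h1 N X ((le_max_left _ _).trans hN) a n ha hna
    have h5 : ∑ d ∈ roughs ((N : ℝ) ^ ε) X, 1 / (d : ℝ) ≤ C2 :=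
      (sum_le_sum_of_subset_of_nonneg (roughs_mono _ hX) fun _ _ _ => by positivity).trans
        (h2 N ((le_max_right _ _).trans hN))
    nlinarith

end Pool.Agent.H442R2.BX
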