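import Pool.Agent.H442R2.BX.Defs
import Pool.Agent.H442R2.KF.Kfb

set_option autoImplicit false

/-! BX project (helper442), task PH: the phase identity (helper77). -/

namespace Pool.Agent.H442R2.BX

open Finset
open Pool.Agent.H442R2.KF

/-- PH (Ph.lean) -/
theorem PH : St_PH := by
  intro q d d' hq hd hd' hqd hqd' hdd' a a' c j h1 h2 h3
  have cqd : IsCoprime (q : ℤ) (d : ℤ) := Nat.isCoprime_iff_coprime.2 hqd
  have cqd' : IsCoprime (q : ℤ) (d' : ℤ) := Nat.isCoprime_iff_coprime.2 hqd'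
  have cdd' : IsCoprime (d : ℤ) (d' : ℤ) := Nat.isCoprime_iff_coprime.2 hdd'
  have c1 : IsCoprime (((d * d' : ℕ) : ℤ)) (q : ℤ) := by
    push_cast
    exact (cqd.mul_right cqd').symm
  have c2 : IsCoprime (((q * d : ℕ) : ℤ)) (d' : ℤ) := by
    push_cast
    exact cqd'.mul_left cdd'
  obtain ⟨u, hu, -⟩ := TaskA.unit_inv q hq _ c1
  obtain ⟨v, hv, -⟩ := TaskA.unit_inv d' hd' _ c2
  rw [kf_of_inv q hq _ _ u hu, kf_of_inv d' hd' _ _ v hv, ← e_add, ← e_add]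
  have hu' : (q : ℤ) ∣ (d : ℤ) * d' * u - 1 := by
    rw [← ZMod.intCast_zmod_eq_zero_iff_dvd]
    push_cast at hu ⊢
    rw [hu]
    simp
  have hv' : (d' : ℤ) ∣ (q : ℤ) * d * v - 1 := by
    rw [← ZMod.intCast_zmod_eq_zero_iff_dvd]
    push_cast at hv ⊢
    rw [hv]
    simp
  obtain ⟨x1, hx1⟩ := h1
  obtain ⟨x2, hx2⟩ := h2
  obtain ⟨x3, hx3⟩ := h3
  obtain ⟨x4, hx4⟩ := hu'
  obtain ⟨x5, hx5⟩ := hv'
  set E : ℤ := c - a + a * u * d * d' - (a' - a) * v * q * d with hE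
  have e1 : (q : ℤ) ∣ E := ⟨x1 + a * x4 - (a' - a) * v * d, by
    rw [hE]; linear_combination hx1 + a * hx4⟩
  have e2 : (d : ℤ) ∣ E := ⟨x2 + a * u * d' - (a' - a) * v * q, by
    rw [hE]; linear_combination hx2⟩
  have e3 : (d' : ℤ) ∣ E := ⟨x3 + a * u * d - (a' - a) * x5, by
    rw [hE]; linear_combination hx3 - (a' - a) * hx5⟩
  obtain ⟨z, hz⟩ := (cqd'.mul_left cdd').mul_dvd (cqd.mul_dvd e1 e2) e3
  have hz' : (c : ℝ) - a + a * u * d * d' - (a' - a) * v * q * d = q * d * d' * z := by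
    have : c - a + a * u * d * d' - (a' - a) * v * q * d = (q : ℤ) * d * d' * z := by
      rw [← hE, hz]
    exact_mod_cast this
  have hqr : (q : ℝ) ≠ 0 := by exact_mod_cast hq.ne'
  have hdr : (d : ℝ) ≠ 0 := by exact_mod_cast hd.ne'
  have hdr' : (d' : ℝ) ≠ 0 := by exact_mod_cast hd'.ne'
  refine e_congr (j * z) ?_
  push_cast
  field_simp
  linear_combination (j : ℝ) * hz'

end Pool.Agent.H442R2.BX
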