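import Pool.Agent.H442R2.BX.Defs

/-!
BX project, task PR: the prime side.
-/

namespace Pool.Agent.H442R2.BX

open Finset
open Pool.Agent.H442R2.KF

namespace TaskPR

theorem mem_roughs_iff {y : ℝ} {X d : ℕ} :
    d ∈ roughs y X ↔ (1 ≤ d ∧ d ≤ X) ∧ Rough y d := by
  classical
  unfold roughs
  rw [Finset.mem_filter, Finset.mem_Icc]

/-- the coefficients: the signs of the discrepancies -/
noncomputable def co (f : ℕ → ℝ) (N : ℕ) (a : ℤ) (T : Finset ℕ) (d : ℕ) : ℝ :=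
  if d ∈ T then (if 0 ≤ Df f N a d then 1 else -1) else 0

theorem co_bd (f : ℕ → ℝ) (N : ℕ) (a : ℤ) (T : Finset ℕ) (d : ℕ) : |co f N a T d| ≤ 1 := by
  unfold co
  split_ifs <;> simp

theorem co_mem {f : ℕ → ℝ} {N : ℕ} {a : ℤ} {T : Finset ℕ} {d : ℕ} (h : co f N a T d ≠ 0) :
    d ∈ T := by
  by_contra hd
  exact h (by unfold co; rw [if_neg hd])

theorem co_mul {f : ℕ → ℝ} {N : ℕ} {a : ℤ} {T : Finset ℕ} {d : ℕ} (h : d ∈ T) :
    co f N a T d * Df f N a d = |Df f N a d| := by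
  unfold co
  rw [if_pos h]
  split_ifs with h0
  · rw [one_mul, abs_of_nonneg h0]
  · rw [neg_one_mul, abs_of_neg (not_le.1 h0)]

theorem Df_eq (f : ℕ → ℝ) (N : ℕ) (a : ℤ) (d : ℕ) :
    Df f N a d = ∑ p ∈ (Icc 1 N).filter Nat.Prime, f p * dl d ((p : ℤ) - a) -
      (∑ p ∈ (Icc 1 N).filter Nat.Prime, f p) * (1 / (Nat.totient d : ℝ) - 1 / (d : ℝ)) := by
  have h1 : ∑ p ∈ (Icc 1 N).filter (fun p : ℕ => p.Prime ∧ (p : ℤ) ≡ a [ZMOD d]), f p =
      ∑ p ∈ (Icc 1 N).filter Nat.Prime, f p * (if (d : ℤ) ∣ (p : ℤ) - a then 1 else 0) := by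
    rw [Finset.sum_filter, Finset.sum_filter]
    apply Finset.sum_congr rfl
    intro p _
    have hiff : ((p : ℤ) ≡ a [ZMOD d]) ↔ (d : ℤ) ∣ (p : ℤ) - a :=
      ⟨fun h => Int.modEq_iff_dvd.1 h.symm, fun h => (Int.modEq_iff_dvd.2 h).symm⟩
    by_cases hp : p.Prime
    · by_cases hd : (d : ℤ) ∣ (p : ℤ) - a
      · rw [if_pos ⟨hp, hiff.2 hd⟩, if_pos hp, if_pos hd, mul_one]
      · rw [if_neg (fun h => hd (hiff.1 h.2)), if_pos hp, if_neg hd, mul_zero]
    · rw [if_neg (fun h => hp h.1), if_neg hp]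
  have h2 : ∑ p ∈ (Icc 1 N).filter Nat.Prime, f p * dl d ((p : ℤ) - a) =
      ∑ p ∈ (Icc 1 N).filter Nat.Prime, f p * (if (d : ℤ) ∣ (p : ℤ) - a then 1 else 0) -
        (∑ p ∈ (Icc 1 N).filter Nat.Prime, f p) * (1 / (d : ℝ)) := by
    rw [Finset.sum_mul, ← Finset.sum_sub_distrib]
    apply Finset.sum_congr rfl
    intro p _
    unfold dl
    ring
  unfold Df
  rw [h1, h2]
  ring

theorem Rf_eq (f : ℕ → ℝ) (N X : ℕ) (a : ℤ) (T : Finset ℕ) (hT : ∀ d ∈ T, 1 < d ∧ d ≤ X) (n : ℤ) :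
    Rf (co f N a T) X a n = ∑ d ∈ T, co f N a T d * dl d (n - a) := by
  unfold Rf
  symm
  apply Finset.sum_subset
  · intro d hd
    exact Finset.mem_Icc.2 ⟨(hT d hd).1.le, (hT d hd).2⟩
  · intro d _ hd
    have : co f N a T d = 0 := by
      by_contra h
      exact hd (co_mem h)
    rw [this, zero_mul]

theorem dl_zero_bd (d : ℕ) (hd : 1 ≤ d) : |dl d 0| ≤ 1 := by
  unfold dl
  rw [if_pos (dvd_zero _)]
  have hd' : (1 : ℝ) ≤ d := by exact_mod_cast hd
  have h1 : 0 ≤ 1 / (d : ℝ) := by positivity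
  have h2 : 1 / (d : ℝ) ≤ 1 := by
    rw [div_le_one (by linarith)]
    exact hd'
  rw [abs_le]
  constructor <;> linarith

theorem Rf_self (c : ℕ → ℝ) (X : ℕ) (a : ℤ) (hc : ∀ d, |c d| ≤ 1) : |Rf c X a a| ≤ X := by
  unfold Rf
  refine (Finset.abs_sum_le_sum_abs _ _).trans ?_
  calc ∑ d ∈ Icc 1 X, |c d * dl d (a - a)| ≤ ∑ d ∈ Icc 1 X, (1 : ℝ) := by
        apply Finset.sum_le_sum
        intro d hd
        rw [sub_self, abs_mul]
        have h1 := hc d
        have h2 := dl_zero_bd d (Finset.mem_Icc.1 hd).1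
        calc |c d| * |dl d 0| ≤ 1 * 1 := mul_le_mul h1 h2 (abs_nonneg _) zero_le_one
          _ = 1 := by norm_num
    _ = X := by simp

end TaskPR

open TaskPR in
theorem PR (hPB : St_PB) (hRT : St_RT) : St_PR := by
  intro ε hε
  obtain ⟨N₁, C₁, hC₁, hPB⟩ := hPB ε hε
  obtain ⟨C₂, hC₂, hRT⟩ := hRT ε hε
  refine ⟨max N₁ 2, 2 * C₁ + 1 + C₂, by positivity, ?_⟩
  intro N z X hN hXN f hf a ha T hT
  have hN1 : N₁ ≤ N := (le_max_left _ _).trans hN
  have hN2 : 2 ≤ N := (le_max_right _ _).trans hN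
  have hNpos : (0 : ℝ) < N := by exact_mod_cast (by omega : 0 < N)
  have hCof : CofR ((N : ℝ) ^ ε) X (co f N a T) :=
    ⟨fun d => co_bd f N a T d, fun d hd => hT d (co_mem hd)⟩
  refine ⟨co f N a T, hCof, fun d hd => co_mem hd, ?_⟩
  set c := co f N a T with hc
  set P := (Icc 1 N).filter Nat.Prime with hP
  set F := ∑ p ∈ P, f p with hF
  -- number of primes
  have hPcard : (P.card : ℝ) ≤ N := by
    have : P.card ≤ (Icc 1 N).card := Finset.card_filter_le _ _
    rw [Nat.card_Icc] at this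
    exact_mod_cast (by omega : P.card ≤ N)
  have hFabs : |F| ≤ N := by
    refine (Finset.abs_sum_le_sum_abs _ _).trans ?_
    refine (Finset.sum_le_sum (fun p _ => hf p)).trans ?_
    simpa using hPcard
  -- the error from the totients
  have hE : |F * ∑ d ∈ T, c d * (1 / (Nat.totient d : ℝ) - 1 / (d : ℝ))| ≤
      C₂ * (N : ℝ) ^ (1 - ε / 2) := by
    have hnn : ∀ d : ℕ, 1 ≤ d → 0 ≤ 1 / (Nat.totient d : ℝ) - 1 / (d : ℝ) := by
      intro d hd
      have h1 : 0 < Nat.totient d := Nat.totient_pos.2 hd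
      have h2 : (Nat.totient d : ℝ) ≤ d := by exact_mod_cast Nat.totient_le d
      have h1' : (0 : ℝ) < Nat.totient d := by exact_mod_cast h1
      have := one_div_le_one_div_of_le h1' h2
      linarith
    have hs : |∑ d ∈ T, c d * (1 / (Nat.totient d : ℝ) - 1 / (d : ℝ))| ≤
        C₂ * (N : ℝ) ^ (-(ε / 2)) := by
      refine (Finset.abs_sum_le_sum_abs _ _).trans ?_
      refine le_trans ?_ (hRT N hN2)
      have hsub : T ⊆ roughs ((N : ℝ) ^ ε) N := by
        intro d hd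
        have h := hT d hd
        exact mem_roughs_iff.2 ⟨⟨h.2.1.le, h.1.trans hXN⟩, h.2⟩
      calc ∑ d ∈ T, |c d * (1 / (Nat.totient d : ℝ) - 1 / (d : ℝ))|
          ≤ ∑ d ∈ T, (1 / (Nat.totient d : ℝ) - 1 / (d : ℝ)) := by
            apply Finset.sum_le_sum
            intro d hd
            have h0 := hnn d (hT d hd).2.1.le
            rw [abs_mul, abs_of_nonneg h0]
            calc |c d| * _ ≤ 1 * (1 / (Nat.totient d : ℝ) - 1 / (d : ℝ)) :=
                  mul_le_mul_of_nonneg_right (co_bd f N a T d) h0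
              _ = _ := one_mul _
        _ ≤ ∑ d ∈ roughs ((N : ℝ) ^ ε) N, (1 / (Nat.totient d : ℝ) - 1 / (d : ℝ)) := by
            apply Finset.sum_le_sum_of_subset_of_nonneg hsub
            intro d hd _
            apply hnn
            exact (mem_roughs_iff.1 hd).1.1
    rw [abs_mul]
    calc |F| * |∑ d ∈ T, c d * (1 / (Nat.totient d : ℝ) - 1 / (d : ℝ))|
        ≤ N * (C₂ * (N : ℝ) ^ (-(ε / 2))) :=
          mul_le_mul hFabs hs (abs_nonneg _) hNpos.le
      _ = C₂ * (N : ℝ) ^ (1 - ε / 2) := by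
          rw [sub_eq_add_neg, Real.rpow_add hNpos, Real.rpow_one]
          ring
  -- the main identity
  have hT' : ∀ d ∈ T, 1 < d ∧ d ≤ X := fun d hd => ⟨(hT d hd).2.1, (hT d hd).1⟩
  have hid : ∑ d ∈ T, |Df f N a d| = ∑ p ∈ P, f p * Rf c X a p -
      F * ∑ d ∈ T, c d * (1 / (Nat.totient d : ℝ) - 1 / (d : ℝ)) := by
    have h1 : ∑ d ∈ T, |Df f N a d| = ∑ d ∈ T, c d * Df f N a d :=
      Finset.sum_congr rfl (fun d hd => (co_mul hd).symm)
    have h2 : ∑ p ∈ P, f p * Rf c X a p = ∑ d ∈ T, c d * ∑ p ∈ P, f p * dl d ((p : ℤ) - a) := by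
      have h3 : ∀ p ∈ P, f p * Rf c X a p = ∑ d ∈ T, c d * (f p * dl d ((p : ℤ) - a)) := by
        intro p _
        rw [hc, Rf_eq f N X a T hT', Finset.mul_sum]
        apply Finset.sum_congr rfl
        intro d _
        ring
      rw [Finset.sum_congr rfl h3, Finset.sum_comm]
      apply Finset.sum_congr rfl
      intro d _
      rw [Finset.mul_sum]
    rw [h1, h2, Finset.mul_sum, ← Finset.sum_sub_distrib]
    apply Finset.sum_congr rfl
    intro d _
    rw [Df_eq]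
    ring
  -- replace Rf by rf
  have hself : |∑ p ∈ P, f p * (Rf c X a p - rf c X a p)| ≤ X := by
    have hz : ∀ p ∈ P, (p : ℤ) ≠ a → f p * (Rf c X a p - rf c X a p) = 0 := by
      intro p _ hp
      unfold rf
      rw [if_neg hp, sub_self, mul_zero]
    by_cases hex : ∃ p ∈ P, (p : ℤ) = a
    · obtain ⟨p₀, hp₀, hp₀a⟩ := hex
      rw [Finset.sum_eq_single_of_mem p₀ hp₀]
      · have h1 : rf c X a (p₀ : ℤ) = 0 := by
          unfold rf
          rw [if_pos hp₀a]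
        rw [h1, sub_zero, hp₀a, abs_mul]
        calc |f p₀| * |Rf c X a a| ≤ 1 * X :=
              mul_le_mul (hf p₀) (Rf_self c X a (fun d => co_bd f N a T d)) (abs_nonneg _)
                zero_le_one
          _ = X := one_mul _
      · intro p hp hpne
        apply hz p hp
        intro h
        apply hpne
        have : (p : ℤ) = (p₀ : ℤ) := h.trans hp₀a.symm
        exact_mod_cast this
    · have h0 : ∑ p ∈ P, f p * (Rf c X a p - rf c X a p) = 0 := by
        apply Finset.sum_eq_zero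
        intro p hp
        apply hz p hp
        intro h
        exact hex ⟨p, hp, h⟩
      rw [h0, abs_zero]
      positivity
  -- small primes
  have hsmall : |∑ p ∈ P.filter (fun p => ¬ z < p), f p * rf c X a p| ≤ 2 * C₁ * z := by
    refine (Finset.abs_sum_le_sum_abs _ _).trans ?_
    have hterm : ∀ p ∈ P.filter (fun p => ¬ z < p), |f p * rf c X a p| ≤ 2 * C₁ := by
      intro p hp
      have hpP := (Finset.mem_filter.1 hp).1
      have hpN : p ≤ N := (Finset.mem_Icc.1 (Finset.mem_filter.1 hpP).1).2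
      have h1 := hPB N X hN1 hXN c hCof a p ha
      have h2 : (1 + |(((p : ℕ) : ℤ) : ℝ)| / N) ≤ 2 := by
        have h3 : |(((p : ℕ) : ℤ) : ℝ)| = (p : ℝ) := by
          rw [Int.cast_natCast]
          exact abs_of_nonneg (Nat.cast_nonneg p)
        rw [h3]
        have h4 : (p : ℝ) / N ≤ 1 := by
          rw [div_le_one hNpos]
          exact_mod_cast hpN
        linarith
      have h0 : (0 : ℝ) ≤ 1 + |(((p : ℕ) : ℤ) : ℝ)| / N := by positivity
      have h5 : (1 + |(((p : ℕ) : ℤ) : ℝ)| / N) ^ (1 / 4 : ℝ) ≤ 2 := by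
        calc (1 + |(((p : ℕ) : ℤ) : ℝ)| / N) ^ (1 / 4 : ℝ) ≤ (2 : ℝ) ^ (1 / 4 : ℝ) :=
              Real.rpow_le_rpow h0 h2 (by norm_num)
          _ ≤ (2 : ℝ) ^ (1 : ℝ) := Real.rpow_le_rpow_of_exponent_le (by norm_num) (by norm_num)
          _ = 2 := Real.rpow_one 2
      rw [abs_mul]
      calc |f p| * |rf c X a p| ≤ 1 * (C₁ * (1 + |(((p : ℕ) : ℤ) : ℝ)| / N) ^ (1 / 4 : ℝ)) :=
            mul_le_mul (hf p) h1 (abs_nonneg _) zero_le_one
        _ ≤ 2 * C₁ := by nlinarith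
    refine (Finset.sum_le_sum hterm).trans ?_
    rw [Finset.sum_const, nsmul_eq_mul]
    have hcard : (P.filter (fun p => ¬ z < p)).card ≤ z := by
      have hsub : P.filter (fun p => ¬ z < p) ⊆ Icc 1 z := by
        intro p hp
        rw [Finset.mem_filter] at hp
        have h1 := Finset.mem_Icc.1 (Finset.mem_filter.1 hp.1).1
        exact Finset.mem_Icc.2 ⟨h1.1, not_lt.1 hp.2⟩
      calc (P.filter (fun p => ¬ z < p)).card ≤ (Icc 1 z).card := Finset.card_le_card hsub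
        _ = z := by rw [Nat.card_Icc]; omega
    have hcard' : ((P.filter (fun p => ¬ z < p)).card : ℝ) ≤ z := by exact_mod_cast hcard
    calc ((P.filter (fun p => ¬ z < p)).card : ℝ) * (2 * C₁) ≤ z * (2 * C₁) :=
          mul_le_mul_of_nonneg_right hcard' (by positivity)
      _ = 2 * C₁ * z := by ring
  -- splitting
  have hsplit : ∑ p ∈ P, f p * Rf c X a p =
      ∑ p ∈ P.filter (fun p => z < p), f p * rf c X a p +
      ∑ p ∈ P.filter (fun p => ¬ z < p), f p * rf c X a p +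
      ∑ p ∈ P, f p * (Rf c X a p - rf c X a p) := by
    rw [Finset.sum_filter_add_sum_filter_not, ← Finset.sum_add_distrib]
    apply Finset.sum_congr rfl
    intro p _
    ring
  have hfil : (Icc 1 N).filter (fun p => p.Prime ∧ z < p) = P.filter (fun p => z < p) := by
    rw [hP, Finset.filter_filter]
  rw [hfil, hid, hsplit]
  have e1 := le_abs_self (∑ p ∈ P.filter (fun p => z < p), f p * rf c X a p)
  have e2 := le_abs_self (∑ p ∈ P.filter (fun p => ¬ z < p), f p * rf c X a p)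
  have e3 := le_abs_self (∑ p ∈ P, f p * (Rf c X a p - rf c X a p))
  have e4 := neg_abs_le (F * ∑ d ∈ T, c d * (1 / (Nat.totient d : ℝ) - 1 / (d : ℝ)))
  have hz0 : (0 : ℝ) ≤ z := Nat.cast_nonneg z
  have hX0 : (0 : ℝ) ≤ X := Nat.cast_nonneg X
  have hp0 : 0 ≤ (N : ℝ) ^ (1 - ε / 2) := by positivity
  have k1 : 2 * C₁ * z ≤ (2 * C₁ + 1 + C₂) * z := by nlinarith
  have k2 : (X : ℝ) ≤ (2 * C₁ + 1 + C₂) * X := by nlinarith
  have k3 : C₂ * (N : ℝ) ^ (1 - ε / 2) ≤ (2 * C₁ + 1 + C₂) * (N : ℝ) ^ (1 - ε / 2) := by nlinarith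
  have k4 : (2 * C₁ + 1 + C₂) * (z + X + (N : ℝ) ^ (1 - ε / 2)) =
      (2 * C₁ + 1 + C₂) * z + (2 * C₁ + 1 + C₂) * X +
        (2 * C₁ + 1 + C₂) * (N : ℝ) ^ (1 - ε / 2) := by ring
  rw [k4]
  linarith

end Pool.Agent.H442R2.BX
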