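import Pool.Agent.H442R2.BX.Defs
import Pool.Agent.H442R2.KF.Err

/-!
BX project, task PW (helper578): the smooth weights are Lipschitz.
-/

namespace Pool.Agent.H442R2.BX

open Finset
open Pool.Agent.H442R2.KF

/-- PW -/
theorem PW : St_PW := by
  intro N J hN a ha P hP σ hσ ω hω hJ j
  have hP0 : (0 : ℝ) < P := by linarith
  have hN' : (3 : ℝ) ≤ N := by exact_mod_cast hN
  have hlog : 1 ≤ Real.log N := by
    rw [Real.le_log_iff_exp_le (by linarith)]
    have := Real.exp_one_lt_d9
    linarith
  by_cases hj : j ≤ J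
  · have hpsi : ∀ s : ℝ, psB N J a P σ ω j s = ((P / s : ℝ) : ℂ) *
        ((Real.exp (-Real.pi * ((j : ℝ) * N / s) ^ 2) : ℝ) : ℂ) *
        e ((σ : ℝ) * j * a / s) * ω j := by
      intro s
      unfold psB
      rw [if_pos hj]
    have n1 : ∀ s : ℝ, P ≤ s → ‖((P / s : ℝ) : ℂ)‖ ≤ 1 := by
      intro s hs
      have hs0 : 0 < s := lt_of_lt_of_le hP0 hs
      rw [Complex.norm_real, Real.norm_eq_abs, abs_of_nonneg (by positivity), div_le_one hs0]
      exact hs
    have n2 : ∀ s : ℝ, ‖((Real.exp (-Real.pi * ((j : ℝ) * N / s) ^ 2) : ℝ) : ℂ)‖ ≤ 1 := by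
      intro s
      rw [Complex.norm_real, Real.norm_eq_abs, abs_of_pos (Real.exp_pos _), Real.exp_le_one_iff]
      have : 0 ≤ Real.pi * ((j : ℝ) * N / s) ^ 2 := by positivity
      linarith
    constructor
    · intro s hs
      rw [hpsi, norm_mul, norm_mul, norm_mul, norm_e, mul_one]
      exact mul_le_one₀ (mul_le_one₀ (n1 s hs) (norm_nonneg _) (n2 s)) (norm_nonneg _) (hω j)
    · intro s s' hs hs'
      have hs0 : 0 < s := lt_of_lt_of_le hP0 hs
      have hs0' : 0 < s' := lt_of_lt_of_le hP0 hs'
      rw [hpsi, hpsi, ← sub_mul, norm_mul]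
      have il := TaskM2.inv_lip _ s s' hP0 hs hs'
      have d0 := abs_nonneg (s - s')
      have d1 : ‖((P / s : ℝ) : ℂ) - ((P / s' : ℝ) : ℂ)‖ ≤ |s - s'| / P := by
        rw [← Complex.ofReal_sub, Complex.norm_real, Real.norm_eq_abs]
        have : P / s - P / s' = P * (1 / s - 1 / s') := by ring
        rw [this, abs_mul, abs_of_pos hP0]
        calc P * |1 / s - 1 / s'| ≤ P * (|s - s'| / P ^ 2) :=
              mul_le_mul_of_nonneg_left il hP0.le
          _ = _ := by field_simp
      have d2 : ‖((Real.exp (-Real.pi * ((j : ℝ) * N / s) ^ 2) : ℝ) : ℂ) -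
          ((Real.exp (-Real.pi * ((j : ℝ) * N / s') ^ 2) : ℝ) : ℂ)‖ ≤
          3 * |s - s'| / P := by
        rw [← Complex.ofReal_sub, Complex.norm_real, Real.norm_eq_abs]
        exact TaskM2.gauss_lip' _ _ s s' hP0 hs hs'
      have d3 : ‖e ((σ : ℝ) * j * a / s) - e ((σ : ℝ) * j * a / s')‖ ≤
          (26 * Real.log N) * |s - s'| / P := by
        refine (norm_e_sub_le _ _).trans ?_
        have e1 : (σ : ℝ) * j * a / s - (σ : ℝ) * j * a / s' =
            ((σ : ℝ) * j * a) * (1 / s - 1 / s') := by ring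
        rw [e1, abs_mul]
        have hσ' : |(σ : ℝ)| = 1 := by
          rcases hσ with h | h <;> rw [h] <;> simp
        have hjJ : (j : ℝ) ≤ J := by exact_mod_cast hj
        have h1 : |(σ : ℝ) * j * a| ≤ 4 * P * Real.log N := by
          rw [abs_mul, abs_mul, hσ', one_mul, abs_of_nonneg (Nat.cast_nonneg j)]
          refine le_trans ?_ hJ
          exact mul_le_mul hjJ ha (abs_nonneg _) (Nat.cast_nonneg J)
        have hpi : Real.pi ≤ 3.15 := Real.pi_lt_d2.le
        have hpi0 := Real.pi_pos
        calc 2 * Real.pi * (|(σ : ℝ) * j * a| * |1 / s - 1 / s'|)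
            ≤ 2 * Real.pi * ((4 * P * Real.log N) * (|s - s'| / P ^ 2)) := by
              apply mul_le_mul_of_nonneg_left _ (by positivity)
              exact mul_le_mul h1 il (abs_nonneg _) (by positivity)
          _ = (8 * Real.pi) * (Real.log N * (|s - s'| / P)) := by field_simp; ring
          _ ≤ 26 * (Real.log N * (|s - s'| / P)) := by
              apply mul_le_mul_of_nonneg_right _ (by positivity)
              linarith
          _ = _ := by ring
      have hx : 0 ≤ |s - s'| / P := by positivity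
      have key := TaskM2.prod_diff (a := ((P / s : ℝ) : ℂ)) (a' := ((P / s' : ℝ) : ℂ))
        (c := e ((σ : ℝ) * j * a / s)) (c' := e ((σ : ℝ) * j * a / s'))
        (n2 s) (n2 s') (n1 s' hs') (norm_e _).le
      have e2 : 3 * |s - s'| / P = 3 * (|s - s'| / P) := by ring
      have e3 : (26 * Real.log N) * |s - s'| / P = 26 * Real.log N * (|s - s'| / P) := by ring
      have e4 : 100 * Real.log N * |s - s'| / P = 100 * Real.log N * (|s - s'| / P) := by ring
      rw [e2] at d2
      rw [e3] at d3
      rw [e4]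
      refine (mul_le_mul key (hω j) (norm_nonneg _) (by positivity)).trans ?_
      nlinarith
  · have hpsi : ∀ s : ℝ, psB N J a P σ ω j s = 0 := by
      intro s
      unfold psB
      rw [if_neg hj]
    constructor
    · intro s _
      rw [hpsi, norm_zero]
      norm_num
    · intro s s' _ _
      rw [hpsi, hpsi, sub_zero, norm_zero]
      positivity

end Pool.Agent.H442R2.BX
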