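import Pool.Agent.H442R2.BX.Defs

/-! Task RB (author helper171). -/

namespace Pool.Agent.H442R2.BX

open Finset
open Pool.Agent.H442R2.KF

namespace TaskRB

theorem sum_mult (N l : ℕ) (hl : 1 ≤ l) (hN : 1 ≤ N) :
    ∑ d ∈ (Icc 1 N).filter (fun d => l ∣ d), 1 / (d : ℝ) ≤ (1 + Real.log N) / l := by
  have hl0 : (0 : ℝ) < l := by exact_mod_cast hl
  have h1 : ∑ d ∈ (Icc 1 N).filter (fun d => l ∣ d), 1 / (d : ℝ) ≤
      ∑ m ∈ Icc 1 N, 1 / ((l : ℝ) * m) := by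
    have hsub : (Icc 1 N).filter (fun d => l ∣ d) ⊆ (Icc 1 N).image (fun m => l * m) := by
      intro d hd
      rw [mem_filter, mem_Icc] at hd
      obtain ⟨⟨h1, h2⟩, m, rfl⟩ := hd
      rw [mem_image]
      refine ⟨m, ?_, rfl⟩
      rw [mem_Icc]
      constructor
      · rcases Nat.eq_zero_or_pos m with h | h
        · subst h; simp at h1
        · exact h
      · exact le_trans (Nat.le_mul_of_pos_left m hl) h2
    calc ∑ d ∈ (Icc 1 N).filter (fun d => l ∣ d), 1 / (d : ℝ)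
        ≤ ∑ d ∈ (Icc 1 N).image (fun m => l * m), 1 / (d : ℝ) :=
          sum_le_sum_of_subset_of_nonneg hsub (fun _ _ _ => by positivity)
      _ = ∑ m ∈ Icc 1 N, 1 / (((l * m : ℕ) : ℝ)) := by
          rw [sum_image]
          intro a _ b _ hab
          exact Nat.eq_of_mul_eq_mul_left hl hab
      _ = _ := by
          apply sum_congr rfl
          intro m _
          push_cast
          rfl
  have h2 : ∑ m ∈ Icc 1 N, 1 / ((l : ℝ) * m) = (∑ m ∈ Icc 1 N, 1 / (m : ℝ)) / l := by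
    rw [sum_div]
    apply sum_congr rfl
    intro m _
    rw [div_div, mul_comm]
  have h3 : ∑ m ∈ Icc 1 N, 1 / (m : ℝ) ≤ 1 + Real.log N := by
    have h4 := harmonic_le_one_add_log N
    rw [harmonic_eq_sum_Icc] at h4
    push_cast at h4
    simpa [one_div] using h4
  rw [h2] at h1
  exact le_trans h1 (div_le_div_of_nonneg_right h3 hl0.le)

theorem main (y : ℝ) (hy : 1 ≤ y) (N : ℕ) (hN : 1 ≤ N) :
    ∑ d ∈ roughs y N, ∑ d' ∈ (roughs y N).filter (fun d' => ¬ Nat.Coprime d d'),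
      1 / ((d : ℝ) * d') ≤ (1 + Real.log N) ^ 2 * (2 / y) := by
  classical
  have hlog : 0 ≤ Real.log N := Real.log_natCast_nonneg N
  set L : Finset ℕ := (Icc 1 N).filter (fun l => y < (l : ℝ)) with hL
  have h1 : ∑ d ∈ roughs y N, ∑ d' ∈ (roughs y N).filter (fun d' => ¬ Nat.Coprime d d'),
      1 / ((d : ℝ) * d') ≤
      ∑ d ∈ Icc 1 N, ∑ d' ∈ Icc 1 N, ∑ l ∈ L,
        if l ∣ d ∧ l ∣ d' then 1 / ((d : ℝ) * d') else 0 := by
    have hsub : roughs y N ⊆ Icc 1 N := filter_subset _ _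
    calc ∑ d ∈ roughs y N, ∑ d' ∈ (roughs y N).filter (fun d' => ¬ Nat.Coprime d d'),
          1 / ((d : ℝ) * d')
        ≤ ∑ d ∈ roughs y N, ∑ d' ∈ (roughs y N).filter (fun d' => ¬ Nat.Coprime d d'),
          ∑ l ∈ L, if l ∣ d ∧ l ∣ d' then 1 / ((d : ℝ) * d') else 0 := by
          apply sum_le_sum
          intro d hd
          apply sum_le_sum
          intro d' hd'
          rw [mem_filter] at hd'
          obtain ⟨hd', hc⟩ := hd'
          unfold roughs at hd hd'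
          rw [mem_filter, mem_Icc] at hd hd'
          obtain ⟨p, hp, hpd, hpd'⟩ := Nat.Prime.not_coprime_iff_dvd.1 hc
          have hpL : p ∈ L := by
            rw [hL, mem_filter, mem_Icc]
            refine ⟨⟨hp.one_lt.le, ?_⟩, hd.2.2 p hp hpd⟩
            exact le_trans (Nat.le_of_dvd (by omega) hpd) hd.1.2
          calc 1 / ((d : ℝ) * d') = if p ∣ d ∧ p ∣ d' then 1 / ((d : ℝ) * d') else 0 := by
                rw [if_pos ⟨hpd, hpd'⟩]
            _ ≤ ∑ l ∈ L, if l ∣ d ∧ l ∣ d' then 1 / ((d : ℝ) * d') else 0 :=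
                single_le_sum (f := fun l => if l ∣ d ∧ l ∣ d' then 1 / ((d : ℝ) * d') else 0)
                  (fun l _ => by positivity) hpL
      _ ≤ ∑ d ∈ roughs y N, ∑ d' ∈ Icc 1 N,
          ∑ l ∈ L, if l ∣ d ∧ l ∣ d' then 1 / ((d : ℝ) * d') else 0 := by
          apply sum_le_sum
          intro d _
          apply sum_le_sum_of_subset_of_nonneg
          · exact (filter_subset _ _).trans hsub
          · intro _ _ _
            apply sum_nonneg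
            intro _ _
            positivity
      _ ≤ _ := by
          apply sum_le_sum_of_subset_of_nonneg hsub
          intro _ _ _
          apply sum_nonneg
          intro _ _
          apply sum_nonneg
          intro _ _
          positivity
  have h2 : ∑ d ∈ Icc 1 N, ∑ d' ∈ Icc 1 N, ∑ l ∈ L,
        (if l ∣ d ∧ l ∣ d' then 1 / ((d : ℝ) * d') else 0) =
      ∑ l ∈ L, (∑ d ∈ (Icc 1 N).filter (fun d => l ∣ d), 1 / (d : ℝ)) ^ 2 := by
    have : ∀ d ∈ Icc 1 N, ∑ d' ∈ Icc 1 N, ∑ l ∈ L,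
        (if l ∣ d ∧ l ∣ d' then 1 / ((d : ℝ) * d') else 0) =
        ∑ l ∈ L, ∑ d' ∈ Icc 1 N, (if l ∣ d ∧ l ∣ d' then 1 / ((d : ℝ) * d') else 0) :=
      fun d _ => sum_comm
    rw [sum_congr rfl this, sum_comm]
    apply sum_congr rfl
    intro l _
    rw [sum_filter, sq, sum_mul_sum]
    apply sum_congr rfl
    intro d _
    apply sum_congr rfl
    intro d' _
    by_cases ha : l ∣ d
    · by_cases hb : l ∣ d'
      · rw [if_pos ⟨ha, hb⟩, if_pos ha, if_pos hb, div_mul_div_comm, one_mul]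
      · rw [if_neg (fun h => hb h.2), if_neg hb, mul_zero]
    · rw [if_neg (fun h => ha h.1), if_neg ha, zero_mul]
  have h3 : ∑ l ∈ L, (∑ d ∈ (Icc 1 N).filter (fun d => l ∣ d), 1 / (d : ℝ)) ^ 2 ≤
      ∑ l ∈ L, (1 + Real.log N) ^ 2 * (((l : ℝ) ^ 2)⁻¹) := by
    apply sum_le_sum
    intro l hl
    rw [hL, mem_filter, mem_Icc] at hl
    have h4 := sum_mult N l hl.1.1 hN
    have h5 : 0 ≤ ∑ d ∈ (Icc 1 N).filter (fun d => l ∣ d), 1 / (d : ℝ) :=
      sum_nonneg fun _ _ => by positivity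
    calc (∑ d ∈ (Icc 1 N).filter (fun d => l ∣ d), 1 / (d : ℝ)) ^ 2
        ≤ ((1 + Real.log N) / l) ^ 2 := pow_le_pow_left₀ h5 h4 2
      _ = _ := by rw [div_pow, div_eq_mul_inv]
  have h6 : ∑ l ∈ L, (((l : ℝ) ^ 2)⁻¹) ≤ 2 / y := by
    have hK : 1 ≤ ⌊y⌋₊ := Nat.le_floor (by simpa using hy)
    have hK2 : y ≤ 2 * (⌊y⌋₊ : ℝ) := by
      have := Nat.lt_floor_add_one y
      have h8 : (1 : ℝ) ≤ (⌊y⌋₊ : ℝ) := by exact_mod_cast hK
      linarith
    have hsub : L ⊆ Ioc ⌊y⌋₊ (max ⌊y⌋₊ N) := by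
      intro l hl
      rw [hL, mem_filter, mem_Icc] at hl
      rw [mem_Ioc]
      refine ⟨?_, le_max_of_le_right hl.1.2⟩
      rw [Nat.floor_lt (by linarith)]
      exact hl.2
    calc ∑ l ∈ L, (((l : ℝ) ^ 2)⁻¹)
        ≤ ∑ l ∈ Ioc ⌊y⌋₊ (max ⌊y⌋₊ N), (((l : ℝ) ^ 2)⁻¹) :=
          sum_le_sum_of_subset_of_nonneg hsub fun _ _ _ => by positivity
      _ ≤ ((⌊y⌋₊ : ℝ))⁻¹ - (((max ⌊y⌋₊ N : ℕ) : ℝ))⁻¹ :=
          sum_Ioc_inv_sq_le_sub (by omega) (le_max_left _ _)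
      _ ≤ ((⌊y⌋₊ : ℝ))⁻¹ := by
          have : (0 : ℝ) ≤ (((max ⌊y⌋₊ N : ℕ) : ℝ))⁻¹ := by positivity
          linarith
      _ ≤ 2 / y := by
          have h8 : (0 : ℝ) < (⌊y⌋₊ : ℝ) := by exact_mod_cast hK
          rw [inv_eq_one_div, div_le_div_iff₀ h8 (by linarith)]
          linarith
  calc _ ≤ _ := h1
    _ = _ := h2
    _ ≤ _ := h3
    _ = (1 + Real.log N) ^ 2 * ∑ l ∈ L, (((l : ℝ) ^ 2)⁻¹) := by rw [mul_sum]
    _ ≤ _ := mul_le_mul_of_nonneg_left h6 (by positivity)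

end TaskRB

/-- RB -/
theorem RB : St_RB := by
  intro ε hε
  refine ⟨2 * (1 + 4 / ε) ^ 2, by positivity, ?_⟩
  intro N hN
  have hN1 : (1 : ℝ) ≤ N := by exact_mod_cast (by omega : 1 ≤ N)
  have hN0 : (0 : ℝ) < N := by linarith
  have hy : 1 ≤ (N : ℝ) ^ ε := Real.one_le_rpow hN1 hε.le
  refine le_trans (TaskRB.main _ hy N (by omega)) ?_
  have h1 : 1 ≤ (N : ℝ) ^ (ε / 4) := Real.one_le_rpow hN1 (by positivity)
  have h2 : Real.log N ≤ (N : ℝ) ^ (ε / 4) / (ε / 4) :=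
    Real.log_le_rpow_div hN0.le (by positivity)
  have h3 : 1 + Real.log N ≤ (1 + 4 / ε) * (N : ℝ) ^ (ε / 4) := by
    calc 1 + Real.log N ≤ (N : ℝ) ^ (ε / 4) + (N : ℝ) ^ (ε / 4) / (ε / 4) := add_le_add h1 h2
      _ = _ := by field_simp
  have h4 : 0 ≤ 1 + Real.log N := by
    have := Real.log_nonneg hN1
    linarith
  have h5 : (1 + Real.log N) ^ 2 ≤ (1 + 4 / ε) ^ 2 * (N : ℝ) ^ (ε / 2) := by
    calc (1 + Real.log N) ^ 2 ≤ ((1 + 4 / ε) * (N : ℝ) ^ (ε / 4)) ^ 2 := pow_le_pow_left₀ h4 h3 2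
      _ = (1 + 4 / ε) ^ 2 * ((N : ℝ) ^ (ε / 4)) ^ 2 := by rw [mul_pow]
      _ = _ := by
        rw [← Real.rpow_natCast ((N : ℝ) ^ (ε / 4)) 2, ← Real.rpow_mul hN0.le]
        congr 2
        push_cast
        ring
  calc (1 + Real.log N) ^ 2 * (2 / (N : ℝ) ^ ε)
      ≤ ((1 + 4 / ε) ^ 2 * (N : ℝ) ^ (ε / 2)) * (2 / (N : ℝ) ^ ε) :=
        mul_le_mul_of_nonneg_right h5 (by positivity)
    _ = 2 * (1 + 4 / ε) ^ 2 * ((N : ℝ) ^ (ε / 2) * (N : ℝ) ^ (-ε)) := by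
        rw [Real.rpow_neg hN0.le]
        ring
    _ = 2 * (1 + 4 / ε) ^ 2 * (N : ℝ) ^ (-(ε / 2)) := by
        rw [← Real.rpow_add hN0]
        congr 2
        ring

end Pool.Agent.H442R2.BX
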