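import Pool.Agent.H442R2.BX.Defs

/-!
BX, task RC: the number of rough divisors.
-/

namespace Pool.Agent.H442R2.BX

open Finset
open Pool.Agent.H442R2.KF

namespace TaskRC

open Classical in
/-- divisors of `m` all of whose prime factors exceed `y` -/
noncomputable def rr (y : ℝ) (m : ℕ) : Finset ℕ :=
  m.divisors.filter (fun d => ∀ p : ℕ, p.Prime → p ∣ d → y < (p : ℝ))

theorem mem_rr {y : ℝ} {m d : ℕ} :
    d ∈ rr y m ↔ (d ∣ m ∧ m ≠ 0) ∧ ∀ p : ℕ, p.Prime → p ∣ d → y < (p : ℝ) := by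
  classical
  unfold rr
  simp only [mem_filter, Nat.mem_divisors]

theorem rr_card (y : ℝ) (hy : 1 ≤ y) : ∀ m : ℕ, 0 < m →
    ∃ k : ℕ, y ^ k ≤ (m : ℝ) ∧ (rr y m).card ≤ 2 ^ k := by
  intro m
  induction m using Nat.strong_induction_on with
  | _ m ih =>
    intro hm
    by_cases h : ∃ p : ℕ, p.Prime ∧ p ∣ m ∧ y < (p : ℝ)
    · obtain ⟨p, hp, ⟨m1, rfl⟩, hyp⟩ := h
      have hm1 : 0 < m1 := Nat.pos_of_mul_pos_left hm
      have hlt : m1 < p * m1 := by
        have := hp.two_le
        nlinarith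
      obtain ⟨k, hk1, hk2⟩ := ih m1 hlt hm1
      refine ⟨k + 1, ?_, ?_⟩
      · rw [pow_succ, Nat.cast_mul, mul_comm (p : ℝ)]
        exact mul_le_mul hk1 hyp.le (by linarith) (Nat.cast_nonneg _)
      · have hsub : rr y (p * m1) ⊆ rr y m1 ∪ (rr y m1).image (fun d => p * d) := by
          intro d hd
          obtain ⟨⟨hd1, -⟩, hd2⟩ := mem_rr.mp hd
          by_cases hpd : p ∣ d
          · obtain ⟨d1, rfl⟩ := hpd
            refine mem_union_right _ (mem_image.mpr ⟨d1, mem_rr.mpr ⟨⟨?_, hm1.ne'⟩, ?_⟩, rfl⟩)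
            · exact Nat.dvd_of_mul_dvd_mul_left hp.pos hd1
            · intro q hq hqd
              exact hd2 q hq (Dvd.dvd.mul_left hqd p)
          · refine mem_union_left _ (mem_rr.mpr ⟨⟨?_, hm1.ne'⟩, hd2⟩)
            have hc : Nat.Coprime d p := ((hp.coprime_iff_not_dvd).mpr hpd).symm
            exact hc.dvd_of_dvd_mul_left hd1
        have h1 := (card_le_card hsub).trans (card_union_le _ _)
        have h2 : ((rr y m1).image (fun d => p * d)).card ≤ (rr y m1).card := card_image_le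
        rw [pow_succ]
        omega
    · push Not at h
      refine ⟨0, ?_, ?_⟩
      · rw [pow_zero]
        exact_mod_cast hm
      · rw [pow_zero]
        have hsub : rr y m ⊆ {1} := by
          intro d hd
          obtain ⟨⟨hd1, -⟩, hd2⟩ := mem_rr.mp hd
          rw [mem_singleton]
          by_contra hne
          obtain ⟨q, hq, hqd⟩ := Nat.exists_prime_and_dvd hne
          have h1 := h q hq (hqd.trans hd1)
          have h2 := hd2 q hq hqd
          linarith
        have := card_le_card hsub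
        rwa [card_singleton] at this

theorem rd_sub (y : ℝ) (X : ℕ) (m : ℤ) (hm : m ≠ 0) : rd y X m ⊆ rr y m.natAbs := by
  intro d hd
  classical
  unfold rd roughs at hd
  simp only [mem_filter] at hd
  obtain ⟨⟨-, hr⟩, hdm⟩ := hd
  exact mem_rr.mpr ⟨⟨Int.natCast_dvd.mp hdm, Int.natAbs_ne_zero.mpr hm⟩, hr.2⟩

end TaskRC

open TaskRC in
theorem RC : St_RC := by
  intro ε hε
  refine ⟨⌈Real.exp (4 / ε)⌉₊, Real.exp (1 / ε), Real.exp_pos _, ?_⟩
  intro N X hN a n ha hna
  have hN1 : Real.exp (4 / ε) ≤ (N : ℝ) := Nat.ceil_le.mp hN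
  have hN0 : (0 : ℝ) < (N : ℝ) := lt_of_lt_of_le (Real.exp_pos _) hN1
  have hlog : 4 / ε ≤ Real.log N := by
    rw [Real.le_log_iff_exp_le hN0]; exact hN1
  have hlog0 : 0 < Real.log N := lt_of_lt_of_le (by positivity) hlog
  have hεlog : 4 ≤ ε * Real.log N := by
    rw [div_le_iff₀ hε] at hlog
    linarith
  have hN1' : (1 : ℝ) ≤ (N : ℝ) := by
    have : Real.exp 0 ≤ Real.exp (4 / ε) := Real.exp_le_exp.mpr (by positivity)
    rw [Real.exp_zero] at this
    linarith
  set y : ℝ := (N : ℝ) ^ ε with hy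
  have hy1 : 1 ≤ y := Real.one_le_rpow hN1' hε.le
  have hm : n - a ≠ 0 := sub_ne_zero.mpr hna
  obtain ⟨k, hk1, hk2⟩ := rr_card y hy1 (n - a).natAbs (Int.natAbs_pos.mpr hm)
  set B : ℝ := 1 + |(n : ℝ)| / N with hB
  have hB1 : 1 ≤ B := by
    have : 0 ≤ |(n : ℝ)| / N := by positivity
    linarith
  have hmB : (((n - a).natAbs : ℕ) : ℝ) ≤ N * B := by
    have h1 : (((n - a).natAbs : ℕ) : ℝ) = |((n : ℝ) - a)| := by
      rw [Nat.cast_natAbs]
      push_cast
      rfl
    rw [h1, hB, mul_add, mul_one, mul_div_cancel₀ _ hN0.ne']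
    have := abs_sub (n : ℝ) (a : ℝ)
    linarith
  have hk3 : (k : ℝ) * (ε * Real.log N) ≤ Real.log N + Real.log B := by
    have h1 : Real.log (y ^ k) ≤ Real.log (N * B) :=
      Real.log_le_log (by positivity) (hk1.trans hmB)
    rw [Real.log_pow, hy, Real.log_rpow hN0, Real.log_mul hN0.ne' (by positivity)] at h1
    exact h1
  have hlB : 0 ≤ Real.log B := Real.log_nonneg hB1
  have hk4 : (k : ℝ) ≤ 1 / ε + Real.log B * (1 / 4) := by
    have hpos : 0 < ε * Real.log N := by positivity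
    have h1 : (k : ℝ) ≤ (Real.log N + Real.log B) / (ε * Real.log N) :=
      (le_div_iff₀ hpos).mpr hk3
    have h2 : (Real.log N + Real.log B) / (ε * Real.log N) =
        1 / ε + Real.log B / (ε * Real.log N) := by
      field_simp
    have h3 : Real.log B / (ε * Real.log N) ≤ Real.log B * (1 / 4) := by
      rw [div_eq_mul_one_div]
      refine mul_le_mul_of_nonneg_left ?_ hlB
      exact one_div_le_one_div_of_le (by norm_num) hεlog
    rw [h2] at h1
    linarith
  have hcard : ((rd y X (n - a)).card : ℝ) ≤ (2 : ℝ) ^ k := by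
    have h1 := (card_le_card (rd_sub y X (n - a) hm)).trans hk2
    exact_mod_cast h1
  have h2k : (2 : ℝ) ^ k ≤ Real.exp k := by
    have h1 : (2 : ℝ) ≤ Real.exp 1 := by
      have := Real.add_one_le_exp (1 : ℝ)
      linarith
    calc (2 : ℝ) ^ k ≤ (Real.exp 1) ^ k := pow_le_pow_left₀ (by norm_num) h1 k
      _ = Real.exp k := by rw [← Real.exp_nat_mul, mul_one]
  calc ((rd y X (n - a)).card : ℝ) ≤ Real.exp k := hcard.trans h2k
    _ ≤ Real.exp (1 / ε + Real.log B * (1 / 4)) := Real.exp_le_exp.mpr hk4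
    _ = Real.exp (1 / ε) * B ^ (1 / 4 : ℝ) := by
        rw [Real.exp_add, Real.rpow_def_of_pos (by positivity)]

end Pool.Agent.H442R2.BX
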