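import Pool.Agent.H442R2.BX.Defs

/-! Task RT: `1/φ(d)` against `1/d` for rough numbers. -/

namespace Pool.Agent.H442R2.BX

namespace TaskRT

open Finset

theorem prod_ge (s : Finset ℕ) (f : ℕ → ℝ) (h0 : ∀ i ∈ s, 0 ≤ f i) (h1 : ∀ i ∈ s, f i ≤ 1) :
    1 - ∑ i ∈ s, f i ≤ ∏ i ∈ s, (1 - f i) ∧ ∏ i ∈ s, (1 - f i) ≤ 1 ∧ 0 ≤ ∏ i ∈ s, (1 - f i) := by
  induction s using Finset.induction_on with
  | empty => simp
  | insert a s ha ih =>
    obtain ⟨i1, i2, i3⟩ := ih (fun i hi => h0 i (mem_insert_of_mem hi))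
      (fun i hi => h1 i (mem_insert_of_mem hi))
    rw [sum_insert ha, prod_insert ha]
    have a0 := h0 a (mem_insert_self _ _)
    have a1 := h1 a (mem_insert_self _ _)
    refine ⟨?_, ?_, ?_⟩
    · nlinarith
    · nlinarith
    · exact mul_nonneg (by linarith) i3

theorem omega_le {ε : ℝ} {N d : ℕ} (hN : 2 ≤ N) (hd1 : 1 ≤ d) (hdN : d ≤ N)
    (hr : Rough ((N : ℝ) ^ ε) d) : ε * (d.primeFactors.card : ℝ) ≤ 1 := by
  have hN1 : (1 : ℝ) < N := by exact_mod_cast hN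
  have hN0 : (0 : ℝ) ≤ N := by linarith
  have h1 : ((N : ℝ) ^ ε) ^ d.primeFactors.card ≤ ∏ p ∈ d.primeFactors, (p : ℝ) := by
    rw [← prod_const]
    apply prod_le_prod
    · intro i _
      exact Real.rpow_nonneg hN0 _
    · intro i hi
      exact (hr.2 i (Nat.prime_of_mem_primeFactors hi) (Nat.dvd_of_mem_primeFactors hi)).le
  have h2 : ∏ p ∈ d.primeFactors, (p : ℝ) ≤ N := by
    have h3 : ∏ p ∈ d.primeFactors, p ≤ d :=
      Nat.le_of_dvd (by omega) (Nat.prod_primeFactors_dvd d)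
    calc ∏ p ∈ d.primeFactors, (p : ℝ) = ((∏ p ∈ d.primeFactors, p : ℕ) : ℝ) := by push_cast; rfl
      _ ≤ (d : ℝ) := by exact_mod_cast h3
      _ ≤ N := by exact_mod_cast hdN
  have h4 : (N : ℝ) ^ (ε * d.primeFactors.card) ≤ (N : ℝ) ^ (1 : ℝ) := by
    rw [Real.rpow_mul hN0, Real.rpow_natCast, Real.rpow_one]
    exact h1.trans h2
  exact (Real.rpow_le_rpow_left_iff hN1).1 h4

theorem term {ε : ℝ} (hε : 0 < ε) {N d : ℕ} (hN : 2 ≤ N) (hd1 : 1 ≤ d) (hdN : d ≤ N)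
    (hr : Rough ((N : ℝ) ^ ε) d) :
    1 / (Nat.totient d : ℝ) - 1 / (d : ℝ) ≤
      (2 : ℝ) ^ (1 / ε) / ε * (N : ℝ) ^ (-ε) * (1 / (d : ℝ)) := by
  have hN1 : (1 : ℝ) < N := by exact_mod_cast hN
  have hN0 : (0 : ℝ) < N := by linarith
  have hd0 : (0 : ℝ) < d := by exact_mod_cast hd1
  have hω := omega_le hN hd1 hdN hr
  have hω' : (d.primeFactors.card : ℝ) ≤ 1 / ε := by
    rw [le_div_iff₀ hε]; linarith
  have hy : 0 < (N : ℝ) ^ ε := Real.rpow_pos_of_pos hN0 _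
  have hφ : (Nat.totient d : ℝ) = d * ∏ p ∈ d.primeFactors, (1 - (p : ℝ)⁻¹) := by
    have := Nat.totient_eq_mul_prod_factors d
    have h2 : ((Nat.totient d : ℚ) : ℝ) = (((d : ℚ) * ∏ p ∈ d.primeFactors, (1 - (p : ℚ)⁻¹) : ℚ) : ℝ) := by
      rw [this]
    push_cast at h2
    exact h2
  have hp0 : ∀ p ∈ d.primeFactors, (0 : ℝ) ≤ (p : ℝ)⁻¹ := fun p _ => by positivity
  have hp2 : ∀ p ∈ d.primeFactors, (p : ℝ)⁻¹ ≤ 1 / 2 := by
    intro p hp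
    have h3 : (2 : ℝ) ≤ p := by exact_mod_cast (Nat.prime_of_mem_primeFactors hp).two_le
    rw [inv_eq_one_div]
    exact one_div_le_one_div_of_le (by norm_num) h3
  obtain ⟨b1, b2, b3⟩ := prod_ge d.primeFactors (fun p => (p : ℝ)⁻¹) hp0
    (fun p hp => (hp2 p hp).trans (by norm_num))
  set P : ℝ := ∏ p ∈ d.primeFactors, (1 - (p : ℝ)⁻¹) with hPdef
  -- lower bound of the product
  have hPlow : (2 : ℝ) ^ (-(1 / ε)) ≤ P := by
    have h5 : ((1 : ℝ) / 2) ^ d.primeFactors.card ≤ P := by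
      rw [← prod_const, hPdef]
      apply prod_le_prod
      · intro i _; norm_num
      · intro i hi
        have := hp2 i hi
        linarith
    refine le_trans ?_ h5
    have h6 : ((1 : ℝ) / 2) ^ d.primeFactors.card = (2 : ℝ) ^ (-(d.primeFactors.card : ℝ)) := by
      rw [Real.rpow_neg (by norm_num), Real.rpow_natCast, one_div, inv_pow]
    rw [h6]
    apply Real.rpow_le_rpow_of_exponent_le (by norm_num)
    linarith
  have hPpos : 0 < P := lt_of_lt_of_le (Real.rpow_pos_of_pos (by norm_num) _) hPlow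
  -- the sum over the primes
  have hsum : ∑ p ∈ d.primeFactors, (p : ℝ)⁻¹ ≤ 1 / ε * (N : ℝ) ^ (-ε) := by
    calc ∑ p ∈ d.primeFactors, (p : ℝ)⁻¹ ≤ ∑ p ∈ d.primeFactors, ((N : ℝ) ^ ε)⁻¹ := by
          apply sum_le_sum
          intro p hp
          exact inv_anti₀ hy
            (hr.2 p (Nat.prime_of_mem_primeFactors hp) (Nat.dvd_of_mem_primeFactors hp)).le
      _ = d.primeFactors.card * (N : ℝ) ^ (-ε) := by
          rw [sum_const, nsmul_eq_mul, Real.rpow_neg hN0.le]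
      _ ≤ 1 / ε * (N : ℝ) ^ (-ε) := by
          apply mul_le_mul_of_nonneg_right hω'
          exact Real.rpow_nonneg hN0.le _
  have hPinv : 1 / P ≤ (2 : ℝ) ^ (1 / ε) := by
    rw [Real.rpow_neg (by norm_num)] at hPlow
    rw [div_le_iff₀ hPpos]
    have h7 : 0 < (2 : ℝ) ^ (1 / ε) := Real.rpow_pos_of_pos (by norm_num) _
    calc (1 : ℝ) = (2 : ℝ) ^ (1 / ε) * ((2 : ℝ) ^ (1 / ε))⁻¹ := (mul_inv_cancel₀ h7.ne').symm
      _ ≤ (2 : ℝ) ^ (1 / ε) * P := mul_le_mul_of_nonneg_left hPlow h7.le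
  rw [hφ]
  have h8 : 1 / (d * P) - 1 / (d : ℝ) = (1 / P) * (1 - P) * (1 / d) := by
    field_simp
  rw [h8]
  apply mul_le_mul_of_nonneg_right _ (by positivity)
  have h9 : 1 - P ≤ 1 / ε * (N : ℝ) ^ (-ε) := by linarith
  calc 1 / P * (1 - P) ≤ (2 : ℝ) ^ (1 / ε) * (1 / ε * (N : ℝ) ^ (-ε)) := by
        apply mul_le_mul hPinv h9 (by linarith) (Real.rpow_nonneg (by norm_num) _)
    _ = (2 : ℝ) ^ (1 / ε) / ε * (N : ℝ) ^ (-ε) := by ring

theorem harm (N : ℕ) : ∑ d ∈ Icc 1 N, 1 / (d : ℝ) ≤ 1 + Real.log N := by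
  have h := harmonic_le_one_add_log N
  rw [harmonic_eq_sum_Icc] at h
  push_cast at h
  simpa [one_div] using h

end TaskRT

open TaskRT Finset in
theorem RT : St_RT := by
  classical
  intro ε hε
  refine ⟨(2 : ℝ) ^ (1 / ε) / ε * (1 + 2 / ε), by positivity, ?_⟩
  intro N hN
  have hN1 : (1 : ℝ) < N := by exact_mod_cast hN
  have hN0 : (0 : ℝ) < N := by linarith
  set A : ℝ := (2 : ℝ) ^ (1 / ε) / ε with hA
  have hA0 : 0 ≤ A := by positivity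
  have hNe : 0 ≤ (N : ℝ) ^ (-ε) := Real.rpow_nonneg hN0.le _
  have h1 : ∑ d ∈ roughs ((N : ℝ) ^ ε) N, (1 / (Nat.totient d : ℝ) - 1 / (d : ℝ)) ≤
      ∑ d ∈ roughs ((N : ℝ) ^ ε) N, A * (N : ℝ) ^ (-ε) * (1 / (d : ℝ)) := by
    apply sum_le_sum
    intro d hd
    rw [roughs, mem_filter, mem_Icc] at hd
    exact term hε hN hd.1.1 hd.1.2 hd.2
  have h2 : ∑ d ∈ roughs ((N : ℝ) ^ ε) N, A * (N : ℝ) ^ (-ε) * (1 / (d : ℝ)) ≤
      ∑ d ∈ Icc 1 N, A * (N : ℝ) ^ (-ε) * (1 / (d : ℝ)) := by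
    apply sum_le_sum_of_subset_of_nonneg
    · rw [roughs]
      exact filter_subset _ _
    · intro i _ _
      positivity
  have h3 : ∑ d ∈ Icc 1 N, A * (N : ℝ) ^ (-ε) * (1 / (d : ℝ)) ≤
      A * (N : ℝ) ^ (-ε) * (1 + Real.log N) := by
    rw [← mul_sum]
    exact mul_le_mul_of_nonneg_left (harm N) (mul_nonneg hA0 hNe)
  have h4 : Real.log N ≤ (N : ℝ) ^ (ε / 2) / (ε / 2) :=
    Real.log_le_rpow_div hN0.le (by linarith)
  have h5 : (1 : ℝ) ≤ (N : ℝ) ^ (ε / 2) := Real.one_le_rpow hN1.le (by linarith)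
  have h6 : 1 + Real.log N ≤ (1 + 2 / ε) * (N : ℝ) ^ (ε / 2) := by
    have h7 : (N : ℝ) ^ (ε / 2) / (ε / 2) = 2 / ε * (N : ℝ) ^ (ε / 2) := by
      field_simp
    rw [h7] at h4
    nlinarith
  calc _ ≤ A * (N : ℝ) ^ (-ε) * (1 + Real.log N) := h1.trans (h2.trans h3)
    _ ≤ A * (N : ℝ) ^ (-ε) * ((1 + 2 / ε) * (N : ℝ) ^ (ε / 2)) :=
      mul_le_mul_of_nonneg_left h6 (mul_nonneg hA0 hNe)
    _ = A * (1 + 2 / ε) * ((N : ℝ) ^ (-ε) * (N : ℝ) ^ (ε / 2)) := by ring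
    _ = A * (1 + 2 / ε) * (N : ℝ) ^ (-(ε / 2)) := by
      rw [← Real.rpow_add hN0]
      congr 2
      ring

end Pool.Agent.H442R2.BX
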