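import Pool.Agent.H442R2.BX.Defs

set_option autoImplicit false

namespace Pool.Agent.H442R2.BX

open Finset
open Pool.Agent.H442R2.KF

namespace TaskSM

theorem e_zero : e 0 = 1 := by
  unfold e
  simp

theorem kf_zero (m : ℤ) (n : ℕ) : kf 0 m n = 1 := by
  unfold kf
  simp [e_zero]

theorem term (N : ℝ) (a a' : ℤ) (q d d' : ℕ) :
    ∑ j ∈ Icc (-((0 : ℕ) : ℤ)) ((0 : ℕ) : ℤ),
        ((Real.exp (-Real.pi * ((j : ℝ) * N / (q * d * d')) ^ 2) : ℝ) : ℂ) *
          (e ((j : ℝ) * a / (q * d * d')) * kf (-(j * a)) ((d * d' : ℕ) : ℤ) q *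
            kf (j * (a' - a)) ((q * d : ℕ) : ℤ) d') = 1 := by
  have h : Icc (-((0 : ℕ) : ℤ)) ((0 : ℕ) : ℤ) = {0} := by simp
  rw [h, Finset.sum_singleton]
  simp [e_zero, kf_zero]

theorem log_le : ∃ N₁ : ℕ, ∀ N : ℕ, N₁ ≤ N → (N : ℝ) ^ (9 / 10 : ℝ) * Real.log N ≤ N := by
  have h1 := (isLittleO_log_rpow_atTop (show (0:ℝ) < 1 / 10 by norm_num)).bound
    (show (0:ℝ) < 1 by norm_num)
  have h2 := (tendsto_natCast_atTop_atTop (R := ℝ)).eventually h1
  obtain ⟨N₁, hN₁⟩ := Filter.eventually_atTop.1 h2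
  refine ⟨max N₁ 1, fun N hN => ?_⟩
  have h3 := hN₁ N ((le_max_left _ _).trans hN)
  have hN1 : 1 ≤ N := (le_max_right _ _).trans hN
  have hN0 : (0:ℝ) < N := by exact_mod_cast hN1
  rw [one_mul, Real.norm_of_nonneg (by positivity : (0:ℝ) ≤ (N:ℝ) ^ (1 / 10 : ℝ))] at h3
  have h4 : Real.log N ≤ (N : ℝ) ^ (1 / 10 : ℝ) := (le_abs_self _).trans h3
  calc (N : ℝ) ^ (9 / 10 : ℝ) * Real.log N ≤ (N : ℝ) ^ (9 / 10 : ℝ) * (N : ℝ) ^ (1 / 10 : ℝ) :=
        mul_le_mul_of_nonneg_left h4 (by positivity)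
    _ = N := by
        rw [← Real.rpow_add hN0]
        norm_num

end TaskSM

open TaskSM in
theorem SM (hSV : St_SV) : St_SM := by
  obtain ⟨N₀, hN₀⟩ := hSV
  obtain ⟨N₁, hN₁⟩ := log_le
  refine ⟨max (max N₀ N₁) 1, fun N hN a a' q d hq hd hcop hqd => ?_⟩
  have h0 : N₀ ≤ N := ((le_max_left _ _).trans (le_max_left _ _)).trans hN
  have h1 : N₁ ≤ N := ((le_max_right _ _).trans (le_max_left _ _)).trans hN
  have hN1 : 1 ≤ N := (le_max_right _ _).trans hN
  have hN1' : (1:ℝ) ≤ N := by exact_mod_cast hN1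
  have hlog := hN₁ N h1
  have hlog0 : 0 ≤ Real.log N := Real.log_nonneg hN1'
  have hcube : ((q : ℝ) * d) ≤ (N : ℝ) ^ 3 := by
    refine hqd.trans ?_
    rw [← Real.rpow_natCast]
    exact Real.rpow_le_rpow_of_exponent_le hN1' (by norm_num)
  have hmul : ((q : ℝ) * d) * Real.log N ≤ N :=
    (mul_le_mul_of_nonneg_right hqd hlog0).trans hlog
  constructor
  · have h := hN₀ N h0 a a' q d 1 hq hd le_rfl hcop (Nat.coprime_one_right q)
      (Nat.coprime_one_right d) (by simpa using hcube) 0 (by simpa using hmul)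
    rw [term, mul_one, ← Complex.ofReal_sub, Complex.norm_real, Real.norm_eq_abs] at h
    simpa using h
  · have h := hN₀ N h0 a a' q 1 d hq le_rfl hd (Nat.coprime_one_right q) hcop
      (Nat.coprime_one_left d) (by simpa using hcube) 0 (by simpa using hmul)
    rw [term, mul_one, ← Complex.ofReal_sub, Complex.norm_real, Real.norm_eq_abs] at h
    simpa using h

end Pool.Agent.H442R2.BX
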