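import Pool.Agent.H442R2.BX.Defs
import Pool.Agent.H442R2.KF.Poi

/-!
BX project, task SV (helper954): Poisson summation for three congruences.
-/

namespace Pool.Agent.H442R2.BX

open Finset
open Pool.Agent.H442R2.KF

namespace TaskSV

theorem crt_exists (a a' : ℤ) (q d d' : ℕ) (h1 : Nat.Coprime q d) (h2 : Nat.Coprime q d')
    (h3 : Nat.Coprime d d') :
    ∃ c : ℤ, (q : ℤ) ∣ c ∧ (d : ℤ) ∣ c - a ∧ (d' : ℤ) ∣ c - a' := by
  have e3 : IsCoprime (d : ℤ) (d' : ℤ) := Nat.isCoprime_iff_coprime.2 h3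
  have e12 : IsCoprime (q : ℤ) ((d : ℤ) * d') :=
    (Nat.isCoprime_iff_coprime.2 h1).mul_right (Nat.isCoprime_iff_coprime.2 h2)
  obtain ⟨x, y, hxy⟩ := e3
  obtain ⟨s, t, hst⟩ := e12
  refine ⟨(a' * x * d + a * y * d') * s * q, ⟨(a' * x * d + a * y * d') * s, by ring⟩, ?_, ?_⟩
  · refine ⟨x * (a' - a) - (a' * x * d + a * y * d') * t * d', ?_⟩
    linear_combination (a' * x * d + a * y * d') * hst + a * hxy
  · refine ⟨y * (a - a') - (a' * x * d + a * y * d') * t * d, ?_⟩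
    linear_combination (a' * x * d + a * y * d') * hst + a' * hxy

theorem dvd_iff (a a' c n : ℤ) (q d d' : ℕ) (h1 : Nat.Coprime q d) (h2 : Nat.Coprime q d')
    (h3 : Nat.Coprime d d') (hc : (q : ℤ) ∣ c) (hd : (d : ℤ) ∣ c - a) (hd' : (d' : ℤ) ∣ c - a') :
    ((q : ℤ) ∣ n ∧ (d : ℤ) ∣ n - a ∧ (d' : ℤ) ∣ n - a') ↔ ((q * d * d' : ℕ) : ℤ) ∣ n - c := by
  have e1 : IsCoprime (q : ℤ) (d : ℤ) := Nat.isCoprime_iff_coprime.2 h1
  have e2 : IsCoprime (q : ℤ) (d' : ℤ) := Nat.isCoprime_iff_coprime.2 h2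
  have e3 : IsCoprime (d : ℤ) (d' : ℤ) := Nat.isCoprime_iff_coprime.2 h3
  push_cast
  constructor
  · rintro ⟨k1, k2, k3⟩
    have f1 : (q : ℤ) ∣ n - c := dvd_sub k1 hc
    have f2 : (d : ℤ) ∣ n - c := by
      have := dvd_sub k2 hd
      have e : n - a - (c - a) = n - c := by ring
      rwa [e] at this
    have f3 : (d' : ℤ) ∣ n - c := by
      have := dvd_sub k3 hd'
      have e : n - a' - (c - a') = n - c := by ring
      rwa [e] at this
    exact (e2.mul_left e3).mul_dvd (e1.mul_dvd f1 f2) f3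
  · intro h
    have f1 : (q : ℤ) ∣ n - c := (Dvd.intro ((d : ℤ) * d') (by ring)).trans h
    have f2 : (d : ℤ) ∣ n - c := (Dvd.intro ((q : ℤ) * d') (by ring)).trans h
    have f3 : (d' : ℤ) ∣ n - c := (Dvd.intro ((q : ℤ) * d) (by ring)).trans h
    refine ⟨?_, ?_, ?_⟩
    · have := dvd_add f1 hc
      have e : n - c + c = n := by ring
      rwa [e] at this
    · have := dvd_add f2 hd
      have e : n - c + (c - a) = n - a := by ring
      rwa [e] at this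
    · have := dvd_add f3 hd'
      have e : n - c + (c - a') = n - a' := by ring
      rwa [e] at this

end TaskSV

open TaskSV

/-- SV (Sv.lean) -/
theorem SV (hPH : St_PH) : St_SV := by
  obtain ⟨N₀, hN₀⟩ := poisson_trunc
  refine ⟨N₀, fun N hN a a' q d d' hq hd hd' h1 h2 h3 hm J hJ => ?_⟩
  obtain ⟨c, c1, c2, c3⟩ := crt_exists a a' q d d' h1 h2 h3
  have hm1 : 1 ≤ q * d * d' := Nat.succ_le_of_lt (by positivity)
  have key := hN₀ N hN (q * d * d') hm1 (by push_cast; exact hm) c J (by push_cast; exact hJ)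
  have eSE : SE N a a' q d d' =
      ∑' n : ℤ, (if ((q * d * d' : ℕ) : ℤ) ∣ n - c then Wt N n else 0) := by
    unfold SE
    refine tsum_congr fun n => ?_
    have := dvd_iff a a' c n q d d' h1 h2 h3 c1 c2 c3
    by_cases hp : ((q : ℤ) ∣ n ∧ (d : ℤ) ∣ n - a ∧ (d' : ℤ) ∣ n - a')
    · rw [if_pos hp, if_pos (this.1 hp)]
    · rw [if_neg hp, if_neg (fun h => hp (this.2 h))]
  rw [eSE]
  have esum : ∀ j ∈ Icc (-(J : ℤ)) J,
      ((Real.exp (-Real.pi * ((j : ℝ) * N / ((q * d * d' : ℕ) : ℝ)) ^ 2) : ℝ) : ℂ) *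
        e ((j : ℝ) * (c : ℝ) / ((q * d * d' : ℕ) : ℝ)) =
      ((Real.exp (-Real.pi * ((j : ℝ) * N / (q * d * d')) ^ 2) : ℝ) : ℂ) *
          (e ((j : ℝ) * a / (q * d * d')) * kf (-(j * a)) ((d * d' : ℕ) : ℤ) q *
            kf (j * (a' - a)) ((q * d : ℕ) : ℤ) d') := by
    intro j _
    rw [← hPH q d d' (by omega) (by omega) (by omega) h1 h2 h3 a a' c j c1 c2 c3]
    push_cast
    rfl
  rw [Finset.sum_congr rfl esum] at key
  have e0 : ((N : ℝ) / ((q * d * d' : ℕ) : ℝ)) = (N : ℝ) / (q * d * d') := by push_cast; rfl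
  rw [e0] at key
  exact key

end Pool.Agent.H442R2.BX
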