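import Pool.Agent.H442R2.BX.Defs
import Pool.Agent.H442R2.KF.Summ

/-!
BX project, task TT: off-diagonal correlations.
-/

namespace Pool.Agent.H442R2.BX

open Finset
open Pool.Agent.H442R2.KF

namespace TaskTT

lemma Wt_nonneg (N : ℕ) (n : ℤ) : 0 ≤ Wt N n := (Real.exp_pos _).le

lemma Wt_le_one (N : ℕ) (n : ℤ) : Wt N n ≤ 1 := by
  unfold Wt
  rw [Real.exp_le_one_iff]
  have h1 := Real.pi_pos
  have h2 := mul_nonneg h1.le (sq_nonneg ((n : ℝ) / N))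
  linarith

lemma SE_nonneg (N : ℕ) (a a' : ℤ) (q d d' : ℕ) : 0 ≤ SE N a a' q d d' := by
  unfold SE
  refine tsum_nonneg fun n => ?_
  split_ifs
  · exact Wt_nonneg _ _
  · exact le_rfl

lemma abs_dl_le (d : ℕ) (hd : 1 ≤ d) (m : ℤ) : |dl d m| ≤ 1 := by
  unfold dl
  have h1 : (1 : ℝ) ≤ d := by exact_mod_cast hd
  have h2 : (1 : ℝ) / d ≤ 1 := by
    rw [div_le_one (by linarith)]; exact h1
  have h3 : (0 : ℝ) ≤ 1 / d := by positivity
  rw [abs_le]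
  split_ifs <;> constructor <;> linarith

lemma abs_Rf_le (c : ℕ → ℝ) (hc : ∀ d, |c d| ≤ 1) (X : ℕ) (a n : ℤ) : |Rf c X a n| ≤ X := by
  unfold Rf
  calc |∑ d ∈ Icc 1 X, c d * dl d (n - a)| ≤ ∑ d ∈ Icc 1 X, |c d * dl d (n - a)| :=
        Finset.abs_sum_le_sum_abs _ _
    _ ≤ ∑ d ∈ Icc 1 X, (1 : ℝ) := by
        refine Finset.sum_le_sum fun d hd => ?_
        rw [abs_mul]
        have h1 := hc d
        have h2 := abs_dl_le d (Finset.mem_Icc.1 hd).1 (n - a)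
        calc |c d| * |dl d (n - a)| ≤ 1 * 1 :=
              mul_le_mul h1 h2 (abs_nonneg _) zero_le_one
          _ = 1 := one_mul 1
    _ = X := by simp

lemma abs_rf_le (c : ℕ → ℝ) (hc : ∀ d, |c d| ≤ 1) (X : ℕ) (a n : ℤ) : |rf c X a n| ≤ X := by
  unfold rf
  split_ifs
  · simp
  · exact abs_Rf_le c hc X a n

lemma nuS_nonneg (lam : ℕ → ℝ) (z : ℕ) (n : ℤ) : 0 ≤ nuS lam z n := sq_nonneg _

lemma nuS_le (lam : ℕ → ℝ) (hl : ∀ q, |lam q| ≤ 1) (z : ℕ) (n : ℤ) :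
    nuS lam z n ≤ (z : ℝ) ^ 2 := by
  unfold nuS
  have h : |∑ q ∈ (Icc 1 z).filter (fun q : ℕ => (q : ℤ) ∣ n), lam q| ≤ z := by
    calc |∑ q ∈ (Icc 1 z).filter (fun q : ℕ => (q : ℤ) ∣ n), lam q|
        ≤ ∑ q ∈ (Icc 1 z).filter (fun q : ℕ => (q : ℤ) ∣ n), |lam q| :=
          Finset.abs_sum_le_sum_abs _ _
      _ ≤ ∑ q ∈ Icc 1 z, |lam q| :=
          Finset.sum_le_sum_of_subset_of_nonneg (Finset.filter_subset _ _)
            fun _ _ _ => abs_nonneg _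
      _ ≤ ∑ q ∈ Icc 1 z, (1 : ℝ) := Finset.sum_le_sum fun q _ => hl q
      _ = z := by simp
  rw [← sq_abs]
  exact pow_le_pow_left₀ (abs_nonneg _) h 2

/-- restriction of a double sum to the support -/
lemma restr (R R' : Finset ℕ) (hR : R ⊆ R') (c c' : ℕ → ℝ) (hc : ∀ d, c d ≠ 0 → d ∈ R)
    (hc' : ∀ d, c' d ≠ 0 → d ∈ R) (F : ℕ → ℕ → ℝ) :
    ∑ d ∈ R', ∑ d' ∈ R', c d * c' d' * F d d' = ∑ d ∈ R, ∑ d' ∈ R, c d * c' d' * F d d' := by
  symm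
  rw [← Finset.sum_subset (f := fun d => ∑ d' ∈ R', c d * c' d' * F d d') hR]
  · refine Finset.sum_congr rfl fun d _ => ?_
    refine Finset.sum_subset hR fun d' _ hd' => ?_
    have : c' d' = 0 := by
      by_contra h
      exact hd' (hc' d' h)
    rw [this]; ring
  · intro d _ hd
    have : c d = 0 := by
      by_contra h
      exact hd (hc d h)
    refine Finset.sum_eq_zero fun d' _ => ?_
    rw [this]; ring

lemma abs_dsum_le (R : Finset ℕ) (c c' : ℕ → ℝ) (hc : ∀ d, |c d| ≤ 1) (hc' : ∀ d, |c' d| ≤ 1)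
    (F G : ℕ → ℕ → ℝ) (hFG : ∀ d ∈ R, ∀ d' ∈ R, c d ≠ 0 → c' d' ≠ 0 → |F d d'| ≤ G d d')
    (hG : ∀ d ∈ R, ∀ d' ∈ R, 0 ≤ G d d') :
    |∑ d ∈ R, ∑ d' ∈ R, c d * c' d' * F d d'| ≤ ∑ d ∈ R, ∑ d' ∈ R, G d d' := by
  refine (Finset.abs_sum_le_sum_abs _ _).trans ?_
  refine Finset.sum_le_sum fun d hd => ?_
  refine (Finset.abs_sum_le_sum_abs _ _).trans ?_
  refine Finset.sum_le_sum fun d' hd' => ?_
  by_cases h1 : c d = 0
  · rw [h1]; simpa using hG d hd d' hd'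
  by_cases h2 : c' d' = 0
  · rw [h2]; simpa using hG d hd d' hd'
  rw [abs_mul, abs_mul]
  have h3 : |c d| * |c' d'| ≤ 1 := by
    calc |c d| * |c' d'| ≤ 1 * 1 := mul_le_mul (hc d) (hc' d') (abs_nonneg _) zero_le_one
      _ = 1 := one_mul 1
  calc |c d| * |c' d'| * |F d d'| ≤ 1 * |F d d'| :=
        mul_le_mul_of_nonneg_right h3 (abs_nonneg _)
    _ = |F d d'| := one_mul _
    _ ≤ G d d' := hFG d hd d' hd' h1 h2

/-- the sum for one pair `(q₁, q₂)`, `q = lcm q₁ q₂` -/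
lemma one_q (N q D0 X : ℕ) (y : ℝ) (hN : 2 ≤ N) (hq : 1 ≤ q) (hD0 : 1 ≤ D0) (hXN : X ≤ N)
    (a a' : ℤ) (c c' : ℕ → ℝ) (hc : CofR y X c) (hc' : CofR y X c')
    (hD : ∀ d, c d ≠ 0 → D0 < d) (hD' : ∀ d, c' d ≠ 0 → D0 < d)
    (hsm : ∀ d : ℕ, 1 ≤ d → d ≤ X → (c d ≠ 0 ∨ c' d ≠ 0 ∨ d = 1) →
      |SE N a a' q d 1 - N / (q * d)| ≤ 1 / (N : ℝ) ^ 5 ∧
      |SE N a a' q 1 d - N / (q * d)| ≤ 1 / (N : ℝ) ^ 5)
    (hsm1 : |SE N a a' q 1 1 - N / q| ≤ 1 / (N : ℝ) ^ 5)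
    (BC BN BR : ℝ)
    (hCO : |∑ d ∈ Ioc D0 X, ∑ d' ∈ (Ioc D0 X).filter (fun d' => Nat.Coprime d d'),
      c d * c' d' * (SE N a a' q d d' - N / (q * d * d'))| ≤ BC)
    (hNC : ∑ d ∈ roughs y X,
      ∑ d' ∈ (roughs y X).filter (fun d' => ¬ Nat.Coprime d d'), SE N a a' q d d' ≤ BN)
    (hRB : ∑ d ∈ roughs y X,
      ∑ d' ∈ (roughs y X).filter (fun d' => ¬ Nat.Coprime d d'), 1 / ((d : ℝ) * d') ≤ BR) :
    |∑ d ∈ Icc 1 X, ∑ d' ∈ Icc 1 X,
        c d * c' d' * (SE N a a' q d d' - SE N a a' q d 1 / d' -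
          SE N a a' q 1 d' / d + SE N a a' q 1 1 / (d * d'))| ≤
      BC + 3 + BN + 3 * (N + 1) * BR := by
  classical
  have hN0 : (0 : ℝ) < N := by exact_mod_cast (by omega : 0 < N)
  have hN1 : (1 : ℝ) ≤ N := by exact_mod_cast (by omega : 1 ≤ N)
  have hq0 : (0 : ℝ) < q := by exact_mod_cast (by omega : 0 < q)
  have hq1 : (1 : ℝ) ≤ q := by exact_mod_cast hq
  set R := roughs y X with hRdef
  have hRmem : ∀ d, d ∈ R ↔ (1 ≤ d ∧ d ≤ X) ∧ Rough y d := by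
    intro d
    rw [hRdef]; unfold roughs
    rw [Finset.mem_filter, Finset.mem_Icc]
  have hRI : R ⊆ Icc 1 X := by
    intro d hd
    exact Finset.mem_Icc.2 ((hRmem d).1 hd).1
  have hcR : ∀ d, c d ≠ 0 → d ∈ R := by
    intro d hd
    obtain ⟨h1, h2⟩ := hc.supp d hd
    exact (hRmem d).2 ⟨⟨h2.1.le, h1⟩, h2⟩
  have hcR' : ∀ d, c' d ≠ 0 → d ∈ R := by
    intro d hd
    obtain ⟨h1, h2⟩ := hc'.supp d hd
    exact (hRmem d).2 ⟨⟨h2.1.le, h1⟩, h2⟩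
  -- the sum of CO as a sum over R
  have hCOR : ∑ d ∈ Ioc D0 X, ∑ d' ∈ (Ioc D0 X).filter (fun d' => Nat.Coprime d d'),
      c d * c' d' * (SE N a a' q d d' - N / (q * d * d')) =
      ∑ d ∈ R, ∑ d' ∈ R, c d * c' d' *
        (if Nat.Coprime d d' then SE N a a' q d d' - N / (q * d * d') else 0) := by
    have h1 : ∑ d ∈ Ioc D0 X, ∑ d' ∈ (Ioc D0 X).filter (fun d' => Nat.Coprime d d'),
        c d * c' d' * (SE N a a' q d d' - N / (q * d * d')) =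
        ∑ d ∈ Ioc D0 X, ∑ d' ∈ Ioc D0 X, c d * c' d' *
        (if Nat.Coprime d d' then SE N a a' q d d' - N / (q * d * d') else 0) := by
      refine Finset.sum_congr rfl fun d _ => ?_
      rw [Finset.sum_filter]
      refine Finset.sum_congr rfl fun d' _ => ?_
      split_ifs
      · rfl
      · ring
    rw [h1]
    have hII : Ioc D0 X ⊆ Icc 1 X := by
      intro d hd
      rw [Finset.mem_Ioc] at hd
      rw [Finset.mem_Icc]
      omega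
    rw [← restr (Ioc D0 X) (Icc 1 X) hII c c'
        (fun d hd => Finset.mem_Ioc.2 ⟨hD d hd, (hc.supp d hd).1⟩)
        (fun d hd => Finset.mem_Ioc.2 ⟨hD' d hd, (hc'.supp d hd).1⟩),
      restr R (Icc 1 X) hRI c c' hcR hcR']
  rw [hCOR] at hCO
  rw [restr R (Icc 1 X) hRI c c' hcR hcR']
  -- difference
  set M : ℕ → ℕ → ℝ := fun d d' =>
    if Nat.Coprime d d' then SE N a a' q d d' - N / (q * d * d') else 0 with hMdef
  set B : ℕ → ℕ → ℝ := fun d d' => SE N a a' q d d' - SE N a a' q d 1 / d' -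
          SE N a a' q 1 d' / d + SE N a a' q 1 1 / (d * d') with hBdef
  have hdiff : ∑ d ∈ R, ∑ d' ∈ R, c d * c' d' * B d d' =
      ∑ d ∈ R, ∑ d' ∈ R, c d * c' d' * M d d' +
      ∑ d ∈ R, ∑ d' ∈ R, c d * c' d' * (B d d' - M d d') := by
    rw [← Finset.sum_add_distrib]
    refine Finset.sum_congr rfl fun d _ => ?_
    rw [← Finset.sum_add_distrib]
    refine Finset.sum_congr rfl fun d' _ => ?_
    ring
  change |∑ d ∈ R, ∑ d' ∈ R, c d * c' d' * B d d'| ≤ _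
  rw [hdiff]
  have hE : |∑ d ∈ R, ∑ d' ∈ R, c d * c' d' * (B d d' - M d d')| ≤
      ∑ d ∈ R, ∑ d' ∈ R, (3 / (N : ℝ) ^ 5 + (if Nat.Coprime d d' then 0 else
        SE N a a' q d d' + 3 * (N + 1) * (1 / ((d : ℝ) * d')))) := by
    refine abs_dsum_le R c c' hc.bd hc'.bd _ _ ?_ ?_
    · intro d hd d' hd' hcd hcd'
      obtain ⟨⟨hd1, hdX⟩, -⟩ := (hRmem d).1 hd
      obtain ⟨⟨hd1', hdX'⟩, -⟩ := (hRmem d').1 hd'
      have hdr : (1 : ℝ) ≤ d := by exact_mod_cast hd1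
      have hdr' : (1 : ℝ) ≤ d' := by exact_mod_cast hd1'
      have hd0 : (0 : ℝ) < d := by linarith
      have hd0' : (0 : ℝ) < d' := by linarith
      have hdN : (d : ℝ) ≤ N := by exact_mod_cast hdX.trans hXN
      have hdN' : (d' : ℝ) ≤ N := by exact_mod_cast hdX'.trans hXN
      have e1 := (hsm d hd1 hdX (Or.inl hcd)).1
      have e2 := (hsm d' hd1' hdX' (Or.inr (Or.inl hcd'))).2
      have e3 := hsm1
      have hN5 : (0 : ℝ) < 1 / (N : ℝ) ^ 5 := by positivity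
      have f1 : |(SE N a a' q d 1 - N / (q * d)) / d'| ≤ 1 / (N : ℝ) ^ 5 := by
        rw [abs_div, abs_of_pos hd0', div_le_iff₀ hd0']
        nlinarith
      have f2 : |(SE N a a' q 1 d' - N / (q * d')) / d| ≤ 1 / (N : ℝ) ^ 5 := by
        rw [abs_div, abs_of_pos hd0, div_le_iff₀ hd0]
        nlinarith
      have f3 : |(SE N a a' q 1 1 - N / q) / (d * d')| ≤ 1 / (N : ℝ) ^ 5 := by
        have : (0 : ℝ) < d * d' := by positivity
        rw [abs_div, abs_of_pos this, div_le_iff₀ this]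
        have : (1 : ℝ) ≤ d * d' := by nlinarith
        nlinarith
      have hid : B d d' = (SE N a a' q d d' - N / (q * d * d')) -
          (SE N a a' q d 1 - N / (q * d)) / d' - (SE N a a' q 1 d' - N / (q * d')) / d +
          (SE N a a' q 1 1 - N / q) / (d * d') := by
        rw [hBdef]
        field_simp
        ring
      by_cases hcop : Nat.Coprime d d'
      · have hM : M d d' = SE N a a' q d d' - N / (q * d * d') := by
          rw [hMdef]; simp only [if_pos hcop]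
        rw [if_pos hcop, add_zero, hM, hid]
        have g1 := abs_le.1 f1
        have g2 := abs_le.1 f2
        have g3 := abs_le.1 f3
        have h35 : (3 : ℝ) / (N : ℝ) ^ 5 = 1 / (N : ℝ) ^ 5 + 1 / (N : ℝ) ^ 5 + 1 / (N : ℝ) ^ 5 := by
          ring
        rw [abs_le, h35]
        constructor <;> linarith [g1.1, g1.2, g2.1, g2.2, g3.1, g3.2]
      · have hM : M d d' = 0 := by
          rw [hMdef]; simp only [if_neg hcop]
        rw [if_neg hcop, hM, sub_zero, hid]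
        have g1 := abs_le.1 f1
        have g2 := abs_le.1 f2
        have g3 := abs_le.1 f3
        have hs := SE_nonneg N a a' q d d'
        have h35 : (3 : ℝ) / (N : ℝ) ^ 5 = 1 / (N : ℝ) ^ 5 + 1 / (N : ℝ) ^ 5 + 1 / (N : ℝ) ^ 5 := by
          ring
        have hx : (0 : ℝ) ≤ N / (q * d * d') := by positivity
        have hx2 : (N : ℝ) / (q * d * d') ≤ 3 * (N + 1) * (1 / ((d : ℝ) * d')) := by
          rw [mul_one_div]
          rw [div_le_div_iff₀ (by positivity) (by positivity)]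
          have : (0 : ℝ) < d * d' := by positivity
          have h5 : (N : ℝ) ≤ 3 * (N + 1) * q := by nlinarith
          calc (N : ℝ) * (d * d') ≤ (3 * (N + 1) * q) * (d * d') :=
                mul_le_mul_of_nonneg_right h5 this.le
            _ = 3 * (N + 1) * (q * d * d') := by ring
        have hx3 : (0 : ℝ) ≤ 3 * ((N : ℝ) + 1) * (1 / ((d : ℝ) * d')) := by positivity
        rw [abs_le, h35]
        constructor <;> linarith [g1.1, g1.2, g2.1, g2.2, g3.1, g3.2]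
    · intro d hd d' hd'
      have hs := SE_nonneg N a a' q d d'
      have h5 : (0 : ℝ) ≤ 3 / (N : ℝ) ^ 5 := by positivity
      split_ifs
      · linarith
      · have : (0 : ℝ) ≤ 3 * ((N : ℝ) + 1) * (1 / ((d : ℝ) * d')) := by positivity
        linarith
  have hE2 : ∑ d ∈ R, ∑ d' ∈ R, (3 / (N : ℝ) ^ 5 + (if Nat.Coprime d d' then 0 else
        SE N a a' q d d' + 3 * (N + 1) * (1 / ((d : ℝ) * d')))) ≤
      3 + BN + 3 * (N + 1) * BR := by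
    have h1 : ∑ d ∈ R, ∑ d' ∈ R, (3 / (N : ℝ) ^ 5 + (if Nat.Coprime d d' then 0 else
        SE N a a' q d d' + 3 * (N + 1) * (1 / ((d : ℝ) * d')))) =
        (R.card : ℝ) ^ 2 * (3 / (N : ℝ) ^ 5) +
        ∑ d ∈ R, ∑ d' ∈ R.filter (fun d' => ¬ Nat.Coprime d d'), SE N a a' q d d' +
        3 * (N + 1) * ∑ d ∈ R, ∑ d' ∈ R.filter (fun d' => ¬ Nat.Coprime d d'),
          1 / ((d : ℝ) * d') := by
      rw [Finset.mul_sum]
      have h2 : (R.card : ℝ) ^ 2 * (3 / (N : ℝ) ^ 5) = ∑ d ∈ R, ∑ d' ∈ R, 3 / (N : ℝ) ^ 5 := by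
        simp only [Finset.sum_const, nsmul_eq_mul]
        ring
      rw [h2, ← Finset.sum_add_distrib, ← Finset.sum_add_distrib]
      refine Finset.sum_congr rfl fun d _ => ?_
      rw [Finset.mul_sum, Finset.sum_filter, Finset.sum_filter, ← Finset.sum_add_distrib,
        ← Finset.sum_add_distrib]
      refine Finset.sum_congr rfl fun d' _ => ?_
      by_cases h : Nat.Coprime d d'
      · simp [h]
      · simp [h]
        ring
    rw [h1]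
    have hcard : (R.card : ℝ) ≤ N := by
      have h3 : R.card ≤ (Icc 1 X).card := Finset.card_le_card hRI
      rw [Nat.card_Icc] at h3
      exact_mod_cast (by omega : R.card ≤ N)
    have h4 : (R.card : ℝ) ^ 2 * (3 / (N : ℝ) ^ 5) ≤ 3 := by
      rw [mul_div_assoc', div_le_iff₀ (by positivity)]
      have h5 : (R.card : ℝ) ^ 2 ≤ (N : ℝ) ^ 2 := pow_le_pow_left₀ (by positivity) hcard 2
      have h6 : (N : ℝ) ^ 2 ≤ (N : ℝ) ^ 5 := pow_le_pow_right₀ hN1 (by norm_num)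
      linarith
    have h7 : 3 * ((N : ℝ) + 1) * ∑ d ∈ R, ∑ d' ∈ R.filter (fun d' => ¬ Nat.Coprime d d'),
          1 / ((d : ℝ) * d') ≤ 3 * (N + 1) * BR :=
      mul_le_mul_of_nonneg_left hRB (by positivity)
    linarith
  calc |∑ d ∈ R, ∑ d' ∈ R, c d * c' d' * M d d' +
        ∑ d ∈ R, ∑ d' ∈ R, c d * c' d' * (B d d' - M d d')|
      ≤ |∑ d ∈ R, ∑ d' ∈ R, c d * c' d' * M d d'| +
        |∑ d ∈ R, ∑ d' ∈ R, c d * c' d' * (B d d' - M d d')| := abs_add_le _ _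
    _ ≤ BC + (3 + BN + 3 * (N + 1) * BR) := add_le_add hCO (hE.trans hE2)
    _ = BC + 3 + BN + 3 * (N + 1) * BR := by
        generalize 3 * ((N : ℝ) + 1) * BR = w
        ring

/-- removing the two points `a`, `a'` -/
lemma two_pts (W nu R R' r r' : ℤ → ℝ) (a a' : ℤ) (haa : a ≠ a')
    (hs : Summable (fun n => W n * nu n * (R n * R' n)))
    (hs' : Summable (fun n => W n * nu n * (r n * r' n)))
    (hr : ∀ n, r n = if n = a then 0 else R n) (hr' : ∀ n, r' n = if n = a' then 0 else R' n) :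
    ∑' n, W n * nu n * (r n * r' n) = ∑' n, W n * nu n * (R n * R' n) -
      (W a * nu a * (R a * R' a) + W a' * nu a' * (R a' * R' a')) := by
  have h1 : ∑' n, (W n * nu n * (R n * R' n) - W n * nu n * (r n * r' n)) =
      W a * nu a * (R a * R' a) + W a' * nu a' * (R a' * R' a') := by
    rw [tsum_eq_sum (s := {a, a'})]
    · rw [Finset.sum_pair haa]
      rw [hr a, hr' a, hr a', hr' a']
      simp
    · intro n hn
      simp only [Finset.mem_insert, Finset.mem_singleton, not_or] at hn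
      rw [hr n, hr' n, if_neg hn.1, if_neg hn.2]
      ring
  rw [Summable.tsum_sub hs hs'] at h1
  linarith

/-- the trivial bound -/
lemma triv (N z X : ℕ) (hN : 1 ≤ N) (hz : z ≤ N) (hX : X ≤ N) (lam : ℕ → ℝ)
    (hl : ∀ q, |lam q| ≤ 1) (c c' : ℕ → ℝ) (hc : ∀ d, |c d| ≤ 1) (hc' : ∀ d, |c' d| ≤ 1)
    (a a' : ℤ) :
    |∑' n : ℤ, Wt N n * nuS lam z n * (rf c X a n * rf c' X a' n)| ≤
      (∑' n : ℤ, Wt N n) * (N : ℝ) ^ 4 := by
  have h1 := (KF.TaskS.summable_Wt N hN).hasSum.mul_right ((N : ℝ) ^ 4)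
  rw [← Real.norm_eq_abs]
  refine tsum_of_norm_bounded h1 fun n => ?_
  have hzN : (z : ℝ) ≤ N := by exact_mod_cast hz
  have hXN : (X : ℝ) ≤ N := by exact_mod_cast hX
  have hz0 : (0 : ℝ) ≤ z := by positivity
  have hX0 : (0 : ℝ) ≤ X := by positivity
  have hN0 : (0 : ℝ) ≤ N := by positivity
  have h2 : nuS lam z n ≤ (N : ℝ) ^ 2 :=
    (nuS_le lam hl z n).trans (pow_le_pow_left₀ hz0 hzN 2)
  have h3 : |rf c X a n| ≤ N := (abs_rf_le c hc X a n).trans hXN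
  have h4 : |rf c' X a' n| ≤ N := (abs_rf_le c' hc' X a' n).trans hXN
  rw [Real.norm_eq_abs, abs_mul, abs_mul, abs_mul, abs_of_nonneg (Wt_nonneg N n),
    abs_of_nonneg (nuS_nonneg lam z n), mul_assoc]
  refine mul_le_mul_of_nonneg_left ?_ (Wt_nonneg N n)
  calc nuS lam z n * (|rf c X a n| * |rf c' X a' n|) ≤ (N : ℝ) ^ 2 * (N * N) :=
        mul_le_mul h2 (mul_le_mul h3 h4 (abs_nonneg _) hN0) (by positivity) (by positivity)
    _ = (N : ℝ) ^ 4 := by ring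

end TaskTT

open TaskTT in
/-- **TT**: off-diagonal correlations. -/
theorem TT (hCO : St_CO) (hSM : St_SM) (hEX : St_EX) (hNC : St_NC) (hRB : St_RB)
    (hPB : St_PB) : St_TT := by
  intro θ ε hθ hε
  obtain ⟨ε₁, η₁, C₁, hε₁, hη₁, hC₁, hCO'⟩ := hCO θ hθ
  obtain ⟨N₁, hSM'⟩ := hSM
  obtain ⟨C₂, hC₂, hNC'⟩ := hNC ε hε
  obtain ⟨C₃, hC₃, hRB'⟩ := hRB ε hε
  obtain ⟨N₂, C₄, hC₄, hPB'⟩ := hPB ε hε
  obtain ⟨N₃, hN₃⟩ : ∃ N₃ : ℕ, ∀ N : ℕ, N₃ ≤ N → (2 : ℝ) ≤ (N : ℝ) ^ ε := by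
    have h := ((tendsto_rpow_atTop hε).comp tendsto_natCast_atTop_atTop).eventually
      (Filter.eventually_ge_atTop (2 : ℝ))
    obtain ⟨N₃, h3⟩ := Filter.eventually_atTop.1 h
    exact ⟨N₃, fun N hN => h3 N hN⟩
  obtain ⟨ε₀, hε₀, he1, he2, he3, he4⟩ : ∃ ε₀ : ℝ, 0 < ε₀ ∧ ε₀ ≤ ε₁ / 2 ∧ ε₀ ≤ η₁ / 8 ∧
      ε₀ ≤ ε / 16 ∧ ε₀ ≤ 1 / 100 := by
    refine ⟨min (min (ε₁ / 2) (η₁ / 8)) (min (ε / 16) (1 / 100)), ?_, ?_, ?_, ?_, ?_⟩
    · exact lt_min (lt_min (by positivity) (by positivity)) (lt_min (by positivity) (by norm_num))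
    · exact (min_le_left _ _).trans (min_le_left _ _)
    · exact (min_le_left _ _).trans (min_le_right _ _)
    · exact (min_le_right _ _).trans (min_le_left _ _)
    · exact (min_le_right _ _).trans (min_le_right _ _)
  obtain ⟨η, hη, hh1, hh2, hh3⟩ : ∃ η : ℝ, 0 < η ∧ η ≤ η₁ / 2 ∧ η ≤ ε / 4 ∧ η ≤ 1 / 4 := by
    refine ⟨min (η₁ / 2) (min (ε / 4) (1 / 4)), ?_, ?_, ?_, ?_⟩
    · exact lt_min (by positivity) (lt_min (by positivity) (by norm_num))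
    · exact min_le_left _ _
    · exact (min_le_right _ _).trans (min_le_left _ _)
    · exact (min_le_right _ _).trans (min_le_right _ _)
  set N₀ := max N₁ (max N₂ N₃) with hN₀
  set Bs : ℝ := ∑ N ∈ range N₀, (∑' n : ℤ, Wt N n) * (N : ℝ) ^ 4 with hBs
  have hWs : ∀ N : ℕ, 0 ≤ (∑' n : ℤ, Wt N n) * (N : ℝ) ^ 4 := fun N =>
    mul_nonneg (tsum_nonneg fun n => Wt_nonneg N n) (by positivity)
  have hBs0 : 0 ≤ Bs := Finset.sum_nonneg fun N _ => hWs N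
  refine ⟨ε₀, η, Bs + (C₁ + 3 + 2 * C₂ + 6 * C₃ + 4 * C₄), hε₀, hη, by positivity, ?_⟩
  intro N z D0 X hN hz hzN hXθ hD0 hXD lam hlam c c' hc hc' hcD hcD' a a' ha ha' haa
  have hN0 : (0 : ℝ) < N := by exact_mod_cast (by omega : 0 < N)
  have hN1 : (1 : ℝ) ≤ N := by exact_mod_cast (by omega : 1 ≤ N)
  have hNle : ∀ s t : ℝ, s ≤ t → (N : ℝ) ^ s ≤ (N : ℝ) ^ t := fun s t hst =>
    Real.rpow_le_rpow_of_exponent_le hN1 hst
  have hzN' : z ≤ N := by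
    have h1 : (z : ℝ) ≤ N := by
      calc (z : ℝ) ≤ (N : ℝ) ^ ε₀ := hzN
        _ ≤ (N : ℝ) ^ (1 : ℝ) := hNle _ _ (by linarith)
        _ = N := Real.rpow_one _
    exact_mod_cast h1
  have hXN' : X ≤ N := by
    have h1 : (X : ℝ) ≤ N := by
      calc (X : ℝ) ≤ (N : ℝ) ^ θ := hXθ
        _ ≤ (N : ℝ) ^ (1 : ℝ) := hNle _ _ (by linarith)
        _ = N := Real.rpow_one _
    exact_mod_cast h1
  have hNη : (1 : ℝ) ≤ (N : ℝ) ^ (1 - η) := Real.one_le_rpow hN1 (by linarith)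
  by_cases hsmall : N < N₀
  · -- small N
    have h1 := triv N z X (by omega) hzN' hXN' lam hlam.bd c c' hc.bd hc'.bd a a'
    have h2 : (∑' n : ℤ, Wt N n) * (N : ℝ) ^ 4 ≤ Bs :=
      Finset.single_le_sum (f := fun N : ℕ => (∑' n : ℤ, Wt N n) * (N : ℝ) ^ 4)
        (fun N _ => hWs N) (Finset.mem_range.2 hsmall)
    have h3 : Bs ≤ Bs + (C₁ + 3 + 2 * C₂ + 6 * C₃ + 4 * C₄) := by
      have : 0 ≤ C₁ + 3 + 2 * C₂ + 6 * C₃ + 4 * C₄ := by positivity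
      linarith
    calc _ ≤ Bs := h1.trans h2
      _ ≤ Bs + (C₁ + 3 + 2 * C₂ + 6 * C₃ + 4 * C₄) := h3
      _ ≤ (Bs + (C₁ + 3 + 2 * C₂ + 6 * C₃ + 4 * C₄)) * (N : ℝ) ^ (1 - η) :=
          le_mul_of_one_le_right (by positivity) hNη
  push Not at hsmall
  have hNN1 : N₁ ≤ N := (le_max_left _ _).trans hsmall
  have hNN2 : N₂ ≤ N := (le_max_left _ _).trans ((le_max_right _ _).trans hsmall)
  have hNN3 : N₃ ≤ N := (le_max_right _ _).trans ((le_max_right _ _).trans hsmall)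
  have hNε : (2 : ℝ) ≤ (N : ℝ) ^ ε := hN₃ N hNN3
  have hzε : (z : ℝ) ≤ (N : ℝ) ^ ε := hzN.trans (hNle _ _ (by linarith))
  -- one pair (q₁, q₂)
  set K : ℝ := C₁ * (N : ℝ) ^ (1 - η₁) + 3 + C₂ * ((N : ℝ) ^ (1 - ε) + X) +
    3 * (N + 1) * (C₃ * (N : ℝ) ^ (-(ε / 2))) with hK
  have hK0 : 0 ≤ K := by positivity
  have hz2 : (z : ℝ) ^ 2 ≤ (N : ℝ) ^ (2 * ε₀) := by
    calc (z : ℝ) ^ 2 ≤ ((N : ℝ) ^ ε₀) ^ 2 := pow_le_pow_left₀ (by positivity) hzN 2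
      _ = (N : ℝ) ^ (2 * ε₀) := by
        rw [← Real.rpow_natCast, ← Real.rpow_mul hN0.le]
        congr 1
        push_cast
        ring
  have hpair : ∀ q₁ ∈ Icc 1 z, ∀ q₂ ∈ Icc 1 z, lam q₁ ≠ 0 → lam q₂ ≠ 0 →
      |∑ d ∈ Icc 1 X, ∑ d' ∈ Icc 1 X,
        c d * c' d' * (SE N a a' (Nat.lcm q₁ q₂) d d' - SE N a a' (Nat.lcm q₁ q₂) d 1 / d' -
          SE N a a' (Nat.lcm q₁ q₂) 1 d' / d + SE N a a' (Nat.lcm q₁ q₂) 1 1 / (d * d'))| ≤ K := by
    intro q₁ hq₁ q₂ hq₂ hl₁ hl₂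
    obtain ⟨h11, h12, h13⟩ := hlam.supp q₁ hl₁
    obtain ⟨h21, h22, h23⟩ := hlam.supp q₂ hl₂
    set q := Nat.lcm q₁ q₂ with hqdef
    have hqpos : 1 ≤ q := Nat.lcm_pos (by omega) (by omega)
    have hqodd : Odd q := by
      have h1 : q ∣ q₁ * q₂ := Nat.lcm_dvd_mul q₁ q₂
      exact (h13.mul h23).of_dvd_nat h1
    have hqle : (q : ℝ) ≤ (N : ℝ) ^ (2 * ε₀) := by
      have h1 : q ≤ q₁ * q₂ := Nat.le_of_dvd (by positivity) (Nat.lcm_dvd_mul q₁ q₂)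
      have h2 : q ≤ z * z := h1.trans (Nat.mul_le_mul h12 h22)
      have h3 : (q : ℝ) ≤ (z : ℝ) ^ 2 := by
        rw [sq]; exact_mod_cast h2
      exact h3.trans hz2
    have hcop : ∀ d : ℕ, Rough ((N : ℝ) ^ ε) d → Nat.Coprime d (2 * q) := by
      intro d hd
      refine Nat.Coprime.symm (Nat.coprime_of_dvd ?_)
      intro p hp hp1 hp2
      have h1 := hd.2 p hp hp2
      rcases (Nat.Prime.dvd_mul hp).1 hp1 with h2 | h2
      · have h3 : p ≤ 2 := Nat.le_of_dvd (by norm_num) h2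
        have h4 : (p : ℝ) ≤ 2 := by exact_mod_cast h3
        linarith
      · have h3 : p ∣ q₁ * q₂ := h2.trans (Nat.lcm_dvd_mul q₁ q₂)
        have h4 : p ≤ z := by
          rcases (Nat.Prime.dvd_mul hp).1 h3 with h4 | h4
          · exact (Nat.le_of_dvd (by omega) h4).trans h12
          · exact (Nat.le_of_dvd (by omega) h4).trans h22
        have h5 : (p : ℝ) ≤ z := by exact_mod_cast h4
        linarith
    have hcO : CofO q c := ⟨hc.bd, fun d hd => hcop d (hc.supp d hd).2⟩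
    have hcO' : CofO q c' := ⟨hc'.bd, fun d hd => hcop d (hc'.supp d hd).2⟩
    have hXε : (X : ℝ) ≤ (N : ℝ) ^ ε₁ * D0 := by
      refine hXD.trans (mul_le_mul_of_nonneg_right (hNle _ _ (by linarith)) (by positivity))
    have h910 : ∀ d : ℕ, 1 ≤ d → d ≤ X → ((q : ℝ) * d) ≤ (N : ℝ) ^ (9 / 10 : ℝ) := by
      intro d _ hdX
      have h1 : (d : ℝ) ≤ (N : ℝ) ^ θ := (by exact_mod_cast hdX : (d : ℝ) ≤ X).trans hXθ
      calc (q : ℝ) * d ≤ (N : ℝ) ^ (2 * ε₀) * (N : ℝ) ^ θ :=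
            mul_le_mul hqle h1 (by positivity) (by positivity)
        _ = (N : ℝ) ^ (2 * ε₀ + θ) := (Real.rpow_add hN0 _ _).symm
        _ ≤ (N : ℝ) ^ (9 / 10 : ℝ) := hNle _ _ (by linarith)
    have hq910 : ((q : ℝ) * (1 : ℕ)) ≤ (N : ℝ) ^ (9 / 10 : ℝ) := by
      rw [Nat.cast_one, mul_one]
      exact hqle.trans (hNle _ _ (by linarith))
    have hsm1 : |SE N a a' q 1 1 - N / q| ≤ 1 / (N : ℝ) ^ 5 := by
      have := (hSM' N hNN1 a a' q 1 hqpos le_rfl (Nat.coprime_one_right q) hq910).1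
      simpa using this
    refine one_q N q D0 X ((N : ℝ) ^ ε) hN hqpos hD0 hXN' a a' c c' hc hc' hcD hcD' ?_ hsm1
      (C₁ * (N : ℝ) ^ (1 - η₁)) (C₂ * ((N : ℝ) ^ (1 - ε) + X)) (C₃ * (N : ℝ) ^ (-(ε / 2)))
      ?_ ?_ ?_
    · intro d hd1 hdX hd
      have hqd : Nat.Coprime q d := by
        rcases hd with hd | hd | hd
        · exact (Nat.Coprime.coprime_mul_left_right (hcO.cop d hd)).symm
        · exact (Nat.Coprime.coprime_mul_left_right (hcO'.cop d hd)).symm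
        · rw [hd]; exact Nat.coprime_one_right q
      exact hSM' N hNN1 a a' q d hqpos hd1 hqd (h910 d hd1 hdX)
    · exact hCO' N q D0 X hN hqpos hqodd (hqle.trans (hNle _ _ (by linarith))) hXθ hD0 hXε
        a a' ha ha' haa c c' hcO hcO'
    · exact hNC' N q X hN hqpos hXN' a a' ha ha' haa
    · have hsub : roughs ((N : ℝ) ^ ε) X ⊆ roughs ((N : ℝ) ^ ε) N := by
        classical
        intro d hd
        unfold roughs at hd ⊢
        rw [Finset.mem_filter, Finset.mem_Icc] at hd ⊢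
        exact ⟨⟨hd.1.1, hd.1.2.trans hXN'⟩, hd.2⟩
      refine le_trans ?_ (hRB' N hN)
      calc ∑ d ∈ roughs ((N : ℝ) ^ ε) X,
            ∑ d' ∈ (roughs ((N : ℝ) ^ ε) X).filter (fun d' => ¬ Nat.Coprime d d'),
              1 / ((d : ℝ) * d')
          ≤ ∑ d ∈ roughs ((N : ℝ) ^ ε) X,
            ∑ d' ∈ (roughs ((N : ℝ) ^ ε) N).filter (fun d' => ¬ Nat.Coprime d d'),
              1 / ((d : ℝ) * d') := by
            refine Finset.sum_le_sum fun d _ => ?_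
            exact Finset.sum_le_sum_of_subset_of_nonneg (Finset.filter_subset_filter _ hsub)
              fun _ _ _ => by positivity
        _ ≤ _ := Finset.sum_le_sum_of_subset_of_nonneg hsub
              fun _ _ _ => Finset.sum_nonneg fun _ _ => by positivity
  -- (1)
  obtain ⟨hs1, hs2, hs3⟩ := hEX N z X (by omega) lam c c' a a'
  have hpart1 : |∑' n : ℤ, Wt N n * nuS lam z n * (Rf c X a n * Rf c' X a' n)| ≤
      (z : ℝ) ^ 2 * K := by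
    rw [hs3]
    refine (abs_dsum_le (Icc 1 z) lam lam hlam.bd hlam.bd _ (fun _ _ => K) ?_ ?_).trans ?_
    · intro q₁ hq₁ q₂ hq₂ h1 h2
      exact hpair q₁ hq₁ q₂ hq₂ h1 h2
    · intro _ _ _ _; exact hK0
    · simp only [Finset.sum_const, nsmul_eq_mul, Nat.card_Icc, Nat.add_sub_cancel]
      exact le_of_eq (by ring)
  -- (2)
  have hpts := two_pts (Wt N) (nuS lam z) (Rf c X a) (Rf c' X a') (rf c X a) (rf c' X a')
    a a' haa hs1 hs2 (fun n => rfl) (fun n => rfl)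
  have hval : ∀ (u : ℕ → ℝ), CofR ((N : ℝ) ^ ε) X u → ∀ b n : ℤ, |(b : ℝ)| ≤ N →
      |(n : ℝ)| ≤ N → n ≠ b → |Rf u X b n| ≤ 2 * C₄ := by
    intro u hu b n hb hn hnb
    have h1 := hPB' N X hNN2 hXN' u hu b n hb
    have h2 : rf u X b n = Rf u X b n := by
      unfold rf; rw [if_neg hnb]
    rw [h2] at h1
    have h3 : (1 + |(n : ℝ)| / N) ^ (1 / 4 : ℝ) ≤ 2 := by
      have h4 : 1 + |(n : ℝ)| / N ≤ 2 := by
        have : |(n : ℝ)| / N ≤ 1 := by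
          rw [div_le_one hN0]; exact hn
        linarith
      have h5 : (0 : ℝ) ≤ 1 + |(n : ℝ)| / N := by positivity
      calc (1 + |(n : ℝ)| / N) ^ (1 / 4 : ℝ) ≤ (2 : ℝ) ^ (1 / 4 : ℝ) :=
            Real.rpow_le_rpow h5 h4 (by norm_num)
        _ ≤ (2 : ℝ) ^ (1 : ℝ) := Real.rpow_le_rpow_of_exponent_le (by norm_num) (by norm_num)
        _ = 2 := Real.rpow_one _
    calc |Rf u X b n| ≤ C₄ * (1 + |(n : ℝ)| / N) ^ (1 / 4 : ℝ) := h1
      _ ≤ C₄ * 2 := mul_le_mul_of_nonneg_left h3 hC₄.le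
      _ = 2 * C₄ := by ring
  have hpt : ∀ n : ℤ, ∀ x y : ℝ, |x| * |y| ≤ X * (2 * C₄) →
      |Wt N n * nuS lam z n * (x * y)| ≤ (z : ℝ) ^ 2 * (X * (2 * C₄)) := by
    intro n x y hxy
    rw [abs_mul, abs_mul, abs_mul, abs_of_nonneg (Wt_nonneg N n),
      abs_of_nonneg (nuS_nonneg lam z n)]
    have h1 : Wt N n * nuS lam z n ≤ (z : ℝ) ^ 2 := by
      calc Wt N n * nuS lam z n ≤ 1 * (z : ℝ) ^ 2 :=
            mul_le_mul (Wt_le_one N n) (nuS_le lam hlam.bd z n) (nuS_nonneg _ _ _) zero_le_one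
        _ = (z : ℝ) ^ 2 := one_mul _
    exact mul_le_mul h1 hxy (by positivity) (by positivity)
  have hp1 := hpt a (Rf c X a a) (Rf c' X a' a)
    (mul_le_mul (abs_Rf_le c hc.bd X a a) (hval c' hc' a' a ha' ha haa) (abs_nonneg _)
      (by positivity))
  have hp2 := hpt a' (Rf c X a a') (Rf c' X a' a')
    (by
      rw [mul_comm]
      exact mul_le_mul (abs_Rf_le c' hc'.bd X a' a') (hval c hc a a' ha ha' (Ne.symm haa))
        (abs_nonneg _) (by positivity))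
  have htot : |∑' n : ℤ, Wt N n * nuS lam z n * (rf c X a n * rf c' X a' n)| ≤
      (z : ℝ) ^ 2 * (K + 4 * C₄ * X) := by
    rw [hpts]
    have h1 := abs_sub (∑' n : ℤ, Wt N n * nuS lam z n * (Rf c X a n * Rf c' X a' n))
      (Wt N a * nuS lam z a * (Rf c X a a * Rf c' X a' a) +
        Wt N a' * nuS lam z a' * (Rf c X a a' * Rf c' X a' a'))
    have h2 := abs_add_le (Wt N a * nuS lam z a * (Rf c X a a * Rf c' X a' a))
      (Wt N a' * nuS lam z a' * (Rf c X a a' * Rf c' X a' a'))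
    have h3 : (z : ℝ) ^ 2 * (K + 4 * C₄ * X) = (z : ℝ) ^ 2 * K +
      ((z : ℝ) ^ 2 * (X * (2 * C₄)) + (z : ℝ) ^ 2 * (X * (2 * C₄))) := by ring
    rw [h3]
    exact h1.trans (add_le_add hpart1 (h2.trans (add_le_add hp1 hp2)))
  -- exponents
  have hKX : 0 ≤ K + 4 * C₄ * X := by positivity
  have hZ : ∀ s : ℝ, η + 2 * ε₀ + s ≤ 1 → (N : ℝ) ^ (2 * ε₀) * (N : ℝ) ^ s ≤
      (N : ℝ) ^ (1 - η) := by
    intro s hs
    rw [← Real.rpow_add hN0]
    exact hNle _ _ (by linarith)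
  have g1 := hZ (1 - η₁) (by linarith)
  have g2 : (N : ℝ) ^ (2 * ε₀) ≤ (N : ℝ) ^ (1 - η) := hNle _ _ (by linarith)
  have g3 := hZ (1 - ε) (by linarith)
  have g4 : (N : ℝ) ^ (2 * ε₀) * X ≤ (N : ℝ) ^ (1 - η) :=
    (mul_le_mul_of_nonneg_left hXθ (by positivity)).trans (hZ θ (by linarith))
  have g5 : (N : ℝ) ^ (2 * ε₀) * ((N + 1) * (N : ℝ) ^ (-(ε / 2))) ≤ 2 * (N : ℝ) ^ (1 - η) := by
    have h1 : ((N : ℝ) + 1) * (N : ℝ) ^ (-(ε / 2)) ≤ 2 * (N : ℝ) ^ (1 - ε / 2) := by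
      have h2 : (N : ℝ) ^ (1 - ε / 2) = N * (N : ℝ) ^ (-(ε / 2)) := by
        rw [sub_eq_add_neg, Real.rpow_add hN0, Real.rpow_one]
      rw [h2]
      have h3 : (0 : ℝ) ≤ (N : ℝ) ^ (-(ε / 2)) := by positivity
      nlinarith
    calc (N : ℝ) ^ (2 * ε₀) * ((N + 1) * (N : ℝ) ^ (-(ε / 2)))
        ≤ (N : ℝ) ^ (2 * ε₀) * (2 * (N : ℝ) ^ (1 - ε / 2)) :=
          mul_le_mul_of_nonneg_left h1 (by positivity)
      _ = 2 * ((N : ℝ) ^ (2 * ε₀) * (N : ℝ) ^ (1 - ε / 2)) := by ring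
      _ ≤ 2 * (N : ℝ) ^ (1 - η) :=
          mul_le_mul_of_nonneg_left (hZ (1 - ε / 2) (by linarith)) (by norm_num)
  calc |∑' n : ℤ, Wt N n * nuS lam z n * (rf c X a n * rf c' X a' n)|
      ≤ (z : ℝ) ^ 2 * (K + 4 * C₄ * X) := htot
    _ ≤ (N : ℝ) ^ (2 * ε₀) * (K + 4 * C₄ * X) := mul_le_mul_of_nonneg_right hz2 hKX
    _ = C₁ * ((N : ℝ) ^ (2 * ε₀) * (N : ℝ) ^ (1 - η₁)) + 3 * (N : ℝ) ^ (2 * ε₀) +
        C₂ * ((N : ℝ) ^ (2 * ε₀) * (N : ℝ) ^ (1 - ε)) + C₂ * ((N : ℝ) ^ (2 * ε₀) * X) +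
        3 * C₃ * ((N : ℝ) ^ (2 * ε₀) * ((N + 1) * (N : ℝ) ^ (-(ε / 2)))) +
        4 * C₄ * ((N : ℝ) ^ (2 * ε₀) * X) := by
        rw [hK]; ring
    _ ≤ C₁ * (N : ℝ) ^ (1 - η) + 3 * (N : ℝ) ^ (1 - η) + C₂ * (N : ℝ) ^ (1 - η) +
        C₂ * (N : ℝ) ^ (1 - η) + 3 * C₃ * (2 * (N : ℝ) ^ (1 - η)) +
        4 * C₄ * (N : ℝ) ^ (1 - η) := by
        gcongr
    _ = (C₁ + 3 + 2 * C₂ + 6 * C₃ + 4 * C₄) * (N : ℝ) ^ (1 - η) := by ring
    _ ≤ (Bs + (C₁ + 3 + 2 * C₂ + 6 * C₃ + 4 * C₄)) * (N : ℝ) ^ (1 - η) := by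
        refine mul_le_mul_of_nonneg_right ?_ (by positivity)
        linarith

end Pool.Agent.H442R2.BX
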