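import Pool.Agent.H442R2.BX.Defs
import Pool.Agent.H442R2.KF.Tri

/-!
BX project, task TU: trilinear forms with Kloosterman fractions, unbalanced dyadic ranges.
-/

namespace Pool.Agent.H442R2.BX

open Finset
open Pool.Agent.H442R2.KF

namespace TaskTU

/-- the sum over the multiples of `2^u` -/
theorem reindex (u i : ℕ) (F : ℕ → ℂ)
    (hF : ∀ m', ¬ (2 ^ u ∣ m' ∧ m' / 2 ^ u ∈ Ioc (2 ^ i) (2 ^ (i + 1))) → F m' = 0) :
    ∑ m' ∈ Ioc (2 ^ (i + u)) (2 * 2 ^ (i + u) + 1), F m' =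
      ∑ m ∈ Ioc (2 ^ i) (2 ^ (i + 1)), F (2 ^ u * m) := by
  have hu : 0 < 2 ^ u := by positivity
  have hinj : Set.InjOn (fun m : ℕ => 2 ^ u * m) (Ioc (2 ^ i) (2 ^ (i + 1)) : Finset ℕ) := by
    intro a _ b _ hab
    exact Nat.eq_of_mul_eq_mul_left hu hab
  rw [← Finset.sum_image (f := F) hinj]
  symm
  apply Finset.sum_subset
  · intro m' hm'
    rw [Finset.mem_image] at hm'
    obtain ⟨m, hm, rfl⟩ := hm'
    rw [Finset.mem_Ioc] at hm ⊢
    have e1 : (2 : ℕ) ^ (i + u) = 2 ^ u * 2 ^ i := by rw [pow_add, mul_comm]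
    have e2 : (2 : ℕ) ^ (i + 1) = 2 * 2 ^ i := by rw [pow_succ, mul_comm]
    constructor
    · rw [e1]
      exact Nat.mul_lt_mul_of_pos_left hm.1 hu
    · rw [e1]
      rw [e2] at hm
      have := Nat.mul_le_mul_left (2 ^ u) hm.2
      nlinarith
  · intro m' _ hm'
    apply hF
    rintro ⟨h1, h2⟩
    apply hm'
    rw [Finset.mem_image]
    exact ⟨m' / 2 ^ u, h2, Nat.mul_div_cancel' h1⟩

/-- the coefficients on the multiples of `2^u` -/
noncomputable def up (u i : ℕ) (α : ℕ → ℂ) (m' : ℕ) : ℂ :=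
  if 2 ^ u ∣ m' ∧ m' / 2 ^ u ∈ Ioc (2 ^ i) (2 ^ (i + 1)) then α (m' / 2 ^ u) else 0

theorem up_mul (u i : ℕ) (α : ℕ → ℂ) (m : ℕ) (hm : m ∈ Ioc (2 ^ i) (2 ^ (i + 1))) :
    up u i α (2 ^ u * m) = α m := by
  have hu : 0 < 2 ^ u := by positivity
  unfold up
  rw [Nat.mul_div_cancel_left m hu, if_pos ⟨Dvd.intro _ rfl, hm⟩]

theorem up_norm (u i : ℕ) (α : ℕ → ℂ) (h : ∀ m, ‖α m‖ ≤ 1) (m : ℕ) : ‖up u i α m‖ ≤ 1 := by
  unfold up
  split_ifs
  · exact h _
  · simp

theorem kf_scale (hKS : St_KS) (b : ℤ) (u v m n : ℕ) (huv : u = 0 ∨ v = 0) (hn : 0 < n)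
    (h : Nat.Coprime (2 ^ u * m) (2 ^ v * n)) :
    kf (b * 2 ^ (u + v)) ((2 ^ u * m : ℕ) : ℤ) (2 ^ v * n) = kf b (m : ℤ) n := by
  obtain ⟨h1, h2⟩ := hKS
  rcases huv with rfl | rfl
  · have e1 := h1 b m (2 ^ v) n (by positivity) hn (by simpa using h)
    rw [← e1]
    simp
  · have e2 := h2 b m (2 ^ u) n hn (by simpa using h)
    rw [← e2]
    simp

theorem coprime_scale (u v m n : ℕ) (huv : u = 0 ∨ v = 0) (hm : Odd m) (hn : Odd n) :
    Nat.Coprime (2 ^ u * m) (2 ^ v * n) ↔ Nat.Coprime m n := by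
  have hm2 : ∀ w : ℕ, Nat.Coprime m (2 ^ w) := fun w =>
    Nat.Coprime.pow_right w hm.coprime_two_right
  have hn2 : ∀ w : ℕ, Nat.Coprime (2 ^ w) n := fun w =>
    (Nat.Coprime.pow_right w hn.coprime_two_right).symm
  rcases huv with rfl | rfl
  · rw [pow_zero, one_mul]
    constructor
    · intro h
      exact Nat.Coprime.coprime_mul_left_right h
    · intro h
      exact Nat.Coprime.mul_right (hm2 v) h
  · rw [pow_zero, one_mul]
    constructor
    · intro h
      exact Nat.Coprime.coprime_mul_left h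
    · intro h
      exact Nat.Coprime.mul_left (hn2 u) h

theorem FF_scale (hKS : St_KS) (ψ : ℕ → ℝ → ℂ) (b : ℤ) (J u v m n : ℕ) (huv : u = 0 ∨ v = 0)
    (hn : 0 < n) (h : Nat.Coprime (2 ^ u * m) (2 ^ v * n)) :
    FF (fun j t => ψ j (t / 2 ^ (u + v))) (b * 2 ^ (u + v)) J (2 ^ v * n) (2 ^ u * m) =
      FF ψ b J n m := by
  unfold FF
  refine Finset.sum_congr rfl fun j _ => ?_
  have e1 := kf_scale hKS ((j : ℤ) * b) u v m n huv hn h
  have e2 : (j : ℤ) * (b * 2 ^ (u + v)) = (j : ℤ) * b * 2 ^ (u + v) := by ring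
  rw [e2, e1]
  congr 2
  push_cast
  rw [pow_add]
  field_simp

end TaskTU

open TaskTU in
theorem TU (hKS : St_KS) : St_TU := by
  intro δ hδ
  obtain ⟨η, C, hη, hC, htri⟩ := tri δ hδ
  refine ⟨η, C, hη, hC, ?_⟩
  intro i k J hJ1 hJ V hV ψ hψ b hb hbJ α β hα hβ hαo hβo
  obtain ⟨u, v, hiu, hkv, huv⟩ : ∃ u v : ℕ, i + u = max i k ∧ k + v = max i k ∧
      (u = 0 ∨ v = 0) := by
    refine ⟨max i k - i, max i k - k, ?_, ?_, ?_⟩
    · have := le_max_left i k
      omega
    · have := le_max_right i k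
      omega
    · rcases le_total i k with h | h
      · right
        rw [max_eq_right h]
        simp
      · left
        rw [max_eq_left h]
        simp
  set D : ℝ := 2 ^ (u + v) with hD
  have hD0 : 0 < D := by positivity
  have hMr : (((2 ^ max i k : ℕ) : ℝ)) = (2 : ℝ) ^ max i k := by push_cast; rfl
  have hM2 : (((2 ^ max i k : ℕ) : ℝ)) ^ 2 = (2 : ℝ) ^ (i + k) * D := by
    rw [hMr, hD, ← pow_mul, ← pow_add]
    congr 1
    omega
  have hP0 : (0 : ℝ) < (2 : ℝ) ^ (i + k) := by positivity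
  have key := htri (2 ^ max i k) J Nat.one_le_two_pow hJ1 (by rw [hMr]; exact hJ) V hV
    (fun j t => ψ j (t / 2 ^ (u + v))) ?_ (b * 2 ^ (u + v)) ?_ ?_ (up u i α) (up v k β)
    (up_norm u i α hα) (up_norm v k β hβ)
  · rw [hMr] at key
    refine le_trans (le_of_eq ?_) key
    congr 1
    have hr1 := reindex u i (fun m' => ∑ n' ∈ (Ioc (2 ^ max i k) (2 * 2 ^ max i k + 1)).filter
      (fun n' => Nat.Coprime m' n'), up u i α m' * up v k β n' *
        FF (fun j t => ψ j (t / 2 ^ (u + v))) (b * 2 ^ (u + v)) J n' m') ?_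
    · rw [hiu] at hr1
      rw [hr1]
      refine Finset.sum_congr rfl fun m hm => ?_
      rw [Finset.sum_filter, Finset.sum_filter]
      have hr2 := reindex v k (fun n' => if Nat.Coprime (2 ^ u * m) n' then
        up u i α (2 ^ u * m) * up v k β n' *
        FF (fun j t => ψ j (t / 2 ^ (u + v))) (b * 2 ^ (u + v)) J n' (2 ^ u * m) else 0) ?_
      · rw [hkv] at hr2
        rw [hr2]
        refine Finset.sum_congr rfl fun n hn => ?_
        rw [up_mul u i α m hm, up_mul v k β n hn]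
        by_cases hm0 : α m = 0
        · simp [hm0]
        by_cases hn0 : β n = 0
        · simp [hn0]
        have hmo := hαo m hm0
        have hno := hβo n hn0
        have hnpos : 0 < n := hno.pos
        by_cases hc : Nat.Coprime m n
        · have hc' := (coprime_scale u v m n huv hmo hno).2 hc
          rw [if_pos hc, if_pos hc', FF_scale hKS ψ b J u v m n huv hnpos hc']
        · have hc' : ¬ Nat.Coprime (2 ^ u * m) (2 ^ v * n) :=
            fun h => hc ((coprime_scale u v m n huv hmo hno).1 h)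
          rw [if_neg hc, if_neg hc']
      · intro n' hn'
        have : up v k β n' = 0 := by
          unfold up
          rw [if_neg hn']
        simp [this]
    · intro m' hm'
      have : up u i α m' = 0 := by
        unfold up
        rw [if_neg hm']
      simp [this]
  · intro j
    refine ⟨?_, ?_⟩
    · intro s hs
      apply (hψ j).bd
      rw [hM2] at hs
      rw [le_div_iff₀ hD0]
      exact hs
    · intro s s' hs hs'
      rw [hM2] at hs hs' ⊢
      have h1 := (hψ j).lip (s / D) (s' / D) (by rwa [le_div_iff₀ hD0]) (by rwa [le_div_iff₀ hD0])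
      refine h1.trans (le_of_eq ?_)
      rw [← sub_div, abs_div, abs_of_pos hD0]
      field_simp
  · exact mul_ne_zero hb (by positivity)
  · rw [hM2]
    push_cast
    rw [abs_mul, abs_of_pos (by positivity : (0 : ℝ) < 2 ^ (u + v))]
    calc |(b : ℝ)| * 2 ^ (u + v) * J = |(b : ℝ)| * J * D := by rw [hD]; ring
      _ ≤ V * (2 : ℝ) ^ (i + k) * D := mul_le_mul_of_nonneg_right hbJ hD0.le
      _ = V * ((2 : ℝ) ^ (i + k) * D) := by ring

end Pool.Agent.H442R2.BX
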