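import Pool.Agent.H442R2.BX.Defs
import Pool.Agent.H376R2.TT.Selwq

/-!
BX project, task WX: existence of the Selberg weights.
-/

namespace Pool.Agent.H442R2.BX

open Finset

theorem WX : St_WX := by
  intro z hz
  obtain ⟨l, h1, hb, hD, h0, hc, -, hf⟩ :=
    Pool.Agent.H376R2.TT.sel_weights_q 2 (by norm_num) z hz
  refine ⟨l, h1, hb, ?_, ?_⟩
  · intro q hq
    refine ⟨?_, ?_, ?_⟩
    · rcases Nat.eq_zero_or_pos q with h | h
      · exact absurd (by rw [h]; exact h0) hq
      · exact h
    · by_contra h
      exact hq (hD q (by omega))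
    · by_contra h
      refine hq (hc q ?_)
      intro hcop
      exact h (Nat.Coprime.odd_of_right hcop)
  · refine hf.trans (le_of_eq ?_)
    have : Nat.totient 2 = 1 := by decide
    rw [this]
    norm_num

end Pool.Agent.H442R2.BX
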