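import Pool.Agent.H442R2.BX.Defs
import Pool.Agent.H442R2.BX.Ks
import Pool.Agent.H442R2.BX.Tu
import Pool.Agent.H442R2.BX.Ph
import Pool.Agent.H442R2.BX.Sv
import Pool.Agent.H442R2.BX.Pw
import Pool.Agent.H442R2.BX.Bc
import Pool.Agent.H442R2.BX.Bb
import Pool.Agent.H442R2.BX.Co
import Pool.Agent.H442R2.BX.Sm
import Pool.Agent.H442R2.BX.Ex
import Pool.Agent.H442R2.BX.Rc
import Pool.Agent.H442R2.BX.Gs
import Pool.Agent.H442R2.BX.Nc
import Pool.Agent.H442R2.BX.Ra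
import Pool.Agent.H442R2.BX.Rb
import Pool.Agent.H442R2.BX.Rt
import Pool.Agent.H442R2.BX.Pb
import Pool.Agent.H442R2.BX.Wx
import Pool.Agent.H442R2.BX.Gw
import Pool.Agent.H442R2.BX.Di
import Pool.Agent.H442R2.BX.Tt
import Pool.Agent.H442R2.BX.Du
import Pool.Agent.H442R2.BX.Pr
import Pool.Agent.H442R2.BX.Bk
import Pool.Agent.H442R2.BX.Fi
import Pool.Agent.H442R2.BX.Fc
import Pool.Agent.H442R2.BX.Fp

/-!
BX project (helper442): assembly.
-/

namespace Pool.Agent.H442R2.BX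

theorem SV_thm : St_SV := SV PH
theorem CO_thm : St_CO := CO (BB (BC (TU KS) PW)) SV_thm
theorem SM_thm : St_SM := SM SV_thm
theorem PB_thm : St_PB := PB RC RA
theorem GW_thm : St_GW := GW SM_thm
theorem TT_thm : St_TT := TT CO_thm SM_thm EX (NC RC GS) RB PB_thm
theorem FI_thm : St_FI := FI (BK TT_thm (DI PB_thm GS GW_thm) DU (PR PB_thm RT) WX GW_thm EX)
theorem FC_thm : St_FC := FC FI_thm
theorem FP_thm : St_FP := FP FC_thm

end Pool.Agent.H442R2.BX
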