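import Pool.Agent.H442R2.KF.Defs2

/-!
BX project (helper442): definitions and statements.

A Bessel inequality over the residues `a` for the discrepancies of an arbitrary bounded function on
the primes, along rough moduli up to `N^θ`, every `θ < 14/27`; hence boundedly many exceptional
residues.

Every `St_X` below is the statement of one task; the doc comment is its complete proof.
-/

namespace Pool.Agent.H442R2.BX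

open Finset
open Pool.Agent.H442R2.KF

/-! ### Definitions -/

/-- `∑_n W(n) 1_{q | n} 1_{d | n-a} 1_{d' | n-a'}` -/
noncomputable def SE (N : ℕ) (a a' : ℤ) (q d d' : ℕ) : ℝ :=
  ∑' n : ℤ, if ((q : ℤ) ∣ n ∧ (d : ℤ) ∣ n - a ∧ (d' : ℤ) ∣ n - a') then Wt N n else 0

/-- the sieve weight `ν(n) = (∑_{q ≤ z, q | n} λ_q)²` -/
noncomputable def nuS (lam : ℕ → ℝ) (z : ℕ) (n : ℤ) : ℝ :=
  (∑ q ∈ (Icc 1 z).filter (fun q : ℕ => (q : ℤ) ∣ n), lam q) ^ 2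

/-- `1_{d | m} - 1/d` -/
noncomputable def dl (d : ℕ) (m : ℤ) : ℝ := (if (d : ℤ) ∣ m then 1 else 0) - 1 / (d : ℝ)

/-- `R_a(n) = ∑_{d ≤ X} c_d (1_{d | n-a} - 1/d)` -/
noncomputable def Rf (c : ℕ → ℝ) (X : ℕ) (a n : ℤ) : ℝ := ∑ d ∈ Icc 1 X, c d * dl d (n - a)

/-- `r_a(n)`: `R_a(n)` without the value at `n = a` -/
noncomputable def rf (c : ℕ → ℝ) (X : ℕ) (a n : ℤ) : ℝ := if n = a then 0 else Rf c X a n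

/-- rough numbers: `d > 1`, all prime factors exceed `y` -/
def Rough (y : ℝ) (d : ℕ) : Prop := 1 < d ∧ ∀ p : ℕ, p.Prime → p ∣ d → y < (p : ℝ)

open Classical in
/-- the rough numbers up to `X` -/
noncomputable def roughs (y : ℝ) (X : ℕ) : Finset ℕ := (Icc 1 X).filter (fun d => Rough y d)

/-- the rough divisors of `m` up to `X` -/
noncomputable def rd (y : ℝ) (X : ℕ) (m : ℤ) : Finset ℕ :=
  (roughs y X).filter (fun d : ℕ => (d : ℤ) ∣ m)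

/-- coefficients: bounded by one, supported on the rough numbers up to `X` -/
structure CofR (y : ℝ) (X : ℕ) (c : ℕ → ℝ) : Prop where
  bd : ∀ d, |c d| ≤ 1
  supp : ∀ d, c d ≠ 0 → d ≤ X ∧ Rough y d

/-- coefficients: bounded by one, supported on numbers coprime to `2q` -/
structure CofO (q : ℕ) (c : ℕ → ℝ) : Prop where
  bd : ∀ d, |c d| ≤ 1
  cop : ∀ d, c d ≠ 0 → Nat.Coprime d (2 * q)

/-- weights: bounded by one and Lipschitz on `[P, ∞)` -/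
structure WeiP (P V : ℝ) (ψ : ℝ → ℂ) : Prop where
  bd : ∀ s : ℝ, P ≤ s → ‖ψ s‖ ≤ 1
  lip : ∀ s s' : ℝ, P ≤ s → P ≤ s' → ‖ψ s - ψ s'‖ ≤ V * |s - s'| / P

/-- the smooth weights -/
noncomputable def psB (N J : ℕ) (a : ℤ) (P : ℝ) (σ : ℤ) (ω : ℕ → ℂ) (j : ℕ) (s : ℝ) : ℂ :=
  if j ≤ J then ((P / s : ℝ) : ℂ) * ((Real.exp (-Real.pi * ((j : ℝ) * N / s) ^ 2) : ℝ) : ℂ) *
    e ((σ : ℝ) * j * a / s) * ω j else 0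

/-- one term of the sum over frequencies -/
noncomputable def trB (N : ℕ) (a a' : ℤ) (q : ℕ) (σ : ℤ) (c c' : ℕ → ℝ) (j d d' : ℕ) : ℂ :=
  (c d : ℂ) * (c' d' : ℂ) * (((N : ℝ) / (q * d * d') : ℝ) : ℂ) *
    ((Real.exp (-Real.pi * ((j : ℝ) * N / (q * d * d')) ^ 2) : ℝ) : ℂ) *
    (e ((σ : ℝ) * j * a / (q * d * d')) * kf (-(σ * j * a)) ((d * d' : ℕ) : ℤ) q *
      kf (σ * j * (a' - a)) ((q * d : ℕ) : ℤ) d')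

/-- the number of frequencies of the box `(i, k)` -/
noncomputable def JB (N i k : ℕ) : ℕ := ⌊4 * (2 : ℝ) ^ (i + k) * Real.log N / N⌋₊

/-- the numbers `d` with `q d ∈ (2^i, 2^(i+1)]` -/
def bx (q i : ℕ) : Finset ℕ :=
  (Icc 1 (2 ^ (i + 1))).filter (fun d => q * d ∈ Ioc (2 ^ i) (2 ^ (i + 1)))

/-- Selberg weights on odd numbers up to `z` -/
structure SW (z : ℕ) (lam : ℕ → ℝ) : Prop where
  one : lam 1 = 1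
  bd : ∀ q, |lam q| ≤ 1
  supp : ∀ q, lam q ≠ 0 → 1 ≤ q ∧ q ≤ z ∧ Odd q
  form : ∑ q₁ ∈ Icc 1 z, ∑ q₂ ∈ Icc 1 z, lam q₁ * lam q₂ / (Nat.lcm q₁ q₂ : ℝ) ≤ 2 / Real.log z

/-- the discrepancy of `f` on the primes up to `N`, in the class `a` modulo `d` -/
noncomputable def Df (f : ℕ → ℝ) (N : ℕ) (a : ℤ) (d : ℕ) : ℝ :=
  (∑ p ∈ (Icc 1 N).filter (fun p : ℕ => p.Prime ∧ (p : ℤ) ≡ a [ZMOD d]), f p) -
    (∑ p ∈ (Icc 1 N).filter Nat.Prime, f p) / (Nat.totient d : ℝ)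

/-! ### Statements -/

/-- **KS** (file `Ks.lean`, theorem `KS : St_KS`; may import `KF.Kfb`).

Proof.  (i) Let `x` be an integer with `m x ≡ 1 (mod g n)` (exists by coprimality).  By
`KF.kf_of_inv`, `kf (b g) m (g n) = e(b g x/(g n)) = e(b x / n)`, and as `m x ≡ 1 (mod n)` also
`kf b m n = e(b x/n)`.  (ii) Let `(g m) x ≡ 1 (mod n)`.  Then `kf (b g) (g m) n = e(b g x/n)` and
`m (g x) ≡ 1 (mod n)` gives `kf b m n = e(b (g x)/n)`. -/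
def St_KS : Prop :=
  (∀ (b : ℤ) (m g n : ℕ), 0 < g → 0 < n → Nat.Coprime m (g * n) →
    kf (b * g) (m : ℤ) (g * n) = kf b (m : ℤ) n) ∧
  (∀ (b : ℤ) (m g n : ℕ), 0 < n → Nat.Coprime (g * m) n →
    kf (b * g) ((g * m : ℕ) : ℤ) n = kf b (m : ℤ) n)

/-- **TU** (file `Tu.lean`, theorem `TU (hKS : St_KS) : St_TU`; import `KF.Tri`, which has the
theorem `KF.tri`: the same bound for `m, n ∈ (M, 2M+1]`, arbitrary `α, β`, weights `Wei M V`).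

Trilinear forms with Kloosterman fractions, unbalanced dyadic ranges.  Take `η, C` from `KF.tri δ`.
Put `M = 2^max i k`.

Case `i ≥ k`: `s = i - k`, `M = 2^i`.  The substitution `n' = 2^s n` maps `(2^k, 2^(k+1)]` into
`(M, 2M]`.  Apply `KF.tri` with `α' m = if m ∈ Ioc (2^i) (2^(i+1)) then α m else 0`,
`β' n' = if 2^s ∣ n' ∧ n'/2^s ∈ Ioc (2^k) (2^(k+1)) then β (n'/2^s) else 0`,
`ψ' j t = ψ j (t / 2^s)` and the integer `b * 2^s`.  `Wei M V (ψ' j)`: `t ≥ M² = 2^(2i)` iff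
`t/2^s ≥ 2^(i+k)` and `V |t-t'|/2^s/2^(i+k) = V |t - t'|/M²`.  `|b 2^s| J ≤ V 2^(i+k) 2^s = V M²`.
For `m` odd (otherwise `α m = 0`), `n` odd: `m` and `2^s n` are coprime iff `m` and `n` are, and
then `ψ' j (m n') * kf (j (b 2^s)) m n' = ψ j (m n) * kf (j b) m n` by (i) of KS (`g = 2^s`).
Hence the two triple sums agree (the sum over `n' ∈ Ioc M (2M+1)` restricted to the multiples
`2^s n`).

Case `i < k`: `s = k - i`, `M = 2^k`, `m' = 2^s m`, `α' m' = if 2^s ∣ m' ∧ m'/2^s ∈ Ioc .. then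
α (m'/2^s) else 0`, `β' n = if n ∈ Ioc (2^k) (2^(k+1)) then β n else 0`, the same `ψ'` and
integer `b 2^s`; (ii) of KS. -/
def St_TU : Prop := ∀ δ : ℝ, 0 < δ → ∃ (η C : ℝ), 0 < η ∧ 0 < C ∧ ∀ (i k J : ℕ),
    1 ≤ J → (J : ℝ) ≤ ((2 : ℝ) ^ max i k) ^ (1 / 14 - δ) →
    ∀ V : ℝ, 1 ≤ V → ∀ ψ : ℕ → ℝ → ℂ, (∀ j, WeiP ((2 : ℝ) ^ (i + k)) V (ψ j)) →
    ∀ b : ℤ, b ≠ 0 → |(b : ℝ)| * J ≤ V * (2 : ℝ) ^ (i + k) →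
    ∀ α β : ℕ → ℂ, (∀ m, ‖α m‖ ≤ 1) → (∀ n, ‖β n‖ ≤ 1) →
    (∀ m, α m ≠ 0 → Odd m) → (∀ n, β n ≠ 0 → Odd n) →
    ‖∑ m ∈ Ioc (2 ^ i) (2 ^ (i + 1)),
      ∑ n ∈ (Ioc (2 ^ k) (2 ^ (k + 1))).filter (fun n => Nat.Coprime m n),
        α m * β n * FF ψ b J n m‖ ≤ C * V ^ 2 * ((2 : ℝ) ^ max i k) ^ (2 - η)

/-- **PH** (file `Ph.lean`, theorem `PH : St_PH`; may import `KF.Kfb`).  The phase.

Proof.  Let `u` be an integer inverse of `d d'` modulo `q` and `v` an integer inverse of `q d`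
modulo `d'`.  By `KF.kf_of_inv`, `kf (-(j a)) (d d') q = e(-j a u/q)` and
`kf (j (a'-a)) (q d) d' = e(j (a'-a) v/d')`.  So it is enough (`KF.e_congr`, `KF.e_add`) that
`q d d'` divides `c - a + a u d d' - (a' - a) v q d`.  Modulo `q`: `c ≡ 0`, `a u d d' ≡ a`.  Modulo
`d`: `c ≡ a`.  Modulo `d'`: `c ≡ a'` and `v q d ≡ 1`, so the number is
`a' - a - (a' - a) = 0`.  The three moduli are pairwise coprime. -/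
def St_PH : Prop := ∀ (q d d' : ℕ), 0 < q → 0 < d → 0 < d' → Nat.Coprime q d →
    Nat.Coprime q d' → Nat.Coprime d d' → ∀ (a a' c j : ℤ), (q : ℤ) ∣ c → (d : ℤ) ∣ c - a →
    (d' : ℤ) ∣ c - a' →
    e ((j : ℝ) * c / (q * d * d')) = e ((j : ℝ) * a / (q * d * d')) *
      kf (-(j * a)) ((d * d' : ℕ) : ℤ) q * kf (j * (a' - a)) ((q * d : ℕ) : ℤ) d'

/-- **SV** (file `Sv.lean`, theorem `SV (hPH : St_PH) : St_SV`; import `KF.Poi` (`poisson_trunc`);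
`KF.Crt` (`SS_eval`) is the same argument for two moduli).

Proof.  Chinese remainder theorem: there is `c` with `q ∣ c`, `d ∣ c - a`, `d' ∣ c - a'`, and then
for every `n`: `(q ∣ n ∧ d ∣ n - a ∧ d' ∣ n - a') ↔ (q d d' : ℤ) ∣ n - c`.  Apply
`KF.poisson_trunc` with `m = q d d'` and replace `e(j c/m)` by PH. -/
def St_SV : Prop := ∃ N₀ : ℕ, ∀ N : ℕ, N₀ ≤ N → ∀ (a a' : ℤ) (q d d' : ℕ), 1 ≤ q → 1 ≤ d →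
    1 ≤ d' → Nat.Coprime q d → Nat.Coprime q d' → Nat.Coprime d d' →
    ((q : ℝ) * d * d') ≤ (N : ℝ) ^ 3 →
    ∀ J : ℕ, ((q : ℝ) * d * d') * Real.log N ≤ (J + 1) * N →
    ‖((SE N a a' q d d' : ℝ) : ℂ) - (((N : ℝ) / (q * d * d') : ℝ) : ℂ) *
      ∑ j ∈ Icc (-(J : ℤ)) J,
        ((Real.exp (-Real.pi * ((j : ℝ) * N / (q * d * d')) ^ 2) : ℝ) : ℂ) *
          (e ((j : ℝ) * a / (q * d * d')) * kf (-(j * a)) ((d * d' : ℕ) : ℤ) q *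
            kf (j * (a' - a)) ((q * d : ℕ) : ℤ) d')‖ ≤ 1 / (N : ℝ) ^ 5

/-- **PW** (file `Pw.lean`, theorem `PW : St_PW`; `KF/Err.lean` has the same estimate:
`TaskM2.wei`, `gauss_lip'`, `inv_lip`, `prod_diff`).

Proof.  `j > J` trivial.  `j ≤ J`, `s ≥ P`: the factors `P/s`, `exp(-π(jN/s)²)`, `e(σ j a/s)`,
`ω_j` have norm `≤ 1`.  Lipschitz on `[P, ∞)`: `P/s` has constant `1/P`; `exp(-π(jN/s)²)` has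
derivative `(2π x e^{-π x})/s ≤ (2/e)/P` with `x = (jN/s)²`; `e(σ j a / s)` has derivative of norm
`2π j |a|/s² ≤ 2π (J N/P)/P ≤ 8π (log N)/P`.  Total `≤ (1 + 1 + 26 log N)/P ≤ 100 log N / P`
(`log N ≥ 1` as `N ≥ 3`). -/
def St_PW : Prop := ∀ (N J : ℕ), 3 ≤ N → ∀ (a : ℤ), |(a : ℝ)| ≤ N → ∀ P : ℝ, 1 ≤ P → ∀ σ : ℤ,
    (σ = 1 ∨ σ = -1) → ∀ ω : ℕ → ℂ, (∀ j, ‖ω j‖ ≤ 1) → (J : ℝ) * N ≤ 4 * P * Real.log N →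
    ∀ j : ℕ, WeiP P (100 * Real.log N) (psB N J a P σ ω j)

/-- **BC** (file `Bc.lean`, theorem `BC (hTU : St_TU) (hPW : St_PW) : St_BC`; the same argument is
in `KF/Err2.lean`, theorem `err2_of`; `KF.kf_congr` is in `KF/Kfb.lean`).

Proof.  WLOG `θ ≥ 1/2`.  `δ > 0` with `θ (27/14 + δ) < 1`; take `η₀, C₀` from TU.  Put
`P = 2^(i+k)`, `M = 2^max i k`, `J = JB N i k`.  If `J = 0` the sum is empty.  Trivial bound (for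
`N < N₀`): each term has norm `≤ N/(q d d') ≤ N/P`, there are `≤ J 2^i 2^k` terms (the `d ∈ bx q i`
are at most `2^i`... at any rate `≤ 2^(i+1)`, and `≤ 2^k` of the `d'`), so the sum is
`≤ 2 J N ≤ 8 P log N ≤ 8 N³`.
Let `J ≥ 1`, so `4 P log N ≥ N` and `M ≥ √P ≥ (N/(4 log N))^(1/2)`.  As `J ≤ 4 P log N/N ≤
4 M² log N/N` and `M ≤ N^θ`: `M^(27/14+δ) ≤ N^(θ(27/14+δ)) ≤ N/(4 log N)` for `N ≥ N₀`, so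
`J ≤ M^(1/14-δ)`.  For `d ∈ bx q i`, `m = q d ∈ (2^i, 2^(i+1)]`, `n = d' ∈ (2^k, 2^(k+1)]`; if
`c d ≠ 0`, `c' d' ≠ 0` then `d, d'` are odd and coprime to `q`, `Nat.Coprime (q d) d' ↔
Nat.Coprime d d'`, `q d` is odd, and (`KF.kf_congr`, `d d' ≡ r r' (mod q)`)
`kf (-(σ j a)) (d d') q = kf (-(σ j a)) (r r') q =: ω_j`.  So the sum is
`(N/P) ∑_m ∑_n α_m β_n FF (psB N J a P σ ω) (σ (a'-a)) J n m` with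
`α_m = if q ∣ m then c (m/q) else 0`, `β_n = c' n` (real coefficients cast to ℂ).  TU with
`V = 100 log N` (weights: PW with `(J) N ≤ 4 P log N`; `|σ(a'-a)| J ≤ 2N J ≤ 8 P log N ≤ V P`)
gives the bound `(N/P) C₀ (100 log N)² M^(2-η₀)`, and `M² = P 2^(max - min)`.  So
`≤ 10⁴ C₀ (log N)² N 2^(max-min) M^(-η₀)` with `M^(-η₀) ≤ (4 log N/N)^(η₀/2)`; take
`η = η₀/4` (and `η ≤ 1`). -/
def St_BC : Prop := ∀ θ : ℝ, θ < 14 / 27 → ∃ (η C : ℝ), 0 < η ∧ 0 < C ∧ ∀ (N q i k : ℕ), 3 ≤ N →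
    1 ≤ q → Odd q → (2 : ℝ) ^ i ≤ (N : ℝ) ^ θ → (2 : ℝ) ^ k ≤ (N : ℝ) ^ θ →
    ∀ (a a' σ : ℤ), |(a : ℝ)| ≤ N → |(a' : ℝ)| ≤ N → a ≠ a' → (σ = 1 ∨ σ = -1) →
    ∀ c c' : ℕ → ℝ, CofO q c → CofO q c' → ∀ r r' : ℕ,
    (∀ d, c d ≠ 0 → d % q = r) → (∀ d, c' d ≠ 0 → d % q = r') →
    ‖∑ j ∈ Icc 1 (JB N i k), ∑ d ∈ bx q i,
      ∑ d' ∈ (Ioc (2 ^ k) (2 ^ (k + 1))).filter (fun d' => Nat.Coprime d d'),
        trB N a a' q σ c c' j d d'‖ ≤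
      C * (2 : ℝ) ^ (max i k - min i k) * (N : ℝ) ^ (1 - η)

/-- **BB** (file `Bb.lean`, theorem `BB (hBC : St_BC) : St_BB`).

Proof.  `c = ∑_{r < q} c_r`, `c_r d = if d % q = r then c d else 0`, the same for `c'`; `trB` is
bilinear in `(c, c')`; apply BC to each of the `q²` pairs `(r, r')`. -/
def St_BB : Prop := ∀ θ : ℝ, θ < 14 / 27 → ∃ (η C : ℝ), 0 < η ∧ 0 < C ∧ ∀ (N q i k : ℕ), 3 ≤ N →
    1 ≤ q → Odd q → (2 : ℝ) ^ i ≤ (N : ℝ) ^ θ → (2 : ℝ) ^ k ≤ (N : ℝ) ^ θ →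
    ∀ (a a' σ : ℤ), |(a : ℝ)| ≤ N → |(a' : ℝ)| ≤ N → a ≠ a' → (σ = 1 ∨ σ = -1) →
    ∀ c c' : ℕ → ℝ, CofO q c → CofO q c' →
    ‖∑ j ∈ Icc 1 (JB N i k), ∑ d ∈ bx q i,
      ∑ d' ∈ (Ioc (2 ^ k) (2 ^ (k + 1))).filter (fun d' => Nat.Coprime d d'),
        trB N a a' q σ c c' j d d'‖ ≤
      C * (q : ℝ) ^ 2 * (2 : ℝ) ^ (max i k - min i k) * (N : ℝ) ^ (1 - η)

/-- **CO** (file `Co.lean`, theorem `CO (hBB : St_BB) (hSV : St_SV) : St_CO`).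

Proof.  WLOG `θ ≥ 1/2`.  Let `θ' = (θ + 14/27)/2`, `η₁, C₁` from BB at `θ'`,
`ε₀ = min (θ' - θ) (η₁/16)` (`≤ 1/50`).  Small `N` (`N < N₀`): `0 ≤ SE ≤ ∑ W(n) ≤ 4 (N + 1)`, so the
sum is `≤ X² · 10 N ≤ 10 N³`; absorb in `C`.  Let `N ≥ N₀`.  Only `d, d'` with `c d ≠ 0`,
`c' d' ≠ 0` matter; they are odd and coprime to `q`, so `q, d, d'` are pairwise coprime and
`q d d' ≤ N³`.  For `d ∈ (D0, X]` we have `q d ≥ 2`, so there is exactly one `i` with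
`2^i < q d ≤ 2^(i+1)` (`i + 1 = Nat.clog 2 (q d)`), `2^i < q X ≤ N^(ε₀ + θ) ≤ N^θ'`, and exactly
one `k` with `d' ∈ (2^k, 2^(k+1)]`, `2^k < X`.  For such a pair `q d d' ≤ 4·2^(i+k)`, so SV applies
with `J = JB N i k`; the term `j = 0` is `N/(q d d')` (`kf 0 .. = 1`, `e 0 = 1`), hence
`SE - N/(q d d') = ∑_{1 ≤ j ≤ J} (term j + term -j) + O(N^(-5))`, and the terms `j` (`σ = 1`) and
`-j` (`σ = -1`), times `c d c' d'`, are `trB N a a' q σ c c' j d d'`.  Sum over the pairs in the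
box `(i, k)` by BB (with `c` and `c'` restricted to `(D0, X]`):
`≤ 2 C₁ q² 2^(max-min) N^(1-η₁)`.  A box that contains a pair has
`2^i < q X`, `2^(i+1) ≥ q D0`, `2^k < X`, `2^(k+1) > D0`, so
`2^(max-min) ≤ 2 q X/D0 ≤ 2 N^(2ε₀)` (if `c`, `c'` restricted to the box vanish the sum is zero).
The number of boxes is `≤ (2 + 2 log₂ N)²`.  Total
`≤ C (log N)² N^(2ε₀ + 2ε₀ + 1 - η₁) + X² N^(-5) ≤ C N^(1 - η₁/2)`. -/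
def St_CO : Prop := ∀ θ : ℝ, θ < 14 / 27 → ∃ (ε₀ η C : ℝ), 0 < ε₀ ∧ 0 < η ∧ 0 < C ∧
    ∀ (N q D0 X : ℕ), 2 ≤ N → 1 ≤ q → Odd q → (q : ℝ) ≤ (N : ℝ) ^ ε₀ → (X : ℝ) ≤ (N : ℝ) ^ θ →
    1 ≤ D0 → (X : ℝ) ≤ (N : ℝ) ^ ε₀ * D0 →
    ∀ (a a' : ℤ), |(a : ℝ)| ≤ N → |(a' : ℝ)| ≤ N → a ≠ a' →
    ∀ c c' : ℕ → ℝ, CofO q c → CofO q c' →
    |∑ d ∈ Ioc D0 X, ∑ d' ∈ (Ioc D0 X).filter (fun d' => Nat.Coprime d d'), c d * c' d' *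
      (SE N a a' q d d' - N / (q * d * d'))| ≤ C * (N : ℝ) ^ (1 - η)

/-- **SM** (file `Sm.lean`, theorem `SM (hSV : St_SV) : St_SM`).

Proof.  SV with `d' = 1` (resp. `d = 1`) and `J = 0`: `q d log N ≤ N^(9/10) log N ≤ N` for large
`N`; the only term is `j = 0`, which equals `1`. -/
def St_SM : Prop := ∃ N₀ : ℕ, ∀ N : ℕ, N₀ ≤ N → ∀ (a a' : ℤ) (q d : ℕ), 1 ≤ q → 1 ≤ d →
    Nat.Coprime q d → ((q : ℝ) * d) ≤ (N : ℝ) ^ (9 / 10 : ℝ) →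
    |SE N a a' q d 1 - N / (q * d)| ≤ 1 / (N : ℝ) ^ 5 ∧
    |SE N a a' q 1 d - N / (q * d)| ≤ 1 / (N : ℝ) ^ 5

/-- **EX** (file `Ex.lean`, theorem `EX : St_EX`; `KF/Summ.lean` has `summable_Wt`).

Proof.  `Wt N` is summable and `nuS`, `Rf` are bounded, so everything is summable.  Expand
`nuS lam z n = ∑_{q₁, q₂ ≤ z} λ λ 1_{q₁ | n} 1_{q₂ | n}`, `1_{q₁ | n} 1_{q₂ | n} = 1_{lcm | n}`, and
the product of `dl d (n - a)` and `dl d' (n - a')`; exchange the finite sums with `tsum`.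
(`1 ∣ m` always, so `1_{lcm | n} 1_{d | n - a}` sums to `SE N a a' lcm d 1`, etc.) -/
def St_EX : Prop := ∀ (N z X : ℕ), 1 ≤ N → ∀ (lam c c' : ℕ → ℝ) (a a' : ℤ),
    Summable (fun n : ℤ => Wt N n * nuS lam z n * (Rf c X a n * Rf c' X a' n)) ∧
    Summable (fun n : ℤ => Wt N n * nuS lam z n * (rf c X a n * rf c' X a' n)) ∧
    ∑' n : ℤ, Wt N n * nuS lam z n * (Rf c X a n * Rf c' X a' n) =
      ∑ q₁ ∈ Icc 1 z, ∑ q₂ ∈ Icc 1 z, lam q₁ * lam q₂ * ∑ d ∈ Icc 1 X, ∑ d' ∈ Icc 1 X,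
        c d * c' d' * (SE N a a' (Nat.lcm q₁ q₂) d d' - SE N a a' (Nat.lcm q₁ q₂) d 1 / d' -
          SE N a a' (Nat.lcm q₁ q₂) 1 d' / d + SE N a a' (Nat.lcm q₁ q₂) 1 1 / (d * d'))

/-- **RC** (file `Rc.lean`, theorem `RC : St_RC`).  Number of rough divisors.

Proof.  Let `m = n - a ≠ 0`, `y = N^ε`.  Let `m'` be the `y`-rough part of `|m|` (product of the
prime powers `p^v ∥ m` with `p > y`); every `d ∈ rd y X m` divides `m'`, and `m'` has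
`k = Ω(m') ≤ log|m|/(ε log N)` prime factors (each `> N^ε`), so at most `2^k ≤ exp(k)` divisors
(`card (divisors) ≤ 2^Ω`).  `|m| ≤ N (1 + |n|/N)`, so
`exp(k) ≤ exp(1/ε) (1 + |n|/N)^(1/(ε log N)) ≤ exp(1/ε) (1 + |n|/N)^(1/4)` if `ε log N ≥ 4`. -/
def St_RC : Prop := ∀ ε : ℝ, 0 < ε → ∃ (N₀ : ℕ) (C : ℝ), 0 < C ∧ ∀ (N X : ℕ), N₀ ≤ N →
    ∀ (a n : ℤ), |(a : ℝ)| ≤ N → n ≠ a →
    ((rd ((N : ℝ) ^ ε) X (n - a)).card : ℝ) ≤ C * (1 + |(n : ℝ)| / N) ^ (1 / 4 : ℝ)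

/-- **GS** (file `Gs.lean`, theorem `GS : St_GS`).  Gaussian sums.

Proof.  (i) `x = |n|/N`: `exp(-π x²) (1 + x) ≤ 2 exp(-π x²/4)`, as
`(1 + x) exp(-3π x²/4) ≤ 2` (`x ≤ 1` clear; `x > 1`: `1 + x ≤ 2x ≤ 2 x² ≤ 2 exp(x²)`).
(ii) write `n = r + l m` with `0 ≤ r < l`: `m ≥ 0` gives `|n| ≥ l m`, `m ≤ -1` gives
`|n| ≥ l (|m| - 1)`, so the sum is `≤ 2 ∑_{k ≥ 0} exp(-π (l k/N)²) ≤ 2 (1 + ∫_0^∞ exp(-π(lx/N)²)dx)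
= 2 + N/l`. -/
def St_GS : Prop := ∀ (N : ℕ), 1 ≤ N →
    (∀ n : ℤ, Wt N n * (1 + |(n : ℝ)| / N) ≤ 2 * Wt (2 * N) n) ∧
    ∀ (l : ℕ) (a : ℤ), 1 ≤ l →
      ∑' n : ℤ, (if (l : ℤ) ∣ n - a then Wt N n else 0) ≤ 4 * ((N : ℝ) / l + 1)

/-- **NC** (file `Nc.lean`, theorem `NC (hRC : St_RC) (hGS : St_GS) : St_NC`).  Pairs with a common
factor.

Proof.  If `ε ≥ 1` the set `roughs` is empty (`X ≤ N`).  Small `N` (`N < N₀(ε)`): every `SE` is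
`≤ ∑ W(n) ≤ 4 (N + 1)`, at most `N²` pairs.  `N ≥ N₀`: drop the condition `q | n` and exchange the
sums: the left side is `≤ ∑'_n W(n) #{(d, d') : d | n - a, d' | n - a', d, d' rough ≤ X, (d,d') > 1}`.
For `n ≠ a, a'`: if there is a pair, a prime `l > N^ε` divides `d` and `d'`, hence `n - a`, `n - a'`
and `a - a'`; the number of pairs is at most
`#rd(n-a) #rd(n-a') ≤ C² (1 + |n|/N)^(1/2) ≤ C² (1 + |n|/N)`.  So these `n` contribute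
`≤ ∑_{l | a - a', l > N^ε prime} ∑_{n ≡ a (l)} C² W_N(n) (1 + |n|/N) ≤ ∑_l 2 C² ∑_{n ≡ a (l)} W_{2N}(n)
≤ ∑_l 8 C² (2N/l + 1) ≤ C' (N^(1-ε) + 1)`, the number of these `l` being `≤ C 2^(1/4)` (RC with
`X := 2 N`, `n := a'`... each such prime `l ≤ |a - a'| ≤ 2N` is in `rd (N^ε) (2N) (a' - a)`).
`n = a`: `W ≤ 1`, `d'` runs over `rd(a - a')` (`≤ C 2^(1/4)` values) and `d` over at most `X`
values; the same for `n = a'`. -/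
def St_NC : Prop := ∀ ε : ℝ, 0 < ε → ∃ C : ℝ, 0 < C ∧ ∀ (N q X : ℕ), 2 ≤ N → 1 ≤ q → X ≤ N →
    ∀ (a a' : ℤ), |(a : ℝ)| ≤ N → |(a' : ℝ)| ≤ N → a ≠ a' →
    ∑ d ∈ roughs ((N : ℝ) ^ ε) X,
      ∑ d' ∈ (roughs ((N : ℝ) ^ ε) X).filter (fun d' => ¬ Nat.Coprime d d'),
        SE N a a' q d d' ≤ C * ((N : ℝ) ^ (1 - ε) + X)

/-- **RA** (file `Ra.lean`, theorem `RA : St_RA`).

Proof.  A rough `d ≤ N` is a product of at most `1/ε` primes in `(N^ε, N]`, so the sum is at most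
`∑_{1 ≤ k ≤ 1/ε} S^k` with `S = ∑_{N^ε < p ≤ N} 1/p`, and `S ≤ C(ε)` (Mertens; or Chebyshev's
bound `π(2x) ≤ C x/log x` in dyadic intervals: `S ≤ (2 log N + 2) C/(ε log N)`).  Alternatively
`∏_{N^ε < p ≤ N} (1 - 1/p)^(-1)`.  There are Mertens theorems in the tree (search for `mertens`). -/
def St_RA : Prop := ∀ ε : ℝ, 0 < ε → ∃ C : ℝ, 0 < C ∧ ∀ N : ℕ, 2 ≤ N →
    ∑ d ∈ roughs ((N : ℝ) ^ ε) N, 1 / (d : ℝ) ≤ C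

/-- **RB** (file `Rb.lean`, theorem `RB : St_RB`).

Proof.  If `(d, d') > 1` some prime `l > N^ε`, `l ≤ N`, divides both; for fixed `l` the sum is at
most `(∑_{d ≤ N, l | d} 1/d)² ≤ ((1 + log N)/l)²`, and `∑_{l > y} 1/l² ≤ 2/y` (`y = N^ε ≥ 1`).
Finally `(1 + log N)² N^(-ε) ≤ C N^(-ε/2)`. -/
def St_RB : Prop := ∀ ε : ℝ, 0 < ε → ∃ C : ℝ, 0 < C ∧ ∀ N : ℕ, 2 ≤ N →
    ∑ d ∈ roughs ((N : ℝ) ^ ε) N,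
      ∑ d' ∈ (roughs ((N : ℝ) ^ ε) N).filter (fun d' => ¬ Nat.Coprime d d'),
        1 / ((d : ℝ) * d') ≤ C * (N : ℝ) ^ (-(ε / 2))

/-- **RT** (file `Rt.lean`, theorem `RT : St_RT`).

Proof.  `ε ≥ 1`: empty.  A rough `d ≤ N` has at most `1/ε` prime factors, each `> y = N^ε`.
`d/φ(d) = ∏_{p | d} (1 + 1/(p-1)) ≤ (1 + 1/(y/2))^(1/ε) ≤ 1 + C/y` if `y ≥ 2`
(and if `y < 2` then `N ≤ 2^(1/ε)` is bounded and the left side is bounded), so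
`1/φ(d) - 1/d ≤ C/(y d)`, and `∑_{d ≤ N} 1/d ≤ 1 + log N`; `(1 + log N) N^(-ε) ≤ C N^(-ε/2)`. -/
def St_RT : Prop := ∀ ε : ℝ, 0 < ε → ∃ C : ℝ, 0 < C ∧ ∀ N : ℕ, 2 ≤ N →
    ∑ d ∈ roughs ((N : ℝ) ^ ε) N, (1 / (Nat.totient d : ℝ) - 1 / (d : ℝ)) ≤
      C * (N : ℝ) ^ (-(ε / 2))

/-- **PB** (file `Pb.lean`, theorem `PB (hRC : St_RC) (hRA : St_RA) : St_PB`).

Proof.  `n = a`: `rf = 0`.  Otherwise `|rf| ≤ ∑_{d ≤ X} |c d| 1_{d | n - a} + ∑ |c d|/d ≤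
#rd(n - a) + C ≤ C' (1 + |n|/N)^(1/4)` (the last factor is `≥ 1`; `roughs y X ⊆ roughs y N`). -/
def St_PB : Prop := ∀ ε : ℝ, 0 < ε → ∃ (N₀ : ℕ) (C : ℝ), 0 < C ∧ ∀ (N X : ℕ), N₀ ≤ N → X ≤ N →
    ∀ (c : ℕ → ℝ), CofR ((N : ℝ) ^ ε) X c → ∀ (a n : ℤ), |(a : ℝ)| ≤ N →
    |rf c X a n| ≤ C * (1 + |(n : ℝ)| / N) ^ (1 / 4 : ℝ)

/-- **WX** (file `Wx.lean`, theorem `WX : St_WX`): existence of the Selberg weights.  Immediate from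
`sel_weights_q` in `Pool/Agent/H376R2/TT/Selwq.lean` with `q = 2` (`2/φ(2) = 2`). -/
def St_WX : Prop := ∀ z : ℕ, 2 ≤ z → ∃ lam : ℕ → ℝ, SW z lam

/-- **GW** (file `Gw.lean`, theorem `GW (hSM : St_SM) : St_GW`).

Proof.  Expanding the square, `∑' W ν = ∑_{q₁,q₂ ≤ z} λ λ SE N 0 0 (lcm q₁ q₂) 1 1`, and SM
(`d = 1`, `lcm ≤ z² ≤ N^(1/2)`) gives `= N ∑ λ λ/lcm + O(z² N^(-5)) ≤ 2N/log z + 1 ≤ 3N/log z`. -/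
def St_GW : Prop := ∃ N₀ : ℕ, ∀ (N z : ℕ), N₀ ≤ N → 2 ≤ z → (z : ℝ) ≤ (N : ℝ) ^ (1 / 4 : ℝ) →
    ∀ lam : ℕ → ℝ, SW z lam → ∑' n : ℤ, Wt N n * nuS lam z n ≤ 3 * N / Real.log z

/-- **DI** (file `Di.lean`, theorem `DI (hPB : St_PB) (hGS : St_GS) (hGW : St_GW) : St_DI`).

Proof.  `rf² ≤ C² (1 + |n|/N)^(1/2) ≤ C² (1 + |n|/N)`, `W_N(n) (1 + |n|/N) ≤ 2 W_{2N}(n)` (GS), and
GW at `2N` (`z ≤ N^(1/4) ≤ (2N)^(1/4)`): the sum is `≤ 2 C² 3 (2N)/log z`. -/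
def St_DI : Prop := ∀ ε : ℝ, 0 < ε → ∃ (N₀ : ℕ) (C : ℝ), 0 < C ∧ ∀ (N z X : ℕ), N₀ ≤ N → X ≤ N →
    2 ≤ z → (z : ℝ) ≤ (N : ℝ) ^ (1 / 4 : ℝ) → ∀ lam : ℕ → ℝ, SW z lam →
    ∀ c : ℕ → ℝ, CofR ((N : ℝ) ^ ε) X c → ∀ a : ℤ, |(a : ℝ)| ≤ N →
    ∑' n : ℤ, Wt N n * nuS lam z n * (rf c X a n * rf c X a n) ≤ C * N / Real.log z

/-- **TT** (file `Tt.lean`, theorem
`TT (hCO : St_CO) (hSM : St_SM) (hEX : St_EX) (hNC : St_NC) (hRB : St_RB) (hPB : St_PB) : St_TT`).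

Proof.  WLOG `θ ≥ 1/2`, `ε ≤ 1`.  Let `ε₁, η₁, C₁` from CO at `θ`, and
`ε₀ = min (ε₁/2) (min (η₁/8) (min (ε/16) (1/100)))`.  Small `N` (`N < N₀`): `nuS ≤ z² ≤ N²`,
`|rf| ≤ 2X ≤ 2N`, `∑ W ≤ 4 (N+1)`: absorb in `C`.  Let `N ≥ N₀`; so `N^ε ≥ 2` and `z < N^ε`.
(1) `∑' W ν R_a R'_{a'}` by EX.  Fix `q₁, q₂` with `λ ≠ 0`, `q = lcm q₁ q₂` odd,
`q ≤ z² ≤ N^(ε₁)`, all its prime factors `≤ z < N^ε`; so every `d` with `c d ≠ 0` or `c' d ≠ 0` is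
coprime to `2q`: `CofO q c`, `CofO q c'`.  The sums over `d, d'` may be restricted to
`Ioc D0 X ∩ roughs`.
 - Pairs with `(d, d') = 1`: the bracket is `(SE q d d' - N/(qdd')) - (SE q d 1 - N/(qd))/d' -
   (SE q 1 d' - N/(qd'))/d + (SE q 1 1 - N/q)/(dd')`; the first part sums to `≤ C₁ N^(1-η₁)` (CO),
   the three others to `≤ 3 X² N^(-5) ≤ 1` (SM: `q d ≤ N^(2ε₀ + θ) ≤ N^(9/10)`).
 - Pairs with `(d, d') > 1`: `|bracket| ≤ SE q d d' + 3 (N + 1)/(d d')` (each of the others is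
   `≤ (N/(q d) + 1/N⁵)/d' ≤ (N+1)/(d d')`, as `1/N⁵ ≤ 1/d`); the sum is at most
   `C (N^(1-ε) + X) + 3 (N+1) C N^(-ε/2)` (NC, RB).
 The number of pairs `(q₁, q₂)` is `z² ≤ N^(2ε₀)`, so (1) is
 `≤ C N^(2ε₀) (N^(1-η₁) + N^(1-ε/2) + N^θ) ≤ C N^(1-η)`.
(2) `∑' W ν r_a r'_{a'} = (1) - [n = a] - [n = a']` (`a ≠ a'`); the term `n = a` is
`W(a) ν(a) R_a(a) R'_{a'}(a)`, `|R_a(a)| ≤ ∑_{d ≤ X} |1 - 1/d| ≤ X`,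
`|R'_{a'}(a)| = |rf c' X a' a| ≤ 2 C` (PB, `|a| ≤ N`), `ν(a) ≤ z²`: total `≤ C N^(2ε₀ + θ)`.
(`SW.bd`, `nuS ≤ z²`; note `0 ≤ Wt ≤ 1`.) -/
def St_TT : Prop := ∀ θ ε : ℝ, θ < 14 / 27 → 0 < ε → ∃ (ε₀ η C : ℝ), 0 < ε₀ ∧ 0 < η ∧ 0 < C ∧
    ∀ (N z D0 X : ℕ), 2 ≤ N → 1 ≤ z → (z : ℝ) ≤ (N : ℝ) ^ ε₀ → (X : ℝ) ≤ (N : ℝ) ^ θ → 1 ≤ D0 →
    (X : ℝ) ≤ (N : ℝ) ^ ε₀ * D0 → ∀ lam : ℕ → ℝ, SW z lam →
    ∀ c c' : ℕ → ℝ, CofR ((N : ℝ) ^ ε) X c → CofR ((N : ℝ) ^ ε) X c' →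
    (∀ d, c d ≠ 0 → D0 < d) → (∀ d, c' d ≠ 0 → D0 < d) →
    ∀ (a a' : ℤ), |(a : ℝ)| ≤ N → |(a' : ℝ)| ≤ N → a ≠ a' →
    |∑' n : ℤ, Wt N n * nuS lam z n * (rf c X a n * rf c' X a' n)| ≤ C * (N : ℝ) ^ (1 - η)

/-- **DU** (file `Du.lean`, theorem `DU : St_DU`; compare `KF/Dual.lean`).  Duality (Bessel).

Proof.  Let `Y_a = ∑_{p ∈ S} f p r_a(p)`.  `∑_a Y_a² = ∑_p f p (∑_a Y_a r_a(p)) ≤
(∑ f²)^(1/2) (∑_{p ∈ S} 25 w(p) (∑_a Y_a r_a(p))²)^(1/2) ≤ (25 ∑ f²)^(1/2)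
(∑'_n w(n) (∑_a Y_a r_a(n))²)^(1/2)`, and the last sum is
`∑_{a,a'} Y_a Y_{a'} ∑' w r_a r_{a'} ≤ G ∑ Y_a² + O (∑ |Y_a|)² ≤ (G + |A| O) ∑ Y_a²`.  Divide by
`∑ Y_a²`. -/
def St_DU : Prop := ∀ (w : ℤ → ℝ), (∀ n, 0 ≤ w n) → ∀ (S : Finset ℕ),
    (∀ p ∈ S, (1 : ℝ) ≤ 25 * w p) →
    ∀ (A : Finset ℤ) (r : ℤ → ℤ → ℝ) (f : ℕ → ℝ),
    (∀ a ∈ A, ∀ a' ∈ A, Summable (fun n : ℤ => w n * (r a n * r a' n))) →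
    ∀ G O : ℝ, (∀ a ∈ A, ∑' n : ℤ, w n * (r a n * r a n) ≤ G) → 0 ≤ G → 0 ≤ O →
    (∀ a ∈ A, ∀ a' ∈ A, a ≠ a' → |∑' n : ℤ, w n * (r a n * r a' n)| ≤ O) →
    ∑ a ∈ A, (∑ p ∈ S, f p * r a p) ^ 2 ≤ 25 * (∑ p ∈ S, f p ^ 2) * (G + A.card * O)

/-- **PR** (file `Pr.lean`, theorem `PR (hPB : St_PB) (hRT : St_RT) : St_PR`).  The prime side.

Proof.  Let `c d = sign (Df f N a d)` for `d ∈ T`, `0` otherwise.  Then `∑_{d ∈ T} |Df f N a d| =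
∑_{p ≤ N} f p ∑_d c_d (1_{d | p - a} - 1/φ(d)) = ∑_{p ≤ N} f p R_a(p) -
(∑_p f p) ∑_d c_d (1/φ(d) - 1/d)`; the last term is `≤ N · C N^(-ε/2)` (RT, `T ⊆ roughs .. N`).
In `∑_{p ≤ N} f p R_a(p)` the primes `p ≤ z`, `p ≠ a`, contribute `≤ z C 2^(1/4)` (PB), the prime
`p = a` (if there is one) contributes `≤ X`, and for the others `R_a(p) = r_a(p)`. -/
def St_PR : Prop := ∀ ε : ℝ, 0 < ε → ∃ (N₀ : ℕ) (C : ℝ), 0 < C ∧ ∀ (N z X : ℕ), N₀ ≤ N → X ≤ N →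
    ∀ f : ℕ → ℝ, (∀ p, |f p| ≤ 1) → ∀ a : ℤ, |(a : ℝ)| ≤ N →
    ∀ T : Finset ℕ, (∀ d ∈ T, d ≤ X ∧ Rough ((N : ℝ) ^ ε) d) →
    ∃ c : ℕ → ℝ, CofR ((N : ℝ) ^ ε) X c ∧ (∀ d, c d ≠ 0 → d ∈ T) ∧
      ∑ d ∈ T, |Df f N a d| ≤
        |∑ p ∈ (Icc 1 N).filter (fun p => p.Prime ∧ z < p), f p * rf c X a p| +
          C * (z + X + (N : ℝ) ^ (1 - ε / 2))

/-- **BK** (file `Bk.lean`, theorem
`BK (hTT : St_TT) (hDI : St_DI) (hDU : St_DU) (hPR : St_PR) (hWX : St_WX) (hGW : St_GW)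
(hEX : St_EX) : St_BK`).  One coarse block.

Proof.  WLOG `θ ≥ 1/2`.  `ε₀, η₁, C₁` from TT (`ε₀ ≤ 1/4` WLOG: a smaller `ε₀` is fine),
`z = ⌊N^ε₀⌋`.  Small `N`: `|Df| ≤ 2N`, `∑_{d ∈ T a} ≤ N`, so the left side is
`≤ |A| 4 N⁴`, absorbed in `C (N/log N)² |A| N^(-η)` with a large `C`.  Let `N ≥ N₀`: `z ≥ 2`,
`log z ≥ (ε₀/2) log N`.  `lam` from WX; `w n = Wt N n * nuS lam z n`, `S` the primes in `(z, N]`: for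
`p ∈ S` the only `q ≤ z` with `q | p` is `1`, so `ν(p) = 1`, `w(p) = exp(-π (p/N)²) ≥ exp(-π) ≥
1/25`.  For `a ∈ A` choose `c_a` from PR for `T a` and `r a n = rf (c_a) X a n`.  DU with
`G = C N/log z` (DI), `O = C₁ N^(1-η₁)` (TT), `∑_{p ∈ S} f² ≤ |S| ≤ 25 ∑' w ≤ 75 N/log z` (GW):
`∑_a Y_a² ≤ C (N/log N) (N/log N + |A| N^(1-η₁))`.  Finally `∑_{d ∈ T a} |Df| ≤ |Y_a| + E`,
`E = C (z + X + N^(1-ε/2)) ≤ C N^(1-η₂)`, and `(|Y_a| + E)² ≤ 2 Y_a² + 2 E²`; `η` small. -/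
def St_BK : Prop := ∀ θ ε : ℝ, θ < 14 / 27 → 0 < ε → ∃ (ε₀ η C : ℝ), 0 < ε₀ ∧ 0 < η ∧ 0 < C ∧
    ∀ (N D0 X : ℕ), 2 ≤ N → (X : ℝ) ≤ (N : ℝ) ^ θ → 1 ≤ D0 → (X : ℝ) ≤ (N : ℝ) ^ ε₀ * D0 →
    ∀ f : ℕ → ℝ, (∀ p, |f p| ≤ 1) → ∀ A : Finset ℤ, (∀ a ∈ A, |(a : ℝ)| ≤ N) →
    ∀ T : ℤ → Finset ℕ, (∀ a ∈ A, ∀ d ∈ T a, D0 < d ∧ d ≤ X ∧ Rough ((N : ℝ) ^ ε) d) →
    ∑ a ∈ A, (∑ d ∈ T a, |Df f N a d|) ^ 2 ≤
      C * (N / Real.log N) ^ 2 * (1 + A.card * (N : ℝ) ^ (-η))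

/-- **FI** (file `Fi.lean`, theorem `FI (hBK : St_BK) : St_FI`).  All rough moduli.

Proof.  WLOG `θ > 0`.  `ε₀, η, C` from BK; `ε₁ = ε₀/2`, `I = ⌈1/ε₁⌉`; `D_i = ⌊N^(i ε₁)⌋`
(`0 ≤ i ≤ I`), so `D_0 = 1` and `D_I ≥ N ≥ ⌊N^θ⌋`.  Every `d ∈ T a` has `1 < d ≤ N^θ`, so it lies
in exactly one `(D_i, D_{i+1}]`.  Block `i`: `D0 = D_i`, `X = min D_{i+1} ⌊N^θ⌋`; for `N ≥ N₀`
(`N^ε₁ ≥ 2`) `X ≤ N^((i+1) ε₁) ≤ N^ε₁ (2 D_i) ≤ N^ε₀ D_i`.  `(∑_i x_i)² ≤ I ∑ x_i²` and BK for each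
`i`.  Small `N` trivial as in BK. -/
def St_FI : Prop := ∀ θ ε : ℝ, θ < 14 / 27 → 0 < ε → ∃ (η C : ℝ), 0 < η ∧ 0 < C ∧
    ∀ N : ℕ, 2 ≤ N → ∀ f : ℕ → ℝ, (∀ p, |f p| ≤ 1) → ∀ A : Finset ℤ, (∀ a ∈ A, |(a : ℝ)| ≤ N) →
    ∀ T : ℤ → Finset ℕ, (∀ a ∈ A, ∀ d ∈ T a, (d : ℝ) ≤ (N : ℝ) ^ θ ∧ Rough ((N : ℝ) ^ ε) d) →
    ∑ a ∈ A, (∑ d ∈ T a, |Df f N a d|) ^ 2 ≤
      C * (N / Real.log N) ^ 2 * (1 + A.card * (N : ℝ) ^ (-η))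

/-- **FC** (file `Fc.lean`, theorem `FC (hFI : St_FI) : St_FC`).  Few exceptional residues.

Proof.  Let `η, C` from FI, `E` the exceptional set.  FI with `A = E` and
`T a = (roughs (N^ε) ⌊N^θ⌋₊).filter (fun d => IsCoprime a d)` gives
`|E| κ² (N/log N)² ≤ C (N/log N)² (1 + |E| N^(-η))`, so `|E| (κ² - C N^(-η)) ≤ C`.  With `η' = η/4`
and `κ ≥ N^(-η')`: `κ² ≥ N^(-η/2) ≥ 2 C N^(-η)` for `N ≥ N₀`, so `|E| ≤ 2 C κ^(-2)`.  For `N < N₀`: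
`|E| ≤ 2N + 1 ≤ (2 N₀ + 1) κ^(-2)` as `κ ≤ 1`. -/
def St_FC : Prop := ∀ θ ε : ℝ, θ < 14 / 27 → 0 < ε → ∃ (η C : ℝ), 0 < η ∧ 0 < C ∧
    ∀ N : ℕ, 2 ≤ N → ∀ f : ℕ → ℝ, (∀ p, |f p| ≤ 1) → ∀ κ : ℝ, (N : ℝ) ^ (-η) ≤ κ → κ ≤ 1 →
    (((Icc (-(N : ℤ)) N).filter (fun a : ℤ => κ * (N / Real.log N) <
      ∑ d ∈ (roughs ((N : ℝ) ^ ε) ⌊(N : ℝ) ^ θ⌋₊).filter (fun d : ℕ => Int.gcd a d = 1),
        |Df f N a d|)).card : ℝ) ≤ C / κ ^ 2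

/-- **FP** (file `Fp.lean`, theorem `FP (hFC : St_FC) : St_FP`).  Prime moduli, all of them up to
`N^θ`; import `KF.Bv` (`KF.bv`: Bombieri-Vinogradov, uniform in the residue classes).

Proof.  WLOG `κ ≤ 1`, `θ ≥ 1/2`.  With `f = 1`, `Df 1 N a q = π(N; q, a) - π(N)/(q-1)`.  Primes
`q ≤ N^(2/5)`, `q ∤ a`: by `KF.bv` with `δ = 2/5`, `U = 2` and the classes
`a(d) = (a mod d)` if coprime to `d`, else `1`, their sum is `≤ C N/(log N)² ≤ (κ/2) N/log N` for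
`N ≥ N₀(κ)`, for every `a`.  Primes `N^(2/5) < q ≤ N^θ`, `q ∤ a` are in
`roughs (N^(2/5)) ⌊N^θ⌋₊` and coprime to `a`: FC with `ε = 2/5`, `κ/2` in place of `κ`
(`N^(-η) ≤ κ/2` for `N ≥ N₀(κ)`).  For `N < N₀(κ)` the number of `a` is `≤ 2 N₀ + 1`. -/
def St_FP : Prop := ∀ θ κ : ℝ, θ < 14 / 27 → 0 < κ → ∃ C : ℝ, ∀ N : ℕ, 2 ≤ N →
    (((Icc (-(N : ℤ)) N).filter (fun a : ℤ => κ * (N / Real.log N) <
      ∑ q ∈ (Icc 1 ⌊(N : ℝ) ^ θ⌋₊).filter (fun q : ℕ => q.Prime ∧ ¬ (q : ℤ) ∣ a),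
        |Df (fun _ => 1) N a q|)).card : ℝ) ≤ C

end Pool.Agent.H442R2.BX
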