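import Pool.Agent.H442R2.BX.Defs
import Pool.Agent.Helper601.Mertens

/-! BX project, task RA: the sum of `1/d` over rough `d` is bounded. -/

set_option autoImplicit false

namespace Pool.Agent.H442R2.BX

open Finset
open Pool.Agent.H442R2.KF

namespace TaskRA

/-- the function `n ↦ 1/n` as a monoid homomorphism -/
noncomputable def inv : ℕ →* ℝ where
  toFun n := 1 / (n : ℝ)
  map_one' := by simp
  map_mul' a b := by
    push_cast
    rw [one_div_mul_one_div]

/-- a finite sum over numbers with all prime factors in `s` -/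
theorem sum_le_prod (s : Finset ℕ) (D : Finset ℕ) (hD : ∀ d ∈ D, d ≠ 0 ∧ ∀ p : ℕ, p.Prime → p ∣ d → p ∈ s) :
    ∑ d ∈ D, 1 / (d : ℝ) ≤ ∏ p ∈ s with p.Prime, (1 - 1 / (p : ℝ))⁻¹ := by
  have h := EulerProduct.summable_and_hasSum_factoredNumbers_prod_filter_prime_geometric (f := inv)
    (by
      intro p hp
      have h2 : (2 : ℝ) ≤ p := by exact_mod_cast hp.two_le
      change ‖1 / (p : ℝ)‖ < 1
      rw [Real.norm_eq_abs, abs_of_nonneg (by positivity), div_lt_one (by positivity)]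
      linarith) s
  have hmem : ∀ d ∈ D, d ∈ Nat.factoredNumbers s := fun d hd => by
    obtain ⟨h0, h1⟩ := hD d hd
    exact ⟨h0, fun p hp => h1 p (Nat.prime_of_mem_primeFactorsList hp)
      (Nat.dvd_of_mem_primeFactorsList hp)⟩
  let D' : Finset (Nat.factoredNumbers s) := D.attach.image (fun d => ⟨d.1, hmem d.1 d.2⟩)
  have h3 : ∑ d ∈ D', inv d ≤ ∏ p ∈ s with p.Prime, (1 - inv p)⁻¹ := by
    refine sum_le_hasSum D' (fun i _ => ?_) h.2
    change 0 ≤ 1 / ((i : ℕ) : ℝ)
    positivity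
  have h4 : ∑ d ∈ D', inv d = ∑ d ∈ D, 1 / (d : ℝ) := by
    rw [sum_image]
    · rw [← sum_attach D]
      rfl
    · intro a _ b _ hab
      exact Subtype.ext (Subtype.mk.inj hab)
  rw [h4] at h3
  exact h3

/-- the product is at most the exponential of twice the sum -/
theorem prod_le_exp (s : Finset ℕ) :
    ∏ p ∈ s with p.Prime, (1 - 1 / (p : ℝ))⁻¹ ≤ Real.exp (2 * ∑ p ∈ s with p.Prime, 1 / (p : ℝ)) := by
  rw [mul_sum, Real.exp_sum]
  refine prod_le_prod (fun p hp => ?_) fun p hp => ?_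
  · have h2 : (2 : ℝ) ≤ p := by exact_mod_cast (mem_filter.1 hp).2.two_le
    have : 1 / (p : ℝ) ≤ 1 / 2 := one_div_le_one_div_of_le (by norm_num) h2
    have : 0 < 1 - 1 / (p : ℝ) := by linarith
    positivity
  · have h2 : (2 : ℝ) ≤ p := by exact_mod_cast (mem_filter.1 hp).2.two_le
    have h3 : 1 / (p : ℝ) ≤ 1 / 2 := one_div_le_one_div_of_le (by norm_num) h2
    have h5 : 0 < 1 / (p : ℝ) := by positivity
    set x := 1 / (p : ℝ) with hx
    have h4 : (1 - x)⁻¹ ≤ 1 + 2 * x := by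
      rw [inv_le_comm₀ (by linarith) (by linarith), inv_le_iff_one_le_mul₀ (by linarith)]
      nlinarith
    have h6 := Real.add_one_le_exp (2 * x)
    linarith

open Classical in
theorem mem_roughs {y : ℝ} {X d : ℕ} : d ∈ roughs y X ↔ (1 ≤ d ∧ d ≤ X) ∧ Rough y d := by
  unfold roughs
  rw [mem_filter, mem_Icc]

end TaskRA

open TaskRA in
theorem RA : St_RA := by
  intro ε hε
  obtain ⟨C, hC⟩ := Pool.Agent.Helper601.Mertens.mertens_inv
  have hC0 : 0 ≤ C := (abs_nonneg _).trans (hC 3 le_rfl)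
  refine ⟨(4 : ℝ) ^ (1 / ε) + Real.exp (2 * (2 * C + |Real.log (ε / 2)|)), by positivity, ?_⟩
  intro N hN
  have hN2 : (2 : ℝ) ≤ N := by exact_mod_cast hN
  have hlN : 0 < Real.log N := Real.log_pos (by linarith)
  set y : ℝ := (N : ℝ) ^ ε with hy
  by_cases h4 : y < 4
  · -- small
    have h1 : (N : ℝ) ≤ (4 : ℝ) ^ (1 / ε) := by
      have h2 : (N : ℝ) = y ^ (1 / ε) := by
        rw [hy, ← Real.rpow_mul (by linarith), mul_one_div_cancel hε.ne', Real.rpow_one]
      rw [h2]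
      exact Real.rpow_le_rpow (by positivity) h4.le (by positivity)
    have h3 : ∑ d ∈ roughs y N, 1 / (d : ℝ) ≤ ∑ d ∈ Icc 1 N, (1 : ℝ) := by
      refine (sum_le_sum_of_subset_of_nonneg (fun d hd => mem_Icc.2 (mem_roughs.1 hd).1)
        fun _ _ _ => by positivity).trans ?_
      refine sum_le_sum fun d hd => ?_
      have : (1 : ℝ) ≤ d := by exact_mod_cast (mem_Icc.1 hd).1
      rw [div_le_one (by linarith)]
      exact this
    have h5 : ∑ d ∈ Icc 1 N, (1 : ℝ) = N := by simp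
    have h6 : 0 < Real.exp (2 * (2 * C + |Real.log (ε / 2)|)) := Real.exp_pos _
    linarith
  push Not at h4
  -- large
  set n0 : ℕ := ⌊y⌋₊ with hn0
  have hn04 : 4 ≤ n0 := Nat.le_floor (by exact_mod_cast h4)
  have hn0y : y < (n0 : ℝ) + 1 := Nat.lt_floor_add_one y
  have hy0 : 0 ≤ y := by linarith
  have e1 : ∑ d ∈ roughs y N, 1 / (d : ℝ) ≤
      Real.exp (2 * ∑ p ∈ (Ioc n0 N).filter Nat.Prime, 1 / (p : ℝ)) := by
    refine (sum_le_prod (Ioc n0 N) (roughs y N) ?_).trans (prod_le_exp _)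
    intro d hd
    obtain ⟨⟨h1, h2⟩, h3, h5⟩ := mem_roughs.1 hd
    refine ⟨by omega, fun p hp hpd => ?_⟩
    rw [mem_Ioc]
    exact ⟨(Nat.floor_lt hy0).2 (h5 p hp hpd), (Nat.le_of_dvd (by omega) hpd).trans h2⟩
  have e2 : ∑ p ∈ (Ioc n0 N).filter Nat.Prime, 1 / (p : ℝ) ≤ 2 * C + |Real.log (ε / 2)| := by
    by_cases h : N ≤ n0
    · rw [Ioc_eq_empty (by omega), filter_empty, sum_empty]
      positivity
    push Not at h
    have hsplit : ∑ p ∈ (Icc 1 N).filter Nat.Prime, (1 : ℝ) / p =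
        ∑ p ∈ (Icc 1 n0).filter Nat.Prime, (1 : ℝ) / p +
          ∑ p ∈ (Ioc n0 N).filter Nat.Prime, (1 : ℝ) / p := by
      rw [← sum_union]
      · refine sum_congr ?_ fun _ _ => rfl
        ext p
        simp only [mem_union, mem_filter, mem_Icc, mem_Ioc]
        constructor
        · rintro ⟨⟨h3, h4⟩, h5⟩
          by_cases h6 : p ≤ n0
          · exact Or.inl ⟨⟨h3, h6⟩, h5⟩
          · exact Or.inr ⟨⟨by omega, h4⟩, h5⟩
        · rintro (⟨⟨h3, h4⟩, h5⟩ | ⟨⟨h3, h4⟩, h5⟩)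
          · exact ⟨⟨h3, by omega⟩, h5⟩
          · exact ⟨⟨by omega, h4⟩, h5⟩
      · rw [disjoint_left]
        intro p hp hp'
        simp only [mem_filter, mem_Icc, mem_Ioc] at hp hp'
        omega
    have h1 := (abs_le.mp (hC N (by omega))).2
    have h2 := (abs_le.mp (hC n0 (by omega))).1
    have hn0' : (4 : ℝ) ≤ n0 := by exact_mod_cast hn04
    have hln : 0 < Real.log n0 := Real.log_pos (by linarith)
    have h3 : ε * Real.log N ≤ 2 * Real.log n0 := by
      have h5 : Real.log y = ε * Real.log N := by rw [hy, Real.log_rpow (by linarith)]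
      rw [← h5]
      have h6 : Real.log y ≤ Real.log ((n0 : ℝ) ^ 2) :=
        Real.log_le_log (by linarith) (by nlinarith)
      rwa [Real.log_pow, Nat.cast_ofNat] at h6
    have h7 : Real.log (ε / 2) + Real.log (Real.log N) ≤ Real.log (Real.log n0) := by
      rw [← Real.log_mul (by positivity) hlN.ne']
      exact Real.log_le_log (by positivity) (by linarith)
    have h8 := neg_abs_le (Real.log (ε / 2))
    linarith
  have e3 := Real.exp_le_exp.2 (mul_le_mul_of_nonneg_left e2 (by norm_num : (0 : ℝ) ≤ 2))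
  have e4 : (0 : ℝ) < (4 : ℝ) ^ (1 / ε) := by positivity
  linarith

end Pool.Agent.H442R2.BX
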